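import Pool.Agent.TH427.AR.Reg

/-!
Minimal normal subgroups of the multiplication group of a simple automorphic loop.
-/

set_option autoImplicit false
set_option linter.unusedSectionVars false
set_option linter.unusedVariables false

namespace Pool.Agent.TH427.AR

open Pool.Agent.H687R3.AL
open Pool.Agent.W790.LG (Hol ai ia Hol_e)
open Equiv (Perm)

variable {Q : Type} {A : AL Q}

/-- `S` normalises `K` -/
def Nrm (S K : Subgroup (Perm Q)) : Prop := ∀ g ∈ S, ∀ k ∈ K, g * k * g⁻¹ ∈ K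

/-- conjugate subgroup -/
def cjs (g : Perm Q) (K : Subgroup (Perm Q)) : Subgroup (Perm Q) where
  carrier := {n | g⁻¹ * n * g ∈ K}
  mul_mem' := by
    intro a b ha hb
    have ha' : g⁻¹ * a * g ∈ K := ha
    have hb' : g⁻¹ * b * g ∈ K := hb
    have h := mul_mem ha' hb'
    have e : g⁻¹ * a * g * (g⁻¹ * b * g) = g⁻¹ * (a * b) * g := by group
    rw [e] at h
    exact h
  one_mem' := by
    show g⁻¹ * 1 * g ∈ K
    rw [mul_one, inv_mul_cancel]
    exact one_mem K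
  inv_mem' := by
    intro a ha
    have ha' : g⁻¹ * a * g ∈ K := ha
    have h := inv_mem ha'
    have e : (g⁻¹ * a * g)⁻¹ = g⁻¹ * a⁻¹ * g := by group
    rw [e] at h
    exact h

theorem mem_cjs {g n : Perm Q} {K : Subgroup (Perm Q)} : n ∈ cjs g K ↔ g⁻¹ * n * g ∈ K := Iff.rfl

theorem conj_cjs {g k : Perm Q} {K : Subgroup (Perm Q)} (hk : k ∈ K) : g * k * g⁻¹ ∈ cjs g K := by
  rw [mem_cjs]
  have e : g⁻¹ * (g * k * g⁻¹) * g = k := by group
  rwa [e]

theorem cjs_mul (g h : Perm Q) (K : Subgroup (Perm Q)) : cjs (g * h) K = cjs g (cjs h K) := by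
  ext n
  rw [mem_cjs, mem_cjs, mem_cjs]
  have e : (g * h)⁻¹ * n * (g * h) = h⁻¹ * (g⁻¹ * n * g) * h := by group
  rw [e]

theorem cjs_one (K : Subgroup (Perm Q)) : cjs 1 K = K := by
  ext n
  rw [mem_cjs]
  simp

theorem cjs_inj {g : Perm Q} {K K' : Subgroup (Perm Q)} (h : cjs g K = cjs g K') : K = K' := by
  rw [← cjs_one K, ← cjs_one K', ← inv_mul_cancel g, cjs_mul, cjs_mul, h]

theorem cjs_ne_bot {g : Perm Q} {K : Subgroup (Perm Q)} (h : K ≠ ⊥) : cjs g K ≠ ⊥ := by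
  intro h1
  apply h
  apply cjs_inj (g := g)
  rw [h1]
  ext n
  rw [mem_cjs, Subgroup.mem_bot, Subgroup.mem_bot]
  constructor
  · rintro rfl; group
  · intro h2
    have : n = g * (g⁻¹ * n * g) * g⁻¹ := by group
    rw [this, h2]
    group

theorem cjs_eq_of_nrm {g : Perm Q} {K : Subgroup (Perm Q)} (h1 : ∀ k ∈ K, g * k * g⁻¹ ∈ K)
    (h2 : ∀ k ∈ K, g⁻¹ * k * g ∈ K) : cjs g K = K := by
  ext n
  rw [mem_cjs]
  constructor
  · intro h
    have h3 := h1 _ h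
    have e : g * (g⁻¹ * n * g) * g⁻¹ = n := by group
    rwa [e] at h3
  · exact h2 n

theorem nrm_cjs_eq {S K : Subgroup (Perm Q)} (h : Nrm S K) {g : Perm Q} (hg : g ∈ S) :
    cjs g K = K :=
  cjs_eq_of_nrm (fun k hk => h g hg k hk) (fun k hk => by
    have := h g⁻¹ (inv_mem hg) k hk
    rwa [inv_inv] at this)

theorem conj_of_cjs {g : Perm Q} {K : Subgroup (Perm Q)} (h : cjs g K = K) {k : Perm Q}
    (hk : k ∈ K) : g * k * g⁻¹ ∈ K := by
  have h1 := conj_cjs (g := g) hk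
  rwa [h] at h1

theorem nrm_inf {S K K' : Subgroup (Perm Q)} (h : Nrm S K) (h' : Nrm S K') : Nrm S (K ⊓ K') :=
  fun g hg k hk => Subgroup.mem_inf.2 ⟨h g hg k (Subgroup.mem_inf.1 hk).1,
    h' g hg k (Subgroup.mem_inf.1 hk).2⟩

theorem nrm_comm {S K K' : Subgroup (Perm Q)} (hK : K ≤ S) (hK' : K' ≤ S) (h : Nrm S K)
    (h' : Nrm S K') (hd : K ⊓ K' = ⊥) : ∀ k ∈ K, ∀ k' ∈ K', k * k' = k' * k := by
  intro k hk k' hk'
  have h1 : k * k' * k⁻¹ * k'⁻¹ ∈ K ⊓ K' := by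
    rw [Subgroup.mem_inf]
    constructor
    · have h2 := h k' (hK' hk') k⁻¹ (inv_mem hk)
      have h3 := mul_mem hk h2
      have e : k * (k' * k⁻¹ * k'⁻¹) = k * k' * k⁻¹ * k'⁻¹ := by group
      rwa [e] at h3
    · exact mul_mem (h' k (hK hk) k' hk') (inv_mem hk')
  rw [hd, Subgroup.mem_bot] at h1
  have h2 := mul_inv_eq_one.1 h1
  have h3 := mul_inv_eq_iff_eq_mul.1 h2
  exact h3

theorem nrm_cjs {S K : Subgroup (Perm Q)} {g : Perm Q} (h : Nrm S K) (hg : ∀ s ∈ S, g⁻¹ * s * g ∈ S) :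
    Nrm S (cjs g K) := by
  intro s hs k hk
  rw [mem_cjs] at hk ⊢
  have h1 := h _ (hg s hs) _ hk
  have e : g⁻¹ * s * g * (g⁻¹ * k * g) * (g⁻¹ * s * g)⁻¹ = g⁻¹ * (s * k * s⁻¹) * g := by group
  rwa [e] at h1

theorem J_Mlt {g : Perm Q} (hg : g ∈ Mlt A) : A.J * g * A.J ∈ Mlt A := by
  unfold Mlt at hg
  induction hg using Subgroup.closure_induction with
  | mem x hx =>
    rcases hx with ⟨s, rfl⟩ | ⟨s, rfl⟩
    · rw [AL.J_L_J]; exact R_Mlt _
    · rw [AL.J_R_J]; exact L_Mlt _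
  | one => rw [mul_one, AL.J_sq]; exact one_mem _
  | mul a b _ _ ha hb =>
    have h := mul_mem ha hb
    have e : A.J * a * A.J * (A.J * b * A.J) = A.J * (a * b) * A.J := by
      calc A.J * a * A.J * (A.J * b * A.J) = A.J * a * (A.J * A.J) * b * A.J := by group
        _ = _ := by rw [AL.J_sq]; group
    rwa [e] at h
  | inv a _ ha =>
    have h := inv_mem ha
    have e : (A.J * a * A.J)⁻¹ = A.J * a⁻¹ * A.J := by
      rw [mul_inv_rev, mul_inv_rev, AL.J_inv, mul_assoc]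
    rwa [e] at h

theorem JJ (g : Perm Q) : A.J * (A.J * g * A.J) * A.J = g := by
  calc A.J * (A.J * g * A.J) * A.J = (A.J * A.J) * g * (A.J * A.J) := by group
    _ = g := by rw [AL.J_sq]; group

theorem Jmul (g h : Perm Q) : A.J * (g * h) * A.J = (A.J * g * A.J) * (A.J * h * A.J) := by
  calc A.J * (g * h) * A.J = A.J * g * 1 * h * A.J := by group
    _ = A.J * g * (A.J * A.J) * h * A.J := by rw [AL.J_sq]
    _ = _ := by group

theorem Jinv (g : Perm Q) : A.J * g⁻¹ * A.J = (A.J * g * A.J)⁻¹ := by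
  rw [mul_inv_rev, mul_inv_rev, AL.J_inv, mul_assoc]

/-- commuting with `J` -/
theorem Jfix_iff {g : Perm Q} : A.J * g * A.J = g ↔ g * A.J = A.J * g := by
  constructor
  · intro h
    calc g * A.J = (A.J * g * A.J) * A.J := by rw [h]
      _ = A.J * g * (A.J * A.J) := by group
      _ = A.J * g := by rw [AL.J_sq, mul_one]
  · intro h
    rw [← h, mul_assoc, AL.J_sq, mul_one]

theorem Mlt_E {g : Perm Q} (hg : g ∈ Mlt A) (x : Q) : g * A.E x * g⁻¹ = A.E (g x) := by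
  have h : Mlt A ≤ aut A.E := by
    unfold Mlt
    rw [Subgroup.closure_le]
    rintro _ (⟨y, rfl⟩ | ⟨y, rfl⟩)
    · exact AL.L_mem_aut y
    · exact AL.R_mem_aut y
  exact h hg x

theorem E_self (x : Q) : A.E x x = x := by
  show A.L x (A.J ((A.L x)⁻¹ x)) = x
  have h : (A.L x)⁻¹ x = A.e := by
    rw [Equiv.Perm.inv_eq_iff_eq]
    exact (A.idr x).symm
  rw [h, J_e]
  exact A.idr x

theorem e_inv {g : Perm Q} (h : g A.e = A.e) : g⁻¹ A.e = A.e := by
  rw [Equiv.Perm.inv_eq_iff_eq, h]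

/-- nontrivial normal subgroups are transitive -/
theorem trans_of (hs : SimA A) {K : Subgroup (Perm Q)} (hK : K ≤ Mlt A) (hn : Nrm (Mlt A) K)
    (hne : K ≠ ⊥) (x : Q) : ∃ k ∈ K, k A.e = x := by
  rcases hs {x | ∃ k ∈ K, k A.e = x} ⟨1, one_mem _, rfl⟩ (by
    rintro _ ⟨k, hk, rfl⟩ _ ⟨l, hl, rfl⟩
    refine ⟨A.L (k A.e) * l * (A.L (k A.e))⁻¹ * k, mul_mem (hn _ (L_Mlt _) _ hl) hk, ?_⟩
    show A.L (k A.e) (l ((A.L (k A.e))⁻¹ (k A.e))) = _
    have h : (A.L (k A.e))⁻¹ (k A.e) = A.e := by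
      rw [Equiv.Perm.inv_eq_iff_eq]
      exact (A.idr _).symm
    rw [h]
    rfl) (by
    rintro g hg he _ ⟨k, hk, rfl⟩
    refine ⟨g * k * g⁻¹, hn g hg k hk, ?_⟩
    show g (k (g⁻¹ A.e)) = g (k A.e)
    rw [e_inv he]) with h | h
  · exfalso
    apply hne
    rw [eq_bot_iff]
    intro k hk
    rw [Subgroup.mem_bot]
    have hfix : ∀ l ∈ K, l A.e = A.e := by
      intro l hl
      have : l A.e ∈ {x | ∃ k ∈ K, k A.e = x} := ⟨l, hl, rfl⟩
      rw [h] at this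
      exact this
    ext y
    have h1 := hfix _ (hn (A.L y)⁻¹ (inv_mem (L_Mlt _)) k hk)
    rw [inv_inv] at h1
    have h2 : (A.L y)⁻¹ (k (A.L y A.e)) = A.e := h1
    rw [Equiv.Perm.inv_eq_iff_eq] at h2
    have h3 : A.L y A.e = y := A.idr y
    rw [h3] at h2
    exact h2
  · have : x ∈ {x | ∃ k ∈ K, k A.e = x} := by rw [h]; exact Set.mem_univ x
    exact this

/-- the centralizer of the inversion fixes `e` -/
theorem CJ_e (hs : SimA A) (hJ : A.J ≠ 1) {g : Perm Q} (hg : g ∈ Mlt A)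
    (h : g * A.J = A.J * g) : g A.e = A.e := by
  have hE : ∀ g ∈ Mlt A, g * A.J = A.J * g → A.E (g A.e) = A.J := by
    intro g hg h
    rw [← Mlt_E hg, AL.E_e, h, mul_inv_cancel_right]
  rcases hs {x | A.E x = A.J} AL.E_e (by
    intro x hx y hy
    have hx' : A.E x = A.J := hx
    have hy' : A.E y = A.J := hy
    show A.E (A.op x y) = A.J
    have h1 : A.E (A.op x y) = A.L x * A.E y * (A.L x)⁻¹ := (Mlt_E (L_Mlt x) y).symm
    rw [h1, hy']
    exact hx') (by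
    intro g hg he x hx
    have hx' : A.E x = A.J := hx
    show A.E (g x) = A.J
    rw [← Mlt_E hg, hx', AL.aut_J (inn_aut hg he), mul_inv_cancel_right]) with h1 | h1
  · have h2 : g A.e ∈ {x | A.E x = A.J} := hE g hg h
    rw [h1] at h2
    exact h2
  · exfalso
    apply hJ
    ext x
    have h2 : x ∈ {x | A.E x = A.J} := by rw [h1]; exact Set.mem_univ x
    have h3 : A.E x = A.J := h2
    rw [← h3]
    exact E_self x

/-- a minimal normal subgroup of the multiplication group -/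
structure MinN (A : AL Q) (N : Subgroup (Perm Q)) : Prop where
  le : N ≤ Mlt A
  ne : N ≠ ⊥
  nrm : Nrm (Mlt A) N
  min : ∀ K ≤ N, K ≠ ⊥ → Nrm (Mlt A) K → K = N

/-- the standing assumptions -/
structure Hyp (A : AL Q) : Prop where
  hs : SimA A
  hna : ∃ x y z, A.op (A.op x y) z ≠ A.op x (A.op y z)
  hJ : A.J ≠ 1
  hreg : ∀ N, ¬ RN A N

variable {N : Subgroup (Perm Q)}

theorem cent_one (H : Hyp A) (hN : MinN A N) {g : Perm Q} (hg : g ∈ Mlt A)
    (hc : ∀ n ∈ N, g * n = n * g) : g = 1 := by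
  let K : Subgroup (Perm Q) :=
    { carrier := {g | g ∈ Mlt A ∧ ∀ n ∈ N, g * n = n * g}
      mul_mem' := by
        rintro a b ⟨ha, ha'⟩ ⟨hb, hb'⟩
        refine ⟨mul_mem ha hb, fun n hn => ?_⟩
        rw [mul_assoc, hb' n hn, ← mul_assoc, ha' n hn, mul_assoc]
      one_mem' := ⟨one_mem _, fun n _ => by rw [one_mul, mul_one]⟩
      inv_mem' := by
        rintro a ⟨ha, ha'⟩
        refine ⟨inv_mem ha, fun n hn => ?_⟩
        rw [inv_mul_eq_iff_eq_mul, ← mul_assoc, ha' n hn, mul_inv_cancel_right] }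
  have hK : K ≤ Mlt A := fun g hg => hg.1
  have hKn : Nrm (Mlt A) K := by
    rintro g hg k ⟨hk, hk'⟩
    refine ⟨mul_mem (mul_mem hg hk) (inv_mem hg), fun n hn => ?_⟩
    have h1 := hN.nrm g⁻¹ (inv_mem hg) n hn
    rw [inv_inv] at h1
    have h2 := hk' _ h1
    calc g * k * g⁻¹ * n = g * (k * (g⁻¹ * n * g)) * g⁻¹ := by group
      _ = g * ((g⁻¹ * n * g) * k) * g⁻¹ := by rw [h2]
      _ = _ := by group
  by_contra hg1
  have hKne : K ≠ ⊥ := by
    intro h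
    apply hg1
    have : g ∈ K := ⟨hg, hc⟩
    rwa [h, Subgroup.mem_bot] at this
  refine H.hreg N ⟨hN.le, hN.nrm, trans_of H.hs hN.le hN.nrm hN.ne, ?_⟩
  intro n hn he
  ext x
  obtain ⟨k, hk, rfl⟩ := trans_of H.hs hK hKn hKne x
  have h1 := hk.2 n hn
  show n (k A.e) = k A.e
  have h2 : (n * k) A.e = (k * n) A.e := by rw [h1]
  have h3 : n (k A.e) = k (n A.e) := h2
  rw [h3, he]

theorem J_N (H : Hyp A) (hN : MinN A N) {n : Perm Q} (hn : n ∈ N) : A.J * n * A.J ∈ N := by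
  have hn' : Nrm (Mlt A) (cjs A.J N) := nrm_cjs hN.nrm (fun s hs => by
    rw [AL.J_inv]; exact J_Mlt hs)
  have hle : cjs A.J N ≤ Mlt A := by
    intro g hg
    rw [mem_cjs, AL.J_inv] at hg
    have h1 := J_Mlt (hN.le hg)
    rwa [JJ] at h1
  by_cases hd : N ⊓ cjs A.J N = ⊥
  · exfalso
    have hcomm := nrm_comm (hN.le) hle hN.nrm hn' hd
    apply cjs_ne_bot (g := A.J) hN.ne
    rw [eq_bot_iff]
    intro k hk
    rw [Subgroup.mem_bot]
    exact cent_one H hN (hle hk) (fun n hn => (hcomm n hn k hk).symm)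
  · have h1 := hN.min _ inf_le_left hd (nrm_inf hN.nrm hn')
    have h2 : n ∈ N ⊓ cjs A.J N := by rw [h1]; exact hn
    have h3 := (Subgroup.mem_inf.1 h2).2
    rwa [mem_cjs, AL.J_inv] at h3

theorem stab_ne (H : Hyp A) (hN : MinN A N) : ∃ n ∈ N, n ≠ 1 ∧ n A.e = A.e := by
  by_contra hcon
  push Not at hcon
  refine H.hreg N ⟨hN.le, hN.nrm, trans_of H.hs hN.le hN.nrm hN.ne, ?_⟩
  intro n hn he
  by_contra h1
  exact hcon n hn h1 he

end Pool.Agent.TH427.AR
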