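import Pool.Agent.TH427.AR.AS1

/-!
Step A: a minimal normal subgroup `N` of the multiplication group of a simple nonassociative
automorphic loop has no proper subgroups invariant under `N` and the inversion.
-/

set_option autoImplicit false
set_option linter.unusedSectionVars false
set_option linter.unusedVariables false

namespace Pool.Agent.TH427.AR

open Pool.Agent.H687R3.AL
open Pool.Agent.W790.LG (Hol ai ia Hol_e)
open Equiv (Perm)

variable {Q : Type} {A : AL Q} {N K : Subgroup (Perm Q)}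

/-- minimal subgroups of `N` invariant under `N` and the inversion -/
structure JM (A : AL Q) (N K : Subgroup (Perm Q)) : Prop where
  le : K ≤ N
  ne : K ≠ ⊥
  nrm : Nrm N K
  J : ∀ k ∈ K, A.J * k * A.J ∈ K
  min : ∀ K' ≤ K, K' ≠ ⊥ → Nrm N K' → (∀ k ∈ K', A.J * k * A.J ∈ K') → K' = K

/-- conjugation by inner mappings -/
theorem JM.inn (H : Hyp A) (hN : MinN A N) (h : JM A N K) {g : Perm Q} (hg : g ∈ Mlt A)
    (he : g A.e = A.e) : JM A N (cjs g K) := by
  have hcj : ∀ s ∈ N, g⁻¹ * s * g ∈ N := fun s hs => by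
    have := hN.nrm g⁻¹ (inv_mem hg) s hs
    rwa [inv_inv] at this
  have hgJ := AL.aut_J (inn_aut hg he)
  have hgJ' : g⁻¹ * A.J = A.J * g⁻¹ := by
    rw [inv_mul_eq_iff_eq_mul, ← mul_assoc, hgJ, mul_inv_cancel_right]
  have hJg : ∀ n, g⁻¹ * (A.J * n * A.J) * g = A.J * (g⁻¹ * n * g) * A.J := by
    intro n
    calc g⁻¹ * (A.J * n * A.J) * g = (g⁻¹ * A.J) * n * (A.J * g) := by group
      _ = (A.J * g⁻¹) * n * (g * A.J) := by rw [hgJ', hgJ]
      _ = _ := by group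
  refine ⟨?_, cjs_ne_bot h.ne, nrm_cjs h.nrm hcj, ?_, ?_⟩
  · intro n hn
    rw [mem_cjs] at hn
    have h1 := hN.nrm g hg _ (h.le hn)
    have e : g * (g⁻¹ * n * g) * g⁻¹ = n := by group
    rwa [e] at h1
  · intro n hn
    rw [mem_cjs] at hn ⊢
    rw [hJg]
    exact h.J _ hn
  · intro K' hle hne hnr hJ
    have h1 : cjs g⁻¹ K' = K := by
      refine h.min _ ?_ (cjs_ne_bot hne) ?_ ?_
      · intro n hn
        rw [mem_cjs, inv_inv] at hn
        have h2 := hle hn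
        rw [mem_cjs] at h2
        have e : g⁻¹ * (g * n * g⁻¹) * g = n := by group
        rwa [e] at h2
      · refine nrm_cjs hnr (fun s hs => ?_)
        rw [inv_inv]
        exact hN.nrm g hg s hs
      · intro n hn
        rw [mem_cjs, inv_inv] at hn ⊢
        have h2 := hJ _ hn
        have e : A.J * (g * n * g⁻¹) * A.J = g * (A.J * n * A.J) * g⁻¹ := by
          calc A.J * (g * n * g⁻¹) * A.J = (A.J * g) * n * (g⁻¹ * A.J) := by group
            _ = (g * A.J) * n * (A.J * g⁻¹) := by rw [hgJ', hgJ]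
            _ = _ := by group
        rwa [e] at h2
    rw [← h1, ← cjs_mul, mul_inv_cancel, cjs_one]

theorem split (H : Hyp A) (hN : MinN A N) {g : Perm Q} (hg : g ∈ Mlt A) :
    ∃ n ∈ N, ∃ h ∈ Mlt A, h A.e = A.e ∧ g = n * h := by
  obtain ⟨n, hn, he⟩ := trans_of H.hs hN.le hN.nrm hN.ne (g A.e)
  refine ⟨n, hn, n⁻¹ * g, mul_mem (inv_mem (hN.le hn)) hg, ?_, by group⟩
  show n⁻¹ (g A.e) = A.e
  rw [← he, ia]

/-- conjugation by elements of the multiplication group -/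
theorem JM.conj (H : Hyp A) (hN : MinN A N) (h : JM A N K) {g : Perm Q} (hg : g ∈ Mlt A) :
    JM A N (cjs g K) := by
  obtain ⟨n, hn, k, hk, he, rfl⟩ := split H hN hg
  have h1 := h.inn H hN hk he
  rw [cjs_mul, nrm_cjs_eq h1.nrm hn]
  exact h1

theorem JM.dis (h : JM A N K) {K' : Subgroup (Perm Q)} (h' : JM A N K') : K = K' ∨ K ⊓ K' = ⊥ := by
  by_cases hd : K ⊓ K' = ⊥
  · exact Or.inr hd
  · left
    have hJ : ∀ k ∈ K ⊓ K', A.J * k * A.J ∈ K ⊓ K' := fun k hk =>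
      Subgroup.mem_inf.2 ⟨h.J _ (Subgroup.mem_inf.1 hk).1, h'.J _ (Subgroup.mem_inf.1 hk).2⟩
    have h1 := h.min _ inf_le_left hd (nrm_inf h.nrm h'.nrm) hJ
    have h2 := h'.min _ inf_le_right hd (nrm_inf h.nrm h'.nrm) hJ
    rw [← h1]
    exact h2

theorem JM.comm (h : JM A N K) {K' : Subgroup (Perm Q)} (h' : JM A N K') (hne : K ≠ K') :
    ∀ k ∈ K, ∀ k' ∈ K', k * k' = k' * k := by
  rcases h.dis h' with h1 | h1
  · exact absurd h1 hne
  · exact nrm_comm h.le h'.le h.nrm h'.nrm h1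

/-- `N` is generated by the conjugates of `K` -/
theorem gen (hN : MinN A N) (h : K ≤ N) (hne : K ≠ ⊥) :
    N = Subgroup.closure {n | ∃ g ∈ Mlt A, g⁻¹ * n * g ∈ K} := by
  symm
  apply hN.min
  · rw [Subgroup.closure_le]
    rintro n ⟨g, hg, hn⟩
    have h1 := hN.nrm g hg _ (h hn)
    have e : g * (g⁻¹ * n * g) * g⁻¹ = n := by group
    rwa [e] at h1
  · intro hb
    apply hne
    rw [eq_bot_iff, ← hb]
    intro k hk
    refine Subgroup.subset_closure ⟨1, one_mem _, ?_⟩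
    rw [inv_one, one_mul, mul_one]
    exact hk
  · intro g hg n hn
    induction hn using Subgroup.closure_induction with
    | mem n hn =>
      obtain ⟨k, hk, hn⟩ := hn
      refine Subgroup.subset_closure ⟨g * k, mul_mem hg hk, ?_⟩
      have e : (g * k)⁻¹ * (g * n * g⁻¹) * (g * k) = k⁻¹ * n * k := by group
      rwa [e]
    | one => simp
    | mul a b _ _ ha hb =>
      have h1 := mul_mem ha hb
      have e : g * a * g⁻¹ * (g * b * g⁻¹) = g * (a * b) * g⁻¹ := by group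
      rwa [e] at h1
    | inv a _ ha =>
      have h1 := inv_mem ha
      have e : (g * a * g⁻¹)⁻¹ = g * a⁻¹ * g⁻¹ := by group
      rwa [e] at h1

/-- the centralizer of `K` in `N` -/
def CN (N K : Subgroup (Perm Q)) : Subgroup (Perm Q) where
  carrier := {c | c ∈ N ∧ ∀ k ∈ K, c * k = k * c}
  mul_mem' := by
    rintro a b ⟨ha, ha'⟩ ⟨hb, hb'⟩
    refine ⟨mul_mem ha hb, fun n hn => ?_⟩
    rw [mul_assoc, hb' n hn, ← mul_assoc, ha' n hn, mul_assoc]
  one_mem' := ⟨one_mem _, fun n _ => by rw [one_mul, mul_one]⟩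
  inv_mem' := by
    rintro a ⟨ha, ha'⟩
    refine ⟨inv_mem ha, fun n hn => ?_⟩
    rw [inv_mul_eq_iff_eq_mul, ← mul_assoc, ha' n hn, mul_inv_cancel_right]

theorem JM.le_CN (h : JM A N K) {K' : Subgroup (Perm Q)} (h' : JM A N K') (hne : K ≠ K') :
    K ≤ CN N K' := fun k hk => ⟨h.le hk, fun k' hk' => h.comm h' hne k hk k' hk'⟩

theorem JM.dec (H : Hyp A) (hN : MinN A N) (h : JM A N K) {n : Perm Q} (hn : n ∈ N) :
    ∃ k ∈ K, ∃ c ∈ CN N K, n = k * c := by
  rw [gen hN h.le h.ne] at hn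
  induction hn using Subgroup.closure_induction with
  | mem n hn =>
    obtain ⟨g, hg, hn⟩ := hn
    have h' := h.conj H hN hg
    have hn' : n ∈ cjs g K := hn
    by_cases he : cjs g K = K
    · rw [he] at hn'
      exact ⟨n, hn', 1, one_mem _, (mul_one n).symm⟩
    · exact ⟨1, one_mem _, n, h'.le_CN h he hn', (one_mul n).symm⟩
  | one => exact ⟨1, one_mem _, 1, one_mem _, (one_mul 1).symm⟩
  | mul a b _ _ ha hb =>
    obtain ⟨k, hk, c, hc, rfl⟩ := ha
    obtain ⟨k', hk', c', hc', rfl⟩ := hb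
    refine ⟨k * k', mul_mem hk hk', c * c', mul_mem hc hc', ?_⟩
    have h1 := hc.2 k' hk'
    calc k * c * (k' * c') = k * (c * k') * c' := by group
      _ = k * (k' * c) * c' := by rw [h1]
      _ = _ := by group
  | inv a _ ha =>
    obtain ⟨k, hk, c, hc, rfl⟩ := ha
    refine ⟨k⁻¹, inv_mem hk, c⁻¹, inv_mem hc, ?_⟩
    have h1 := (inv_mem hc).2 k⁻¹ (inv_mem hk)
    rw [mul_inv_rev, h1]

theorem JM.disC (H : Hyp A) (hN : MinN A N) (h : JM A N K) {z : Perm Q} (hz : z ∈ K)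
    (hz' : z ∈ CN N K) : z = 1 := by
  apply cent_one H hN (hN.le (h.le hz))
  intro n hn
  obtain ⟨k, hk, c, hc, rfl⟩ := h.dec H hN hn
  have h1 := hz'.2 k hk
  have h2 := hc.2 z hz
  calc z * (k * c) = (z * k) * c := by group
    _ = (k * z) * c := by rw [h1]
    _ = k * (z * c) := by group
    _ = k * (c * z) := by rw [h2]
    _ = _ := by group

theorem JM.JC (H : Hyp A) (hN : MinN A N) (h : JM A N K) {c : Perm Q} (hc : c ∈ CN N K) :
    A.J * c * A.J ∈ CN N K := by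
  refine ⟨J_N H hN hc.1, fun k hk => ?_⟩
  have h1 := hc.2 _ (h.J k hk)
  have h2 : A.J * (c * (A.J * k * A.J)) * A.J = A.J * ((A.J * k * A.J) * c) * A.J := by rw [h1]
  rw [Jmul c, Jmul (A.J * k * A.J), JJ] at h2
  exact h2

/-- the stabilizer of `e` in `N` splits -/
theorem JM.Hdec (H : Hyp A) (hN : MinN A N) (h : JM A N K) {k c : Perm Q} (hk : k ∈ K)
    (hc : c ∈ CN N K) (he : (k * c) A.e = A.e) : k A.e = A.e ∧ c A.e = A.e := by
  have hkM := hN.le (h.le hk)
  have hcM := hN.le hc.1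
  have h1 : A.J * (k * c) * A.J = k * c :=
    Jfix_iff.2 (AL.aut_J (inn_aut (mul_mem hkM hcM) he))
  rw [Jmul] at h1
  -- `k⁻¹ (JkJ) = c (JcJ)⁻¹`
  have h2 : k⁻¹ * (A.J * k * A.J) = c * (A.J * c * A.J)⁻¹ := by
    rw [eq_mul_inv_iff_mul_eq, mul_assoc, h1]
    group
  have h3 : k⁻¹ * (A.J * k * A.J) ∈ K := mul_mem (inv_mem hk) (h.J k hk)
  have h4 : k⁻¹ * (A.J * k * A.J) ∈ CN N K := by
    rw [h2]
    exact mul_mem hc (inv_mem (h.JC H hN hc))
  have h5 := h.disC H hN h3 h4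
  have h6 : A.J * k * A.J = k := (inv_mul_eq_one.1 h5).symm
  rw [h5] at h2
  have h7 : A.J * c * A.J = c := (mul_inv_eq_one.1 h2.symm).symm
  exact ⟨CJ_e H.hs H.hJ hkM (Jfix_iff.1 h6), CJ_e H.hs H.hJ hcM (Jfix_iff.1 h7)⟩

/-- `K` contains nontrivial inner mappings -/
theorem JM.HK (H : Hyp A) (hN : MinN A N) (h : JM A N K) : ∃ r ∈ K, r ≠ 1 ∧ r A.e = A.e := by
  by_contra hcon
  push Not at hcon
  obtain ⟨n, hn, hn1, he⟩ := stab_ne H hN
  apply hn1
  apply cent_one H hN (hN.le hn)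
  intro m hm
  rw [gen hN h.le h.ne] at hm
  induction hm using Subgroup.closure_induction with
  | mem m hm =>
    obtain ⟨g, hg, hm⟩ := hm
    have h' := h.conj H hN hg
    obtain ⟨k, hk, c, hc, rfl⟩ := h'.dec H hN hn
    have hke := (h'.Hdec H hN hk hc he).1
    -- `k = 1`
    have hk1 : k = 1 := by
      obtain ⟨n', hn', l, hl, hle, rfl⟩ := split H hN hg
      have hk' : k ∈ cjs l K := by
        rw [cjs_mul, nrm_cjs_eq (h.inn H hN hl hle).nrm hn'] at hk
        exact hk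
      by_contra hk1
      have h2 : l⁻¹ * k * l ∈ K := hk'
      refine hcon _ h2 ?_ ?_
      · intro h3
        apply hk1
        have : k = l * (l⁻¹ * k * l) * l⁻¹ := by group
        rw [this, h3]
        group
      · show l⁻¹ (k (l A.e)) = A.e
        rw [hle, hke, e_inv hle]
    rw [hk1, one_mul]
    exact hc.2 m hm
  | one => rw [mul_one, one_mul]
  | mul a b _ _ ha hb => rw [← mul_assoc, ha, mul_assoc, hb, mul_assoc]
  | inv a _ ha => rw [mul_inv_eq_iff_eq_mul, mul_assoc, ha, inv_mul_cancel_left]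

/-- translations by points of `C e` normalise `K` -/
theorem JM.LC (H : Hyp A) (hN : MinN A N) (h : JM A N K) {c : Perm Q} (hc : c ∈ CN N K) :
    cjs (A.L (c A.e)) K = K ∧ cjs (A.R (c A.e)) K = K := by
  obtain ⟨r, hr, hr1, hre⟩ := h.HK H hN
  have hfix : r (c A.e) = c A.e := by
    have h1 := hc.2 r hr
    have h2 : (c * r) A.e = (r * c) A.e := by rw [h1]
    have h3 : c (r A.e) = r (c A.e) := h2
    rw [← h3, hre]
  have hra : r ∈ A.Aut := inn_aut (hN.le (h.le hr)) hre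
  have key : ∀ T ∈ Mlt A, r * T = T * r → cjs T K = K := by
    intro T hT hrT
    rcases h.dis (h.conj H hN hT) with h1 | h1
    · exact h1.symm
    · exfalso
      apply hr1
      have h2 : r ∈ K ⊓ cjs T K := by
        rw [Subgroup.mem_inf, mem_cjs]
        refine ⟨hr, ?_⟩
        have e : T⁻¹ * r * T = r := by rw [mul_assoc, hrT]; group
        rwa [e]
      rw [h1, Subgroup.mem_bot] at h2
      exact h2
  refine ⟨key _ (L_Mlt _) ?_, key _ (R_Mlt _) ?_⟩
  · rw [AL.aut_L hra, hfix]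
  · rw [AL.aut_R hra, hfix]

/-- right translations by points of `K e` normalise `K` -/
theorem JM.RK (H : Hyp A) (hN : MinN A N) (h : JM A N K) {k : Perm Q} (hk : k ∈ K) :
    cjs (A.R (k A.e)) K = K := by
  by_contra hne
  have h3 := h.conj H hN (R_Mlt (A := A) (k A.e))
  -- `R` normalises the conjugate
  have h4 : cjs (A.R (k A.e)) (cjs (A.R (k A.e)) K) =
      cjs (A.R (k A.e)) K :=
    (h3.LC H hN (h.le_CN h3 (fun he => hne he.symm) hk)).2
  exact hne (cjs_inj h4)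

/-- the action of `R y`, `y ∈ K e`, on `C e` -/
theorem JM.Rc (H : Hyp A) (hN : MinN A N) (h : JM A N K) {k c : Perm Q} (hk : k ∈ K)
    (hc : c ∈ CN N K) :
    A.R (k A.e) * c * (A.R (k A.e))⁻¹ ∈ CN N K ∧
      (A.R (k A.e) * c * (A.R (k A.e))⁻¹) A.e = c A.e := by
  set y := k A.e with hy
  set z := c A.e with hz
  have hR := h.RK H hN hk
  have hRy : A.R y ∈ Mlt A := R_Mlt y
  set c' := A.R y * c * (A.R y)⁻¹ with hc'
  have hc'C : c' ∈ CN N K := by
    refine ⟨hN.nrm _ hRy _ hc.1, fun k' hk' => ?_⟩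
    have h1 : (A.R y)⁻¹ * k' * A.R y ∈ K := by
      rw [← hR] at hk'
      exact hk'
    have h2 := hc.2 _ h1
    calc c' * k' = A.R y * (c * ((A.R y)⁻¹ * k' * A.R y)) * (A.R y)⁻¹ := by rw [hc']; group
      _ = A.R y * (((A.R y)⁻¹ * k' * A.R y) * c) * (A.R y)⁻¹ := by rw [h2]
      _ = k' * c' := by rw [hc']; group
  refine ⟨hc'C, ?_⟩
  -- the element `k'`
  have hL : cjs (A.L z) K = K := (h.LC H hN hc).1
  set k' := A.L z * k * (A.L z)⁻¹ with hk'
  have hk'K : k' ∈ K := conj_of_cjs hL hk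
  -- two expressions for `z y`
  have e1 : A.op z y = (c' * k) A.e := by
    show A.R y (c A.e) = A.R y (c ((A.R y)⁻¹ (k A.e)))
    have : (A.R y)⁻¹ (k A.e) = A.e := by
      rw [Equiv.Perm.inv_eq_iff_eq]
      exact (A.idl y).symm
    rw [this]
  have e2 : A.op z y = (k' * c) A.e := by
    show A.L z (k A.e) = A.L z (k ((A.L z)⁻¹ (c A.e)))
    have : (A.L z)⁻¹ (c A.e) = A.e := by
      rw [Equiv.Perm.inv_eq_iff_eq]
      exact (A.idr z).symm
    rw [this]
  have e3 : ((k'⁻¹ * k) * (c⁻¹ * c')) A.e = A.e := by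
    have e4 : (k'⁻¹ * k) * (c⁻¹ * c') = (k' * c)⁻¹ * (c' * k) := by
      have h1 := hc'C.2 k hk
      have h2 := (inv_mem hc).2 (k'⁻¹ * k) (mul_mem (inv_mem hk'K) hk)
      calc (k'⁻¹ * k) * (c⁻¹ * c') = ((k'⁻¹ * k) * c⁻¹) * c' := by group
        _ = (c⁻¹ * (k'⁻¹ * k)) * c' := by rw [h2]
        _ = c⁻¹ * k'⁻¹ * (k * c') := by group
        _ = c⁻¹ * k'⁻¹ * (c' * k) := by rw [h1]
        _ = _ := by group
    rw [e4]
    show (k' * c)⁻¹ ((c' * k) A.e) = A.e
    rw [← e1, e2, ia]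
  have h5 := (h.Hdec H hN (mul_mem (inv_mem hk'K) hk) (mul_mem (inv_mem hc) hc'C) e3).2
  have h6 : c⁻¹ (c' A.e) = A.e := h5
  rw [Equiv.Perm.inv_eq_iff_eq] at h6
  exact h6

/-- left translations normalise `K` -/
theorem JM.LL (H : Hyp A) (hN : MinN A N) (h : JM A N K) (x : Q) : cjs (A.L x) K = K := by
  obtain ⟨n, hn, rfl⟩ := trans_of H.hs hN.le hN.nrm hN.ne x
  by_contra hne
  have h3 := h.conj H hN (L_Mlt (A := A) (n A.e))
  -- the conjugate fixes `x`
  have hfix : ∀ r ∈ cjs (A.L (n A.e)) K, r (n A.e) = n A.e := by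
    intro r hr
    obtain ⟨k, hk, c, hc, hkc⟩ := h.dec H hN hn
    set x := n A.e with hx
    set k2 := (A.L x)⁻¹ * r * A.L x with hk2
    have hk2K : k2 ∈ K := hr
    have hr2 : r = A.L x * k2 * (A.L x)⁻¹ := by rw [hk2]; group
    have hLe : A.L x A.e = x := A.idr x
    have hLi : (A.L x)⁻¹ x = A.e := by rw [Equiv.Perm.inv_eq_iff_eq, hLe]
    have e1 : r x = A.op x (k2 A.e) := by
      rw [hr2]
      show A.L x (k2 ((A.L x)⁻¹ x)) = _
      rw [hLi]
      rfl
    -- computation of `x y`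
    set y := k2 A.e with hy
    obtain ⟨hc1, hc2⟩ := h.Rc H hN hk2K hc
    have hRK : A.R y * k * (A.R y)⁻¹ ∈ K := conj_of_cjs (h.RK H hN hk2K) hk
    set k' := A.R y * k * (A.R y)⁻¹ with hk'
    set c' := A.R y * c * (A.R y)⁻¹ with hc'
    have e2 : A.op x y = (k' * k2 * c) A.e := by
      have h1 : A.op x y = (k' * c') y := by
        show A.R y (n A.e) = _
        have h2 : k' * c' = A.R y * n * (A.R y)⁻¹ := by rw [hkc, hk', hc']; group
        rw [h2]
        show A.R y (n A.e) = A.R y (n ((A.R y)⁻¹ y))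
        have : (A.R y)⁻¹ y = A.e := by
          rw [Equiv.Perm.inv_eq_iff_eq]
          exact (A.idl y).symm
        rw [this]
      rw [h1]
      have h3 : (k' * c') y = (k' * (c' * k2)) A.e := rfl
      have h4 := hc1.2 k2 hk2K
      rw [h3, h4]
      show k' (k2 (c' A.e)) = k' (k2 (c A.e))
      rw [hc2]
    -- so `r x = s x` with `s ∈ K`
    set s := k' * k2 * k⁻¹ with hs
    have hsK : s ∈ K := mul_mem (mul_mem hRK hk2K) (inv_mem hk)
    have e3 : r x = s x := by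
      have e5 : s * (k * c) = k' * k2 * c := by rw [hs]; group
      rw [e1, e2, ← e5, ← hkc]
      rfl
    -- `n⁻¹ s⁻¹ r n` fixes `e`
    have h5 : (n⁻¹ * s⁻¹ * n) ∈ K := by
      have := h.nrm n⁻¹ (inv_mem hn) s⁻¹ (inv_mem hsK)
      rwa [inv_inv] at this
    have h6 : (n⁻¹ * r * n) ∈ cjs (A.L x) K := by
      have := h3.nrm n⁻¹ (inv_mem hn) r hr
      rwa [inv_inv] at this
    have h7 : (n⁻¹ * r * n) ∈ CN N K := h3.le_CN h hne h6
    have h8 : ((n⁻¹ * s⁻¹ * n) * (n⁻¹ * r * n)) A.e = A.e := by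
      have e4 : (n⁻¹ * s⁻¹ * n) * (n⁻¹ * r * n) = n⁻¹ * s⁻¹ * r * n := by group
      rw [e4]
      show n⁻¹ (s⁻¹ (r (n A.e))) = A.e
      have : r (n A.e) = s (n A.e) := e3
      rw [this, ia, ia]
    have h9 := (h.Hdec H hN h5 h7 h8).2
    have h10 : n⁻¹ (r (n A.e)) = A.e := h9
    rw [Equiv.Perm.inv_eq_iff_eq] at h10
    exact h10
  -- hence it is trivial
  apply h3.ne
  rw [eq_bot_iff]
  intro r hr
  rw [Subgroup.mem_bot]
  ext y
  obtain ⟨m, hm, rfl⟩ := trans_of H.hs hN.le hN.nrm hN.ne y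
  have hmn : m * n⁻¹ ∈ N := mul_mem hm (inv_mem hn)
  have h4 := h3.nrm (m * n⁻¹)⁻¹ (inv_mem hmn) r hr
  rw [inv_inv] at h4
  have h5 := hfix _ h4
  have h6 : (m * n⁻¹)⁻¹ (r ((m * n⁻¹) (n A.e))) = n A.e := h5
  rw [Equiv.Perm.inv_eq_iff_eq] at h6
  have h7 : (m * n⁻¹) (n A.e) = m A.e := by
    show m (n⁻¹ (n A.e)) = m A.e
    rw [ia]
  rw [h7] at h6
  exact h6

/-- Step A -/
theorem JM.eq (H : Hyp A) (hN : MinN A N) (h : JM A N K) : K = N := by
  apply hN.min K h.le h.ne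
  have hle : Mlt A ≤ LM A := (Mlt_eq H.hs H.hna).1.le
  intro g hg
  have hg' := hle hg
  clear hg
  suffices hh : cjs g K = K by
    intro k hk
    exact conj_of_cjs hh hk
  unfold LM at hg'
  induction hg' using Subgroup.closure_induction with
  | mem x hx =>
    obtain ⟨s, rfl⟩ := hx
    exact h.LL H hN s
  | one => exact cjs_one K
  | mul a b _ _ ha hb => rw [cjs_mul, hb, ha]
  | inv a _ ha =>
    apply cjs_inj (g := a)
    rw [← cjs_mul, mul_inv_cancel, cjs_one, ha]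

end Pool.Agent.TH427.AR
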