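import Pool.Agent.TH427.AR.AS2

/-!
Step B: a minimal normal subgroup `N` of the multiplication group of a finite simple
nonassociative automorphic loop is simple.
-/

set_option autoImplicit false
set_option linter.unusedSectionVars false
set_option linter.unusedVariables false

namespace Pool.Agent.TH427.AR

open Pool.Agent.H687R3.AL
open Pool.Agent.W790.LG (Hol ai ia Hol_e)
open Equiv (Perm)

variable {Q : Type} {A : AL Q} {N M : Subgroup (Perm Q)}

/-- minimal elements below a given one in a finite set of subgroups -/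
theorem exists_min [Finite Q] (P : Subgroup (Perm Q) → Prop) {M : Subgroup (Perm Q)} (hM : P M) :
    ∃ K ≤ M, P K ∧ ∀ K' ≤ K, P K' → K' = K := by
  classical
  have hfin : Finite (Subgroup (Perm Q)) := inferInstance
  have hwf : WellFounded ((· < ·) : Subgroup (Perm Q) → Subgroup (Perm Q) → Prop) :=
    wellFounded_lt
  obtain ⟨K, ⟨hK1, hK2⟩, hK3⟩ := hwf.has_min {K | K ≤ M ∧ P K} ⟨M, le_refl _, hM⟩
  refine ⟨K, hK1, hK2, fun K' hle hP => ?_⟩
  by_contra hne
  exact hK3 K' ⟨hle.trans hK1, hP⟩ (lt_of_le_of_ne hle hne)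

/-- nontrivial subgroups invariant under `N` and the inversion -/
theorem J_inv_eq [Finite Q] (H : Hyp A) (hN : MinN A N) (hle : M ≤ N) (hne : M ≠ ⊥)
    (hn : Nrm N M) (hJ : ∀ k ∈ M, A.J * k * A.J ∈ M) : M = N := by
  obtain ⟨K, hK1, ⟨hK2, hK3, hK4⟩, hK5⟩ := exists_min
    (fun K => K ≠ ⊥ ∧ Nrm N K ∧ ∀ k ∈ K, A.J * k * A.J ∈ K) (M := M) ⟨hne, hn, hJ⟩
  have h : JM A N K := ⟨hK1.trans hle, hK2, hK3, hK4, fun K' h1 h2 h3 h4 => hK5 K' h1 ⟨h2, h3, h4⟩⟩
  have h1 := h.eq H hN
  apply le_antisymm hle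
  rw [← h1]
  exact hK1

/-- minimal normal subgroups of `N` -/
structure NM (N M : Subgroup (Perm Q)) : Prop where
  le : M ≤ N
  ne : M ≠ ⊥
  nrm : Nrm N M
  min : ∀ K ≤ M, K ≠ ⊥ → Nrm N K → K = M

theorem NM.dis (h : NM N M) {K : Subgroup (Perm Q)} (hK : Nrm N K) : M ≤ K ∨ M ⊓ K = ⊥ := by
  by_cases hd : M ⊓ K = ⊥
  · exact Or.inr hd
  · left
    have h1 := h.min _ inf_le_left hd (nrm_inf h.nrm hK)
    rw [← h1]
    exact inf_le_right

/-- the situation in which `M` is not invariant under the inversion -/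
structure Sit (A : AL Q) (N M : Subgroup (Perm Q)) : Prop where
  H : Hyp A
  hN : MinN A N
  hM : NM N M
  hd : M ⊓ cjs A.J M = ⊥
  dec : ∀ n ∈ N, ∃ a ∈ M, ∃ b ∈ M, n = a * (A.J * b * A.J)

theorem Jmem {b : Perm Q} (hb : b ∈ M) : A.J * b * A.J ∈ cjs A.J M := by
  rw [mem_cjs, AL.J_inv, JJ]
  exact hb

theorem Jnrm (H : Hyp A) (hN : MinN A N) (hn : Nrm N M) : Nrm N (cjs A.J M) :=
  nrm_cjs hn (fun s hs => by
    rw [AL.J_inv]
    exact J_N H hN hs)

theorem Jle (H : Hyp A) (hN : MinN A N) (hle : M ≤ N) : cjs A.J M ≤ N := by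
  intro g hg
  rw [mem_cjs, AL.J_inv] at hg
  have h1 := J_N H hN (hle hg)
  rwa [JJ] at h1

theorem sit_or [Finite Q] (H : Hyp A) (hN : MinN A N) (h : NM N M) : M = N ∨ Sit A N M := by
  rcases h.dis (Jnrm H hN h.nrm) with h1 | h1
  · left
    refine J_inv_eq H hN h.le h.ne h.nrm (fun k hk => ?_)
    have h2 := h1 hk
    rwa [mem_cjs, AL.J_inv] at h2
  · right
    refine ⟨H, hN, h, h1, ?_⟩
    have hc := nrm_comm h.le (Jle H hN h.le) h.nrm (Jnrm H hN h.nrm) h1
    let P : Subgroup (Perm Q) :=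
      { carrier := {n | ∃ a ∈ M, ∃ b ∈ M, n = a * (A.J * b * A.J)}
        mul_mem' := by
          rintro _ _ ⟨a, ha, b, hb, rfl⟩ ⟨c, hc', d, hd, rfl⟩
          refine ⟨a * c, mul_mem ha hc', b * d, mul_mem hb hd, ?_⟩
          have h2 := hc c hc' _ (Jmem hb)
          rw [Jmul b d]
          calc a * (A.J * b * A.J) * (c * (A.J * d * A.J))
              = a * ((A.J * b * A.J) * c) * (A.J * d * A.J) := by group
            _ = a * (c * (A.J * b * A.J)) * (A.J * d * A.J) := by rw [h2]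
            _ = _ := by group
        one_mem' := ⟨1, one_mem _, 1, one_mem _, by rw [mul_one, AL.J_sq, mul_one]⟩
        inv_mem' := by
          rintro _ ⟨a, ha, b, hb, rfl⟩
          refine ⟨a⁻¹, inv_mem ha, b⁻¹, inv_mem hb, ?_⟩
          have h2 := hc a⁻¹ (inv_mem ha) _ (Jmem (A := A) (inv_mem hb))
          rw [mul_inv_rev, h2, Jinv] }
    have hP : P = N := by
      apply J_inv_eq H hN
      · rintro _ ⟨a, ha, b, hb, rfl⟩
        exact mul_mem (h.le ha) (J_N H hN (h.le hb))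
      · intro hb
        apply h.ne
        rw [eq_bot_iff, ← hb]
        intro a ha
        refine ⟨a, ha, 1, one_mem _, ?_⟩
        rw [mul_one, AL.J_sq, mul_one]
      · rintro n hn _ ⟨a, ha, b, hb, rfl⟩
        have h2 := h.nrm n hn a ha
        have h3 := Jnrm H hN h.nrm n hn _ (Jmem (A := A) hb)
        rw [mem_cjs, AL.J_inv] at h3
        refine ⟨n * a * n⁻¹, h2, _, h3, ?_⟩
        rw [JJ]
        group
      · rintro _ ⟨a, ha, b, hb, rfl⟩
        refine ⟨b, hb, a, ha, ?_⟩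
        rw [Jmul, JJ]
        exact (hc b hb _ (Jmem ha)).symm
    intro n hn
    rw [← hP] at hn
    exact hn

theorem Sit.comm (h : Sit A N M) {a b : Perm Q} (ha : a ∈ M) (hb : b ∈ M) :
    a * (A.J * b * A.J) = (A.J * b * A.J) * a :=
  nrm_comm h.hM.le (Jle h.H h.hN h.hM.le) h.hM.nrm (Jnrm h.H h.hN h.hM.nrm) h.hd a ha _ (Jmem hb)

theorem Sit.fix (h : Sit A N M) {a b : Perm Q} (ha : a ∈ M) (hb : b ∈ M)
    (he : (a * (A.J * b * A.J)) A.e = A.e) : a = b := by
  have h0 : a * (A.J * b * A.J) ∈ Mlt A :=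
    h.hN.le (mul_mem (h.hM.le ha) (J_N h.H h.hN (h.hM.le hb)))
  have h1 : A.J * (a * (A.J * b * A.J)) * A.J = a * (A.J * b * A.J) :=
    Jfix_iff.2 (AL.aut_J (inn_aut h0 he))
  rw [Jmul, JJ, ← h.comm hb ha] at h1
  -- b (JaJ) = a (JbJ)
  have h2 : b⁻¹ * a = A.J * (a * b⁻¹) * A.J := by
    have h3 : A.J * a * A.J = b⁻¹ * a * (A.J * b * A.J) := by
      calc A.J * a * A.J = b⁻¹ * (b * (A.J * a * A.J)) := by group
        _ = b⁻¹ * (a * (A.J * b * A.J)) := by rw [h1]
        _ = _ := by group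
    rw [Jmul, Jinv, h3]
    group
  have h3 : b⁻¹ * a ∈ M ⊓ cjs A.J M := by
    refine Subgroup.mem_inf.2 ⟨mul_mem (inv_mem hb) ha, ?_⟩
    rw [h2]
    exact Jmem (mul_mem ha (inv_mem hb))
  rw [h.hd, Subgroup.mem_bot] at h3
  exact (inv_mul_eq_one.1 h3).symm

theorem Sit.free (h : Sit A N M) {a : Perm Q} (ha : a ∈ M) (he : a A.e = A.e) : a = 1 := by
  apply h.fix ha (one_mem _)
  rw [mul_one, AL.J_sq, mul_one]
  exact he

theorem Sit.diag (h : Sit A N M) {a : Perm Q} (ha : a ∈ M) : (a * (A.J * a * A.J)) A.e = A.e := by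
  apply CJ_e h.H.hs h.H.hJ (h.hN.le (mul_mem (h.hM.le ha) (J_N h.H h.hN (h.hM.le ha))))
  apply Jfix_iff.1
  rw [Jmul, JJ, h.comm ha ha]

theorem Sit.Je (h : Sit A N M) {a : Perm Q} (ha : a ∈ M) : (A.J * a * A.J) A.e = a⁻¹ A.e := by
  have h1 := h.diag ha
  have h2 : a ((A.J * a * A.J) A.e) = A.e := h1
  rw [Equiv.Perm.eq_inv_iff_eq]
  exact h2

theorem Sit.trans (h : Sit A N M) (x : Q) : ∃ m ∈ M, m A.e = x := by
  obtain ⟨n, hn, rfl⟩ := trans_of h.H.hs h.hN.le h.hN.nrm h.hN.ne x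
  obtain ⟨a, ha, b, hb, rfl⟩ := h.dec n hn
  refine ⟨a * b⁻¹, mul_mem ha (inv_mem hb), ?_⟩
  show a (b⁻¹ A.e) = a ((A.J * b * A.J) A.e)
  rw [h.Je hb]

/-- left translations normalise `M` -/
theorem Sit.LM (h : Sit A N M) (x : Q) : cjs (A.L x) M = M := by
  obtain ⟨m, hm, rfl⟩ := h.trans x
  set x := m A.e with hx
  set k := m⁻¹ * A.L x with hk
  have hLx : A.L x = m * k := by rw [hk]; group
  have hLe : A.L x A.e = x := A.idr x
  have hke : k A.e = A.e := by
    show m⁻¹ (A.L x A.e) = A.e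
    rw [hLe, hx, ia]
  have hkM : k ∈ Mlt A := mul_mem (inv_mem (h.hN.le (h.hM.le hm))) (L_Mlt x)
  have hmM : cjs m M = M := nrm_cjs_eq h.hM.nrm (h.hM.le hm)
  have hM3 : Nrm N (cjs k M) := nrm_cjs h.hM.nrm (fun s hs => by
    have := h.hN.nrm k⁻¹ (inv_mem hkM) s hs
    rwa [inv_inv] at this)
  have hM3le : cjs k M ≤ N := by
    intro n hn
    rw [mem_cjs] at hn
    have h1 := h.hN.nrm k hkM _ (h.hM.le hn)
    have e : k * (k⁻¹ * n * k) * k⁻¹ = n := by group
    rwa [e] at h1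
  rcases h.hM.dis hM3 with h1 | h1
  · -- `M ≤ cjs k M`, hence equality by minimality
    have h2 : cjs k⁻¹ M = M := by
      apply h.hM.min
      · intro n hn
        rw [mem_cjs, inv_inv] at hn
        have h3 := h1 hn
        rw [mem_cjs] at h3
        have e : k⁻¹ * (k * n * k⁻¹) * k = n := by group
        rwa [e] at h3
      · exact cjs_ne_bot h.hM.ne
      · refine nrm_cjs h.hM.nrm (fun s hs => ?_)
        rw [inv_inv]
        exact h.hN.nrm k hkM s hs
    have h3 : cjs k M = M := by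
      conv_lhs => rw [← h2]
      rw [← cjs_mul, mul_inv_cancel, cjs_one]
    rw [hLx, cjs_mul, h3, hmM]
  · exfalso
    -- `M` and `cjs k M` commute
    have hc := nrm_comm h.hM.le hM3le h.hM.nrm hM3 h1
    have hr : k * m * k⁻¹ ∈ cjs k M := conj_cjs hm
    obtain ⟨a, ha, b, hb, hab⟩ := h.dec _ (hM3le hr)
    have ha1 : a = 1 := by
      apply cent_one h.H h.hN (h.hN.le (h.hM.le ha))
      intro n hn
      obtain ⟨c, hc', d, hd, rfl⟩ := h.dec n hn
      -- `a` commutes with `M`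
      have h2 : a * c = c * a := by
        have h3 := hc c hc' _ hr
        rw [hab] at h3
        have h4 := h.comm hc' hb
        have h5 : c * a * (A.J * b * A.J) = a * c * (A.J * b * A.J) := by
          calc c * a * (A.J * b * A.J) = c * (a * (A.J * b * A.J)) := by group
            _ = a * ((A.J * b * A.J) * c) := by rw [h3]; group
            _ = a * (c * (A.J * b * A.J)) := by rw [h4]
            _ = _ := by group
        exact (mul_right_cancel h5).symm
      have h3 := h.comm ha hd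
      calc a * (c * (A.J * d * A.J)) = (a * c) * (A.J * d * A.J) := by group
        _ = c * (a * (A.J * d * A.J)) := by rw [h2]; group
        _ = c * ((A.J * d * A.J) * a) := by rw [h3]
        _ = _ := by group
    rw [ha1, one_mul] at hab
    -- the square of `x`
    have hk' : k⁻¹ A.e = A.e := e_inv hke
    have e1 : A.L x x = m (b⁻¹ A.e) := by
      rw [← h.Je hb, ← hab]
      show A.L x x = m (k (m (k⁻¹ A.e)))
      rw [hk', ← hx, hLx]
      rfl
    have e2 : A.L x x = m (m A.e) := by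
      have h2 : A.E x = m * A.J * m⁻¹ := by
        rw [← AL.E_e, Mlt_E (h.hN.le (h.hM.le hm))]
      have h3 : A.E x A.e = A.L x x := by
        show A.L x (A.inv (A.inv x)) = A.L x x
        rw [AL.inv_inv']
      rw [← h3, h2]
      show m (A.J (m⁻¹ A.e)) = m (m A.e)
      have h4 := h.Je (inv_mem hm)
      rw [inv_inv] at h4
      have h5 : (A.J * m⁻¹ * A.J) A.e = A.J (m⁻¹ A.e) := by
        show A.J (m⁻¹ (A.J A.e)) = _
        rw [J_e]
      rw [← h5, h4]
    have e3 : b⁻¹ A.e = m A.e := m.injective (e1.symm.trans e2)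
    have e4 : b = m⁻¹ := by
      have h2 := h.free (mul_mem hb hm) (by
        show b (m A.e) = A.e
        rw [← e3, ai])
      exact eq_inv_of_mul_eq_one_left h2
    have e5 : k x = x := by
      have h2 : k x = (k * m * k⁻¹) A.e := by
        show k x = k (m (k⁻¹ A.e))
        rw [hk']
      rw [h2, hab, h.Je hb, e4, inv_inv]
    have e6 : k * A.L x = A.L x * k := by
      have h2 := AL.aut_L (inn_aut hkM hke) x
      rw [e5] at h2
      exact h2
    have e7 : k * m * k⁻¹ = m := by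
      rw [hLx] at e6
      have h2 : k * m * k = m * k * k := by rw [← e6]; group
      have h3 := mul_right_cancel h2
      rw [h3]
      group
    rw [e7] at hr
    have e8 : m = 1 := by
      have h2 : m ∈ M ⊓ cjs k M := Subgroup.mem_inf.2 ⟨hm, hr⟩
      rwa [h1, Subgroup.mem_bot] at h2
    have e9 : k = 1 := by
      have h2 : x = A.e := by rw [hx, e8]; rfl
      rw [hk, e8, h2, AL.L_e, inv_one, one_mul]
    rw [e9, cjs_one, inf_idem] at h1
    exact h.hM.ne h1

/-- Step B -/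
theorem NM.eq [Finite Q] (H : Hyp A) (hN : MinN A N) (h : NM N M) : M = N := by
  rcases sit_or H hN h with h1 | h1
  · exact h1
  · apply hN.min M h.le h.ne
    have hle : Mlt A ≤ LM A := (Mlt_eq H.hs H.hna).1.le
    intro g hg
    have hg' := hle hg
    clear hg
    suffices hh : cjs g M = M by
      intro k hk
      exact conj_of_cjs hh hk
    unfold Pool.Agent.TH427.AR.LM at hg'
    induction hg' using Subgroup.closure_induction with
    | mem x hx =>
      obtain ⟨s, rfl⟩ := hx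
      exact h1.LM s
    | one => exact cjs_one M
    | mul a b _ _ ha hb => rw [cjs_mul, hb, ha]
    | inv a _ ha =>
      apply cjs_inj (g := a)
      rw [← cjs_mul, mul_inv_cancel, cjs_one, ha]

/-- every nontrivial normal subgroup of `N` is `N` -/
theorem simple_N [Finite Q] (H : Hyp A) (hN : MinN A N) (hle : M ≤ N) (hne : M ≠ ⊥)
    (hn : Nrm N M) : M = N := by
  obtain ⟨K, hK1, ⟨hK2, hK3⟩, hK5⟩ := exists_min
    (fun K => K ≠ ⊥ ∧ Nrm N K) (M := M) ⟨hne, hn⟩
  have h : NM N K := ⟨hK1.trans hle, hK2, hK3, fun K' h1 h2 h3 => hK5 K' h1 ⟨h2, h3⟩⟩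
  have h1 := h.eq H hN
  apply le_antisymm hle
  rw [← h1]
  exact hK1

/-- existence of minimal normal subgroups -/
theorem exists_MinN [Finite Q] (H : Hyp A) : ∃ N, MinN A N := by
  have hne : Mlt A ≠ ⊥ := by
    intro h
    obtain ⟨x, y, z, hxyz⟩ := H.hna
    have h1 : ∀ x, A.L x = 1 := fun x => by
      have := L_Mlt (A := A) x
      rwa [h, Subgroup.mem_bot] at this
    have h2 : ∀ x y, A.op x y = y := fun x y => by
      show A.L x y = y
      rw [h1]
      rfl
    apply hxyz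
    rw [h2, h2, h2]
  obtain ⟨K, hK1, ⟨hK2, hK3⟩, hK5⟩ := exists_min
    (fun K => K ≠ ⊥ ∧ Nrm (Mlt A) K) (M := Mlt A) ⟨hne, fun g hg k hk =>
      mul_mem (mul_mem hg hk) (inv_mem hg)⟩
  exact ⟨K, hK1, hK2, hK3, fun K' h1 h2 h3 => hK5 K' h1 ⟨h2, h3⟩⟩

end Pool.Agent.TH427.AR
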