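import Pool.Agent.TH427.AR.Reg2

/-!
Simple automorphic loops: statements in terms of a product and an identity element.
-/

set_option autoImplicit false
set_option linter.unusedSectionVars false

namespace Pool.Agent.TH427.AR

open Pool.Agent.W790.LG (ai ia)

/-- The only congruences of the loop are the trivial ones. -/
def IsSimpleLoop {Q : Type} (mul : Q → Q → Q) : Prop :=
  ∀ r : Q → Q → Prop, Equivalence r → (∀ a b c d, r a b → r c d → r (mul a c) (mul b d)) →
    (∀ a b, r a b → a = b) ∨ ∀ a b, r a b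

/-- The operation is associative. -/
def IsAssoc {Q : Type} (mul : Q → Q → Q) : Prop :=
  ∀ x y z, mul (mul x y) z = mul x (mul y z)

/-- The left multiplication group: generated by all left translations. -/
def LeftGroup {Q : Type} (mul : Q → Q → Q) : Subgroup (Equiv.Perm Q) :=
  Subgroup.closure {g | ∃ x, ∀ y, g y = mul x y}

/-- The right multiplication group: generated by all right translations. -/
def RightGroup {Q : Type} (mul : Q → Q → Q) : Subgroup (Equiv.Perm Q) :=
  Subgroup.closure {g | ∃ x, ∀ y, g y = mul y x}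

/-- The multiplication group: generated by all left and right translations. -/
def MultGroup {Q : Type} (mul : Q → Q → Q) : Subgroup (Equiv.Perm Q) :=
  Subgroup.closure {g | (∃ x, ∀ y, g y = mul x y) ∨ ∃ x, ∀ y, g y = mul y x}

/-- The inner mapping group: the elements of the multiplication group which fix `e`. -/
def InnGroup {Q : Type} (mul : Q → Q → Q) (e : Q) : Subgroup (Equiv.Perm Q) where
  carrier := {g | g ∈ MultGroup mul ∧ g e = e}
  mul_mem' := by
    rintro a b ⟨ha, ha'⟩ ⟨hb, hb'⟩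
    exact ⟨mul_mem ha hb, by rw [Equiv.Perm.mul_apply, hb', ha']⟩
  one_mem' := ⟨one_mem _, rfl⟩
  inv_mem' := by
    rintro a ⟨ha, ha'⟩
    exact ⟨inv_mem ha, by rw [Equiv.Perm.inv_eq_iff_eq, ha']⟩

variable {Q : Type} {mul : Q → Q → Q} {e : Q}

theorem mg_eq (h : AutLoop mul e) : MultGroup mul = Mlt (@toA Q h.toAL) := by
  unfold MultGroup Mlt
  congr 1
  ext g
  constructor
  · rintro (⟨x, hx⟩ | ⟨x, hx⟩)
    · exact Or.inl ⟨x, Equiv.ext fun y => (hx y).symm⟩
    · exact Or.inr ⟨x, Equiv.ext fun y => (hx y).symm⟩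
  · rintro (⟨x, rfl⟩ | ⟨x, rfl⟩)
    · exact Or.inl ⟨x, fun y => rfl⟩
    · exact Or.inr ⟨x, fun y => rfl⟩

theorem lg_eq (h : AutLoop mul e) : LeftGroup mul = LM (@toA Q h.toAL) := by
  unfold LeftGroup LM
  congr 1
  ext g
  constructor
  · rintro ⟨x, hx⟩
    exact ⟨x, Equiv.ext fun y => (hx y).symm⟩
  · rintro ⟨x, rfl⟩
    exact ⟨x, fun y => rfl⟩

theorem rg_eq (h : AutLoop mul e) : RightGroup mul = RM (@toA Q h.toAL) := by
  unfold RightGroup RM
  congr 1
  ext g
  constructor
  · rintro ⟨x, hx⟩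
    exact ⟨x, Equiv.ext fun y => (hx y).symm⟩
  · rintro ⟨x, rfl⟩
    exact ⟨x, fun y => rfl⟩

theorem simA_pub [Finite Q] (h : AutLoop mul e) (hs : IsSimpleLoop mul) :
    SimA (@toA Q h.toAL) :=
  @simA_of_simp Q h.toAL _ hs

theorem na_pub (h : AutLoop mul e) (hna : ¬ IsAssoc mul) :
    ∃ x y z, (@toA Q h.toAL).op ((@toA Q h.toAL).op x y) z ≠
      (@toA Q h.toAL).op x ((@toA Q h.toAL).op y z) := by
  by_contra hcon
  push Not at hcon
  exact hna hcon

end Pool.Agent.TH427.AR
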