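import Pool.Agent.TH427.AR.AS3
import Pool.Agent.TH427.AR.PubS
import Pool.Agent.H687R3.AL.Elem
import Pool.Agent.H687R3.AL.Diamond

/-!
The multiplication group of a finite simple nonassociative automorphic loop is almost simple.
-/

set_option autoImplicit false
set_option linter.unusedSectionVars false
set_option linter.unusedVariables false

namespace Pool.Agent.TH427.AR

open Pool.Agent.W790.LG (Hol ai ia Hol_e)
open Equiv (Perm)

variable {Q : Type} {mul : Q → Q → Q} {e : Q}

theorem J_ne [Finite Q] (h : AutLoop mul e) (hs : IsSimpleLoop mul) (hna : ¬ IsAssoc mul) :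
    (@toA Q h.toAL).J ≠ 1 := by
  let _ : H675HL.AL Q := h.toAL
  intro hJ
  apply hna
  have hinv : ∀ x, (toA Q).inv x = x := by
    intro x
    show (toA Q).J x = x
    rw [hJ]
    rfl
  have hexp : ∀ x, (toA Q).op x x = (toA Q).e := by
    intro x
    have h1 := Pool.Agent.H687R3.AL.AL.op_inv (A := toA Q) x
    rwa [hinv] at h1
  have hcomm : ∀ x y, (toA Q).op x y = (toA Q).op y x := by
    intro x y
    have h1 := Pool.Agent.H687R3.AL.AL.aaip (A := toA Q) x y
    rwa [hinv, hinv, hinv] at h1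
  obtain ⟨n, hn⟩ := Pool.Agent.H687R3.AL.card_exp_two Pool.Agent.H687R3.AL.taskDiamond (toA Q)
    hcomm hexp
  exact simp_pp (Q := Q) hs Nat.prime_two hn

theorem hyp_pub [Finite Q] (h : AutLoop mul e) (hs : IsSimpleLoop mul) (hna : ¬ IsAssoc mul) :
    Hyp (@toA Q h.toAL) := by
  let _ : H675HL.AL Q := h.toAL
  refine ⟨simA_pub h hs, na_pub h hna, J_ne h hs hna, fun N hN => hna ?_⟩
  exact reg_assoc (Q := Q) hs hN

/-- the multiplication group is almost simple -/
theorem almost_simple [Finite Q] (h : AutLoop mul e) (hs : IsSimpleLoop mul)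
    (hna : ¬ IsAssoc mul) :
    ∃ N : Subgroup (Perm Q), N ≤ MultGroup mul ∧
      (∀ g ∈ MultGroup mul, ∀ n ∈ N, g * n * g⁻¹ ∈ N) ∧
      IsSimpleGroup N ∧ (∃ a ∈ N, ∃ b ∈ N, a * b ≠ b * a) ∧
      (∀ g ∈ MultGroup mul, (∀ n ∈ N, g * n = n * g) → g = 1) := by
  let _ : H675HL.AL Q := h.toAL
  have H := hyp_pub h hs hna
  obtain ⟨N, hN⟩ := exists_MinN H
  rw [mg_eq h]
  have hc : ∀ g ∈ Mlt (toA Q), (∀ n ∈ N, g * n = n * g) → g = 1 :=
    fun g hg hn => cent_one H hN hg hn
  refine ⟨N, hN.le, hN.nrm, ?_, ?_, hc⟩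
  · have : Nontrivial N := by
      rw [Subgroup.nontrivial_iff_ne_bot]
      exact hN.ne
    refine ⟨fun M hM => ?_⟩
    by_cases hb : M = ⊥
    · exact Or.inl hb
    · right
      have h1 : M.map N.subtype = N := by
        apply simple_N H hN
        · rintro _ ⟨m, hm, rfl⟩
          exact m.2
        · intro h2
          apply hb
          rw [Subgroup.map_eq_bot_iff_of_injective _ N.subtype_injective] at h2
          exact h2
        · rintro n hn _ ⟨m, hm, rfl⟩
          exact ⟨⟨n, hn⟩ * m * ⟨n, hn⟩⁻¹, hM.conj_mem m hm ⟨n, hn⟩, rfl⟩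
      rw [eq_top_iff]
      rintro n -
      have h2 : (n : Perm Q) ∈ M.map N.subtype := by
        rw [h1]
        exact n.2
      obtain ⟨m, hm, hmn⟩ := h2
      have h3 : m = n := Subtype.ext hmn
      rw [← h3]
      exact hm
  · by_contra hcon
    push Not at hcon
    apply hN.ne
    rw [eq_bot_iff]
    intro g hg
    rw [Subgroup.mem_bot]
    exact hc g (hN.le hg) (fun n hn => hcon g hg n hn)

end Pool.Agent.TH427.AR
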