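import Pool.Agent.TH427.AR.Pw

/-!
Automorphic loops without elements of order `p` all of whose proper subloops have order prime
to `p`.
-/

set_option autoImplicit false
set_option linter.unusedSectionVars false
set_option linter.unusedVariables false

namespace Pool.Agent.TH427.AR

open Pool.Agent.H687R3.AL
open Pool.Agent.W790.LG (ai ia)
open Equiv (Perm)

section

variable {Q : Type} {A : AL Q} {p : ℕ}

/-- counterexamples to Cauchy's theorem without smaller counterexamples among the subloops -/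
structure Bad (A : AL Q) (p : ℕ) : Prop where
  hp : p.Prime
  dvd : p ∣ Nat.card Q
  no : ¬ Cp A p
  sub : ∀ S : Set Q, A.e ∈ S → (∀ a ∈ S, ∀ b ∈ S, A.op a b ∈ S) → S ≠ Set.univ →
    ¬ p ∣ Nat.card S

theorem Bad.odd [Finite Q] (h : Bad A p) : p ≠ 2 := by
  rintro rfl
  exact h.no (cp_two h.dvd)

/-- an element of order `p` among the powers -/
theorem ord_pow (hp : p.Prime) [Finite Q] {g : Perm Q} (hg : p ∣ orderOf g) :
    ∃ m : ℕ, g ^ m ≠ 1 ∧ (g ^ m) ^ p = 1 := by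
  obtain ⟨m, hm⟩ := hg
  have hpos := orderOf_pos g
  have hm0 : 0 < m := by
    rcases Nat.eq_zero_or_pos m with h0 | h0
    · rw [h0, mul_zero] at hm; omega
    · exact h0
  refine ⟨m, fun h1 => ?_, ?_⟩
  · have h2 := orderOf_dvd_of_pow_eq_one h1
    have h3 := Nat.le_of_dvd hm0 h2
    rw [hm] at h3
    nlinarith [hp.two_le]
  · rw [← pow_mul, mul_comm, ← hm, pow_orderOf_eq_one]

theorem fix_sub {g : Perm Q} (hg : g ∈ A.Aut) :
    A.e ∈ {x | g x = x} ∧ ∀ a ∈ {x | g x = x}, ∀ b ∈ {x | g x = x}, A.op a b ∈ {x | g x = x} := by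
  refine ⟨AL.aut_e hg, fun a ha b hb => ?_⟩
  have ha' : g a = a := ha
  have hb' : g b = b := hb
  show g (A.op a b) = A.op a b
  rw [AL.aut_apply hg, ha', hb']

theorem fix_ne {g : Perm Q} (h1 : g ≠ 1) : {x | g x = x} ≠ Set.univ := by
  intro h
  apply h1
  ext x
  have : x ∈ {x | g x = x} := by rw [h]; exact Set.mem_univ x
  exact this

/-- nontrivial inner mappings do not have order `p` -/
theorem Bad.inn_p [Finite Q] (h : Bad A p) {s : Perm Q} (hs : s ∈ Mlt A) (he : s A.e = A.e)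
    (hsp : s ^ p = 1) : s = 1 := by
  by_contra hs1
  have h1 := exists_fix h.hp hsp Set.univ (fun x _ => Set.mem_univ _)
  rw [Nat.card_congr (Equiv.Set.univ Q)] at h1
  have h2 : p ∣ Nat.card {x | x ∈ Set.univ ∧ s x = x} :=
    (Nat.modEq_zero_iff_dvd.1 (h1.symm.trans (Nat.modEq_zero_iff_dvd.2 h.dvd)))
  have e : {x | x ∈ Set.univ ∧ s x = x} = {x | s x = x} := by
    ext x
    exact ⟨fun h => h.2, fun h => ⟨trivial, h⟩⟩
  rw [e] at h2
  obtain ⟨h3, h4⟩ := fix_sub (inn_aut hs he)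
  exact h.sub _ h3 h4 (fix_ne hs1) h2

theorem Bad.inn [Finite Q] (h : Bad A p) {g : Perm Q} (hg : g ∈ Mlt A) (he : g A.e = A.e) :
    ¬ p ∣ orderOf g := by
  intro hd
  obtain ⟨m, hm1, hm2⟩ := ord_pow h.hp hd
  apply hm1
  apply h.inn_p (pow_mem hg m) _ hm2
  have h1 : g ^ m ∈ A.Aut := pow_mem (inn_aut hg he) m
  exact AL.aut_e h1

/-- elements of order `p` of the multiplication group have no fixed points -/
theorem Bad.fpf [Finite Q] (h : Bad A p) {s : Perm Q} (hs : s ∈ Mlt A) (hsp : s ^ p = 1) {x : Q}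
    (hx : s x = x) : s = 1 := by
  have hLe : A.L x A.e = x := A.idr x
  have h1 : (A.L x)⁻¹ * s * A.L x = 1 := by
    apply h.inn_p (mul_mem (mul_mem (inv_mem (L_Mlt x)) hs) (L_Mlt x))
    · show (A.L x)⁻¹ (s (A.L x A.e)) = A.e
      rw [hLe, hx, Equiv.Perm.inv_eq_iff_eq, hLe]
    · have e : ((A.L x)⁻¹ * s * A.L x) = (A.L x)⁻¹ * s * ((A.L x)⁻¹)⁻¹ := by rw [inv_inv]
      rw [e, conj_pow, hsp, mul_one, mul_inv_cancel]
  calc s = A.L x * ((A.L x)⁻¹ * s * A.L x) * (A.L x)⁻¹ := by group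
    _ = 1 := by rw [h1]; group

/-- centralizers of nontrivial inner mappings -/
theorem Bad.cen [Finite Q] (h : Bad A p) {k : Perm Q} (hk : k ∈ Mlt A) (hke : k A.e = A.e)
    (hk1 : k ≠ 1) {g : Perm Q} (hg : g ∈ Mlt A) (hgk : g * k = k * g) : ¬ p ∣ orderOf g := by
  intro hd
  obtain ⟨m, hm1, hm2⟩ := ord_pow h.hp hd
  have hc : Commute (g ^ m) k := Commute.pow_left hgk m
  obtain ⟨h3, h4⟩ := fix_sub (inn_aut hk hke)
  have h5 := h.sub _ h3 h4 (fix_ne hk1)
  have h6 := exists_fix h.hp hm2 {x | k x = x} (fun x hx => by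
    have hx' : k x = x := hx
    show k ((g ^ m) x) = (g ^ m) x
    have h7 : (g ^ m * k) x = (k * g ^ m) x := by rw [hc.eq]
    have h8 : (g ^ m) (k x) = k ((g ^ m) x) := h7
    rw [← h8, hx'])
  have h7 : Nat.card {x | x ∈ {x | k x = x} ∧ (g ^ m) x = x} ≠ 0 := by
    intro h0
    rw [h0] at h6
    exact h5 (Nat.modEq_zero_iff_dvd.1 h6)
  have h8 : Nonempty {x | x ∈ {x | k x = x} ∧ (g ^ m) x = x} := by
    by_contra hcon
    rw [not_nonempty_iff] at hcon
    exact h7 (Nat.card_of_isEmpty)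
  obtain ⟨x, hx⟩ := h8
  exact hm1 (h.fpf (pow_mem hg m) hm2 hx.2)

/-- translations have order prime to `p` -/
theorem Bad.tr [Finite Q] (h : Bad A p) {T : Perm Q} (hT : T ∈ Mlt A) {x : Q}
    (hx : ∀ n, (T ^ n) A.e = pw A x n) : ¬ p ∣ orderOf T := by
  intro hd
  obtain ⟨n, hn, he, hmin⟩ := exists_ord (A := A) x
  have hpn : ¬ p ∣ n := fun hd => h.no (cp_of_dvd h.hp hn he hmin hd)
  by_cases h1 : T ^ n = 1
  · have h2 := orderOf_dvd_of_pow_eq_one h1
    exact hpn (hd.trans h2)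
  · exact h.cen (pow_mem hT n) ((hx n).trans he) h1 hT ((Commute.refl T).pow_right n).eq hd

theorem Bad.trL [Finite Q] (h : Bad A p) (x : Q) : ¬ p ∣ orderOf (A.L x) :=
  h.tr (L_Mlt x) (x := x) (fun n => rfl)

theorem Bad.trR [Finite Q] (h : Bad A p) (x : Q) : ¬ p ∣ orderOf (A.R x) :=
  h.tr (R_Mlt x) (x := x) (fun n => R_pow_e x n)

/-- the inversion does not invert elements of order `p` -/
theorem Bad.inv [Finite Q] (h : Bad A p) {g : Perm Q} (hg : g ∈ Mlt A)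
    (hJ : A.J * g * A.J = g⁻¹) : ¬ p ∣ orderOf g := by
  intro hd
  obtain ⟨m, hm1, hm2⟩ := ord_pow h.hp hd
  set s := g ^ m with hs
  have hsM : s ∈ Mlt A := pow_mem hg m
  have hJs : A.J * s * A.J = s⁻¹ := by
    have e1 : A.J * g * A.J = A.J * g * (A.J)⁻¹ := by rw [AL.J_inv]
    have e2 : A.J * s * A.J = A.J * s * (A.J)⁻¹ := by rw [AL.J_inv]
    rw [e2, hs, ← conj_pow, ← e1, hJ, inv_pow]
  have hE : A.E (s A.e) * A.J = s * s := by
    rw [← Mlt_E hsM, AL.E_e]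
    calc s * A.J * s⁻¹ * A.J = s * (A.J * s⁻¹ * A.J) := by group
      _ = s * s := by rw [Jinv, hJs, inv_inv]
  obtain ⟨n, hn, he, hmin⟩ := exists_ord (A := A) (s A.e)
  have hpn : ¬ p ∣ n := fun hd => h.no (cp_of_dvd h.hp hn he hmin hd)
  have h1 := AL.pow_EJ (A := A) (s A.e) n
  rw [R_pow_e, he, AL.E_e, AL.J_sq, hE, ← pow_two, ← pow_mul] at h1
  have hc : Nat.Coprime p (2 * n) := by
    rw [Nat.Prime.coprime_iff_not_dvd h.hp]
    intro h2
    rcases (Nat.Prime.dvd_mul h.hp).1 h2 with h3 | h3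
    · have := (Nat.prime_dvd_prime_iff_eq h.hp Nat.prime_two).1 h3
      exact h.odd this
    · exact hpn h3
  apply hm1
  have h2 := orderOf_dvd_of_pow_eq_one h1
  have h3 := orderOf_dvd_of_pow_eq_one hm2
  have h4 := Nat.dvd_gcd h3 h2
  rw [hc.gcd_eq_one, Nat.dvd_one, orderOf_eq_one_iff] at h4
  exact h4

end

end Pool.Agent.TH427.AR
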