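import Pool.Agent.TH427.AR.Cau

/-!
Reduction of Cauchy's theorem for automorphic loops to simple loops.
-/

set_option autoImplicit false
set_option linter.unusedSectionVars false
set_option linter.unusedVariables false

namespace Pool.Agent.TH427.AR

open H675HL
open Pool.Agent.W790.LG (ai ia)
open Equiv (Perm)

theorem Bad.na {Q : Type} {A : Pool.Agent.H687R3.AL.AL Q} {p : ℕ} [Finite Q] (h : Bad A p)
    (ha : ∀ x y z, A.op (A.op x y) z = A.op x (A.op y z)) : False := by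
  have hL : ∀ x y, A.L x * A.L y = A.L (A.op x y) := by
    intro x y
    ext z
    exact (ha x y z).symm
  let H : Subgroup (Perm Q) :=
    { carrier := {g | ∃ x, A.L x = g}
      mul_mem' := by
        rintro _ _ ⟨x, rfl⟩ ⟨y, rfl⟩
        exact ⟨A.op x y, (hL x y).symm⟩
      one_mem' := ⟨A.e, Pool.Agent.H687R3.AL.AL.L_e A⟩
      inv_mem' := by
        rintro _ ⟨x, rfl⟩
        refine ⟨A.inv x, ?_⟩
        rw [eq_inv_iff_mul_eq_one, hL, Pool.Agent.H687R3.AL.AL.inv_op,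
          Pool.Agent.H687R3.AL.AL.L_e] }
  have hc : Nat.card Q = Nat.card H := by
    refine Nat.card_congr (Equiv.ofBijective (fun x => (⟨A.L x, x, rfl⟩ : H)) ⟨?_, ?_⟩)
    · intro x y hxy
      have h1 : A.L x = A.L y := congrArg Subtype.val hxy
      have h2 : A.L x A.e = A.L y A.e := by rw [h1]
      have h3 : A.L x A.e = x := A.idr x
      have h4 : A.L y A.e = y := A.idr y
      rw [← h3, ← h4, h2]
    · rintro ⟨_, x, rfl⟩
      exact ⟨x, rfl⟩
  have : Fact p.Prime := ⟨h.hp⟩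
  have hd := h.dvd
  rw [hc] at hd
  obtain ⟨⟨_, x, rfl⟩, hx⟩ := exists_prime_orderOf_dvd_card' p hd
  apply h.trL x
  rw [← hx]
  exact (Subgroup.orderOf_coe (⟨A.L x, x, rfl⟩ : H)).symm ▸ dvd_rfl

/-- `X` is a quotient of a subloop of `Q` -/
def Sect (Q X : Type) [Mul Q] [One Q] [Mul X] : Prop :=
  ∃ (T : Set Q) (f : Q → X), 1 ∈ T ∧ (∀ a ∈ T, ∀ b ∈ T, a * b ∈ T ∧ f (a * b) = f a * f b) ∧
    ∀ x, ∃ t ∈ T, f t = x

variable {Q : Type} [AL Q]

theorem sect_refl : Sect Q Q :=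
  ⟨Set.univ, id, Set.mem_univ _, fun _ _ _ _ => ⟨Set.mem_univ _, rfl⟩, fun x => ⟨x, Set.mem_univ _, rfl⟩⟩

theorem sect_trans {Y X : Type} [AL Y] [Mul X] (h : Sect Q Y) (h' : Sect Y X) : Sect Q X := by
  obtain ⟨T, f, hT1, hT, hs⟩ := h
  obtain ⟨T', f', hT1', hT', hs'⟩ := h'
  have hf1 : f 1 = 1 := by
    have h1 := (hT 1 hT1 1 hT1).2
    rw [AL.one_mul'] at h1
    apply (AL.bijL (f 1)).1
    show f 1 * f 1 = f 1 * 1
    rw [← h1, AL.mul_one']
  refine ⟨{t | t ∈ T ∧ f t ∈ T'}, fun t => f' (f t), ⟨hT1, by rw [hf1]; exact hT1'⟩, ?_, ?_⟩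
  · rintro a ⟨ha, ha'⟩ b ⟨hb, hb'⟩
    obtain ⟨h1, h2⟩ := hT a ha b hb
    obtain ⟨h3, h4⟩ := hT' _ ha' _ hb'
    refine ⟨⟨h1, by rw [h2]; exact h3⟩, ?_⟩
    show f' (f (a * b)) = f' (f a) * f' (f b)
    rw [h2, h4]
  · intro x
    obtain ⟨y, hy, rfl⟩ := hs' x
    obtain ⟨t, ht, rfl⟩ := hs y
    exact ⟨t, ⟨ht, hy⟩, rfl⟩

theorem simp_of_normal [Finite Q] (h : ∀ C : Set Q, Normal C → C = {1} ∨ C = Set.univ) : Simp Q := by
  intro r hr hm
  have hC := cong_normal (Q := Q) (K := Q) id (fun _ _ => rfl) rfl hr hm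
  rcases h _ hC with h1 | h1
  · left
    intro a b hab
    obtain ⟨c, hc⟩ := (AL.bijR b).2 a
    have hc' : c * b = a := hc
    have h2 : r c 1 := by
      apply cong_R hr hm (x := b)
      rw [hc', AL.one_mul']
      exact hab
    have h3 : c ∈ {x : Q | r (id x) 1} := h2
    rw [h1, Set.mem_singleton_iff] at h3
    rw [h3, AL.one_mul'] at hc'
    exact hc'.symm
  · right
    have h2 : ∀ a, r a 1 := by
      intro a
      have : a ∈ {x : Q | r (id x) 1} := by rw [h1]; exact Set.mem_univ a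
      exact this
    exact fun a b => hr.trans (h2 a) (hr.symm (h2 b))

theorem red {p : ℕ} (hp : p.Prime) (n : ℕ) : ∀ (Q : Type) [AL Q] [Finite Q], Nat.card Q = n →
    p ∣ Nat.card Q → ¬ Cp (toA Q) p →
    ∃ (X : Type) (_ : AL X) (_ : Finite X), Sect Q X ∧ Bad (toA X) p ∧ Simp X := by
  induction n using Nat.strong_induction_on with
  | _ n ih =>
    intro Q _ _ hn hd hno
    by_cases h1 : ∃ S : Set Q, H675HL.Sub S ∧ S ≠ Set.univ ∧ p ∣ Nat.card S
    · obtain ⟨S, hS, hSu, hpS⟩ := h1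
      have hcard : Nat.card S < n := by
        have h1 := Set.ncard_lt_ncard (Set.ssubset_univ_iff.2 hSu) (Set.toFinite _)
        rw [Set.ncard_univ, hn] at h1
        exact h1
      let i : AL S := H99.subAL S hS
      have hno' : ¬ Cp (toA S) p := fun hc =>
        hno (cp_sub (A := toA Q) (B := toA S) (fun x : S => (x : Q)) (fun x y => rfl)
          Subtype.val_injective hc)
      obtain ⟨X, iX, fX, hs, hb, hsi⟩ := ih _ hcard S rfl hpS hno'
      refine ⟨X, iX, fX, ?_, hb, hsi⟩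
      refine sect_trans (Y := S) ?_ hs
      classical
      refine ⟨S, fun q => if h : q ∈ S then ⟨q, h⟩ else ⟨1, hS.1⟩, hS.1, ?_, ?_⟩
      · intro a ha b hb
        refine ⟨hS.2 a ha b hb, ?_⟩
        apply Subtype.ext
        simp only [dif_pos ha, dif_pos hb, dif_pos (hS.2 a ha b hb)]
        rfl
      · intro x
        refine ⟨x.1, x.2, ?_⟩
        simp only [dif_pos x.2]
    · have hbad : Bad (toA Q) p := ⟨hp, hd, hno, fun S hS1 hS2 hSu hpS =>
        h1 ⟨S, ⟨hS1, hS2⟩, hSu, hpS⟩⟩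
      by_cases h2 : ∀ C : Set Q, Normal C → C = {1} ∨ C = Set.univ
      · exact ⟨Q, inferInstance, inferInstance, sect_refl, hbad, simp_of_normal h2⟩
      · push Not at h2
        obtain ⟨C, hC, hC1, hCu⟩ := h2
        have hcC : ¬ p ∣ Nat.card C := fun h => h1 ⟨C, hC.1, hCu, h⟩
        have hcq := card_q hC
        have hdq : p ∣ Nat.card (Quo.QM hC) := by
          rw [hcq] at hd
          exact ((Nat.Prime.dvd_mul hp).1 hd).resolve_left hcC
        have hlt := card_qlt hC hC1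
        rw [hn] at hlt
        have hno' : ¬ Cp (toA (Quo.QM hC)) p := fun hc =>
          hno (cp_lift (A := toA Q) (B := toA (Quo.QM hC)) (Quo.pr hC) (Quo.pr_mul hC)
            (Quo.pr_surj hC) hp hc)
        obtain ⟨X, iX, fX, hs, hb, hsi⟩ := ih _ hlt (Quo.QM hC) rfl hdq hno'
        refine ⟨X, iX, fX, ?_, hb, hsi⟩
        refine sect_trans (Y := Quo.QM hC) ?_ hs
        exact ⟨Set.univ, Quo.pr hC, Set.mem_univ _, fun a _ b _ => ⟨Set.mem_univ _, Quo.pr_mul hC a b⟩,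
          fun x => by
            obtain ⟨t, ht⟩ := Quo.pr_surj hC x
            exact ⟨t, Set.mem_univ _, ht⟩⟩

/-- the public form of a loop -/
theorem autLoop_of (X : Type) [AL X] : AutLoop (fun a b : X => a * b) 1 where
  one := fun a => ⟨AL.one_mul' a, AL.mul_one' a⟩
  ldiv := fun a b => by
    obtain ⟨x, hx⟩ := (AL.bijL a).2 b
    exact ⟨x, hx, fun y hy => (AL.bijL a).1 (hy.trans hx.symm)⟩
  rdiv := fun a b => by
    obtain ⟨x, hx⟩ := (AL.bijR a).2 b
    exact ⟨x, hx, fun y hy => (AL.bijR a).1 (hy.trans hx.symm)⟩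
  autT := by
    intro x u v z₁ z₂ z₃ h1 h2 h3
    apply (AL.bijR x).1
    show z₃ * x = z₁ * z₂ * x
    have h4 : z₃ * x = x * (u * v) := h3
    rw [h4]
    exact (AL.autT x u v z₁ z₂ h1 h2).symm
  autL := by
    intro x y u v z₁ z₂ z₃ h1 h2 h3
    apply (AL.bijL (y * x)).1
    show (y * x) * z₃ = (y * x) * (z₁ * z₂)
    have h4 : (y * x) * z₃ = y * (x * (u * v)) := h3
    rw [h4]
    exact (AL.autL y x u v z₁ z₂ h1 h2).symm
  autR := by
    intro x y u v z₁ z₂ z₃ h1 h2 h3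
    apply (AL.bijR (x * y)).1
    show z₃ * (x * y) = (z₁ * z₂) * (x * y)
    have h4 : z₃ * (x * y) = ((u * v) * x) * y := h3
    rw [h4]
    exact (AL.autR y x u v z₁ z₂ h1 h2).symm

end Pool.Agent.TH427.AR
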