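import Mathlib

/-!
Finite groups without characteristic solvable subgroups.
-/

set_option autoImplicit false

namespace Pool.Agent.TH427.AR

open scoped commutatorElement

theorem ab_normal {G : Type*} [Group G] [Finite G] (U : Subgroup G) [hU : U.Normal]
    (hs : Group.IsSolvable U) (hne : U ≠ ⊥) :
    ∃ T : Subgroup G, T.Normal ∧ T ≠ ⊥ ∧ ∀ x ∈ T, ∀ y ∈ T, x * y = y * x := by
  classical
  obtain ⟨n, hn⟩ := hs.solvable
  have hex : ∃ n, derivedSeries U n = ⊥ := ⟨n, hn⟩
  set k := Nat.find hex with hk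
  have hk1 : derivedSeries U k = ⊥ := Nat.find_spec hex
  have hk0 : k ≠ 0 := by
    intro h0
    rw [h0, derivedSeries_zero] at hk1
    apply hne
    rw [eq_bot_iff]
    intro x hx
    have h1 : (⟨x, hx⟩ : U) ∈ (⊤ : Subgroup U) := Subgroup.mem_top _
    rw [hk1, Subgroup.mem_bot] at h1
    exact congrArg Subtype.val h1
  obtain ⟨m, hm⟩ := Nat.exists_eq_succ_of_ne_zero hk0
  have hm1 : derivedSeries U m ≠ ⊥ := Nat.find_min hex (by omega)
  rw [hm, Nat.succ_eq_add_one, derivedSeries_succ] at hk1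
  refine ⟨(derivedSeries U m).map U.subtype, inferInstance, ?_, ?_⟩
  · intro h
    apply hm1
    rwa [Subgroup.map_eq_bot_iff_of_injective _ U.subtype_injective] at h
  · rintro _ ⟨x, hx, rfl⟩ _ ⟨y, hy, rfl⟩
    rw [Subgroup.commutator_eq_bot_iff_le_centralizer] at hk1
    have h1 := hk1 hy
    rw [Subgroup.mem_centralizer_iff] at h1
    exact congrArg Subtype.val (h1 x hx)

theorem ss {G : Type*} [Group G] [Finite G]
    (hc : ∀ U : Subgroup G, U.Characteristic → Group.IsSolvable U → U = ⊥)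
    (U : Subgroup G) (hU : U.Normal) (hs : Group.IsSolvable U) : U = ⊥ := by
  by_contra hne
  obtain ⟨T, hT, hT1, hTc⟩ := ab_normal U hs hne
  have hcard : Nat.card T ≠ 1 := by
    intro h
    exact hT1 (Subgroup.card_eq_one.1 h)
  obtain ⟨p, hp, hdvd⟩ := Nat.exists_prime_and_dvd hcard
  have : Fact p.Prime := ⟨hp⟩
  obtain ⟨t, ht⟩ := exists_prime_orderOf_dvd_card' p hdvd
  let S : Subgroup G :=
    { carrier := {x | x ∈ T ∧ x ^ p = 1}
      one_mem' := ⟨T.one_mem, one_pow p⟩
      mul_mem' := by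
        rintro a b ⟨ha, ha1⟩ ⟨hb, hb1⟩
        refine ⟨T.mul_mem ha hb, ?_⟩
        have : Commute a b := hTc a ha b hb
        rw [this.mul_pow, ha1, hb1, one_mul]
      inv_mem' := by
        rintro a ⟨ha, ha1⟩
        exact ⟨T.inv_mem ha, by rw [inv_pow, ha1, inv_one]⟩ }
  have hSn : S.Normal := by
    refine ⟨?_⟩
    rintro n ⟨hn, hn1⟩ g
    refine ⟨hT.conj_mem n hn g, ?_⟩
    rw [conj_pow, hn1, mul_one, mul_inv_cancel]
  have hSp : IsPGroup p S := fun g => ⟨1, Subtype.ext (by simpa using g.2.2)⟩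
  set C : Subgroup G := ⨅ P : Sylow p G, (P : Subgroup G) with hC
  have hSC : S ≤ C := by
    rw [hC, le_iInf_iff]
    intro P
    have h1 : IsPGroup p (S ⊔ (P : Subgroup G) : Subgroup G) :=
      IsPGroup.to_sup_of_normal_left hSp P.isPGroup'
    have h2 := P.is_maximal' h1 le_sup_right
    rw [← h2]
    exact le_sup_left
  have hCp : IsPGroup p C := by
    obtain ⟨P⟩ : Nonempty (Sylow p G) := inferInstance
    exact P.isPGroup'.to_le (iInf_le _ P)
  have hCc : C.Characteristic := by
    rw [Subgroup.characteristic_iff_le_comap]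
    intro φ x hx
    rw [Subgroup.mem_comap, hC, Subgroup.mem_iInf]
    intro P
    rw [hC, Subgroup.mem_iInf] at hx
    have h1 := hx (P.comapOfInjective φ.toMonoidHom φ.injective (by
      intro y _
      obtain ⟨z, rfl⟩ := φ.surjective y
      exact ⟨z, rfl⟩))
    exact h1
  have : Group.IsNilpotent C := hCp.isNilpotent
  have h1 := hc C hCc inferInstance
  rw [h1] at hSC
  have h2 : (t : G) ∈ S := ⟨t.2, by
    have := pow_orderOf_eq_one t
    rw [ht] at this
    simpa using congrArg Subtype.val this⟩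
  have h3 := hSC h2
  rw [Subgroup.mem_bot] at h3
  have h4 : t = 1 := Subtype.ext h3
  rw [h4, orderOf_one] at ht
  exact hp.one_lt.ne ht

/-- the perfect core -/
theorem pc (V : Type*) [Group V] [Finite V] :
    ∃ D : Subgroup V, ∃ _ : D.Characteristic, ⁅D, D⁆ = D ∧ ∃ _ : D.Normal,
      Group.IsSolvable (V ⧸ D) := by
  classical
  obtain ⟨n, hn⟩ : ∃ n, ∀ m, Nat.card (derivedSeries V n) ≤ Nat.card (derivedSeries V m) := by
    have hex : ∃ c, ∃ n, Nat.card (derivedSeries V n) = c := ⟨_, 0, rfl⟩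
    obtain ⟨n, hn⟩ := Nat.find_spec hex
    exact ⟨n, fun m => by rw [hn]; exact Nat.find_min' hex ⟨m, rfl⟩⟩
  have h1 : derivedSeries V (n + 1) = derivedSeries V n :=
    Subgroup.eq_of_le_of_card_ge (derivedSeries_antitone V (by omega)) (hn (n + 1))
  refine ⟨derivedSeries V n, inferInstance, ?_, inferInstance, ⟨⟨n, ?_⟩⟩⟩
  · rw [derivedSeries_succ] at h1
    exact h1
  · rw [← map_derivedSeries_eq (f := QuotientGroup.mk' (derivedSeries V n))
      (QuotientGroup.mk'_surjective _), Subgroup.map_eq_bot_iff, QuotientGroup.ker_mk']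

theorem perfect_of {V : Type*} [Group V] {D : Subgroup V} (h : ⁅D, D⁆ = D) :
    commutator D = ⊤ := by
  have h1 : (commutator D).map D.subtype = (⊤ : Subgroup D).map D.subtype := by
    rw [Subgroup.map_subtype_commutator, h, ← MonoidHom.range_eq_map, Subgroup.range_subtype]
  exact Subgroup.map_injective D.subtype_injective h1

end Pool.Agent.TH427.AR
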