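import Mathlib

/-!
A product of two abelian subgroups is metabelian, and a consequence for regular subgroups of the
holomorph.
-/

set_option autoImplicit false

namespace Pool.Agent.TH427.AR

open scoped commutatorElement

section Ito

variable {G : Type*} [Group G] {A B : Subgroup G}

theorem ito_B (hB : ∀ x ∈ B, ∀ y ∈ B, x * y = y * x) {a b b1 a3 b3 : G} (hb : b ∈ B)
    (hb3 : b3 ∈ B) (h : b1 * a * b1⁻¹ = a3 * b3) (hb1 : b1 ∈ B) :
    b1 * ⁅a, b⁆ * b1⁻¹ = ⁅a3, b⁆ := by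
  have e1 : b1 * b * b1⁻¹ = b := by rw [hB b1 hb1 b hb]; group
  have e2 : b1 * ⁅a, b⁆ * b1⁻¹ = ⁅b1 * a * b1⁻¹, b1 * b * b1⁻¹⁆ := by
    simp only [commutatorElement_def]; group
  rw [e2, e1, h]
  simp only [commutatorElement_def]
  have e3 : b3 * b = b * b3 := hB b3 hb3 b hb
  calc a3 * b3 * b * (a3 * b3)⁻¹ * b⁻¹ = a3 * (b3 * b) * b3⁻¹ * a3⁻¹ * b⁻¹ := by group
    _ = a3 * b * a3⁻¹ * b⁻¹ := by rw [e3]; group

theorem ito_A (hA : ∀ x ∈ A, ∀ y ∈ A, x * y = y * x) {a b a1 a2 b2 : G} (ha : a ∈ A)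
    (ha2 : a2 ∈ A) (h : a1 * b * a1⁻¹ = b2 * a2) (ha1 : a1 ∈ A) :
    a1 * ⁅a, b⁆ * a1⁻¹ = ⁅a, b2⁆ := by
  have e1 : a1 * a * a1⁻¹ = a := by rw [hA a1 ha1 a ha]; group
  have e2 : a1 * ⁅a, b⁆ * a1⁻¹ = ⁅a1 * a * a1⁻¹, a1 * b * a1⁻¹⁆ := by
    simp only [commutatorElement_def]; group
  rw [e2, e1, h]
  simp only [commutatorElement_def]
  have e3 : a2 * a⁻¹ = a⁻¹ * a2 := hA a2 ha2 _ (A.inv_mem ha)
  calc a * (b2 * a2) * a⁻¹ * (b2 * a2)⁻¹ = a * b2 * (a2 * a⁻¹) * a2⁻¹ * b2⁻¹ := by group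
    _ = a * b2 * a⁻¹ * b2⁻¹ := by rw [e3]; group

theorem ito (hA : ∀ x ∈ A, ∀ y ∈ A, x * y = y * x) (hB : ∀ x ∈ B, ∀ y ∈ B, x * y = y * x)
    (hAB : ∀ g : G, ∃ a ∈ A, ∃ b ∈ B, g = a * b) :
    ∀ x ∈ commutator G, ∀ y ∈ commutator G, x * y = y * x := by
  have hBA : ∀ g : G, ∃ b ∈ B, ∃ a ∈ A, g = b * a := by
    intro g
    obtain ⟨a, ha, b, hb, h⟩ := hAB g⁻¹
    refine ⟨b⁻¹, B.inv_mem hb, a⁻¹, A.inv_mem ha, ?_⟩
    rw [← mul_inv_rev, ← h, inv_inv]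
  set C : Set G := {c | ∃ a ∈ A, ∃ b ∈ B, c = ⁅a, b⁆} with hC
  -- conjugation invariance
  have cA : ∀ a1 ∈ A, ∀ c ∈ C, a1 * c * a1⁻¹ ∈ C := by
    rintro a1 ha1 _ ⟨a, ha, b, hb, rfl⟩
    obtain ⟨b2, hb2, a2, ha2, h⟩ := hBA (a1 * b * a1⁻¹)
    exact ⟨a, ha, b2, hb2, ito_A hA ha ha2 h ha1⟩
  have cB : ∀ b1 ∈ B, ∀ c ∈ C, b1 * c * b1⁻¹ ∈ C := by
    rintro b1 hb1 _ ⟨a, ha, b, hb, rfl⟩
    obtain ⟨a3, ha3, b3, hb3, h⟩ := hAB (b1 * a * b1⁻¹)
    exact ⟨a3, ha3, b, hb, ito_B hB hb hb3 h hb1⟩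
  have cG : ∀ g : G, ∀ c ∈ C, g * c * g⁻¹ ∈ C := by
    intro g c hc
    obtain ⟨a, ha, b, hb, rfl⟩ := hAB g
    have h := cA a ha _ (cB b hb c hc)
    have e : a * (b * c * b⁻¹) * a⁻¹ = a * b * c * (a * b)⁻¹ := by group
    rwa [e] at h
  -- elements of C commute
  have comm : ∀ a ∈ A, ∀ b ∈ B, ∀ a1 ∈ A, ∀ b1 ∈ B, ⁅a1, b1⁆ * ⁅a, b⁆ = ⁅a, b⁆ * ⁅a1, b1⁆ := by
    intro a ha b hb a1' ha1' b1' hb1'
    have ha1 := A.inv_mem ha1'
    have hb1 := B.inv_mem hb1'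
    set a1 := a1'⁻¹ with e1
    set b1 := b1'⁻¹ with e2
    obtain ⟨b2, hb2, a2, ha2, h2⟩ := hBA (a1 * b * a1⁻¹)
    obtain ⟨a3, ha3, b3, hb3, h3⟩ := hAB (b1 * a * b1⁻¹)
    have l1 : a1 * (b1 * ⁅a, b⁆ * b1⁻¹) * a1⁻¹ = ⁅a3, b2⁆ := by
      rw [ito_B hB hb hb3 h3 hb1, ito_A hA ha3 ha2 h2 ha1]
    have l2 : b1 * (a1 * ⁅a, b⁆ * a1⁻¹) * b1⁻¹ = ⁅a3, b2⁆ := by
      rw [ito_A hA ha ha2 h2 ha1, ito_B hB hb2 hb3 h3 hb1]
    have l3 := l1.trans l2.symm
    have e3 : ⁅a1', b1'⁆ = (b1 * a1)⁻¹ * (a1 * b1) := by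
      rw [e1, e2, commutatorElement_def]; group
    rw [e3]
    have e4 : a1 * b1 * ⁅a, b⁆ = b1 * a1 * ⁅a, b⁆ * (b1 * a1)⁻¹ * (a1 * b1) := by
      calc a1 * b1 * ⁅a, b⁆ = (a1 * (b1 * ⁅a, b⁆ * b1⁻¹) * a1⁻¹) * (a1 * b1) := by group
        _ = (b1 * (a1 * ⁅a, b⁆ * a1⁻¹) * b1⁻¹) * (a1 * b1) := by rw [l3]
        _ = _ := by group
    calc (b1 * a1)⁻¹ * (a1 * b1) * ⁅a, b⁆ = (b1 * a1)⁻¹ * (a1 * b1 * ⁅a, b⁆) := by group
      _ = _ := by rw [e4]; group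
  set N := Subgroup.closure C with hN
  have hNn : N.Normal := by
    refine ⟨fun n hn g => ?_⟩
    induction hn using Subgroup.closure_induction with
    | mem x hx => exact Subgroup.subset_closure (cG g x hx)
    | one => simp
    | mul x y _ _ hx hy =>
      have e : g * (x * y) * g⁻¹ = (g * x * g⁻¹) * (g * y * g⁻¹) := by group
      rw [e]
      exact N.mul_mem hx hy
    | inv x _ hx =>
      have e : g * x⁻¹ * g⁻¹ = (g * x * g⁻¹)⁻¹ := by group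
      rw [e]
      exact N.inv_mem hx
  have hle : commutator G ≤ N := by
    rw [commutator_def, Subgroup.commutator_le]
    intro g1 _ g2 _
    rw [← QuotientGroup.eq_one_iff, ← QuotientGroup.mk'_apply, map_commutatorElement,
      commutatorElement_eq_one_iff_mul_comm]
    obtain ⟨a1, ha1, b1, hb1, rfl⟩ := hAB g1
    obtain ⟨a2, ha2, b2, hb2, rfl⟩ := hAB g2
    set φ := QuotientGroup.mk' N
    have c1 : φ a1 * φ a2 = φ a2 * φ a1 := by rw [← map_mul, ← map_mul, hA a1 ha1 a2 ha2]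
    have c2 : φ b1 * φ b2 = φ b2 * φ b1 := by rw [← map_mul, ← map_mul, hB b1 hb1 b2 hb2]
    have cc : ∀ a ∈ A, ∀ b ∈ B, φ a * φ b = φ b * φ a := by
      intro a ha b hb
      rw [← commutatorElement_eq_one_iff_mul_comm, ← map_commutatorElement,
        QuotientGroup.mk'_apply, QuotientGroup.eq_one_iff]
      exact Subgroup.subset_closure ⟨a, ha, b, hb, rfl⟩
    rw [map_mul, map_mul]
    calc φ a1 * φ b1 * (φ a2 * φ b2) = φ a1 * (φ b1 * φ a2) * φ b2 := by group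
      _ = φ a1 * (φ a2 * φ b1) * φ b2 := by rw [cc a2 ha2 b1 hb1]
      _ = (φ a1 * φ a2) * (φ b1 * φ b2) := by group
      _ = (φ a2 * φ a1) * (φ b2 * φ b1) := by rw [c1, c2]
      _ = φ a2 * (φ a1 * φ b2) * φ b1 := by group
      _ = φ a2 * (φ b2 * φ a1) * φ b1 := by rw [cc a1 ha1 b2 hb2]
      _ = _ := by group
  have hc1 : N ≤ Subgroup.centralizer C := by
    rw [hN, Subgroup.closure_le]
    rintro _ ⟨a, ha, b, hb, rfl⟩
    rw [SetLike.mem_coe, Subgroup.mem_centralizer_iff]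
    rintro _ ⟨a', ha', b', hb', rfl⟩
    exact comm a ha b hb a' ha' b' hb'
  have hc2 : N ≤ Subgroup.centralizer (N : Set G) := by
    rw [hN, Subgroup.closure_le]
    intro c hc
    rw [SetLike.mem_coe, Subgroup.mem_centralizer_iff]
    intro n hn
    have := hc1 hn
    rw [Subgroup.mem_centralizer_iff] at this
    exact (this c hc).symm
  intro x hx y hy
  have h1 := hc2 (hle hy)
  rw [Subgroup.mem_centralizer_iff] at h1
  exact h1 x (hle hx)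

end Ito

/-- the group `(W, ⊕)` with `w ⊕ v = w * μ w v` is abelian, so `W` is metabelian -/
theorem brace {W : Type*} [Group W] (μ : W → MulAut W)
    (h1 : ∀ w v, μ (w * μ w v) = μ w * μ v) (h2 : ∀ w v, w * μ w v = v * μ v w) :
    ∀ x ∈ commutator W, ∀ y ∈ commutator W, x * y = y * x := by
  have hc : ∀ w v, μ w * μ v = μ v * μ w := by
    intro w v
    rw [← h1, h2, h1]
  have hμ1 : μ 1 = 1 := by
    ext v
    have h := h2 1 v
    rw [map_one, mul_one, one_mul] at h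
    exact h
  set B := Subgroup.closure (Set.range μ) with hB
  have hBm : ∀ w, μ w ∈ B := fun w => Subgroup.subset_closure ⟨w, rfl⟩
  have hBc : ∀ x ∈ B, ∀ y ∈ B, x * y = y * x := by
    have s1 : B ≤ Subgroup.centralizer (Set.range μ) := by
      rw [hB, Subgroup.closure_le]
      rintro _ ⟨w, rfl⟩
      rw [SetLike.mem_coe, Subgroup.mem_centralizer_iff]
      rintro _ ⟨v, rfl⟩
      exact hc v w
    have s2 : B ≤ Subgroup.centralizer (B : Set (MulAut W)) := by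
      rw [hB, Subgroup.closure_le]
      rintro _ ⟨w, rfl⟩
      rw [SetLike.mem_coe, Subgroup.mem_centralizer_iff]
      intro n hn
      have := s1 hn
      rw [Subgroup.mem_centralizer_iff] at this
      exact (this _ ⟨w, rfl⟩).symm
    intro x hx y hy
    have h := s2 hy
    rw [Subgroup.mem_centralizer_iff] at h
    exact h x hx
  let G := W ⋊[B.subtype] B
  let A' : Subgroup G :=
    { carrier := {g | ∃ w, g = ⟨w, ⟨μ w, hBm w⟩⟩}
      mul_mem' := by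
        rintro _ _ ⟨w, rfl⟩ ⟨v, rfl⟩
        refine ⟨w * μ w v, ?_⟩
        ext
        · rfl
        · show (μ w * μ v) _ = (μ (w * μ w v)) _
          rw [h1]
      one_mem' := by
        refine ⟨1, ?_⟩
        ext
        · rfl
        · show _ = (μ 1) _
          rw [hμ1]
          rfl
      inv_mem' := by
        rintro _ ⟨w, rfl⟩
        refine ⟨(μ w)⁻¹ w⁻¹, ?_⟩
        have h3 := h1 w ((μ w)⁻¹ w⁻¹)
        have h4 : (μ w) ((μ w)⁻¹ w⁻¹) = w⁻¹ := (μ w).apply_symm_apply _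
        rw [h4, mul_inv_cancel, hμ1] at h3
        have h5 : μ ((μ w)⁻¹ w⁻¹) = (μ w)⁻¹ := (inv_eq_of_mul_eq_one_right h3.symm).symm
        rw [inv_eq_iff_mul_eq_one]
        ext
        · show w * μ w ((μ w)⁻¹ w⁻¹) = 1
          rw [h4, mul_inv_cancel]
        · show (μ w * μ ((μ w)⁻¹ w⁻¹)) _ = _
          rw [h5, mul_inv_cancel]
          rfl }
  let B' : Subgroup G := (SemidirectProduct.inr : B →* G).range
  have key : ∀ x ∈ commutator G, ∀ y ∈ commutator G, x * y = y * x := by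
    refine ito (A := A') (B := B') ?_ ?_ ?_
    · rintro _ ⟨w, rfl⟩ _ ⟨v, rfl⟩
      ext
      · exact h2 w v
      · show (μ w * μ v) _ = (μ v * μ w) _
        rw [hc]
    · rintro _ ⟨b, rfl⟩ _ ⟨c, rfl⟩
      rw [← map_mul, ← map_mul]
      congr 1
      exact Subtype.ext (hBc _ b.2 _ c.2)
    · intro g
      refine ⟨⟨g.left, ⟨μ g.left, hBm _⟩⟩, ⟨g.left, rfl⟩,
        SemidirectProduct.inr (⟨μ g.left, hBm _⟩⁻¹ * g.right), ⟨_, rfl⟩, ?_⟩
      ext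
      · show g.left = g.left * μ g.left 1
        rw [map_one, mul_one]
      · show (g.right : MulAut W) _ = (μ g.left * ((μ g.left)⁻¹ * (g.right : MulAut W))) _
        rw [mul_inv_cancel_left]
  intro x hx y hy
  apply (SemidirectProduct.inl_injective (φ := B.subtype))
  rw [map_mul, map_mul]
  have hm : ∀ z ∈ commutator W, (SemidirectProduct.inl z : G) ∈ commutator G := by
    intro z hz
    have h3 : (commutator W).map (SemidirectProduct.inl : W →* G) ≤ commutator G := by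
      rw [commutator_def, Subgroup.map_commutator]
      exact Subgroup.commutator_mono le_top le_top
    exact h3 ⟨z, hz, rfl⟩
  exact key _ (hm x hx) _ (hm y hy)

end Pool.Agent.TH427.AR
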