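import Pool.Agent.W790.LG.Base
import Pool.Agent.TH427.AR.Ito

/-!
Normal subloops of automorphic loops which are perfect groups without solvable normal subgroups lie
in the nucleus.
-/

set_option autoImplicit false
set_option linter.unusedSectionVars false
set_option linter.unusedVariables false

namespace Pool.Agent.TH427.AR

open Pool.Agent.H687R3.AL
open scoped commutatorElement
open Pool.Agent.W790.LG (Hol ai ia Hol_e)

variable {Q : Type} {A : AL Q}

/-- the multiplication group -/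
def Mlt (A : AL Q) : Subgroup (Equiv.Perm Q) :=
  Subgroup.closure (Set.range A.L ∪ Set.range A.R)

theorem L_Mlt (x : Q) : A.L x ∈ Mlt A := Subgroup.subset_closure (Or.inl ⟨x, rfl⟩)

theorem R_Mlt (x : Q) : A.R x ∈ Mlt A := Subgroup.subset_closure (Or.inr ⟨x, rfl⟩)

theorem Mlt_le : Mlt A ≤ Hol A := by
  unfold Mlt
  rw [Subgroup.closure_le]
  rintro _ (⟨x, rfl⟩ | ⟨x, rfl⟩)
  · exact fun y => AL.theta_mem (A := A) x y
  · exact Pool.Agent.W790.LG.R_mem x

theorem inn_aut {g : Equiv.Perm Q} (hg : g ∈ Mlt A) (he : g A.e = A.e) : g ∈ A.Aut :=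
  Hol_e (Mlt_le hg) he

variable {V : Type} [Group V] {io : V → Q}

/-- `io` is an isomorphism of the group `V` onto a normal subloop -/
structure NE (A : AL Q) (io : V → Q) : Prop where
  inj : Function.Injective io
  mul : ∀ u v, io (u * v) = A.op (io u) (io v)
  nrm : ∀ g ∈ Mlt A, g A.e = A.e → ∀ v, ∃ v', g (io v) = io v'

/-- right translations by the elements of the image -/
def RR (A : AL Q) (io : V → Q) : Subgroup (Equiv.Perm Q) :=
  Subgroup.closure (Set.range fun v => A.R (io v))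

/-- left translations by the elements of the image -/
def LL (A : AL Q) (io : V → Q) : Subgroup (Equiv.Perm Q) :=
  Subgroup.closure (Set.range fun v => A.L (io v))

theorem R_RR (v : V) : A.R (io v) ∈ RR A io := Subgroup.subset_closure ⟨v, rfl⟩

theorem L_LL (v : V) : A.L (io v) ∈ LL A io := Subgroup.subset_closure ⟨v, rfl⟩

theorem RR_le : RR A io ≤ Mlt A := by
  unfold RR
  rw [Subgroup.closure_le]
  rintro _ ⟨v, rfl⟩
  exact R_Mlt _

theorem LL_le : LL A io ≤ Mlt A := by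
  unfold LL
  rw [Subgroup.closure_le]
  rintro _ ⟨v, rfl⟩
  exact L_Mlt _

theorem NE.one (h : NE A io) : io 1 = A.e := by
  have h1 := h.mul 1 1
  rw [mul_one] at h1
  apply (A.bijL (io 1)).1
  show A.op (io 1) (io 1) = A.op (io 1) A.e
  rw [← h1, A.idr]

theorem RR_act (h : NE A io) {g : Equiv.Perm Q} (hg : g ∈ RR A io) :
    ∃ v, ∀ u, g (io u) = io (u * v) := by
  unfold RR at hg
  induction hg using Subgroup.closure_induction with
  | mem x hx =>
    obtain ⟨s, rfl⟩ := hx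
    exact ⟨s, fun u => (h.mul u s).symm⟩
  | one => exact ⟨1, fun u => by rw [mul_one]; rfl⟩
  | mul g k _ _ ihg ihk =>
    obtain ⟨v, hv⟩ := ihg
    obtain ⟨w, hw⟩ := ihk
    refine ⟨w * v, fun u => ?_⟩
    show g (k (io u)) = _
    rw [hw, hv, mul_assoc]
  | inv g _ ih =>
    obtain ⟨v, hv⟩ := ih
    refine ⟨v⁻¹, fun u => ?_⟩
    rw [Equiv.Perm.inv_eq_iff_eq, hv, mul_assoc, inv_mul_cancel, mul_one]

theorem LL_act (h : NE A io) {g : Equiv.Perm Q} (hg : g ∈ LL A io) :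
    ∃ v, ∀ u, g (io u) = io (v * u) := by
  unfold LL at hg
  induction hg using Subgroup.closure_induction with
  | mem x hx =>
    obtain ⟨s, rfl⟩ := hx
    exact ⟨s, fun u => (h.mul s u).symm⟩
  | one => exact ⟨1, fun u => by rw [one_mul]; rfl⟩
  | mul g k _ _ ihg ihk =>
    obtain ⟨v, hv⟩ := ihg
    obtain ⟨w, hw⟩ := ihk
    refine ⟨v * w, fun u => ?_⟩
    show g (k (io u)) = _
    rw [hw, hv, mul_assoc]
  | inv g _ ih =>
    obtain ⟨v, hv⟩ := ih
    refine ⟨v⁻¹, fun u => ?_⟩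
    rw [Equiv.Perm.inv_eq_iff_eq, hv, ← mul_assoc, mul_inv_cancel, one_mul]

theorem fixR (h : NE A io) {k : Equiv.Perm Q} (hk : k ∈ Hol A) (hf : ∀ v, k (io v) = io v)
    {g : Equiv.Perm Q} (hg : g ∈ RR A io) : k * g = g * k := by
  have hka : k ∈ A.Aut := Hol_e hk (by rw [← h.one]; exact hf 1)
  unfold RR at hg
  induction hg using Subgroup.closure_induction with
  | mem x hx =>
    obtain ⟨s, rfl⟩ := hx
    have h1 := AL.aut_R hka (io s)
    rwa [hf s] at h1
  | one => simp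
  | mul g h _ _ ihg ihh => rw [← mul_assoc, ihg, mul_assoc, ihh, mul_assoc]
  | inv g _ ih =>
    rw [eq_inv_mul_iff_mul_eq, ← mul_assoc, ← ih, mul_assoc, mul_inv_cancel, mul_one]

theorem fixL (h : NE A io) {k : Equiv.Perm Q} (hk : k ∈ Hol A) (hf : ∀ v, k (io v) = io v)
    {g : Equiv.Perm Q} (hg : g ∈ LL A io) : k * g = g * k := by
  have hka : k ∈ A.Aut := Hol_e hk (by rw [← h.one]; exact hf 1)
  unfold LL at hg
  induction hg using Subgroup.closure_induction with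
  | mem x hx =>
    obtain ⟨s, rfl⟩ := hx
    have h1 := AL.aut_L hka (io s)
    rwa [hf s] at h1
  | one => simp
  | mul g h _ _ ihg ihh => rw [← mul_assoc, ihg, mul_assoc, ihh, mul_assoc]
  | inv g _ ih =>
    rw [eq_inv_mul_iff_mul_eq, ← mul_assoc, ← ih, mul_assoc, mul_inv_cancel, mul_one]

theorem comm_fix (h : NE A io) {g l : Equiv.Perm Q} (hg : g ∈ RR A io) (hl : l ∈ LL A io) (v : V) :
    (g⁻¹ * (l * g * l⁻¹)) (io v) = io v := by
  obtain ⟨a, ha⟩ := RR_act h hg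
  obtain ⟨b, hb⟩ := LL_act h ((LL A io).inv_mem hl)
  show g⁻¹ (l (g (l⁻¹ (io v)))) = io v
  have e : g (l⁻¹ (io v)) = l⁻¹ (g (io v)) := by rw [hb, ha, ha, hb, mul_assoc]
  rw [e, ai, ia]

theorem comm_aux (h : NE A io) {g k l : Equiv.Perm Q} (hg : g ∈ RR A io) (hk : k ∈ RR A io)
    (hl : l ∈ LL A io) :
    (g * k * g⁻¹ * k⁻¹) * l = l * (g * k * g⁻¹ * k⁻¹) := by
  have HR : RR A io ≤ Hol A := RR_le.trans Mlt_le
  have HL : LL A io ≤ Hol A := LL_le.trans Mlt_le
  set c := g⁻¹ * (l * g * l⁻¹) with hc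
  set d := k⁻¹ * (l * k * l⁻¹) with hd
  have hcH : c ∈ Hol A := mul_mem (inv_mem (HR hg)) (mul_mem (mul_mem (HL hl) (HR hg))
    (inv_mem (HL hl)))
  have hdH : d ∈ Hol A := mul_mem (inv_mem (HR hk)) (mul_mem (mul_mem (HL hl) (HR hk))
    (inv_mem (HL hl)))
  have fc : ∀ v, c (io v) = io v := comm_fix h hg hl
  have fd : ∀ v, d (io v) = io v := comm_fix h hk hl
  have ck : c * k = k * c := fixR h hcH fc hk
  have cl : c * l = l * c := fixL h hcH fc hl
  have cd : c * d = d * c := by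
    have c1 : Commute c k := ck
    have c2 : Commute c l := cl
    exact (c1.inv_right.mul_right ((c2.mul_right c1).mul_right c2.inv_right)).eq
  have dg : d * g⁻¹ = g⁻¹ * d := fixR h hdH fd (inv_mem hg)
  have eg : l * g * l⁻¹ = g * c := by rw [hc]; group
  have ek : l * k * l⁻¹ = k * d := by rw [hd]; group
  have e1 : l * (g * k * g⁻¹ * k⁻¹) * l⁻¹ = g * k * g⁻¹ * k⁻¹ := by
    calc l * (g * k * g⁻¹ * k⁻¹) * l⁻¹ =
        (l * g * l⁻¹) * (l * k * l⁻¹) * (l * g * l⁻¹)⁻¹ * (l * k * l⁻¹)⁻¹ := by group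
      _ = g * (c * k) * d * c⁻¹ * g⁻¹ * d⁻¹ * k⁻¹ := by rw [eg, ek]; group
      _ = g * k * (c * d) * c⁻¹ * g⁻¹ * d⁻¹ * k⁻¹ := by rw [ck]; group
      _ = g * k * (d * g⁻¹) * d⁻¹ * k⁻¹ := by rw [cd]; group
      _ = g * k * g⁻¹ * k⁻¹ := by rw [dg]; group
  rw [mul_inv_eq_iff_eq_mul] at e1
  exact e1.symm

theorem tr (h : NE A io) {g : Equiv.Perm Q} (hg : g ∈ RR A io) {v : V} (hv : g (io 1) = io v)
    (hc : ∀ l ∈ LL A io, g * l = l * g) : ∀ l ∈ LL A io, A.R (io v) * l = l * A.R (io v) := by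
  intro l hl
  set k := g⁻¹ * A.R (io v) with hk
  have hkR : k ∈ RR A io := mul_mem (inv_mem hg) (R_RR v)
  have hkf : ∀ u, k (io u) = io u := by
    obtain ⟨a, ha⟩ := RR_act h hg
    have hav : a = v := by
      apply h.inj
      rw [← hv, ha, one_mul]
    intro u
    show g⁻¹ (A.op (io u) (io v)) = io u
    rw [Equiv.Perm.inv_eq_iff_eq, ha, hav, h.mul]
  have h1 := fixL h (Mlt_le (RR_le hkR)) hkf hl
  have h2 : A.R (io v) = g * k := by rw [hk]; group
  rw [h2, mul_assoc, h1, ← mul_assoc, hc l hl, mul_assoc]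

theorem comm_all (h : NE A io) (hp : commutator V = ⊤) :
    ∀ g ∈ RR A io, ∀ l ∈ LL A io, g * l = l * g := by
  let D : Subgroup V :=
    { carrier := {v | ∀ l ∈ LL A io, A.R (io v) * l = l * A.R (io v)}
      one_mem' := tr h (one_mem _) rfl (fun l _ => by rw [one_mul, mul_one])
      mul_mem' := by
        intro a b ha hb
        refine tr h (mul_mem (R_RR b) (R_RR a)) ?_ ?_
        · show A.op (A.op (io 1) (io a)) (io b) = _
          rw [← h.mul, ← h.mul, one_mul]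
        · intro l hl
          rw [mul_assoc, ha l hl, ← mul_assoc, hb l hl, mul_assoc]
      inv_mem' := by
        intro a ha
        refine tr h (inv_mem (R_RR a)) ?_ ?_
        · rw [Equiv.Perm.inv_eq_iff_eq]
          show io 1 = A.op (io a⁻¹) (io a)
          rw [← h.mul, inv_mul_cancel]
        · intro l hl
          have h1 := ha l hl
          rw [inv_mul_eq_iff_eq_mul, ← mul_assoc, h1, mul_assoc, mul_inv_cancel, mul_one] }
  have hD : commutator V ≤ D := by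
    rw [commutator_def, Subgroup.commutator_le]
    intro a _ b _
    have e := fun (l : Equiv.Perm Q) (hl : l ∈ LL A io) =>
      comm_aux h (inv_mem (R_RR (A := A) (io := io) b)) (inv_mem (R_RR a)) hl
    refine tr h (g := (A.R (io b))⁻¹ * (A.R (io a))⁻¹ * (A.R (io b))⁻¹⁻¹ * (A.R (io a))⁻¹⁻¹)
      (mul_mem (mul_mem (mul_mem (inv_mem (R_RR b)) (inv_mem (R_RR a)))
        (inv_mem (inv_mem (R_RR b)))) (inv_mem (inv_mem (R_RR a)))) ?_ (fun l hl => e l hl)
    rw [inv_inv, inv_inv]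
    show (A.R (io b))⁻¹ ((A.R (io a))⁻¹ (A.op (A.op (io 1) (io a)) (io b))) = _
    rw [Equiv.Perm.inv_eq_iff_eq, Equiv.Perm.inv_eq_iff_eq]
    show A.op (A.op (io 1) (io a)) (io b) = A.op (A.op (io ⁅a, b⁆) (io b)) (io a)
    rw [← h.mul, ← h.mul, ← h.mul, ← h.mul, commutatorElement_def]
    congr 1
    group
  intro g hg
  unfold RR at hg
  induction hg using Subgroup.closure_induction with
  | mem x hx =>
    obtain ⟨v, rfl⟩ := hx
    have : v ∈ D := hD (hp ▸ Subgroup.mem_top v)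
    exact this
  | one => intro l _; rw [one_mul, mul_one]
  | mul g k _ _ ihg ihk =>
    intro l hl
    rw [mul_assoc, ihk l hl, ← mul_assoc, ihg l hl, mul_assoc]
  | inv g _ ih =>
    intro l hl
    have h1 := ih l hl
    rw [inv_mul_eq_iff_eq_mul, ← mul_assoc, h1, mul_assoc, mul_inv_cancel, mul_one]

theorem inv_pres [Finite V] (h : NE A io) {g : Equiv.Perm Q} {x : Q}
    (H : ∀ v, ∃ v', g (A.op x (io v)) = A.op x (io v')) :
    ∀ v, ∃ v', g⁻¹ (A.op x (io v)) = A.op x (io v') := by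
  choose f hf using H
  have hinj : Function.Injective f := by
    intro a b hab
    have h1 : g (A.op x (io a)) = g (A.op x (io b)) := by rw [hf, hf, hab]
    exact h.inj ((A.bijL x).1 (g.injective h1))
  have hsur := Finite.surjective_of_injective hinj
  intro v
  obtain ⟨w, rfl⟩ := hsur v
  exact ⟨w, by rw [Equiv.Perm.inv_eq_iff_eq, hf]⟩

/-- the right translations by the image preserve the cosets -/
theorem coR [Finite V] (h : NE A io) (x : Q) {g : Equiv.Perm Q} (hg : g ∈ RR A io) :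
    ∀ v, ∃ v', g (A.op x (io v)) = A.op x (io v') := by
  unfold RR at hg
  induction hg using Subgroup.closure_induction with
  | mem y hy =>
    obtain ⟨w, rfl⟩ := hy
    intro v
    have hk : (A.L (io w))⁻¹ * ((A.L x)⁻¹ * A.R (io w) * A.L x) ∈ Mlt A :=
      mul_mem (inv_mem (L_Mlt _)) (mul_mem (mul_mem (inv_mem (L_Mlt _)) (R_Mlt _)) (L_Mlt _))
    obtain ⟨v1, hv1⟩ := h.nrm _ hk (by
      show (A.L (io w))⁻¹ ((A.L x)⁻¹ (A.op (A.op x A.e) (io w))) = A.e
      rw [Equiv.Perm.inv_eq_iff_eq, Equiv.Perm.inv_eq_iff_eq]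
      show _ = A.op x (A.op (io w) A.e)
      rw [A.idr, A.idr]) v
    refine ⟨w * v1, ?_⟩
    have h2 : (A.L (io w))⁻¹ ((A.L x)⁻¹ (A.R (io w) (A.L x (io v)))) = io v1 := hv1
    rw [Equiv.Perm.inv_eq_iff_eq, Equiv.Perm.inv_eq_iff_eq] at h2
    rw [h.mul]
    exact h2
  | one => intro v; exact ⟨v, rfl⟩
  | mul g k _ _ ihg ihk =>
    intro v
    obtain ⟨w, hw⟩ := ihk v
    obtain ⟨u, hu⟩ := ihg w
    exact ⟨u, by rw [Equiv.Perm.mul_apply, hw, hu]⟩
  | inv g _ ih => exact inv_pres h ih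

theorem coL (h : NE A io) (x : Q) (v : V) : ∃ l ∈ LL A io, l x = A.op x (io v) := by
  have hk : ((A.L x)⁻¹ * A.R x)⁻¹ ∈ Mlt A := inv_mem (mul_mem (inv_mem (L_Mlt _)) (R_Mlt _))
  obtain ⟨w, hw⟩ := h.nrm _ hk (by
    rw [Equiv.Perm.inv_eq_iff_eq]
    show A.e = (A.L x)⁻¹ (A.op A.e x)
    rw [eq_comm, Equiv.Perm.inv_eq_iff_eq]
    show A.op A.e x = A.op x A.e
    rw [A.idl, A.idr]) v
  rw [Equiv.Perm.inv_eq_iff_eq] at hw
  have hw' : io v = (A.L x)⁻¹ (A.op (io w) x) := hw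
  rw [eq_comm, Equiv.Perm.inv_eq_iff_eq] at hw'
  exact ⟨A.L (io w), L_LL w, hw'⟩

section
variable [Finite V]

theorem fix_co (h : NE A io) (hc : ∀ g ∈ RR A io, ∀ l ∈ LL A io, g * l = l * g) {x : Q}
    {r : Equiv.Perm Q} (hr : r ∈ RR A io) (hx : r x = x) (v : V) :
    r (A.op x (io v)) = A.op x (io v) := by
  obtain ⟨l, hl, hlx⟩ := coL h x v
  rw [← hlx]
  have := congrArg (fun k : Equiv.Perm Q => k x) (hc r hr l hl)
  change r (l x) = l (r x) at this
  rw [this, hx]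

/-- the elements of `V` which act trivially on the coset of `x` up to fixing the image -/
def Wx (h : NE A io) (hc : ∀ g ∈ RR A io, ∀ l ∈ LL A io, g * l = l * g) (x : Q) : Subgroup V where
  carrier := {w | ∃ r ∈ RR A io, r (io 1) = io w ∧ r x = x}
  one_mem' := ⟨1, one_mem _, rfl, rfl⟩
  mul_mem' := by
    rintro a b ⟨r, hr, hra, hrx⟩ ⟨s, hs, hsb, hsx⟩
    refine ⟨s * r, mul_mem hs hr, ?_, ?_⟩
    · show s (r (io 1)) = _
      obtain ⟨b', hb'⟩ := RR_act h hs
      have : b' = b := by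
        apply h.inj
        rw [← hsb, hb', one_mul]
      rw [hra, hb', this]
    · show s (r x) = x
      rw [hrx, hsx]
  inv_mem' := by
    rintro a ⟨r, hr, hra, hrx⟩
    refine ⟨r⁻¹, inv_mem hr, ?_, ?_⟩
    · rw [Equiv.Perm.inv_eq_iff_eq]
      obtain ⟨b', hb'⟩ := RR_act h hr
      have : b' = a := by
        apply h.inj
        rw [← hra, hb', one_mul]
      rw [hb', this, inv_mul_cancel]
    · rw [Equiv.Perm.inv_eq_iff_eq, hrx]

variable (h : NE A io) (hc : ∀ g ∈ RR A io, ∀ l ∈ LL A io, g * l = l * g)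
include h hc

theorem Wx_normal (x : Q) : (Wx h hc x).Normal := by
  refine ⟨?_⟩
  rintro n ⟨r, hr, hrn, hrx⟩ g
  refine ⟨(A.R (io g))⁻¹ * r * A.R (io g), mul_mem (mul_mem (inv_mem (R_RR g)) hr) (R_RR g), ?_, ?_⟩
  · show (A.R (io g))⁻¹ (r (A.op (io 1) (io g))) = _
    rw [Equiv.Perm.inv_eq_iff_eq]
    obtain ⟨b', hb'⟩ := RR_act h hr
    have : b' = n := by
      apply h.inj
      rw [← hrn, hb', one_mul]
    show _ = A.op (io (g * n * g⁻¹)) (io g)
    rw [← h.mul, ← h.mul, hb', this]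
    congr 1
    group
  · show (A.R (io g))⁻¹ (r (A.op x (io g))) = x
    rw [Equiv.Perm.inv_eq_iff_eq, fix_co h hc hr hrx]
    rfl

theorem mem_Wx {x : Q} {w : V} : w ∈ Wx h hc x ↔
    ∃ z ∈ RR A io, (∀ v, z (io v) = io v) ∧ z x = A.op x (io w) := by
  constructor
  · rintro ⟨r, hr, hrw, hrx⟩
    refine ⟨r⁻¹ * A.R (io w), mul_mem (inv_mem hr) (R_RR w), ?_, ?_⟩
    · obtain ⟨b', hb'⟩ := RR_act h hr
      have : b' = w := by
        apply h.inj
        rw [← hrw, hb', one_mul]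
      intro v
      show r⁻¹ (A.op (io v) (io w)) = io v
      rw [Equiv.Perm.inv_eq_iff_eq, hb', this, h.mul]
    · show r⁻¹ (A.op x (io w)) = _
      rw [Equiv.Perm.inv_eq_iff_eq, fix_co h hc hr hrx]
  · rintro ⟨z, hz, hzf, hzx⟩
    refine ⟨z⁻¹ * A.R (io w), mul_mem (inv_mem hz) (R_RR w), ?_, ?_⟩
    · show z⁻¹ (A.op (io 1) (io w)) = _
      rw [Equiv.Perm.inv_eq_iff_eq, hzf, ← h.mul, one_mul]
    · show z⁻¹ (A.op x (io w)) = x
      rw [Equiv.Perm.inv_eq_iff_eq, hzx]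

omit hc in
theorem m_ex (x : Q) : ∃ m : V → V → V, ∀ w v,
    A.op (A.op x (io w)) (io v) = A.op x (io (w * m w v)) := by
  have h1 : ∀ w v, ∃ v', A.op (A.op x (io w)) (io v) = A.op x (io v') := fun w v =>
    coR h x (R_RR v) w
  choose f hf using h1
  exact ⟨fun w v => w⁻¹ * f w v, fun w v => by rw [hf, mul_inv_cancel_left]⟩

omit hc [Finite V] in
theorem m_b {x : Q} {m : V → V → V}
    (hm : ∀ w v, A.op (A.op x (io w)) (io v) = A.op x (io (w * m w v))) (w : V) :
    ∃ b ∈ A.Aut, ∀ v, b (io (m w v)) = io v := by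
  have hk : (A.L (A.op x (io w)))⁻¹ * A.L x * A.L (io w) ∈ A.Aut := AL.theta_mem x (io w)
  refine ⟨_, hk, fun v => ?_⟩
  show (A.L (A.op x (io w)))⁻¹ (A.op x (A.op (io w) (io (m w v)))) = _
  rw [Equiv.Perm.inv_eq_iff_eq, ← h.mul, ← hm]
  rfl

omit hc [Finite V] in
theorem m_mul {x : Q} {m : V → V → V}
    (hm : ∀ w v, A.op (A.op x (io w)) (io v) = A.op x (io (w * m w v))) (w u v : V) :
    m w (u * v) = m w u * m w v := by
  obtain ⟨b, hb, hbv⟩ := m_b h hm w
  apply h.inj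
  apply b.injective
  rw [hbv, h.mul (m w u), AL.aut_apply hb, hbv, hbv, h.mul]

omit hc [Finite V] in
theorem m_inj {x : Q} {m : V → V → V}
    (hm : ∀ w v, A.op (A.op x (io w)) (io v) = A.op x (io (w * m w v))) (w : V) :
    Function.Injective (m w) := by
  obtain ⟨b, hb, hbv⟩ := m_b h hm w
  intro u v huv
  apply h.inj
  exact (hbv u).symm.trans ((congrArg (fun z => b (io z)) huv).trans (hbv v))

theorem Wx_metab (x : Q) :
    ∀ a ∈ commutator (Wx h hc x), ∀ b ∈ commutator (Wx h hc x), a * b = b * a := by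
  obtain ⟨m, hm⟩ := m_ex h x
  -- action of the fixing elements
  have act : ∀ z ∈ RR A io, (∀ v, z (io v) = io v) → ∀ w, z x = A.op x (io w) → ∀ v,
      z (A.op x (io v)) = A.op x (io (w * m w v)) := by
    intro z hz hzf w hzx v
    have hza : z ∈ A.Aut := inn_aut (RR_le hz) (by rw [← h.one]; exact hzf 1)
    rw [AL.aut_apply hza, hzx, hzf, hm]
  have mem : ∀ w ∈ Wx h hc x, ∀ v ∈ Wx h hc x, w * m w v ∈ Wx h hc x := by
    intro w hw v hv
    rw [mem_Wx] at hw hv ⊢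
    obtain ⟨z, hz, hzf, hzx⟩ := hw
    obtain ⟨y, hy, hyf, hyx⟩ := hv
    refine ⟨z * y, mul_mem hz hy, fun u => ?_, ?_⟩
    · show z (y (io u)) = io u
      rw [hyf, hzf]
    · show z (y x) = _
      rw [hyx, act z hz hzf w hzx]
  have mem' : ∀ w ∈ Wx h hc x, ∀ v ∈ Wx h hc x, m w v ∈ Wx h hc x := by
    intro w hw v hv
    have h1 := mul_mem (inv_mem hw) (mem w hw v hv)
    rwa [inv_mul_cancel_left] at h1
  let μ : Wx h hc x → MulAut (Wx h hc x) := fun w =>
    MulEquiv.ofBijective (MonoidHom.mk' (fun v : Wx h hc x =>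
      (⟨m w v, mem' w w.2 v v.2⟩ : Wx h hc x)) (fun a b => Subtype.ext (m_mul h hm w a b)))
      (Finite.injective_iff_bijective.1 (fun a b hab =>
        Subtype.ext (m_inj h hm w (congrArg Subtype.val hab))))
  have hμ : ∀ w v : Wx h hc x, ((μ w v : Wx h hc x) : V) = m w v := fun _ _ => rfl
  refine brace μ ?_ ?_
  · intro w v
    ext u
    rw [hμ]
    show m ((w : V) * m w v) u = m w (m v u)
    obtain ⟨z, hz, hzf, hzx⟩ := (mem_Wx h hc).1 w.2
    have hza : z ∈ A.Aut := inn_aut (RR_le hz) (by rw [← h.one]; exact hzf 1)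
    have e1 := hm ((w : V) * m w v) u
    rw [← act z hz hzf w hzx v] at e1
    have e2 : A.op (z (A.op x (io v))) (io u) = A.op x (io (w * m w (v * m v u))) := by
      rw [← act z hz hzf w hzx, ← hm, AL.aut_apply hza _ (io u), hzf]
    rw [e2, m_mul h hm, ← mul_assoc] at e1
    have e3 := h.inj ((A.bijL x).1 e1)
    exact (mul_left_cancel e3).symm
  · intro w v
    apply Subtype.ext
    show (w : V) * m w v = v * m v w
    obtain ⟨z, hz, hzf, hzx⟩ := (mem_Wx h hc).1 w.2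
    obtain ⟨y, hy, hyf, hyx⟩ := (mem_Wx h hc).1 v.2
    have e := congrArg (fun k : Equiv.Perm Q => k x) (fixR h (Mlt_le (RR_le hz)) hzf hy)
    change z (y x) = y (z x) at e
    rw [hyx, hzx, act z hz hzf w hzx, act y hy hyf v hyx] at e
    exact h.inj ((A.bijL x).1 e)

theorem Wx_bot (hss : ∀ N : Subgroup V, N.Normal → Group.IsSolvable N → N = ⊥) (x : Q) :
    Wx h hc x = ⊥ := by
  refine hss _ (Wx_normal h hc x) ⟨⟨2, ?_⟩⟩
  have h1 : derivedSeries (Wx h hc x) 1 = commutator (Wx h hc x) := by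
    rw [derivedSeries_succ, derivedSeries_zero, commutator_def]
  rw [derivedSeries_succ, h1, Subgroup.commutator_eq_bot_iff_le_centralizer]
  intro a ha
  rw [Subgroup.mem_centralizer_iff]
  intro b hb
  exact (Wx_metab h hc x a ha b hb).symm

/-- the right translations by the image form a group -/
theorem R_fix (hss : ∀ N : Subgroup V, N.Normal → Group.IsSolvable N → N = ⊥)
    {z : Equiv.Perm Q} (hz : z ∈ RR A io) (hzf : ∀ v, z (io v) = io v) : z = 1 := by
  ext x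
  show z x = x
  obtain ⟨w, hw⟩ := coR h x hz 1
  rw [h.one, A.idr] at hw
  have h1 : w ∈ Wx h hc x := (mem_Wx h hc).2 ⟨z, hz, hzf, hw⟩
  rw [Wx_bot h hc hss, Subgroup.mem_bot] at h1
  rw [hw, h1, h.one, A.idr]

theorem R_mulV (hss : ∀ N : Subgroup V, N.Normal → Group.IsSolvable N → N = ⊥) (x : Q) (u v : V) :
    A.op (A.op x (io u)) (io v) = A.op x (io (u * v)) := by
  have h1 := R_fix h hc hss (z := (A.R (io (u * v)))⁻¹ * (A.R (io v) * A.R (io u)))
    (mul_mem (inv_mem (R_RR _)) (mul_mem (R_RR _) (R_RR _))) (fun w => by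
      show (A.R (io (u * v)))⁻¹ (A.op (A.op (io w) (io u)) (io v)) = io w
      rw [Equiv.Perm.inv_eq_iff_eq]
      show _ = A.op (io w) (io (u * v))
      rw [← h.mul, ← h.mul, ← h.mul, mul_assoc])
  have h2 := congrArg (fun k : Equiv.Perm Q => k x) h1
  change (A.R (io (u * v)))⁻¹ (A.op (A.op x (io u)) (io v)) = x at h2
  rw [Equiv.Perm.inv_eq_iff_eq] at h2
  exact h2

/-- right nucleus -/
theorem nucR (hss : ∀ N : Subgroup V, N.Normal → Group.IsSolvable N → N = ⊥) (y x : Q) (m : V) :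
    A.op (A.op y x) (io m) = A.op y (A.op x (io m)) := by
  have hmv := R_mulV h hc hss
  set θ : Equiv.Perm Q := (A.R (io m))⁻¹ * ((A.L y)⁻¹ * A.R (io m) * A.L y) with hθ
  have hθM : θ ∈ Mlt A := mul_mem (inv_mem (R_Mlt _)) (mul_mem (mul_mem (inv_mem (L_Mlt _))
    (R_Mlt _)) (L_Mlt _))
  have hθf : ∀ v, θ (io v) = io v := by
    intro v
    show (A.R (io m))⁻¹ ((A.L y)⁻¹ (A.op (A.op y (io v)) (io m))) = io v
    rw [Equiv.Perm.inv_eq_iff_eq, Equiv.Perm.inv_eq_iff_eq, hmv]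
    show _ = A.op y (A.op (io v) (io m))
    rw [h.mul]
  have hθa : θ ∈ A.Aut := inn_aut hθM (by rw [← h.one]; exact hθf 1)
  have hx : ∀ x, θ x = x := by
    intro x
    -- `θ x` lies in the coset
    obtain ⟨a, ha⟩ : ∃ a, θ x = A.op x (io a) := by
      obtain ⟨m', hm'⟩ : ∃ m', (A.L y)⁻¹ (A.op (A.op y x) (io m)) = A.op x (io m') := by
        have hk : ((A.L (A.op y x))⁻¹ * A.L y * A.L x)⁻¹ ∈ Mlt A :=
          inv_mem (mul_mem (mul_mem (inv_mem (L_Mlt _)) (L_Mlt _)) (L_Mlt _))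
        obtain ⟨w, hw⟩ := h.nrm _ hk (by
          rw [Equiv.Perm.inv_eq_iff_eq]
          show A.e = (A.L (A.op y x))⁻¹ (A.op y (A.op x A.e))
          rw [eq_comm, Equiv.Perm.inv_eq_iff_eq]
          show _ = A.op (A.op y x) A.e
          rw [A.idr, A.idr]) m
        refine ⟨w, ?_⟩
        rw [Equiv.Perm.inv_eq_iff_eq] at hw
        have hw' : io m = (A.L (A.op y x))⁻¹ (A.op y (A.op x (io w))) := hw
        rw [eq_comm, Equiv.Perm.inv_eq_iff_eq] at hw'
        rw [Equiv.Perm.inv_eq_iff_eq]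
        exact hw'.symm
      obtain ⟨a, ha⟩ := coR h x (inv_mem (R_RR (A := A) (io := io) m)) m'
      refine ⟨a, ?_⟩
      show (A.R (io m))⁻¹ ((A.L y)⁻¹ (A.op (A.op y x) (io m))) = _
      rw [hm', ha]
    -- `a` is central
    have hcen : ∀ u, a * u = u * a := by
      intro u
      obtain ⟨l, hl, hlx⟩ := coL h x u
      have e1 := congrArg (fun k : Equiv.Perm Q => k x) (fixL h (Mlt_le hθM) hθf hl)
      have e2 := congrArg (fun k : Equiv.Perm Q => k x) (hc _ (R_RR a) l hl)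
      have e3 := congrArg (fun k : Equiv.Perm Q => k x)
        (fixR h (Mlt_le hθM) hθf (R_RR (A := A) (io := io) u))
      change θ (l x) = l (θ x) at e1
      change A.R (io a) (l x) = l (A.op x (io a)) at e2
      change θ (A.op x (io u)) = A.op (θ x) (io u) at e3
      rw [ha, ← e2, hlx] at e1
      change θ (A.op x (io u)) = A.op (A.op x (io u)) (io a) at e1
      rw [ha, e1, hmv, hmv] at e3
      exact (h.inj ((A.bijL x).1 e3)).symm
    have ha1 : a = 1 := by
      have h1 : Subgroup.center V = ⊥ := hss _ inferInstance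
        (Group.isSolvable_of_comm fun a b => Subtype.ext
          ((Subgroup.mem_center_iff.1 b.2 a)))
      have h2 : a ∈ Subgroup.center V := Subgroup.mem_center_iff.2 fun g => (hcen g).symm
      rwa [h1, Subgroup.mem_bot] at h2
    rw [ha, ha1, h.one, A.idr]
  have h1 := hx x
  change (A.R (io m))⁻¹ ((A.L y)⁻¹ (A.op (A.op y x) (io m))) = x at h1
  rw [Equiv.Perm.inv_eq_iff_eq, Equiv.Perm.inv_eq_iff_eq] at h1
  exact h1

omit hc [Finite V] in
theorem io_inv (v : V) : io v⁻¹ = A.inv (io v) := by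
  apply AL.eq_inv
  rw [← h.mul, mul_inv_cancel, h.one]

theorem nucL (hss : ∀ N : Subgroup V, N.Normal → Group.IsSolvable N → N = ⊥) (x y : Q) (m : V) :
    A.op (A.op (io m) x) y = A.op (io m) (A.op x y) := by
  have h1 := nucR h hc hss (A.inv y) (A.inv x) m⁻¹
  have h2 := congrArg A.inv h1
  rw [AL.aaip, AL.aaip, AL.aaip, AL.aaip, io_inv h, AL.inv_inv', AL.inv_inv', AL.inv_inv'] at h2
  exact h2.symm

theorem nucM (hss : ∀ N : Subgroup V, N.Normal → Group.IsSolvable N → N = ⊥) (x y : Q) (m : V) :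
    A.op (A.op x (io m)) y = A.op x (A.op (io m) y) := by
  set T : Equiv.Perm Q := (A.L (io m))⁻¹ * A.R (io m) with hT
  have hTM : T ∈ Mlt A := mul_mem (inv_mem (L_Mlt _)) (R_Mlt _)
  have hTa : T ∈ A.Aut := inn_aut hTM (by
    show (A.L (io m))⁻¹ (A.op A.e (io m)) = A.e
    rw [Equiv.Perm.inv_eq_iff_eq]
    show _ = A.op (io m) A.e
    rw [A.idl, A.idr])
  have hTs : ∀ z, A.op (io m) (T z) = A.op z (io m) := by
    intro z
    show A.L (io m) ((A.L (io m))⁻¹ (A.op z (io m))) = _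
    rw [ai]
  have h1 := hTs (A.op x (T⁻¹ y))
  rw [AL.aut_apply hTa, ai, nucR h hc hss, ← hTs (T⁻¹ y), ai, ← nucL h hc hss, hTs] at h1
  exact h1

end

end Pool.Agent.TH427.AR
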