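import Pool.Agent.W155.SY.Core
import Pool.Agent.TH427.AR.Nuc
import Pool.Agent.TH427.AR.Grp

/-!
Automorphic loops without solvable normal subloops: the nucleus and its centralizer.
-/

set_option autoImplicit false
set_option linter.unusedSectionVars false
set_option linter.unusedVariables false

namespace Pool.Agent.TH427.AR

open H675HL H675HL.CharAux
open Pool.Agent.W155.SY (Solv Step)

/-- the same loop as a structure -/
@[reducible] def toA (Q : Type) [AL Q] : Pool.Agent.H687R3.AL.AL Q where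
  op a b := a * b
  e := 1
  idl := AL.one_mul'
  idr := AL.mul_one'
  bijL := AL.bijL
  bijR := AL.bijR
  autL x y z₁ z₂ w₁ w₂ h1 h2 := AL.autL y x z₁ z₂ w₁ w₂ h1 h2
  autR x y z₁ z₂ w₁ w₂ h1 h2 := AL.autR y x z₁ z₂ w₁ w₂ h1 h2
  autT x z₁ z₂ w₁ w₂ h1 h2 := AL.autT x z₁ z₂ w₁ w₂ h1 h2

variable {Q : Type} [AL Q]

/-- invariance under inner mappings -/
def Inn (M : Set Q) : Prop :=
  ∀ g ∈ Mlt (toA Q), g (1 : Q) = 1 → (∀ x y : Q, g (x * y) = g x * g y) → ∀ m ∈ M, g m ∈ M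

theorem gT_M (x : Q) : gT x ∈ Mlt (toA Q) := by
  have e : gT x = ((toA Q).R x)⁻¹ * (toA Q).L x := rfl
  rw [e]
  exact mul_mem (inv_mem (R_Mlt _)) (L_Mlt _)

theorem gR_M (x y : Q) : gR x y ∈ Mlt (toA Q) := by
  have e : gR x y = ((toA Q).R (x * y))⁻¹ * ((toA Q).R y * (toA Q).R x) := rfl
  rw [e]
  exact mul_mem (inv_mem (R_Mlt _)) (mul_mem (R_Mlt _) (R_Mlt _))

theorem gL_M (x y : Q) : gL x y ∈ Mlt (toA Q) := by
  have e : gL x y = ((toA Q).L (y * x))⁻¹ * ((toA Q).L y * (toA Q).L x) := rfl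
  rw [e]
  exact mul_mem (inv_mem (L_Mlt _)) (mul_mem (L_Mlt _) (L_Mlt _))

theorem aut_one {g : Equiv.Perm Q} (hg : ∀ x y : Q, g (x * y) = g x * g y) : g 1 = 1 := by
  apply L_inj (a := g 1)
  rw [← hg, AL.one_mul', AL.mul_one']

theorem normal_of_inn {M : Set Q} (hM : H675HL.Sub M) (h : Inn M) : Normal M := by
  refine ⟨hM, fun x y m hm => ⟨?_, ?_, ?_⟩⟩
  · exact ⟨gT x m, h _ (gT_M x) (aut_one (gT_aut x)) (gT_aut x) m hm, (gT_spec x m).symm⟩
  · exact ⟨gR x y m, h _ (gR_M x y) (aut_one (gR_aut x y)) (gR_aut x y) m hm,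
      (gR_spec x y m).symm⟩
  · exact ⟨gL x y m, h _ (gL_M x y) (aut_one (gL_aut x y)) (gL_aut x y) m hm,
      (gL_spec x y m).symm⟩

theorem rel_mlt [Finite Q] {M : Set Q} (hM : Normal M) {g : Equiv.Perm Q}
    (hg : g ∈ Mlt (toA Q)) : ∀ x y, Quo.rel M x y ↔ Quo.rel M (g x) (g y) := by
  unfold Mlt at hg
  induction hg using Subgroup.closure_induction with
  | mem k hk =>
    rcases hk with ⟨a, rfl⟩ | ⟨a, rfl⟩
    · intro x y
      exact ⟨fun h => Quo.rel_mulL hM a h, fun h => Quo.rel_cancL hM a h⟩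
    · intro x y
      exact ⟨fun h => Quo.rel_mulR hM a h, fun h => Quo.rel_cancR hM a h⟩
  | one => intro x y; exact Iff.rfl
  | mul g k _ _ ihg ihk => exact fun x y => (ihk x y).trans (ihg (k x) (k y))
  | inv g _ ih =>
    intro x y
    have h := ih (g⁻¹ x) (g⁻¹ y)
    rw [Pool.Agent.W790.LG.ai, Pool.Agent.W790.LG.ai] at h
    exact h.symm

theorem inn_of_normal [Finite Q] {M : Set Q} (hM : Normal M) {g : Equiv.Perm Q}
    (hg : g ∈ Mlt (toA Q)) (h1 : g (1 : Q) = 1) : ∀ m ∈ M, g m ∈ M := by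
  intro m hm
  have h2 : Quo.rel M 1 m := ⟨m, hm, (AL.mul_one' m).symm⟩
  rw [rel_mlt hM hg, h1] at h2
  obtain ⟨m', hm', he⟩ := h2
  rw [he, AL.mul_one']
  exact hm'

/-! ### solvable subloops -/

theorem solv_inter [Finite Q] {P T : Set Q} (hP : Solv (fun a b : Q => a * b) 1 P)
    (hT : H675HL.Sub T) (hTP : T ⊆ P) : Solv (fun a b : Q => a * b) 1 T := by
  obtain ⟨-, n, S, h0, hn, hS⟩ := hP
  refine ⟨hT.2, n, fun i => S i ∩ T, ?_, ?_, ?_⟩
  · show S 0 ∩ T = {1}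
    rw [h0]
    ext x
    exact ⟨fun h => h.1, fun h => ⟨h, by rw [Set.mem_singleton_iff] at h; rw [h]; exact hT.1⟩⟩
  · show S n ∩ T = T
    rw [hn]
    exact Set.inter_eq_right.2 hTP
  · intro i hi
    obtain ⟨h1, h2, h3, h4, h5⟩ := hS i hi
    refine ⟨Set.inter_subset_inter_left _ h1, ⟨h2, hT.1⟩,
      fun a ha b hb => ⟨h3 a ha.1 b hb.1, hT.2 a ha.2 b hb.2⟩, ?_, ?_⟩
    · intro x hx y hy m hm
      obtain ⟨⟨a, ha, ea⟩, ⟨b, hb, eb⟩, ⟨c, hc, ec⟩⟩ := h4 x hx.1 y hy.1 m hm.1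
      refine ⟨⟨a, ⟨ha, ?_⟩, ea⟩, ⟨b, ⟨hb, ?_⟩, eb⟩, ⟨c, ⟨hc, ?_⟩, ec⟩⟩
      · exact HA.W237.solR_mem hT hx.2 (hT.2 _ hx.2 _ hm.2) ea
      · exact HA.W237.solR_mem hT (hT.2 _ hx.2 _ hy.2) (hT.2 _ (hT.2 _ hm.2 _ hx.2) _ hy.2) eb
      · exact HA.W237.solL_mem hT (hT.2 _ hy.2 _ hx.2) (hT.2 _ hy.2 _ (hT.2 _ hx.2 _ hm.2)) ec
    · intro x hx y hy z hz
      obtain ⟨⟨a, ha, ea⟩, ⟨b, hb, eb⟩⟩ := h5 x hx.1 y hy.1 z hz.1
      refine ⟨⟨a, ⟨ha, ?_⟩, ea⟩, ⟨b, ⟨hb, ?_⟩, eb⟩⟩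
      · exact HA.W237.solL_mem hT (hT.2 _ hx.2 _ (hT.2 _ hy.2 _ hz.2))
          (hT.2 _ (hT.2 _ hx.2 _ hy.2) _ hz.2) ea
      · exact HA.W237.solL_mem hT (hT.2 _ hy.2 _ hx.2) (hT.2 _ hx.2 _ hy.2) eb

/-- the image of a step -/
theorem step_img {X : Type} [Mul X] (j : X → Q) (hj : ∀ x y, j (x * y) = j x * j y) (e : X)
    (he : j e = 1) {M N : Set X} (h : Step (fun a b : X => a * b) e M N) :
    Step (fun a b : Q => a * b) 1 (j '' M) (j '' N) := by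
  obtain ⟨h1, h2, h3, h4, h5⟩ := h
  refine ⟨Set.image_mono h1, ⟨e, h2, he⟩, ?_, ?_, ?_⟩
  · rintro _ ⟨a, ha, rfl⟩ _ ⟨b, hb, rfl⟩
    exact ⟨a * b, h3 _ ha _ hb, hj a b⟩
  · rintro _ ⟨x, hx, rfl⟩ _ ⟨y, hy, rfl⟩ _ ⟨m, hm, rfl⟩
    obtain ⟨⟨m1, hm1, e1⟩, ⟨m2, hm2, e2⟩, ⟨m3, hm3, e3⟩⟩ := h4 x hx y hy m hm
    simp only at e1 e2 e3
    refine ⟨⟨j m1, ⟨m1, hm1, rfl⟩, ?_⟩, ⟨j m2, ⟨m2, hm2, rfl⟩, ?_⟩,
      ⟨j m3, ⟨m3, hm3, rfl⟩, ?_⟩⟩
    · simp only [← hj]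
      rw [e1]
    · simp only [← hj]
      rw [e2]
    · simp only [← hj]
      rw [e3]
  · rintro _ ⟨x, hx, rfl⟩ _ ⟨y, hy, rfl⟩ _ ⟨z, hz, rfl⟩
    obtain ⟨⟨m1, hm1, e1⟩, ⟨m2, hm2, e2⟩⟩ := h5 x hx y hy z hz
    simp only at e1 e2
    refine ⟨⟨j m1, ⟨m1, hm1, rfl⟩, ?_⟩, ⟨j m2, ⟨m2, hm2, rfl⟩, ?_⟩⟩
    · simp only [← hj]
      rw [e1]
    · simp only [← hj]
      rw [e2]

theorem solv_img {X : Type} [Mul X] (j : X → Q) (hj : ∀ x y, j (x * y) = j x * j y) (e : X)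
    (he : j e = 1) {P : Set X} (h : Solv (fun a b : X => a * b) e P) :
    Solv (fun a b : Q => a * b) 1 (j '' P) := by
  obtain ⟨hc, n, S, h0, hn, hS⟩ := h
  refine ⟨?_, n, fun i => j '' S i, ?_, ?_, fun i hi => step_img j hj e he (hS i hi)⟩
  · rintro _ ⟨a, ha, rfl⟩ _ ⟨b, hb, rfl⟩
    exact ⟨a * b, hc _ ha _ hb, hj a b⟩
  · show j '' S 0 = {1}
    rw [h0, Set.image_singleton, he]
  · show j '' S n = _
    rw [hn]

/-! ### normal subgroups -/

section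
variable {V : Type} [Group V] [Finite V] {io : V → Q}

theorem chi (h : NE (toA Q) io) {g : Equiv.Perm Q} (hg : g ∈ Mlt (toA Q)) (h1 : g (1 : Q) = 1)
    (U : Subgroup V) (hU : U.Characteristic) {v : V} (hv : v ∈ U) : ∃ v' ∈ U, g (io v) = io v' := by
  have ha : ∀ x y : Q, g (x * y) = g x * g y := inn_aut hg h1
  choose f hf using h.nrm g hg h1
  have hmul : ∀ u v, io (u * v) = io u * io v := h.mul
  let φ0 : V →* V := MonoidHom.mk' f (fun a b => by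
    apply h.inj
    rw [← hf, hmul, hmul, ha, hf, hf])
  have hinj : Function.Injective φ0 := by
    intro a b hab
    have hab' : f a = f b := hab
    apply h.inj
    apply g.injective
    rw [hf, hf, hab']
  let φ : V ≃* V := MulEquiv.ofBijective φ0 (Finite.injective_iff_bijective.1 hinj)
  exact ⟨f v, Subgroup.characteristic_iff_le_comap.1 hU φ hv, hf v⟩

theorem ne_sub (h : NE (toA Q) io) (D : Subgroup V) (hD : D.Characteristic) :
    NE (toA Q) (fun d : D => io d) where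
  inj := h.inj.comp Subtype.val_injective
  mul u v := h.mul u v
  nrm g hg h1 v := by
    obtain ⟨v', hv', he⟩ := chi h hg h1 D hD v.2
    exact ⟨⟨v', hv'⟩, he⟩

theorem normal_io (h : NE (toA Q) io) (U : Subgroup V) (hU : U.Characteristic) :
    Normal (io '' (U : Set V)) := by
  refine normal_of_inn ⟨⟨1, U.one_mem, h.one⟩, ?_⟩ ?_
  · rintro _ ⟨a, ha, rfl⟩ _ ⟨b, hb, rfl⟩
    exact ⟨a * b, U.mul_mem ha hb, h.mul a b⟩
  · rintro g hg h1 _ _ ⟨v, hv, rfl⟩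
    obtain ⟨v', hv', he⟩ := chi h hg h1 U hU hv
    exact ⟨v', hv', he.symm⟩

/-- no nontrivial solvable normal subloops -/
def NoSol (Q : Type) [AL Q] : Prop :=
  ∀ B : Set Q, Normal B → Solv (fun a b : Q => a * b) 1 B → B = {1}

theorem cs (hB : NoSol Q) (h : NE (toA Q) io) (U : Subgroup V) (hU : U.Characteristic)
    (hs : Group.IsSolvable U) : U = ⊥ := by
  have h1 := hB _ (normal_io h U hU)
    (solv_img io h.mul 1 h.one (Pool.Agent.W155.SY.solv_group U hs))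
  rw [eq_bot_iff]
  intro v hv
  have h2 : io v ∈ ({1} : Set Q) := h1 ▸ ⟨v, hv, rfl⟩
  rw [Subgroup.mem_bot]
  exact h.inj (h2.trans h.one.symm)

end

/-- the nucleus -/
def Nu (Q : Type) [AL Q] : Set Q :=
  {a | ∀ x y : Q, (x * y) * a = x * (y * a) ∧ (a * x) * y = a * (x * y) ∧
    (x * a) * y = x * (a * y)}

/-- the centralizer of the nucleus -/
def Ce (Q : Type) [AL Q] : Set Q := {x | ∀ a ∈ Nu Q, x * a = a * x}

theorem Nu_aut {g : Equiv.Perm Q} (hg : ∀ x y : Q, g (x * y) = g x * g y) {a : Q}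
    (ha : a ∈ Nu Q) : g a ∈ Nu Q := by
  intro x y
  obtain ⟨x, rfl⟩ := g.surjective x
  obtain ⟨y, rfl⟩ := g.surjective y
  obtain ⟨h1, h2, h3⟩ := ha x y
  refine ⟨?_, ?_, ?_⟩
  · rw [← hg, ← hg, h1, hg, hg]
  · rw [← hg, ← hg, h2, hg, hg]
  · rw [← hg, ← hg, h3, hg, hg]

theorem Ce_sub : H675HL.Sub (Ce Q) := by
  refine ⟨fun a _ => by rw [AL.one_mul', AL.mul_one'], ?_⟩
  intro x hx y hy a ha
  obtain ⟨h1, h2, h3⟩ := ha x y
  rw [h1, hy a ha, ← h3, hx a ha, h2]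

theorem Ce_normal : Normal (Ce Q) := by
  refine normal_of_inn Ce_sub ?_
  intro g hg h1 haut x hx a ha
  have hinv : ∀ x y : Q, g⁻¹ (x * y) = g⁻¹ x * g⁻¹ y := by
    intro x y
    rw [Equiv.Perm.inv_eq_iff_eq, haut, Pool.Agent.W790.LG.ai, Pool.Agent.W790.LG.ai]
  have h2 := hx _ (Nu_aut hinv ha)
  have h3 := congrArg g h2
  rw [haut, haut, Pool.Agent.W790.LG.ai] at h3
  exact h3

variable [Finite Q]

/-- a normal subloop which is a group -/
@[reducible] noncomputable def grpN {N : Set Q} (hN : H675HL.Sub N)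
    (ha : ∀ x ∈ N, ∀ y ∈ N, ∀ z ∈ N, (x * y) * z = x * (y * z)) : Group N :=
  letI i : AL N := H99.subAL N hN
  @Group.ofLeftAxioms N _ ⟨fun a => ((AL.bijR a).2 1).choose⟩ _
    (fun x y z => Subtype.ext (ha x x.2 y y.2 z z.2))
    (fun a => AL.one_mul' a) (fun a => ((AL.bijR a).2 1).choose_spec)

theorem ne_N {N : Set Q} (hN : Normal N)
    (ha : ∀ x ∈ N, ∀ y ∈ N, ∀ z ∈ N, (x * y) * z = x * (y * z)) :
    @NE Q N (grpN hN.1 ha) (toA Q) Subtype.val := by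
  let _ := grpN hN.1 ha
  exact
    { inj := Subtype.val_injective
      mul := fun u v => rfl
      nrm := fun g hg h1 v => ⟨⟨g v, inn_of_normal hN hg h1 v v.2⟩, rfl⟩ }

theorem core_nuc {V : Type} [Group V] [Finite V] {io : V → Q} (hB : NoSol Q)
    (h : NE (toA Q) io) :
    ∃ D : Subgroup V, ∃ _ : D.Characteristic, ∃ _ : D.Normal, Group.IsSolvable (V ⧸ D) ∧
      (∀ v ∈ D, io v ∈ Nu Q) ∧ ∀ v ∈ D, (∀ w ∈ D, v * w = w * v) → v = 1 := by
  obtain ⟨D, hD, hDD, hDn, hs⟩ := pc V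
  have h2 := ne_sub h D hD
  have hp := perfect_of hDD
  have hss : ∀ N : Subgroup D, N.Normal → Group.IsSolvable N → N = ⊥ :=
    fun N hN hsN => ss (fun U hU hsU => cs hB h2 U hU hsU) N hN hsN
  have hc := comm_all h2 hp
  refine ⟨D, hD, hDn, hs, ?_, ?_⟩
  · intro v hv x y
    exact ⟨nucR h2 hc hss x y ⟨v, hv⟩, nucL h2 hc hss x y ⟨v, hv⟩, nucM h2 hc hss x y ⟨v, hv⟩⟩
  · intro v hv hcomm
    have h3 : Subgroup.center D = ⊥ := hss _ inferInstance
      (Group.isSolvable_of_comm fun a b => Subtype.ext ((Subgroup.mem_center_iff.1 b.2 a)))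
    have h4 : (⟨v, hv⟩ : D) ∈ Subgroup.center D :=
      Subgroup.mem_center_iff.2 fun g => Subtype.ext (hcomm g g.2).symm
    rw [h3, Subgroup.mem_bot] at h4
    exact congrArg Subtype.val h4

/-- if the centralizer of the nucleus is a group, then it is trivial -/
theorem cen_one (hB : NoSol Q)
    (ha : ∀ x ∈ Ce Q, ∀ y ∈ Ce Q, ∀ z ∈ Ce Q, (x * y) * z = x * (y * z)) : Ce Q = {1} := by
  let _ := grpN Ce_sub ha
  have h := ne_N Ce_normal ha
  obtain ⟨D, hD, hDn, hs, hnu, hce⟩ := core_nuc hB h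
  have hDb : D = ⊥ := by
    rw [eq_bot_iff]
    intro v hv
    rw [Subgroup.mem_bot]
    exact hce v hv fun w hw => Subtype.ext (v.2 _ (hnu w hw))
  have hsol : Group.IsSolvable (Ce Q) := by
    refine solvable_of_solvable_injective (f := QuotientGroup.mk' D) ?_
    rw [← MonoidHom.ker_eq_bot_iff, QuotientGroup.ker_mk', hDb]
  have htop := cs hB h ⊤ inferInstance inferInstance
  ext x
  rw [Set.mem_singleton_iff]
  constructor
  · intro hx
    have h1 : (⟨x, hx⟩ : Ce Q) ∈ (⊤ : Subgroup (Ce Q)) := Subgroup.mem_top _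
    rw [htop, Subgroup.mem_bot] at h1
    exact (congrArg Subtype.val h1).trans h.one
  · rintro rfl
    exact Ce_sub.1

/-- if the centralizer of the nucleus is trivial, then the loop is a group -/
theorem assoc_of (hC : Ce Q = {1}) (x y z : Q) : (x * y) * z = x * (y * z) := by
  obtain ⟨c, hc⟩ := (AL.bijL (x * (y * z))).2 ((x * y) * z)
  have hc' : (x * (y * z)) * c = (x * y) * z := hc
  have hcC : c ∈ Ce Q := by
    intro a ha
    have hT : ∀ x : Q, ∀ a ∈ Nu Q, gT x a ∈ Nu Q := fun x a ha => Nu_aut (gT_aut x) ha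
    set a1 := gT z a with ha1
    set a2 := gT y a1 with ha2
    set a3 := gT x a2 with ha3
    have m1 : a1 ∈ Nu Q := hT z a ha
    have m2 : a2 ∈ Nu Q := hT y a1 m1
    have m3 : a3 ∈ Nu Q := hT x a2 m2
    have e1 : a1 * z = z * a := gT_spec z a
    have e2 : a2 * y = y * a1 := gT_spec y a1
    have e3 : a3 * x = x * a2 := gT_spec x a2
    have p : ((x * y) * z) * a = a3 * ((x * y) * z) := by
      rw [(ha (x * y) z).1, ← e1, ← (m1 (x * y) z).2.2, (m1 x y).1, ← e2, ← (m2 x y).2.2, ← e3,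
        (m3 x y).2.1, (m3 (x * y) z).2.1]
    have q : (x * (y * z)) * a = a3 * (x * (y * z)) := by
      rw [(ha x (y * z)).1, (ha y z).1, ← e1, ← (m1 y z).2.2, ← e2, (m2 y z).2.1,
        ← (m2 x (y * z)).2.2, ← e3, (m3 x (y * z)).2.1]
    have h1 : (x * (y * z)) * (c * a) = (x * (y * z)) * (a * c) := by
      rw [← (ha (x * (y * z)) c).1, hc', p, ← hc', ← (m3 (x * (y * z)) c).2.1, ← q,
        (ha (x * (y * z)) c).2.2]
    exact L_inj h1
  rw [hC, Set.mem_singleton_iff] at hcC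
  rw [hcC, AL.mul_one'] at hc'
  exact hc'.symm

/-- an extension of a group by a group without solvable normal subloops is a group -/
theorem two_step (hB : NoSol Q) {N : Set Q} (hN : Normal N)
    (ha : ∀ x ∈ N, ∀ y ∈ N, ∀ z ∈ N, (x * y) * z = x * (y * z))
    (hq : ∀ x y z : Q, ∃ m ∈ N, (x * y) * z = (x * (y * z)) * m) (x y z : Q) :
    (x * y) * z = x * (y * z) := by
  let _ := grpN hN.1 ha
  have h := ne_N hN ha
  obtain ⟨D, hD, hDn, hs, hnu, hce⟩ := core_nuc hB h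
  have hX : Subgroup.centralizer (D : Set N) = ⊥ := by
    refine cs hB h _ inferInstance ?_
    refine solvable_of_solvable_injective
      (f := (QuotientGroup.mk' D).comp (Subgroup.centralizer (D : Set N)).subtype) ?_
    rw [← MonoidHom.ker_eq_bot_iff, eq_bot_iff]
    intro v hv
    rw [MonoidHom.mem_ker, MonoidHom.comp_apply, QuotientGroup.mk'_apply,
      QuotientGroup.eq_one_iff] at hv
    rw [Subgroup.mem_bot]
    apply Subtype.ext
    refine hce _ hv fun w hw => ?_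
    exact ((Subgroup.mem_centralizer_iff.1 v.2) w hw).symm
  have hNC : ∀ c ∈ N, c ∈ Ce Q → c = 1 := by
    intro c hcN hcC
    have h1 : (⟨c, hcN⟩ : N) ∈ Subgroup.centralizer (D : Set N) := by
      rw [Subgroup.mem_centralizer_iff]
      intro d hd
      exact Subtype.ext (hcC _ (hnu d hd)).symm
    rw [hX, Subgroup.mem_bot] at h1
    exact (congrArg Subtype.val h1).trans h.one
  refine assoc_of (cen_one hB ?_) x y z
  intro x hx y hy z hz
  obtain ⟨m, hm, he⟩ := hq x y z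
  have hmC : m ∈ Ce Q := HA.W237.solL_mem Ce_sub (Ce_sub.2 _ hx _ (Ce_sub.2 _ hy _ hz))
    (Ce_sub.2 _ (Ce_sub.2 _ hx _ hy) _ hz) he
  rw [he, hNC m hm hmC, AL.mul_one']

end Pool.Agent.TH427.AR
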