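import Pool.Agent.TH427.AR.PS

/-!
The order of the multiplication group of a finite simple nonassociative automorphic loop of even
order is divisible by eight.
-/

set_option autoImplicit false
set_option linter.unusedSectionVars false
set_option linter.unusedVariables false

namespace Pool.Agent.TH427.AR

open Pool.Agent.H687R3.AL
open Pool.Agent.W790.LG (ai ia)
open Equiv (Perm)

section

variable {Q : Type} {A : AL Q}

theorem E_inj (H : Hyp A) {a b : Q} (h : A.E a = A.E b) : a = b := by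
  have h1 : A.E ((A.L a)⁻¹ b) = A.J := by
    rw [← Mlt_E (inv_mem (L_Mlt a)), ← h, inv_inv, ← AL.E_e]
    have := Mlt_E (inv_mem (L_Mlt (A := A) a)) a
    rw [inv_inv] at this
    rw [this]
    congr 1
    rw [Equiv.Perm.inv_eq_iff_eq]
    exact (A.idr a).symm
  obtain ⟨c, hc⟩ : ∃ c, (A.L a)⁻¹ b = c := ⟨_, rfl⟩
  rw [hc] at h1
  have h2 : A.L c * A.J = A.J * A.L c := by
    have h3 := Mlt_E (L_Mlt (A := A) c) A.e
    have h4 : A.L c A.e = c := A.idr c
    rw [h4, AL.E_e, h1] at h3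
    calc A.L c * A.J = (A.L c * A.J * (A.L c)⁻¹) * A.L c := by group
      _ = A.J * A.L c := by rw [h3]
  have h3 := CJ_e H.hs H.hJ (L_Mlt c) h2
  have h4 : A.L c A.e = c := A.idr c
  rw [h4] at h3
  rw [h3, Equiv.Perm.inv_eq_iff_eq] at hc
  have h5 : A.L a A.e = a := A.idr a
  rw [h5] at hc
  exact hc.symm

/-- elements of the multiplication group commute with `E y` iff they fix `y` -/
theorem E_comm (H : Hyp A) {g : Perm Q} (hg : g ∈ Mlt A) {y : Q} :
    g * A.E y = A.E y * g ↔ g y = y := by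
  constructor
  · intro h
    apply E_inj H
    rw [← Mlt_E hg, h, mul_inv_cancel_right]
  · intro h
    have h1 := Mlt_E hg y
    rw [h] at h1
    calc g * A.E y = (g * A.E y * g⁻¹) * g := by group
      _ = A.E y * g := by rw [h1]

/-- the involution in the inner mapping group given by an element of order two -/
structure Inv2 (A : AL Q) (x : Q) (T : Perm Q) : Prop where
  ne : x ≠ A.e
  sq : A.inv x = x
  L_eq : A.L x = A.R x * T
  comm : T * A.R x = A.R x * T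
  T_e : T A.e = A.e
  T_M : T ∈ Mlt A
  T_sq : T * T = 1
  T_ne : T ≠ 1

theorem exists_inv2 [Finite Q] (H : Hyp A) (h : 2 ∣ Nat.card Q) : ∃ x T, Inv2 A x T := by
  obtain ⟨x, hx, hx2⟩ := cp_two (A := A) h
  have hinv : A.inv x = x := by
    rw [← op_pw, pw_one] at hx2
    exact (AL.eq_inv hx2).symm
  have hRe : A.R x A.e = x := A.idl x
  have hLe : A.L x A.e = x := A.idr x
  have hTM : (A.R x)⁻¹ * A.L x ∈ Mlt A := mul_mem (inv_mem (R_Mlt x)) (L_Mlt x)
  have hTe : ((A.R x)⁻¹ * A.L x) A.e = A.e := by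
    show (A.R x)⁻¹ (A.L x A.e) = A.e
    rw [Equiv.Perm.inv_eq_iff_eq, hLe, hRe]
  have hfl : A.L x * A.R x = A.R x * A.L x := AL.flex x
  have hcomm : ((A.R x)⁻¹ * A.L x) * A.R x = A.R x * ((A.R x)⁻¹ * A.L x) := by
    rw [mul_assoc, hfl]
    group
  have hJT : A.J * ((A.R x)⁻¹ * A.L x) * A.J = ((A.R x)⁻¹ * A.L x) := by
    rw [Jfix_iff]
    exact AL.aut_J (inn_aut hTM hTe)
  have hJT2 : A.J * ((A.R x)⁻¹ * A.L x) * A.J = ((A.R x)⁻¹ * A.L x)⁻¹ := by
    rw [Jmul, Jinv, AL.J_R_J, AL.J_L_J, hinv]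
    have : (A.L x)⁻¹ * A.R x = ((A.R x)⁻¹ * A.L x)⁻¹ := by group
    exact this
  refine ⟨x, (A.R x)⁻¹ * A.L x, hx, hinv, by group, hcomm, hTe, hTM, ?_, ?_⟩
  · have h1 : ((A.R x)⁻¹ * A.L x) = ((A.R x)⁻¹ * A.L x)⁻¹ := hJT.symm.trans hJT2
    calc ((A.R x)⁻¹ * A.L x) * ((A.R x)⁻¹ * A.L x)
        = ((A.R x)⁻¹ * A.L x) * ((A.R x)⁻¹ * A.L x)⁻¹ := by rw [← h1]
      _ = 1 := by group
  · intro h1
    have h2 : A.L x = A.R x := by
      calc A.L x = A.R x * ((A.R x)⁻¹ * A.L x) := by group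
        _ = A.R x := by rw [h1, mul_one]
    have h3 : A.J * A.L x * A.J = A.L x := by rw [AL.J_L_J, hinv, h2]
    have h4 := CJ_e H.hs H.hJ (L_Mlt x) (Jfix_iff.1 h3)
    rw [hLe] at h4
    exact hx h4

/-- the product of the involutions of `y` and `y x` -/
theorem Inv2.EE {x : Q} {T : Perm Q} (h : Inv2 A x T) (y : Q) :
    A.E y * A.E (A.R x y) = A.L y * T * (A.L y)⁻¹ := by
  have h1 : A.E y = A.L y * A.J * (A.L y)⁻¹ := rfl
  have h2 : A.R x y = A.L y x := rfl
  have h3 : A.E (A.L y x) = A.L y * A.E x * (A.L y)⁻¹ := (Mlt_E (L_Mlt y) x).symm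
  have hR : A.R x A.e = x := A.idl x
  have h4 : A.E x = A.R x * A.J * (A.R x)⁻¹ := by
    have := Mlt_E (R_Mlt (A := A) x) A.e
    rw [AL.E_e, hR] at this
    exact this.symm
  have h5 : A.J * A.R x * A.J = A.L x := by rw [AL.J_R_J, h.sq]
  have h6 : A.J * A.E x = T := by
    rw [h4]
    calc A.J * (A.R x * A.J * (A.R x)⁻¹) = (A.J * A.R x * A.J) * (A.R x)⁻¹ := by group
      _ = A.R x * T * (A.R x)⁻¹ := by rw [h5, h.L_eq]
      _ = T := by rw [← h.comm]; group
  rw [h2, h3, h1]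
  calc A.L y * A.J * (A.L y)⁻¹ * (A.L y * A.E x * (A.L y)⁻¹)
      = A.L y * (A.J * A.E x) * (A.L y)⁻¹ := by group
    _ = A.L y * T * (A.L y)⁻¹ := by rw [h6]

end

end Pool.Agent.TH427.AR
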