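import Pool.Agent.TH427.AR.Eight

/-!
The order of the multiplication group of a finite simple nonassociative automorphic loop of even
order is divisible by eight.
-/

set_option autoImplicit false
set_option linter.unusedSectionVars false
set_option linter.unusedVariables false

namespace Pool.Agent.TH427.AR

open Pool.Agent.H687R3.AL
open Pool.Agent.W790.LG (ai ia)
open Equiv (Perm)

section

theorem four_dvd {G : Type} [Group G] [Finite G] {a b : G} (ha : a * a = 1) (hb : b * b = 1)
    (hab : a * b = b * a) (ha1 : a ≠ 1) (hb1 : b ≠ 1) (hne : a ≠ b) : 4 ∣ Nat.card G := by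
  classical
  have la : ∀ h : G, (h = 1 ∨ h = a ∨ h = b ∨ h = a * b) →
      (a * h = 1 ∨ a * h = a ∨ a * h = b ∨ a * h = a * b) := by
    rintro h (rfl | rfl | rfl | rfl)
    · exact Or.inr (Or.inl (mul_one _))
    · exact Or.inl ha
    · exact Or.inr (Or.inr (Or.inr rfl))
    · exact Or.inr (Or.inr (Or.inl (by rw [← mul_assoc, ha, one_mul])))
  have lb : ∀ h : G, (h = 1 ∨ h = a ∨ h = b ∨ h = a * b) →
      (b * h = 1 ∨ b * h = a ∨ b * h = b ∨ b * h = a * b) := by
    rintro h (rfl | rfl | rfl | rfl)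
    · exact Or.inr (Or.inr (Or.inl (mul_one _)))
    · exact Or.inr (Or.inr (Or.inr hab.symm))
    · exact Or.inl hb
    · exact Or.inr (Or.inl (by rw [hab, ← mul_assoc, hb, one_mul]))
  let K : Subgroup G :=
    { carrier := {h | h = 1 ∨ h = a ∨ h = b ∨ h = a * b}
      mul_mem' := by
        rintro g h (rfl | rfl | rfl | rfl) hh
        · rw [one_mul]; exact hh
        · exact la h hh
        · exact lb h hh
        · rw [mul_assoc]; exact la _ (lb h hh)
      one_mem' := Or.inl rfl
      inv_mem' := by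
        rintro g (rfl | rfl | rfl | rfl)
        · exact Or.inl inv_one
        · exact Or.inr (Or.inl (inv_eq_of_mul_eq_one_left ha))
        · exact Or.inr (Or.inr (Or.inl (inv_eq_of_mul_eq_one_left hb)))
        · refine Or.inr (Or.inr (Or.inr ?_))
          rw [mul_inv_rev, inv_eq_of_mul_eq_one_left ha, inv_eq_of_mul_eq_one_left hb, hab] }
  have hK : (K : Set G) = (({1, a, b, a * b} : Finset G) : Set G) := by
    ext h
    simp only [Finset.coe_insert, Finset.coe_singleton]
    rfl
  have hcard : Nat.card K = 4 := by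
    have h1 : Nat.card K = (K : Set G).ncard := rfl
    rw [h1, hK, Set.ncard_coe_finset]
    have hab1 : a * b ≠ 1 := fun h => hne (by
      have : a * (a * b) = a := by rw [h, mul_one]
      rw [← mul_assoc, ha, one_mul] at this
      exact this.symm)
    have hab2 : a ≠ a * b := fun h => hb1 (by
      have : a * b = a * 1 := by rw [← h, mul_one]
      exact mul_left_cancel this)
    have hab3 : b ≠ a * b := fun h => ha1 (by
      have : a * b = 1 * b := by rw [← h, one_mul]
      exact mul_right_cancel this)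
    rw [Finset.card_insert_of_notMem, Finset.card_insert_of_notMem, Finset.card_insert_of_notMem,
      Finset.card_singleton]
    · simp only [Finset.mem_singleton]; exact hab3
    · simp only [Finset.mem_insert, Finset.mem_singleton, not_or]; exact ⟨hne, hab2⟩
    · simp only [Finset.mem_insert, Finset.mem_singleton, not_or]
      exact ⟨ha1.symm, hb1.symm, hab1.symm⟩
  rw [← hcard]
  exact Subgroup.card_subgroup_dvd_card K

variable {Q : Type} {A : AL Q}

theorem stab_card [Finite Q] (y : Q) :
    Nat.card (Mlt A) = Nat.card Q * Nat.card (MulAction.stabilizer (Mlt A) y) := by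
  have htr : MulAction.orbit (Mlt A) y = Set.univ := by
    rw [Set.eq_univ_iff_forall]
    intro z
    refine ⟨⟨A.L z * (A.L y)⁻¹, mul_mem (L_Mlt z) (inv_mem (L_Mlt y))⟩, ?_⟩
    show A.L z ((A.L y)⁻¹ y) = z
    have h : (A.L y)⁻¹ y = A.e := by
      rw [Equiv.Perm.inv_eq_iff_eq]
      exact (A.idr y).symm
    rw [h]
    exact A.idr z
  have h2 := MulAction.index_stabilizer (Mlt A) y
  rw [htr, Set.ncard_univ] at h2
  rw [← h2, mul_comm]
  exact (Subgroup.card_mul_index _).symm

/-- commuting involutions with a common fixed point are equal -/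
theorem uniq_inv [Finite Q] (h2 : 2 ∣ Nat.card Q) (h8 : ¬ 8 ∣ Nat.card (Mlt A)) {a b : Perm Q}
    {y : Q} (ha : a ∈ Mlt A) (hb : b ∈ Mlt A) (hay : a y = y) (hby : b y = y) (ha2 : a * a = 1)
    (hb2 : b * b = 1) (hab : a * b = b * a) (ha1 : a ≠ 1) (hb1 : b ≠ 1) : a = b := by
  by_contra hne
  apply h8
  let a' : MulAction.stabilizer (Mlt A) y := ⟨⟨a, ha⟩, hay⟩
  let b' : MulAction.stabilizer (Mlt A) y := ⟨⟨b, hb⟩, hby⟩
  have h4 : 4 ∣ Nat.card (MulAction.stabilizer (Mlt A) y) := by
    refine four_dvd (a := a') (b := b') ?_ ?_ ?_ ?_ ?_ ?_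
    · exact Subtype.ext (Subtype.ext ha2)
    · exact Subtype.ext (Subtype.ext hb2)
    · exact Subtype.ext (Subtype.ext hab)
    · exact fun h => ha1 (congrArg Subtype.val (congrArg Subtype.val h))
    · exact fun h => hb1 (congrArg Subtype.val (congrArg Subtype.val h))
    · exact fun h => hne (congrArg Subtype.val (congrArg Subtype.val h))
  rw [stab_card y]
  exact Nat.mul_dvd_mul h2 h4

/-- the two-part of a translation by an element of order two has no fixed points -/
theorem Inv2.fpf [Finite Q] (H : Hyp A) (h2 : 2 ∣ Nat.card Q) (h8 : ¬ 8 ∣ Nat.card (Mlt A))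
    {x : Q} {T : Perm Q} (h : Inv2 A x T) {d : ℕ} (hd : Odd d) {j : ℕ}
    (hj1 : (A.R x ^ d) ^ j ≠ 1) (hj2 : (A.R x ^ d) ^ j * (A.R x ^ d) ^ j = 1) (y : Q) :
    (A.R x ^ d) y ≠ y := by
  intro hy
  set c := A.R x ^ d with hcdef
  set s := c ^ j with hsdef
  have hRM : A.R x ∈ Mlt A := R_Mlt x
  have hsM : s ∈ Mlt A := pow_mem (pow_mem hRM d) j
  have hcR : Commute c (A.R x) := (Commute.refl (A.R x)).pow_left d
  have hsR : Commute s (A.R x) := hcR.pow_left j
  have hsy : s y = y := by
    have : ∀ n : ℕ, (c ^ n) y = y := by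
      intro n
      induction n with
      | zero => rfl
      | succ n ih =>
        rw [pow_succ]
        show (c ^ n) (c y) = y
        rw [hy, ih]
    exact this j
  have key : ∀ z, s z = z → s = A.E z * A.E (A.R x z) := by
    intro z hz
    have hz' : s (A.R x z) = A.R x z := by
      have h1 : (s * A.R x) z = (A.R x * s) z := by rw [hsR.eq]
      have h3 : s (A.R x z) = A.R x (s z) := h1
      rw [h3, hz]
    have hE := h.EE z
    have hLz : A.L z A.e = z := A.idr z
    refine uniq_inv h2 h8 (y := z) hsM ?_ hz ?_ hj2 ?_ ?_ hj1 ?_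
    · rw [hE]
      exact mul_mem (mul_mem (L_Mlt z) h.T_M) (inv_mem (L_Mlt z))
    · rw [hE]
      show A.L z (T ((A.L z)⁻¹ z)) = z
      have h1 : (A.L z)⁻¹ z = A.e := by rw [Equiv.Perm.inv_eq_iff_eq, hLz]
      rw [h1, h.T_e, hLz]
    · rw [hE]
      calc A.L z * T * (A.L z)⁻¹ * (A.L z * T * (A.L z)⁻¹) = A.L z * (T * T) * (A.L z)⁻¹ := by group
        _ = 1 := by rw [h.T_sq]; group
    · have e1 := (E_comm H hsM).2 hz
      have e2 := (E_comm H hsM).2 hz'
      calc s * (A.E z * A.E (A.R x z)) = (s * A.E z) * A.E (A.R x z) := by group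
        _ = A.E z * (s * A.E (A.R x z)) := by rw [e1]; group
        _ = A.E z * A.E (A.R x z) * s := by rw [e2]; group
    · rw [hE]
      intro h1
      apply h.T_ne
      calc T = (A.L z)⁻¹ * (A.L z * T * (A.L z)⁻¹) * A.L z := by group
        _ = 1 := by rw [h1]; group
  have h1 := key y hsy
  have hsy1 : s (A.R x y) = A.R x y := by
    have h3 : (s * A.R x) y = (A.R x * s) y := by rw [hsR.eq]
    have h4 : s (A.R x y) = A.R x (s y) := h3
    rw [h4, hsy]
  have h3 := key _ hsy1
  have e1 := (E_comm H hsM).2 hsy1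
  have h4 : A.E y = s * A.E (A.R x y) := by
    rw [h1, mul_assoc, AL.E_sq, mul_one]
  have h5 : A.E (A.R x (A.R x y)) = s * A.E (A.R x y) := by
    rw [e1]
    conv_rhs => rw [h3]
    rw [← mul_assoc, AL.E_sq, one_mul]
  have h6 : A.R x (A.R x y) = y := E_inj H (h5.trans h4.symm)
  obtain ⟨k, hk⟩ := hd
  have h7 : ∀ n : ℕ, (A.R x ^ (2 * n)) y = y := by
    intro n
    induction n with
    | zero => rfl
    | succ n ih =>
      have : A.R x ^ (2 * (n + 1)) = A.R x ^ (2 * n) * (A.R x * A.R x) := by
        rw [← pow_two, ← pow_add]; congr 1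
      rw [this]
      show (A.R x ^ (2 * n)) (A.R x (A.R x y)) = y
      rw [h6, ih]
  have h8 : A.R x y = y := by
    have e2 : c = A.R x * A.R x ^ (2 * k) := by rw [hcdef, hk, pow_succ']
    have e3 : c y = A.R x ((A.R x ^ (2 * k)) y) := by rw [e2]; rfl
    rw [h7, hy] at e3
    exact e3.symm
  apply h.ne
  have h9 : A.op y x = A.op y A.e := by
    rw [A.idr]; exact h8
  exact (A.bijL y).1 h9

end

end Pool.Agent.TH427.AR
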