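import Pool.Agent.TH427.AR.Eight2

/-!
The order of the multiplication group of a finite simple nonassociative automorphic loop of even
order is divisible by eight.
-/

set_option autoImplicit false
set_option linter.unusedSectionVars false
set_option linter.unusedVariables false

namespace Pool.Agent.TH427.AR

open Pool.Agent.H687R3.AL
open Pool.Agent.W790.LG (ai ia)
open Equiv (Perm)

section

theorem zp_pgroup {G : Type} [Group G] {g : G} {k : ℕ} (h : g ^ 2 ^ k = 1) :
    IsPGroup 2 (Subgroup.zpowers g) := by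
  rintro ⟨y, n, rfl⟩
  refine ⟨k, Subtype.ext ?_⟩
  show (g ^ n) ^ 2 ^ k = 1
  rw [← zpow_natCast, ← zpow_mul, mul_comm, zpow_mul, zpow_natCast, h, one_zpow]

variable {Q : Type} {A : AL Q}

theorem normal_card [Finite Q] (hs : SimA A) (K : Subgroup (Mlt A)) (hKn : K.Normal)
    (hbot : K ≠ ⊥) : Nat.card Q ∣ Nat.card K := by
  have hne : K.map (Mlt A).subtype ≠ ⊥ := by
    rw [Ne, Subgroup.map_eq_bot_iff_of_injective _ (Mlt A).subtype_injective]
    exact hbot
  have hle : K.map (Mlt A).subtype ≤ Mlt A := by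
    rintro _ ⟨g, hg, rfl⟩
    exact g.2
  have hnr : Nrm (Mlt A) (K.map (Mlt A).subtype) := by
    rintro g hg _ ⟨r, hr, rfl⟩
    exact ⟨⟨g, hg⟩ * r * ⟨g, hg⟩⁻¹, hKn.conj_mem r hr ⟨g, hg⟩, rfl⟩
  have htr : MulAction.orbit K A.e = Set.univ := by
    rw [Set.eq_univ_iff_forall]
    intro z
    obtain ⟨_, ⟨g, hg, rfl⟩, hge⟩ := trans_of hs hle hnr hne z
    exact ⟨⟨g, hg⟩, hge⟩
  have h3 := MulAction.index_stabilizer K A.e
  rw [htr, Set.ncard_univ] at h3
  rw [← h3]
  exact Subgroup.index_dvd_card _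

/-- the data used for the fusion argument -/
structure Fus (A : AL Q) (T c : Perm Q) (k : ℕ) : Prop where
  T_M : T ∈ Mlt A
  c_M : c ∈ Mlt A
  T_e : T A.e = A.e
  T_sq : T * T = 1
  T_ne : T ≠ 1
  ck : c ^ 2 ^ k = 1
  comm : T * c = c * T
  fc : ∀ y, c y ≠ y
  fcT : ∀ y, (c * T) y ≠ y

theorem exists_fus [Finite Q] (H : Hyp A) (h2 : 2 ∣ Nat.card Q) (h8 : ¬ 8 ∣ Nat.card (Mlt A)) :
    ∃ T c k, Fus A T c k := by
  obtain ⟨x, T, h⟩ := exists_inv2 H h2
  obtain ⟨k, d, hd, hkd⟩ := Nat.exists_eq_two_pow_mul_odd (orderOf_pos (A.R x)).ne'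
  have hck : (A.R x ^ d) ^ 2 ^ k = 1 := by
    rw [← pow_mul, mul_comm, ← hkd, pow_orderOf_eq_one]
  have hx2 : pw A x 2 = A.e := by
    have h1 := AL.op_inv (A := A) x
    rw [h.sq] at h1
    rw [← op_pw, pw_one, h1]
  have hce : (A.R x ^ d) A.e = x := by
    obtain ⟨m, hm⟩ := hd
    rw [R_pow_e, hm, ← pw_add, ← pw_mul, hx2]
    have h3 : ∀ m, pw A A.e m = A.e := by
      intro m
      induction m with
      | zero => rw [pw_zero]
      | succ m ih => rw [← op_pw, ih, A.idl]
    rw [h3, A.idl, pw_one]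
  have hc1 : (A.R x ^ d) ≠ 1 := by
    intro h1
    rw [h1] at hce
    exact h.ne hce.symm
  obtain ⟨i, hi, hord⟩ := (Nat.dvd_prime_pow Nat.prime_two).1 (orderOf_dvd_of_pow_eq_one hck)
  have hi0 : i ≠ 0 := by
    rintro rfl
    rw [pow_zero, orderOf_eq_one_iff] at hord
    exact hc1 hord
  obtain ⟨j, rfl⟩ := Nat.exists_eq_succ_of_ne_zero hi0
  have hj1 : (A.R x ^ d) ^ 2 ^ j ≠ 1 := by
    intro h1
    have h3 := orderOf_dvd_of_pow_eq_one h1
    rw [hord] at h3
    have h4 := Nat.le_of_dvd (by positivity) h3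
    rw [Nat.succ_eq_add_one, pow_succ] at h4
    have : 0 < 2 ^ j := by positivity
    omega
  have hj2 : (A.R x ^ d) ^ 2 ^ j * (A.R x ^ d) ^ 2 ^ j = 1 := by
    rw [← pow_add, ← two_mul, ← pow_succ', ← Nat.succ_eq_add_one, ← hord, pow_orderOf_eq_one]
  have hf := h.fpf H h2 h8 hd hj1 hj2
  have hTR : Commute T (A.R x) := h.comm
  have hJR : A.J * A.R x * A.J = A.R x * T := by
    rw [AL.J_R_J, h.sq, h.L_eq]
  have hTd : T ^ d = T := by
    obtain ⟨m, hm⟩ := hd
    rw [hm, pow_succ, pow_mul, pow_two, h.T_sq, one_pow, one_mul]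
  have hJc : A.J * A.R x ^ d * A.J = A.R x ^ d * T := by
    have e1 : A.J * A.R x * A.J = A.J * A.R x * (A.J)⁻¹ := by rw [AL.J_inv]
    have e2 : A.J * A.R x ^ d * A.J = A.J * A.R x ^ d * (A.J)⁻¹ := by rw [AL.J_inv]
    rw [e2, ← conj_pow, ← e1, hJR, hTR.symm.mul_pow, hTd]
  refine ⟨T, A.R x ^ d, k, h.T_M, pow_mem (R_Mlt x) d, h.T_e, h.T_sq, h.T_ne, hck,
    (hTR.pow_right d).eq, hf, ?_⟩
  intro y hy
  rw [← hJc] at hy
  have h3 : A.J ((A.R x ^ d) (A.J y)) = y := hy
  apply hf (A.J y)
  have h4 : A.J (A.J ((A.R x ^ d) (A.J y))) = A.J y := by rw [h3]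
  have h5 : ∀ z, A.J (A.J z) = z := fun z => AL.inv_inv' z
  rw [h5] at h4
  exact h4

theorem eight [Finite Q] (H : Hyp A) (h2 : 2 ∣ Nat.card Q) : 8 ∣ Nat.card (Mlt A) := by
  classical
  by_contra h8
  obtain ⟨T, c, k, h⟩ := exists_fus H h2 h8
  have : Fact (Nat.Prime 2) := ⟨Nat.prime_two⟩
  let t : Mlt A := ⟨T, h.T_M⟩
  let s : Mlt A := ⟨c, h.c_M⟩
  have hts : t * s = s * t := Subtype.ext h.comm
  have htt : t * t = 1 := Subtype.ext h.T_sq
  have ht1 : t ≠ 1 := fun h1 => h.T_ne (congrArg Subtype.val h1)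
  have hs1 : s ≠ 1 := fun h1 => by
    have h3 : c = 1 := congrArg Subtype.val h1
    apply h.fc A.e
    rw [h3]; rfl
  have hst1 : s * t ≠ 1 := fun h1 => by
    have h3 : c * T = 1 := congrArg Subtype.val h1
    apply h.fcT A.e
    rw [h3]; rfl
  have hst : s ≠ t := fun h1 => by
    have h3 : c = T := congrArg Subtype.val h1
    apply h.fc A.e
    rw [h3, h.T_e]
  have hC : IsPGroup 2 (Subgroup.zpowers s ⊔ Subgroup.zpowers t : Subgroup (Mlt A)) := by
    have h1 : IsPGroup 2 (Subgroup.zpowers s) :=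
      zp_pgroup (k := k) (Subtype.ext (by
        show c ^ 2 ^ k = 1
        exact h.ck))
    have h3 : IsPGroup 2 (Subgroup.zpowers t) :=
      zp_pgroup (k := 1) (by rw [pow_one, pow_two, htt])
    refine h1.to_sup_of_normal_right' h3 ?_
    rw [Subgroup.zpowers_le, Subgroup.mem_normalizer_iff]
    intro g
    constructor
    · rintro ⟨n, rfl⟩
      refine ⟨n, ?_⟩
      show t ^ n = s * t ^ n * s⁻¹
      have h4 : Commute s (t ^ n) := Commute.zpow_right hts.symm n
      rw [h4.eq, mul_inv_cancel_right]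
    · rintro ⟨n, hn⟩
      refine ⟨n, ?_⟩
      have hn' : t ^ n = s * g * s⁻¹ := hn
      show t ^ n = g
      have h4 : Commute s (t ^ n) := Commute.zpow_right hts.symm n
      have h5 : s * g = s * t ^ n := by
        calc s * g = (s * g * s⁻¹) * s := by group
          _ = t ^ n * s := by rw [hn']
          _ = s * t ^ n := h4.eq.symm
      exact (mul_left_cancel h5).symm
  obtain ⟨P, hP⟩ := hC.exists_le_sylow
  have hsP : s ∈ P := hP (Subgroup.mem_sup_left (Subgroup.mem_zpowers s))
  have htP : t ∈ P := hP (Subgroup.mem_sup_right (Subgroup.mem_zpowers t))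
  have hF : (({1, t, s, s * t} : Finset (Mlt A)) : Set (Mlt A)) ⊆ (P : Set (Mlt A)) := by
    intro g hg
    simp only [Finset.coe_insert, Finset.coe_singleton, Set.mem_insert_iff,
      Set.mem_singleton_iff] at hg
    rcases hg with rfl | rfl | rfl | rfl
    · exact one_mem _
    · exact htP
    · exact hsP
    · exact mul_mem hsP htP
  have hFc : ({1, t, s, s * t} : Finset (Mlt A)).card = 4 := by
    rw [Finset.card_insert_of_notMem, Finset.card_insert_of_notMem, Finset.card_insert_of_notMem,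
      Finset.card_singleton]
    · simp only [Finset.mem_singleton]
      intro h1
      exact ht1 (mul_left_cancel (a := s) (by rw [mul_one]; exact h1.symm))
    · simp only [Finset.mem_insert, Finset.mem_singleton, not_or]
      refine ⟨hst.symm, fun h1 => hs1 (mul_right_cancel (b := t) (by rw [one_mul]; exact h1.symm))⟩
    · simp only [Finset.mem_insert, Finset.mem_singleton, not_or]
      exact ⟨ht1.symm, hs1.symm, hst1.symm⟩
  have hPc : Nat.card P ≤ 4 := by
    obtain ⟨n, hn⟩ := IsPGroup.iff_card.1 P.2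
    have h1 : Nat.card P ∣ Nat.card (Mlt A) := Subgroup.card_subgroup_dvd_card _
    have hn' : Nat.card P = 2 ^ n := hn
    rw [hn'] at h1 ⊢
    by_contra hlt
    apply h8
    have h3 : 3 ≤ n := by
      by_contra h4
      have : n ≤ 2 := by omega
      have : 2 ^ n ≤ 2 ^ 2 := Nat.pow_le_pow_right (by norm_num) this
      omega
    exact (pow_dvd_pow 2 h3).trans h1
  have hPeq : (({1, t, s, s * t} : Finset (Mlt A)) : Set (Mlt A)) = (P : Set (Mlt A)) := by
    apply Set.eq_of_subset_of_ncard_le hF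
    rw [Set.ncard_coe_finset, hFc]
    exact hPc
  have hP4 : Nat.card P = 4 := by
    have : Nat.card P = (P : Set (Mlt A)).ncard := rfl
    rw [this, ← hPeq, Set.ncard_coe_finset, hFc]
  have hmem : ∀ g ∈ P, g = 1 ∨ g = t ∨ g = s ∨ g = s * t := by
    intro g hg
    have h1 : g ∈ (P : Set (Mlt A)) := hg
    rw [← hPeq] at h1
    simpa only [Finset.coe_insert, Finset.coe_singleton, Set.mem_insert_iff,
      Set.mem_singleton_iff] using h1
  have hcm : ∀ g : Mlt A, g * t = t * g → g * s = s * g → ∀ r ∈ P, r * g = g * r := by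
    intro g h1 h3 r hr
    rcases hmem r hr with rfl | rfl | rfl | rfl
    · rw [one_mul, mul_one]
    · exact h1.symm
    · exact h3.symm
    · calc s * t * g = s * (t * g) := by group
        _ = (s * g) * t := by rw [← h1]; group
        _ = g * (s * t) := by rw [← h3]; group
  have hab : ∀ g ∈ P, g * t = t * g ∧ g * s = s * g := by
    intro g hg
    rcases hmem g hg with rfl | rfl | rfl | rfl
    · exact ⟨by rw [one_mul, mul_one], by rw [one_mul, mul_one]⟩
    · exact ⟨rfl, hts⟩
    · exact ⟨hts.symm, rfl⟩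
    · exact ⟨by rw [mul_assoc, htt, ← mul_assoc, hts, mul_assoc, htt], by
        rw [mul_assoc, hts]⟩
  have hfs : ∀ y, (s : Perm Q) y ≠ y := h.fc
  have hfst : ∀ y, ((s * t : Mlt A) : Perm Q) y ≠ y := h.fcT
  have hconj : ∀ n : Mlt A, n ∈ Subgroup.normalizer (P : Set (Mlt A)) → n * t * n⁻¹ = t := by
    intro n hn
    have h1 : n * t * n⁻¹ ∈ P := (Subgroup.mem_normalizer_iff.1 hn t).1 htP
    have hfix : ((n * t * n⁻¹ : Mlt A) : Perm Q) ((n : Perm Q) A.e) = (n : Perm Q) A.e := by
      show (n : Perm Q) (T ((n : Perm Q)⁻¹ ((n : Perm Q) A.e))) = (n : Perm Q) A.e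
      rw [ia, h.T_e]
    rcases hmem _ h1 with h3 | h3 | h3 | h3
    · exfalso
      apply ht1
      calc t = n⁻¹ * (n * t * n⁻¹) * n := by group
        _ = 1 := by rw [h3]; group
    · exact h3
    · rw [h3] at hfix
      exact absurd hfix (hfs _)
    · rw [h3] at hfix
      exact absurd hfix (hfst _)
  have hconj2 : ∀ n : Mlt A, n ∈ Subgroup.normalizer (P : Set (Mlt A)) →
      n * s * n⁻¹ = s ∨ n * s * n⁻¹ = s * t := by
    intro n hn
    have h1 : n * s * n⁻¹ ∈ P := (Subgroup.mem_normalizer_iff.1 hn s).1 hsP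
    rcases hmem _ h1 with h3 | h3 | h3 | h3
    · exfalso
      apply hs1
      calc s = n⁻¹ * (n * s * n⁻¹) * n := by group
        _ = 1 := by rw [h3]; group
    · exfalso
      apply hst
      have h4 := hconj n hn
      have h5 : n * s * n⁻¹ = n * t * n⁻¹ := h3.trans h4.symm
      exact mul_left_cancel (mul_right_cancel h5)
    · exact Or.inl h3
    · exact Or.inr h3
  have hN : Subgroup.normalizer (P : Set (Mlt A)) ≤ Subgroup.centralizer (P : Set (Mlt A)) := by
    intro n hn
    rw [Subgroup.mem_centralizer_iff]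
    have hnt : n * t = t * n := by
      have h1 := hconj n hn
      calc n * t = (n * t * n⁻¹) * n := by group
        _ = t * n := by rw [h1]
    have hns : n * s = s * n := by
      rcases hconj2 n hn with h1 | h1
      · calc n * s = (n * s * n⁻¹) * n := by group
          _ = s * n := by rw [h1]
      · exfalso
        -- an odd power of `n` lies in `P`
        obtain ⟨a, b, hb, hab'⟩ := Nat.exists_eq_two_pow_mul_odd (orderOf_pos n).ne'
        have hZ : IsPGroup 2 (Subgroup.zpowers (n ^ b)) :=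
          zp_pgroup (k := a) (by rw [← pow_mul, mul_comm, ← hab', pow_orderOf_eq_one])
        have hnb : n ^ b ∈ P := by
          have h3 := hZ.inf_normalizer_sylow P
          have h4 : n ^ b ∈ Subgroup.zpowers (n ^ b) ⊓ Subgroup.normalizer (P : Set (Mlt A)) :=
            ⟨Subgroup.mem_zpowers _, pow_mem hn b⟩
          rw [h3] at h4
          exact h4.2
        have hsq : Commute (n * n) s := by
          show n * n * s = s * (n * n)
          have h3 : n * s = s * t * n := by
            calc n * s = (n * s * n⁻¹) * n := by group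
              _ = s * t * n := by rw [h1]
          calc n * n * s = n * (n * s) := by group
            _ = (n * s) * (t * n) := by conv_lhs => rw [h3]
                                        group
            _ = s * (t * (n * t)) * n := by rw [h3]; group
            _ = s * (t * t) * n * n := by rw [hnt]; group
            _ = s * (n * n) := by rw [htt]; group
        obtain ⟨m, hm⟩ := hb
        have hnb2 : n ^ b = n * (n * n) ^ m := by
          rw [hm, ← pow_two, ← pow_mul, pow_succ']
        have h5 := (hab _ hnb).2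
        rw [hnb2] at h5
        have h6 : Commute ((n * n) ^ m) s := hsq.pow_left m
        have h7 : n * s = s * n := by
          apply mul_right_cancel (b := (n * n) ^ m)
          calc n * s * (n * n) ^ m = n * (s * (n * n) ^ m) := by group
            _ = n * (n * n) ^ m * s := by rw [← h6.eq]; group
            _ = s * n * (n * n) ^ m := by rw [h5]; group
        rw [h7, mul_inv_cancel_right] at h1
        exact ht1 (mul_left_cancel (a := s) (by rw [mul_one]; exact h1.symm))
    exact hcm n hnt hns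
  have hcomp := MonoidHom.ker_transferSylow_isComplement' P hN
  set K := (MonoidHom.transferSylow P hN).ker with hK
  have hcard := hcomp.card_mul_card
  have hcard' : Nat.card K * 4 = Nat.card (Mlt A) := by
    rw [← hP4]
    exact hcard
  have hKo : ¬ 2 ∣ Nat.card K := by
    rintro ⟨m, hm⟩
    apply h8
    rw [← hcard', hm]
    exact ⟨m, by ring⟩
  have hKn : K.Normal := MonoidHom.normal_ker _
  by_cases hbot : K = ⊥
  · have hz : ∀ g : Mlt A, g ∈ P := by
      have h1 : Nat.card P = Nat.card (Mlt A) := by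
        rw [hP4, ← hcard', hbot, Subgroup.card_bot, one_mul]
      have h3 : (P : Subgroup (Mlt A)) = ⊤ := Subgroup.eq_top_of_card_eq _ h1
      intro g
      have : g ∈ (P : Subgroup (Mlt A)) := by rw [h3]; exact Subgroup.mem_top g
      exact this
    apply h.T_ne
    ext z
    have h1 := (hab ⟨A.L z, L_Mlt z⟩ (hz _)).1
    have h3 : A.L z * T = T * A.L z := congrArg Subtype.val h1
    have h4 : (A.L z * T) A.e = (T * A.L z) A.e := by rw [h3]
    have h5 : A.L z (T A.e) = T (A.L z A.e) := h4
    have h6 : A.L z A.e = z := A.idr z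
    rw [h.T_e, h6] at h5
    exact h5.symm
  · exact hKo (h2.trans (normal_card H.hs K hKn hbot))

end

end Pool.Agent.TH427.AR
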