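import Pool.Agent.TH427.AR.Cau2

/-!
Orbits of elements of order divisible by `p` generate.
-/

set_option autoImplicit false
set_option linter.unusedSectionVars false
set_option linter.unusedVariables false

namespace Pool.Agent.TH427.AR

open Pool.Agent.H687R3.AL
open Pool.Agent.W790.LG (ai ia)
open Equiv (Perm)

section

variable {Q : Type} {A : AL Q} {p : ℕ}

/-- closed sets -/
def Clo (A : AL Q) (S : Set Q) : Prop := ∀ a ∈ S, ∀ b ∈ S, A.op a b ∈ S

/-- the subloop generated by a set -/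
def gn (A : AL Q) (F : Set Q) : Set Q := {x | ∀ S : Set Q, Clo A S → A.e ∈ S → F ⊆ S → x ∈ S}

theorem gn_clo (F : Set Q) : Clo A (gn A F) := fun a ha b hb S h1 h2 h3 =>
  h1 a (ha S h1 h2 h3) b (hb S h1 h2 h3)

theorem gn_e (F : Set Q) : A.e ∈ gn A F := fun S h1 h2 h3 => h2

theorem sub_gn (F : Set Q) : F ⊆ gn A F := fun x hx S h1 h2 h3 => h3 hx

theorem gn_min {F S : Set Q} (h1 : Clo A S) (h2 : A.e ∈ S) (h3 : F ⊆ S) : gn A F ⊆ S :=
  fun x hx => hx S h1 h2 h3

/-- finite closed sets are closed under left division -/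
theorem clo_ldiv [Finite Q] {S : Set Q} (h : Clo A S) {y x : Q} (hy : y ∈ S) (hx : x ∈ S) :
    (A.L y)⁻¹ x ∈ S := by
  have hinj : Function.Injective (fun z : S => (⟨A.op y z.1, h y hy z.1 z.2⟩ : S)) := by
    intro a b hab
    exact Subtype.ext ((A.bijL y).1 (congrArg Subtype.val hab))
  obtain ⟨z, hz⟩ := (Finite.injective_iff_surjective.1 hinj) ⟨x, hx⟩
  have h1 : A.L y z.1 = x := congrArg Subtype.val hz
  rw [← h1, ia]
  exact z.2

/-- the subloop generated by the orbit of `e` is invariant -/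
theorem gn_inv [Finite Q] {g : Perm Q} (hg : g ∈ Mlt A) {F : Set Q} (he : A.e ∈ F)
    (hF : ∀ x ∈ F, g x ∈ F) : ∀ x ∈ gn A F, g x ∈ gn A F := by
  set y := g A.e with hy
  have hyF : y ∈ gn A F := sub_gn F (hF _ he)
  set h := (A.L y)⁻¹ * g with hh
  have hLe : A.L y A.e = y := A.idr y
  have h0 : h A.e = A.e := by
    show (A.L y)⁻¹ (g A.e) = A.e
    rw [Equiv.Perm.inv_eq_iff_eq, hLe]
  have haut : h ∈ A.Aut := inn_aut (mul_mem (inv_mem (L_Mlt _)) hg) h0
  have h1 : gn A F ⊆ {x | h x ∈ gn A F} := by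
    apply gn_min
    · intro a ha b hb
      have ha' : h a ∈ gn A F := ha
      have hb' : h b ∈ gn A F := hb
      show h (A.op a b) ∈ gn A F
      rw [AL.aut_apply haut]
      exact gn_clo F _ ha' _ hb'
    · show h A.e ∈ gn A F
      rw [h0]
      exact gn_e F
    · intro x hx
      show (A.L y)⁻¹ (g x) ∈ gn A F
      exact clo_ldiv (gn_clo F) hyF (sub_gn F (hF x hx))
  intro x hx
  have h2 : h x ∈ gn A F := h1 hx
  have h3 : g x = A.op y (h x) := by
    show g x = A.L y ((A.L y)⁻¹ (g x))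
    rw [ai]
  rw [h3]
  exact gn_clo F _ hyF _ h2

/-- orbits of elements of order divisible by `p` generate -/
theorem Bad.gen [Finite Q] (h : Bad A p) {g : Perm Q} (hg : g ∈ Mlt A) (hd : p ∣ orderOf g)
    {S : Set Q} (hS : Clo A S) (ho : ∀ n : ℕ, (g ^ n) A.e ∈ S) : S = Set.univ := by
  set F : Set Q := {x | ∃ n : ℕ, (g ^ n) A.e = x} with hF
  have he : A.e ∈ F := ⟨0, by rw [pow_zero]; rfl⟩
  have hFg : ∀ x ∈ F, g x ∈ F := by
    rintro _ ⟨n, rfl⟩
    exact ⟨n + 1, by rw [pow_succ']; rfl⟩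
  have hinv := gn_inv hg he hFg
  have hle : gn A F ⊆ S := by
    apply gn_min hS
    · exact ho 0
    · rintro _ ⟨n, rfl⟩
      exact ho n
  by_contra hSu
  have hne : gn A F ≠ Set.univ := by
    intro h1
    apply hSu
    rw [Set.eq_univ_iff_forall]
    intro x
    apply hle
    rw [h1]
    exact Set.mem_univ x
  have h1 := h.sub (gn A F) (gn_e F) (gn_clo F) hne
  obtain ⟨m, hm1, hm2⟩ := ord_pow h.hp hd
  have hinvm : ∀ x ∈ gn A F, (g ^ m) x ∈ gn A F := by
    intro x hx
    have : ∀ k : ℕ, (g ^ k) x ∈ gn A F := by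
      intro k
      induction k with
      | zero => rw [pow_zero]; exact hx
      | succ k ih => rw [pow_succ']; exact hinv _ ih
    exact this m
  have h2 := exists_fix h.hp hm2 (gn A F) hinvm
  have h3 : Nat.card {x | x ∈ gn A F ∧ (g ^ m) x = x} ≠ 0 := by
    intro h0
    rw [h0] at h2
    exact h1 (Nat.modEq_zero_iff_dvd.1 h2)
  have h4 : Nonempty {x | x ∈ gn A F ∧ (g ^ m) x = x} := by
    by_contra hcon
    rw [not_nonempty_iff] at hcon
    exact h3 (Nat.card_of_isEmpty)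
  obtain ⟨x, hx⟩ := h4
  exact hm1 (h.fpf (pow_mem hg m) hm2 hx.2)

/-- there are elements of order `p` in the multiplication group -/
theorem Bad.exists_ord [Finite Q] (h : Bad A p) : ∃ g ∈ Mlt A, orderOf g = p := by
  have : Fact p.Prime := ⟨h.hp⟩
  have htr : MulAction.orbit (Mlt A) A.e = Set.univ := by
    rw [Set.eq_univ_iff_forall]
    intro x
    exact ⟨⟨A.L x, L_Mlt x⟩, A.idr x⟩
  have h1 : Nat.card Q ∣ Nat.card (Mlt A) := by
    have h2 := MulAction.index_stabilizer (Mlt A) A.e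
    rw [htr, Set.ncard_univ] at h2
    rw [← h2]
    exact Subgroup.index_dvd_card _
  obtain ⟨g, hg⟩ := exists_prime_orderOf_dvd_card' p (h.dvd.trans h1)
  exact ⟨g.1, g.2, by rw [← hg, Subgroup.orderOf_coe]⟩

/-- `Q` is generated by `p - 1` images of one element under powers of an inner mapping -/
theorem Bad.few [Finite Q] (h : Bad A p) : ∃ k ∈ Mlt A, k A.e = A.e ∧ ∃ y, ∀ S : Set Q, Clo A S →
    A.e ∈ S → (∀ n < p - 1, (k ^ n) y ∈ S) → S = Set.univ := by
  obtain ⟨g, hg, hgp⟩ := h.exists_ord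
  set y := g A.e with hy
  set k := (A.L y)⁻¹ * g with hk
  have hLe : A.L y A.e = y := A.idr y
  have h0 : k A.e = A.e := by
    show (A.L y)⁻¹ (g A.e) = A.e
    rw [Equiv.Perm.inv_eq_iff_eq, hLe]
  have hkM : k ∈ Mlt A := mul_mem (inv_mem (L_Mlt _)) hg
  have haut : k ∈ A.Aut := inn_aut hkM h0
  refine ⟨k, hkM, h0, y, fun S hS he hn => ?_⟩
  have hp2 := h.hp.two_le
  have key : ∀ n : ℕ, ∀ m : ℕ, n + m ≤ p - 1 → (k ^ m) ((g ^ n) A.e) ∈ S := by
    intro n
    induction n with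
    | zero =>
      intro m _
      rw [pow_zero]
      have h1 : (k ^ m) A.e = A.e := AL.aut_e (pow_mem haut m)
      show (k ^ m) A.e ∈ S
      rw [h1]
      exact he
    | succ n ih =>
      intro m hm
      have h1 : (g ^ (n + 1)) A.e = A.op y (k ((g ^ n) A.e)) := by
        rw [pow_succ']
        show g ((g ^ n) A.e) = A.L y ((A.L y)⁻¹ (g ((g ^ n) A.e)))
        rw [ai]
      have h2 : (k ^ m) (k ((g ^ n) A.e)) = (k ^ (m + 1)) ((g ^ n) A.e) := by
        rw [pow_succ]; rfl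
      rw [h1, AL.aut_apply (pow_mem haut m), h2]
      exact hS _ (hn m (by omega)) _ (ih (m + 1) (by omega))
  apply h.gen hg (by rw [hgp]) hS
  intro n
  have h1 : (g ^ n) A.e = (g ^ (n % p)) A.e := by
    have h2 : g ^ n = g ^ (n % p) := by
      conv_lhs => rw [← Nat.mod_add_div n p]
      rw [pow_add, pow_mul, ← hgp, pow_orderOf_eq_one, one_pow, mul_one]
    rw [h2]
  rw [h1]
  have h3 : n % p < p := Nat.mod_lt _ (by omega)
  have h4 := key (n % p) 0 (by omega)
  rw [pow_zero] at h4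
  exact h4

end

end Pool.Agent.TH427.AR
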