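import Pool.Agent.TH427.AR.Nuc
import Pool.Agent.W790.LG.Nil

/-!
Subloops invariant under their left inner mappings have the Lagrange property.
-/

set_option autoImplicit false
set_option linter.unusedSectionVars false
set_option linter.unusedVariables false

namespace Pool.Agent.TH427.AR

open Pool.Agent.H687R3.AL
open Pool.Agent.W790.LG (Hol ai ia Hol_e)

variable {Q : Type} {A : AL Q}

/-- left inner mapping `z ↦ (xy) \ (x(yz))` -/
noncomputable def th (A : AL Q) (x y : Q) : Equiv.Perm Q := (A.L (A.op x y))⁻¹ * A.L x * A.L y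

theorem th_aut (x y : Q) : th A x y ∈ A.Aut := AL.theta_mem (A := A) x y

theorem th_fix (x y : Q) : th A x y x = x := AL.theta_fix (A := A) x y

theorem th_Mlt (x y : Q) : th A x y ∈ Mlt A :=
  mul_mem (mul_mem (inv_mem (L_Mlt _)) (L_Mlt _)) (L_Mlt _)

theorem LL_th (x y : Q) : A.L x * A.L y = A.L (A.op x y) * th A x y := by
  unfold th
  group

theorem th_conj {b : Equiv.Perm Q} (hb : b ∈ A.Aut) (x y : Q) :
    b * th A x y * b⁻¹ = th A (b x) (b y) := by
  have e1 : ∀ z, A.L (b z) = b * A.L z * b⁻¹ := fun z => by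
    rw [AL.aut_L hb z]; group
  unfold th
  rw [← AL.aut_apply hb, e1, e1, e1]
  group

/-- the group belonging to a group `B` of automorphisms -/
def GB (A : AL Q) (B : Subgroup (Equiv.Perm Q)) : Subgroup (Equiv.Perm Q) where
  carrier := {g | ∀ y, (A.L (g y))⁻¹ * g * A.L y ∈ B}
  mul_mem' := by
    intro g h hg hh y
    have h1 := mul_mem (hg (h y)) (hh y)
    have e : (A.L (g (h y)))⁻¹ * g * A.L (h y) * ((A.L (h y))⁻¹ * h * A.L y) =
        (A.L ((g * h) y))⁻¹ * (g * h) * A.L y := by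
      rw [Equiv.Perm.mul_apply]
      group
    rwa [e] at h1
  one_mem' := by
    intro y
    have e : (A.L ((1 : Equiv.Perm Q) y))⁻¹ * 1 * A.L y = 1 := by
      rw [Equiv.Perm.one_apply]
      group
    rw [e]
    exact one_mem _
  inv_mem' := by
    intro g hg y
    have h1 := inv_mem (hg (g⁻¹ y))
    have e : ((A.L (g (g⁻¹ y)))⁻¹ * g * A.L (g⁻¹ y))⁻¹ = (A.L (g⁻¹ y))⁻¹ * g⁻¹ * A.L y := by
      rw [ai]
      group
    rwa [e] at h1

theorem mem_GB {B : Subgroup (Equiv.Perm Q)} {g : Equiv.Perm Q} :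
    g ∈ GB A B ↔ ∀ y, (A.L (g y))⁻¹ * g * A.L y ∈ B := Iff.rfl

theorem B_GB {B : Subgroup (Equiv.Perm Q)} (hB : B ≤ A.Aut) : B ≤ GB A B := by
  intro b hb y
  have e : (A.L (b y))⁻¹ * b * A.L y = b := by
    rw [mul_assoc, AL.aut_L (hB hb) y]
    group
  rwa [e]

theorem GB_e {B : Subgroup (Equiv.Perm Q)} {g : Equiv.Perm Q} (hg : g ∈ GB A B) :
    (A.L (g A.e))⁻¹ * g ∈ B := by
  have h := hg A.e
  rwa [AL.L_e, mul_one] at h

theorem L_GB {B : Subgroup (Equiv.Perm Q)} {x : Q} : A.L x ∈ GB A B ↔ ∀ y, th A x y ∈ B := Iff.rfl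

/-- the points of the orbit of `e` -/
def XB (A : AL Q) (B : Subgroup (Equiv.Perm Q)) : Set Q := {x | ∀ y, th A x y ∈ B}

theorem GB_XB {B : Subgroup (Equiv.Perm Q)} (hB : B ≤ A.Aut) {g : Equiv.Perm Q}
    (hg : g ∈ GB A B) : g A.e ∈ XB A B := by
  have h1 := GB_e hg
  have h2 : A.L (g A.e) ∈ GB A B := by
    have h3 := mul_mem hg (inv_mem (B_GB hB h1))
    have e : g * ((A.L (g A.e))⁻¹ * g)⁻¹ = A.L (g A.e) := by group
    rwa [e] at h3
  exact h2

theorem XB_op {B : Subgroup (Equiv.Perm Q)} (hB : B ≤ A.Aut) {x y : Q} (hx : x ∈ XB A B)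
    (hy : y ∈ XB A B) : A.op x y ∈ XB A B := by
  have h := GB_XB hB (mul_mem (L_GB.2 hx) (L_GB.2 hy))
  have e : (A.L x * A.L y) A.e = A.op x y := by
    show A.op x (A.op y A.e) = _
    rw [A.idr]
  rwa [e] at h

theorem XB_e {B : Subgroup (Equiv.Perm Q)} : A.e ∈ XB A B := by
  intro y
  have e : th A A.e y = 1 := by
    unfold th
    rw [A.idl, AL.L_e]
    group
  rw [e]
  exact one_mem _

section Fin
variable [Finite Q]

open scoped Classical in
/-- the basic divisibility: a group `Γ` of permutations with `L_{gy}⁻¹ g L_y ∈ B`, containing `B` as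
the stabilizer of `e` -/
theorem card_orbit_dvd {B Γ : Subgroup (Equiv.Perm Q)} (hΓ : Γ ≤ GB A B) (hB : B ≤ Γ)
    (hBa : B ≤ A.Aut) (y : Q) :
    (MulAction.orbit Γ A.e).ncard ∣ (MulAction.orbit Γ y).ncard := by
  have h1 : (MulAction.orbit Γ A.e).ncard * Nat.card (MulAction.stabilizer Γ A.e) =
      Nat.card Γ := by
    rw [← MulAction.index_stabilizer, Subgroup.index_mul_card]
  have h2 : (MulAction.orbit Γ y).ncard * Nat.card (MulAction.stabilizer Γ y) =
      Nat.card Γ := by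
    rw [← MulAction.index_stabilizer, Subgroup.index_mul_card]
  -- the stabilizer of `e` is `B`
  have h3 : Nat.card (MulAction.stabilizer Γ A.e) = Nat.card B := by
    refine Nat.card_congr ⟨fun g => ⟨g.1.1, ?_⟩, fun b => ⟨⟨b.1, hB b.2⟩, ?_⟩, fun g => rfl,
      fun b => rfl⟩
    · have h4 : g.1.1 A.e = A.e := g.2
      have h5 := GB_e (hΓ g.1.2)
      rw [h4, AL.L_e] at h5
      simpa using h5
    · show b.1 A.e = A.e
      exact AL.aut_e (hBa b.2)
  -- the stabilizer of `y` embeds in `B`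
  have h4 : Nat.card (MulAction.stabilizer Γ y) ∣ Nat.card B := by
    let f : MulAction.stabilizer Γ y →* B :=
      { toFun := fun g => ⟨(A.L y)⁻¹ * g.1.1 * A.L y, by
          have h5 := hΓ g.1.2 y
          have h6 : g.1.1 y = y := g.2
          rwa [h6] at h5⟩
        map_one' := by
          apply Subtype.ext
          show (A.L y)⁻¹ * 1 * A.L y = 1
          group
        map_mul' := by
          intro g h
          apply Subtype.ext
          show (A.L y)⁻¹ * (g.1.1 * h.1.1) * A.L y =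
            (A.L y)⁻¹ * g.1.1 * A.L y * ((A.L y)⁻¹ * h.1.1 * A.L y)
          group }
    have hf : Function.Injective f := by
      intro g h hgh
      have h5 : (A.L y)⁻¹ * g.1.1 * A.L y = (A.L y)⁻¹ * h.1.1 * A.L y :=
        congrArg Subtype.val hgh
      have h6 : g.1.1 = h.1.1 := mul_left_cancel (mul_right_cancel h5)
      exact Subtype.ext (Subtype.ext h6)
    exact Subgroup.card_dvd_of_injective f hf
  obtain ⟨k, hk⟩ := h4
  have hpos : 0 < Nat.card (MulAction.stabilizer Γ y) := Nat.card_pos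
  refine ⟨k, ?_⟩
  have h5 : (MulAction.orbit Γ y).ncard * Nat.card (MulAction.stabilizer Γ y) =
      (MulAction.orbit Γ A.e).ncard * k * Nat.card (MulAction.stabilizer Γ y) := by
    rw [h2, ← h1, h3, hk]
    ring
  exact Nat.eq_of_mul_eq_mul_right hpos h5

open scoped Classical in
theorem orbits_dvd (Γ : Subgroup (Equiv.Perm Q)) (d : ℕ)
    (h : ∀ y : Q, d ∣ (MulAction.orbit Γ y).ncard) : d ∣ Nat.card Q := by
  haveI := Fintype.ofFinite Q
  have h1 := Pool.Agent.W790.LG.dvd_sum_orbits (MulAction.orbitRel Γ Q)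
    (fun _ => (1 : ℤ)) (d : ℤ) (fun _ _ _ => rfl) (by
      intro x
      rw [mul_one]
      have h2 : (Finset.univ.filter (fun y => (MulAction.orbitRel Γ Q) x y)).card =
          (MulAction.orbit Γ x).ncard := by
        rw [← Set.ncard_coe_finset]
        congr 1
        ext y
        rw [Finset.mem_coe, Finset.mem_filter]
        constructor
        · rintro ⟨_, h2⟩
          exact (MulAction.orbitRel Γ Q).symm h2
        · intro h2
          exact ⟨Finset.mem_univ _, (MulAction.orbitRel Γ Q).symm h2⟩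
      rw [h2]
      exact_mod_cast h x)
  rw [Finset.sum_const, Finset.card_univ, nsmul_eq_mul, mul_one] at h1
  rw [Nat.card_eq_fintype_card]
  exact_mod_cast h1

/-- **Lagrange property**: a subloop which is invariant under the left inner mappings
`L_{x,y}` with `x` in the subloop and `y` arbitrary -/
theorem lagrange_inv {S : Set Q} (he : A.e ∈ S) (hop : ∀ a ∈ S, ∀ b ∈ S, A.op a b ∈ S)
    (hinv : ∀ x ∈ S, ∀ y, ∀ s ∈ S, th A x y s ∈ S) : Nat.card S ∣ Nat.card Q := by
  -- all automorphisms preserving `S`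
  let B : Subgroup (Equiv.Perm Q) :=
    { carrier := {g | g ∈ A.Aut ∧ ∀ s, s ∈ S ↔ g s ∈ S}
      mul_mem' := by
        rintro a b ⟨ha, ha'⟩ ⟨hb, hb'⟩
        exact ⟨mul_mem ha hb, fun s => (hb' s).trans (ha' _)⟩
      one_mem' := ⟨one_mem _, fun s => Iff.rfl⟩
      inv_mem' := by
        rintro a ⟨ha, ha'⟩
        refine ⟨inv_mem ha, fun s => ?_⟩
        rw [ha' (a⁻¹ s), ai] }
  have hBa : B ≤ A.Aut := fun b hb => hb.1
  have hbij : ∀ {g : Equiv.Perm Q}, (∀ s ∈ S, g s ∈ S) → ∀ s, s ∈ S ↔ g s ∈ S := by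
    intro g hg s
    refine ⟨hg s, fun h => ?_⟩
    have h1 := Pool.Agent.W790.LG.inv_mem_of_map hg _ h
    rwa [ia] at h1
  have hth : ∀ x ∈ S, ∀ y, th A x y ∈ B := fun x hx y =>
    ⟨th_aut x y, hbij (hinv x hx y)⟩
  -- the group
  let Γ : Subgroup (Equiv.Perm Q) :=
    { carrier := {g | g ∈ GB A B ∧ ∀ s, s ∈ S ↔ g s ∈ S}
      mul_mem' := by
        rintro a b ⟨ha, ha'⟩ ⟨hb, hb'⟩
        exact ⟨mul_mem ha hb, fun s => (hb' s).trans (ha' _)⟩
      one_mem' := ⟨one_mem _, fun s => Iff.rfl⟩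
      inv_mem' := by
        rintro a ⟨ha, ha'⟩
        refine ⟨inv_mem ha, fun s => ?_⟩
        rw [ha' (a⁻¹ s), ai] }
  have hΓ : Γ ≤ GB A B := fun g hg => hg.1
  have hBΓ : B ≤ Γ := fun b hb => ⟨B_GB hBa hb, hb.2⟩
  have horb : MulAction.orbit Γ A.e = S := by
    ext x
    constructor
    · rintro ⟨g, rfl⟩
      exact (g.2.2 A.e).1 he
    · intro hx
      refine ⟨⟨A.L x, L_GB.2 (hth x hx), hbij (g := A.L x) (fun s hs => hop x hx s hs)⟩, ?_⟩
      exact A.idr x
  refine orbits_dvd Γ _ fun y => ?_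
  have h := card_orbit_dvd hΓ hBΓ hBa y
  rwa [horb] at h

end Fin

end Pool.Agent.TH427.AR
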