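import Pool.Agent.TH427.AR.Lag

/-!
Chains of left-invariant subloops.
-/

set_option autoImplicit false
set_option linter.unusedSectionVars false
set_option linter.unusedVariables false

namespace Pool.Agent.TH427.AR

open Pool.Agent.H687R3.AL
open Pool.Agent.W790.LG (Hol ai ia Hol_e sub)

variable {Q : Type} {A : AL Q} [Finite Q]

theorem th_eq {x y s s' : Q} (h : A.op x (A.op y s) = A.op (A.op x y) s') : th A x y s = s' := by
  show (A.L (A.op x y))⁻¹ (A.op x (A.op y s)) = s'
  rw [h, Equiv.Perm.inv_eq_iff_eq]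
  rfl

/-- one step -/
theorem lag_step {S T : Set Q} (hST : S ⊆ T) (he : A.e ∈ S)
    (hop : ∀ a ∈ S, ∀ b ∈ S, A.op a b ∈ S) (hopT : ∀ a ∈ T, ∀ b ∈ T, A.op a b ∈ T)
    (h : ∀ x ∈ S, ∀ y ∈ T, ∀ s ∈ S, ∃ s' ∈ S, A.op x (A.op y s) = A.op (A.op x y) s') :
    Nat.card S ∣ Nat.card T := by
  have := Fintype.ofFinite Q
  have h1 := lagrange_inv (A := sub A T (hST he) hopT) (S := (Subtype.val ⁻¹' S : Set T)) he
    (fun a ha b hb => hop _ ha _ hb) (by
      intro x hx y s hs
      obtain ⟨s', hs', e⟩ := h x hx y y.2 s hs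
      have e2 : th (sub A T (hST he) hopT) x y s = ⟨s', hST hs'⟩ := th_eq (Subtype.ext e)
      rw [e2]
      exact hs')
  have h2 : Nat.card (Subtype.val ⁻¹' S : Set T) = Nat.card S := by
    have e : Subtype.val '' (Subtype.val ⁻¹' S : Set T) = S := by
      rw [Subtype.image_preimage_coe]
      exact Set.inter_eq_right.2 hST
    have h6 := Nat.card_image_of_injective (Subtype.val_injective (p := fun x => x ∈ T))
      (Subtype.val ⁻¹' S : Set T)
    rw [← h6]
    exact congrArg (fun s : Set Q => Nat.card s) e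
  rwa [h2] at h1

theorem lag_chain (n : ℕ) (S : ℕ → Set Q) (he : ∀ i ≤ n, A.e ∈ S i)
    (hop : ∀ i ≤ n, ∀ a ∈ S i, ∀ b ∈ S i, A.op a b ∈ S i) (hsub : ∀ i < n, S i ⊆ S (i + 1))
    (h : ∀ i < n, ∀ x ∈ S i, ∀ y ∈ S (i + 1), ∀ s ∈ S i,
      ∃ s' ∈ S i, A.op x (A.op y s) = A.op (A.op x y) s') :
    Nat.card (S 0) ∣ Nat.card (S n) := by
  induction n with
  | zero => exact dvd_rfl
  | succ n ih =>
    refine (ih (fun i hi => he i (by omega)) (fun i hi => hop i (by omega))
      (fun i hi => hsub i (by omega)) (fun i hi => h i (by omega))).trans ?_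
    exact lag_step (hsub n (by omega)) (he n (by omega)) (hop n (by omega)) (hop (n + 1) le_rfl)
      (h n (by omega))

end Pool.Agent.TH427.AR
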