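import Pool.Agent.TH427.AR.Cen

/-!
Finite automorphic loops with a series whose factors are groups are solvable-by-group.
-/

set_option autoImplicit false
set_option linter.unusedSectionVars false
set_option linter.unusedVariables false

namespace Pool.Agent.TH427.AR

open H675HL H675HL.CharAux
open Pool.Agent.W155.SY (Solv Step)

/-- one step of a subnormal series whose factor is a group -/
def StepA {X : Type} (mul : X → X → X) (e : X) (M N : Set X) : Prop :=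
  M ⊆ N ∧ e ∈ M ∧ (∀ a ∈ M, ∀ b ∈ M, mul a b ∈ M) ∧ (∀ a ∈ N, ∀ b ∈ N, mul a b ∈ N) ∧
    (∀ x ∈ N, ∀ y ∈ N, ∀ m ∈ M,
      (∃ m' ∈ M, mul x m = mul m' x) ∧
      (∃ m' ∈ M, mul (mul m x) y = mul m' (mul x y)) ∧
      (∃ m' ∈ M, mul y (mul x m) = mul (mul y x) m')) ∧
    (∀ x ∈ N, ∀ y ∈ N, ∀ z ∈ N, ∃ m ∈ M, mul (mul x y) z = mul (mul x (mul y z)) m)

/-- chains -/
def Ch {X : Type} (mul : X → X → X) (e : X) : Set X → Set X → Prop :=
  Relation.ReflTransGen (StepA mul e)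

theorem last_step {X : Type} {mul : X → X → X} {e : X} {P : Set X} (h : Ch mul e {e} P) :
    P = Set.univ → ({e} : Set X) = Set.univ ∨
      ∃ N : Set X, N ≠ Set.univ ∧ Ch mul e {e} N ∧ StepA mul e N Set.univ := by
  induction h with
  | refl => exact fun h => Or.inl h
  | @tail M P hM hs ih =>
    rintro rfl
    by_cases hu : M = Set.univ
    · exact ih hu
    · exact Or.inr ⟨M, hu, hM, hs⟩

section
variable {Q : Type} [AL Q]

theorem stepA_img {X : Type} [Mul X] (j : X → Q) (hj : ∀ x y, j (x * y) = j x * j y) (e : X)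
    (he : j e = 1) {M N : Set X} (h : StepA (fun a b : X => a * b) e M N) :
    StepA (fun a b : Q => a * b) 1 (j '' M) (j '' N) := by
  obtain ⟨h1, h2, h3, h3', h4, h5⟩ := h
  refine ⟨Set.image_mono h1, ⟨e, h2, he⟩, ?_, ?_, ?_, ?_⟩
  · rintro _ ⟨a, ha, rfl⟩ _ ⟨b, hb, rfl⟩
    exact ⟨a * b, h3 _ ha _ hb, hj a b⟩
  · rintro _ ⟨a, ha, rfl⟩ _ ⟨b, hb, rfl⟩
    exact ⟨a * b, h3' _ ha _ hb, hj a b⟩
  · rintro _ ⟨x, hx, rfl⟩ _ ⟨y, hy, rfl⟩ _ ⟨m, hm, rfl⟩
    obtain ⟨⟨m1, hm1, e1⟩, ⟨m2, hm2, e2⟩, ⟨m3, hm3, e3⟩⟩ := h4 x hx y hy m hm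
    simp only at e1 e2 e3
    refine ⟨⟨j m1, ⟨m1, hm1, rfl⟩, ?_⟩, ⟨j m2, ⟨m2, hm2, rfl⟩, ?_⟩,
      ⟨j m3, ⟨m3, hm3, rfl⟩, ?_⟩⟩
    · simp only [← hj]
      rw [e1]
    · simp only [← hj]
      rw [e2]
    · simp only [← hj]
      rw [e3]
  · rintro _ ⟨x, hx, rfl⟩ _ ⟨y, hy, rfl⟩ _ ⟨z, hz, rfl⟩
    obtain ⟨m1, hm1, e1⟩ := h5 x hx y hy z hz
    simp only at e1
    refine ⟨j m1, ⟨m1, hm1, rfl⟩, ?_⟩
    simp only [← hj]
    rw [e1]

theorem ch_img {X : Type} [Mul X] (j : X → Q) (hj : ∀ x y, j (x * y) = j x * j y) (e : X)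
    (he : j e = 1) {M N : Set X} (h : Ch (fun a b : X => a * b) e M N) :
    Ch (fun a b : Q => a * b) 1 (j '' M) (j '' N) := by
  induction h with
  | refl => exact Relation.ReflTransGen.refl
  | tail _ hs ih => exact ih.tail (stepA_img j hj e he hs)

theorem ch_sub [Finite Q] {N : Set Q} (hN : H675HL.Sub N) {P : Set Q}
    (h : Ch (fun a b : Q => a * b) 1 {1} P) (hP : P ⊆ N) :
    @Ch N (fun a b => (⟨a.1 * b.1, hN.2 _ a.2 _ b.2⟩ : N)) (⟨1, hN.1⟩ : N) {⟨1, hN.1⟩}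
      (Subtype.val ⁻¹' P) := by
  induction h with
  | refl =>
    have e : (Subtype.val ⁻¹' ({1} : Set Q) : Set N) = {⟨1, hN.1⟩} := by
      ext x
      exact ⟨fun h => Subtype.ext h, fun h => congrArg Subtype.val h⟩
    rw [e]
    exact Relation.ReflTransGen.refl
  | @tail M P hM hs ih =>
    have hMP := hs.1
    refine (ih (hMP.trans hP)).tail ?_
    obtain ⟨h1, h2, h3, h3', h4, h5⟩ := hs
    refine ⟨fun x hx => h1 hx, h2, fun a ha b hb => h3 _ ha _ hb, fun a ha b hb => h3' _ ha _ hb,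
      ?_, ?_⟩
    · intro x hx y hy m hm
      obtain ⟨⟨a, ha, ea⟩, ⟨b, hb, eb⟩, ⟨c, hc, ec⟩⟩ := h4 _ hx _ hy _ hm
      exact ⟨⟨⟨a, hP (h1 ha)⟩, ha, Subtype.ext ea⟩, ⟨⟨b, hP (h1 hb)⟩, hb, Subtype.ext eb⟩,
        ⟨⟨c, hP (h1 hc)⟩, hc, Subtype.ext ec⟩⟩
    · intro x hx y hy z hz
      obtain ⟨a, ha, ea⟩ := h5 _ hx _ hy _ hz
      exact ⟨⟨a, hP (h1 ha)⟩, ha, Subtype.ext ea⟩

theorem solv_triv : Solv (fun a b : Q => a * b) 1 {(1 : Q)} := by
  refine ⟨?_, 0, fun _ => {1}, rfl, rfl, fun i hi => absurd hi (Nat.not_lt_zero i)⟩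
  rintro _ rfl _ rfl
  exact AL.mul_one' 1

variable [Finite Q]

/-- the associator subloop of `N` -/
def As (N : Set Q) (hN : H675HL.Sub N) : Set Q :=
  {x | ∃ h : x ∈ N, ∀ (K : Type) (_ : Group K) (f : N → K),
    (∀ a b : N, f ⟨a.1 * b.1, hN.2 _ a.2 _ b.2⟩ = f a * f b) → f ⟨x, h⟩ = 1}

theorem As_sub (N : Set Q) (hN : H675HL.Sub N) : H675HL.Sub (As N hN) := by
  refine ⟨⟨hN.1, fun K _ f hf => ?_⟩, ?_⟩
  · have h := hf ⟨1, hN.1⟩ ⟨1, hN.1⟩
    have h2 : (⟨(1 : Q) * 1, hN.2 _ hN.1 _ hN.1⟩ : N) = ⟨1, hN.1⟩ := Subtype.ext (AL.one_mul' 1)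
    have h3 : f ⟨1, hN.1⟩ = f ⟨1, hN.1⟩ * f ⟨1, hN.1⟩ := by
      rw [← h]
      exact congrArg f h2.symm
    exact left_eq_mul.1 h3
  · rintro a ⟨ha, ha'⟩ b ⟨hb, hb'⟩
    refine ⟨hN.2 a ha b hb, fun K _ f hf => ?_⟩
    have h := hf ⟨a, ha⟩ ⟨b, hb⟩
    rw [ha' K _ f hf, hb' K _ f hf, mul_one] at h
    exact h

theorem As_normal {N : Set Q} (hN : Normal N) : Normal (As N hN.1) := by
  refine normal_of_inn (As_sub N hN.1) ?_
  rintro g hg h1 haut m ⟨hm, hm'⟩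
  have hgN := inn_of_normal hN hg h1
  refine ⟨hgN m hm, fun K _ f hf => ?_⟩
  refine hm' K _ (fun x => f ⟨g x.1, hgN _ x.2⟩) (fun a b => ?_)
  have h := hf ⟨g a.1, hgN _ a.2⟩ ⟨g b.1, hgN _ b.2⟩
  rw [← h]
  refine congrArg f (Subtype.ext ?_)
  exact haut a.1 b.1

theorem As_assoc {N : Set Q} (hN : Normal N) (h : As N hN.1 = {1}) :
    ∀ x ∈ N, ∀ y ∈ N, ∀ z ∈ N, (x * y) * z = x * (y * z) := by
  intro x hx y hy z hz
  obtain ⟨c, hc⟩ := (AL.bijL (x * (y * z))).2 ((x * y) * z)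
  have hc' : (x * (y * z)) * c = (x * y) * z := hc
  have hxy := hN.1.2 x hx y hy
  have hyz := hN.1.2 y hy z hz
  have hcN : c ∈ N := HA.W237.solL_mem hN.1 (hN.1.2 _ hx _ hyz) (hN.1.2 _ hxy _ hz) hc'.symm
  have hcA : c ∈ As N hN.1 := by
    refine ⟨hcN, fun K _ f hf => ?_⟩
    have e : (⟨(x * (y * z)) * c, hN.1.2 _ (hN.1.2 _ hx _ hyz) _ hcN⟩ : N) =
        ⟨(x * y) * z, hN.1.2 _ hxy _ hz⟩ := Subtype.ext hc'
    have h1 := congrArg f e
    rw [hf ⟨x * (y * z), hN.1.2 _ hx _ hyz⟩ ⟨c, hcN⟩, hf ⟨x, hx⟩ ⟨y * z, hyz⟩,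
      hf ⟨y, hy⟩ ⟨z, hz⟩, hf ⟨x * y, hxy⟩ ⟨z, hz⟩, hf ⟨x, hx⟩ ⟨y, hy⟩, mul_assoc (f ⟨x, hx⟩) (f ⟨y, hy⟩)] at h1
    exact mul_eq_left.1 h1
  rw [h, Set.mem_singleton_iff] at hcA
  rw [hcA, AL.mul_one'] at hc'
  exact hc'.symm

end

/-- `Q` is solvable-by-group -/
def SG (Q : Type) [AL Q] : Prop :=
  ∃ (K : Type) (_ : Group K) (f : Q → K), (∀ x y, f (x * y) = f x * f y) ∧
    Solv (fun a b : Q => a * b) 1 {x | f x = 1}

theorem sg_assoc (Q : Type) [AL Q] (h : ∀ x y z : Q, (x * y) * z = x * (y * z)) : SG Q := by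
  let G : Group Q := @Group.ofLeftAxioms Q _ ⟨fun a => ((AL.bijR a).2 1).choose⟩ _ h
    (fun a => AL.one_mul' a) (fun a => ((AL.bijR a).2 1).choose_spec)
  refine ⟨Q, G, id, fun x y => rfl, ?_⟩
  have e : {x : Q | id x = 1} = {1} := rfl
  rw [e]
  exact solv_triv

theorem mt (n : ℕ) : ∀ (Q : Type) [AL Q] [Finite Q], Nat.card Q = n →
    Ch (fun a b : Q => a * b) 1 {1} Set.univ → SG Q := by
  induction n using Nat.strong_induction_on with
  | _ n ih =>
    intro Q _ _ hn hch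
    rcases last_step hch rfl with h1 | ⟨N, hNu, hNc, hs⟩
    · refine sg_assoc Q fun x y z => ?_
      have h2 : ∀ x : Q, x = 1 := fun x => by
        have : x ∈ ({1} : Set Q) := h1 ▸ Set.mem_univ x
        exact this
      rw [h2 x, h2 y, h2 z]
      simp only [AL.mul_one']
    have hN : Normal N := by
      refine ⟨⟨hs.2.1, hs.2.2.1⟩, fun x y m hm => ?_⟩
      exact hs.2.2.2.2.1 x (Set.mem_univ _) y (Set.mem_univ _) m hm
    have hcard : Nat.card N < n := by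
      have h1 := Set.ncard_lt_ncard (Set.ssubset_univ_iff.2 hNu) (Set.toFinite _)
      rw [Set.ncard_univ, hn] at h1
      exact h1
    by_cases hB : NoSol Q
    · let i : AL N := H99.subAL N hN.1
      obtain ⟨K, hK, f, hf, hker⟩ := ih _ hcard N rfl (by
        have h2 := ch_sub hN.1 hNc subset_rfl
        have e : (Subtype.val ⁻¹' N : Set N) = Set.univ := by
          ext x
          exact ⟨fun _ => trivial, fun _ => x.2⟩
        rw [e] at h2
        exact h2)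
      have hAs : As N hN.1 = {1} := by
        refine hB _ (As_normal hN) ?_
        have h3 := solv_img (Q := Q) (fun x : N => (x : Q)) (fun x y => rfl) 1 rfl hker
        refine solv_inter h3 (As_sub N hN.1) ?_
        rintro x ⟨hx, hx'⟩
        exact ⟨⟨x, hx⟩, hx' K hK f (fun a b => hf a b), rfl⟩
      refine sg_assoc Q ?_
      refine two_step hB hN (As_assoc hN hAs) ?_
      intro x y z
      exact hs.2.2.2.2.2 x (Set.mem_univ _) y (Set.mem_univ _) z (Set.mem_univ _)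
    · unfold NoSol at hB
      push Not at hB
      obtain ⟨B, hBn, hBs, hB1⟩ := hB
      have hcard' : Nat.card (Quo.QM hBn) < n := by
        have h1 := Quo.card_pre hBn (Set.univ : Set (Quo.QM hBn))
        rw [Set.preimage_univ] at h1
        have h2 : Nat.card (Set.univ : Set Q) = Nat.card Q := Nat.card_congr (Equiv.Set.univ Q)
        have h3 : Nat.card (Set.univ : Set (Quo.QM hBn)) = Nat.card (Quo.QM hBn) :=
          Nat.card_congr (Equiv.Set.univ _)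
        rw [h2, h3, hn] at h1
        have hB2 : 1 < Nat.card B := by
          rw [Finite.one_lt_card_iff_nontrivial]
          have : ∃ m ∈ B, m ≠ 1 := by
            by_contra hcon
            push Not at hcon
            apply hB1
            ext m
            rw [Set.mem_singleton_iff]
            exact ⟨fun hm => hcon m hm, fun hm => hm ▸ hBn.1.1⟩
          obtain ⟨m, hm, hne⟩ := this
          exact ⟨⟨⟨m, hm⟩, ⟨1, hBn.1.1⟩, fun e => hne (congrArg Subtype.val e)⟩⟩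
        have hpos : 0 < Nat.card (Quo.QM hBn) := by
          have : Nonempty (Quo.QM hBn) := ⟨1⟩
          exact Nat.card_pos
        nlinarith
      obtain ⟨K, hK, f, hf, hker⟩ := ih _ hcard' (Quo.QM hBn) rfl (by
        have h2 := ch_img (Q := Quo.QM hBn) (Quo.pr hBn) (Quo.pr_mul hBn) 1 rfl hch
        have e1 : Quo.pr hBn '' {1} = {1} := by rw [Set.image_singleton]; rfl
        have e2 : Quo.pr hBn '' Set.univ = Set.univ := by
          rw [Set.image_univ]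
          ext x
          exact ⟨fun _ => trivial, fun _ => Quo.pr_surj hBn x⟩
        rw [e1, e2] at h2
        exact h2)
      refine ⟨K, hK, fun x => f (Quo.pr hBn x), fun x y => ?_, ?_⟩
      · show f (Quo.pr hBn (x * y)) = _
        rw [Quo.pr_mul, hf]
      · have hk : {x : Q | Quo.pr hBn x = Quo.pr hBn 1} = B := by
          ext x
          rw [Set.mem_ofPred_eq, Quo.pr_eq]
          constructor
          · intro h
            obtain ⟨m, hm, he⟩ := Quo.rel_symm hBn h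
            rw [he, AL.mul_one']
            exact hm
          · intro hx
            exact Quo.rel_symm hBn ⟨x, hx, (AL.mul_one' x).symm⟩
        exact Pool.Agent.W155.SY.solv_pull (f := Quo.pr hBn) (Quo.pr_mul hBn)
          (fun x y z h => L_inj h) (fun x y z h => R_inj h) (by rw [hk]; exact hBs) hker

end Pool.Agent.TH427.AR
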