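import Pool.Agent.TH427.AR.MT
import Pool.Agent.TH427.AM2.All
import Pool.Agent.H361R3.AL.Final

/-!
Automorphic loops of prime power order have a series whose factors are groups.
-/

set_option autoImplicit false
set_option linter.unusedSectionVars false
set_option linter.unusedVariables false

namespace Pool.Agent.TH427.AR

open H675HL H675HL.CharAux
open Pool.Agent.W155.SY (Solv Step)

/-- the middle nucleus is nontrivial -/
theorem mid_ne (Q : Type) [AL Q] {p k : ℕ} (hp : p.Prime) (hk : 1 ≤ k)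
    (hcard : Nat.card Q = p ^ k) : ∃ a : Q, a ≠ 1 ∧ ∀ x y : Q, (x * a) * y = x * (a * y) := by
  by_cases hp2 : p = 2
  · subst hp2
    exact Pool.Agent.TH427.AM2.mid_two k hk Q (toA Q) hcard
  · let i1 : H361AL.Loop Q :=
      { mul := (· * ·)
        one := 1
        one_mul' := AL.one_mul'
        mul_one' := AL.mul_one'
        left_div := fun a b => (AL.bijL a).existsUnique b
        right_div := fun a b => (AL.bijR a).existsUnique b }
    have hle : H361AL.Mlt Q ≤ Mlt (toA Q) := by
      rw [H361AL.Mlt, Subgroup.closure_le]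
      rintro _ (⟨x, rfl⟩ | ⟨x, rfl⟩)
      · exact L_Mlt (A := toA Q) x
      · exact R_Mlt (A := toA Q) x
    have i2 : H361AL.Automorphic Q := ⟨fun f hf h1 x y => inn_aut (A := toA Q) (hle hf) h1 x y⟩
    have hfin : Finite Q := Nat.finite_of_card_ne_zero (by
      rw [hcard]; exact pow_ne_zero _ hp.ne_zero)
    exact H361AL.main (Q := Q) hp hp2 hcard hk

variable {Q : Type} [AL Q]

/-- the middle nucleus -/
def Nm (Q : Type) [AL Q] : Set Q := {a | ∀ x y : Q, (x * a) * y = x * (a * y)}

theorem Nm_sub : H675HL.Sub (Nm Q) := by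
  refine ⟨fun x y => by rw [AL.mul_one', AL.one_mul'], ?_⟩
  intro a ha b hb x y
  rw [← ha x b, hb, ha, hb]

theorem Nm_normal : Normal (Nm Q) := by
  refine normal_of_inn Nm_sub ?_
  intro g hg h1 haut a ha x y
  obtain ⟨x, rfl⟩ := g.surjective x
  obtain ⟨y, rfl⟩ := g.surjective y
  rw [← haut, ← haut, ha, haut, haut]

/-- the preimage of a step -/
theorem stepA_pull {K : Type} [AL K] {f : Q → K} (hf : ∀ x y, f (x * y) = f x * f y)
    (hf1 : f 1 = 1) {M N : Set K} (h : StepA (fun a b : K => a * b) 1 M N) :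
    StepA (fun a b : Q => a * b) 1 (f ⁻¹' M) (f ⁻¹' N) := by
  obtain ⟨h1, h2, h3, h3', h4, h5⟩ := h
  refine ⟨fun x hx => h1 hx, ?_, ?_, ?_, ?_, ?_⟩
  · change f 1 ∈ M
    rw [hf1]
    exact h2
  · intro a ha b hb
    change f (a * b) ∈ M
    rw [hf]
    exact h3 _ ha _ hb
  · intro a ha b hb
    change f (a * b) ∈ N
    rw [hf]
    exact h3' _ ha _ hb
  · intro x hx y hy m hm
    obtain ⟨⟨a, ha, ea⟩, ⟨b, hb, eb⟩, ⟨c, hc, ec⟩⟩ := h4 _ hx _ hy _ hm
    refine ⟨?_, ?_, ?_⟩
    · obtain ⟨m', hm'⟩ := (AL.bijR x).2 (x * m)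
      refine ⟨m', ?_, hm'.symm⟩
      have : f m' = a := by
        apply R_inj (a := f x)
        have h6 := congrArg f hm'
        simp only [hf] at h6
        exact h6.trans ea
      change f m' ∈ M
      rw [this]
      exact ha
    · obtain ⟨m', hm'⟩ := (AL.bijR (x * y)).2 ((m * x) * y)
      refine ⟨m', ?_, hm'.symm⟩
      have : f m' = b := by
        apply R_inj (a := f x * f y)
        have h6 := congrArg f hm'
        simp only [hf] at h6
        exact h6.trans eb
      change f m' ∈ M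
      rw [this]
      exact hb
    · obtain ⟨m', hm'⟩ := (AL.bijL (y * x)).2 (y * (x * m))
      refine ⟨m', ?_, hm'.symm⟩
      have : f m' = c := by
        apply L_inj (a := f y * f x)
        have h6 := congrArg f hm'
        simp only [hf] at h6
        exact h6.trans ec
      change f m' ∈ M
      rw [this]
      exact hc
  · intro x hx y hy z hz
    obtain ⟨a, ha, ea⟩ := h5 _ hx _ hy _ hz
    obtain ⟨m', hm'⟩ := (AL.bijL (x * (y * z))).2 ((x * y) * z)
    refine ⟨m', ?_, hm'.symm⟩
    have : f m' = a := by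
      apply L_inj (a := f x * (f y * f z))
      have h6 := congrArg f hm'
      simp only [hf] at h6
      exact h6.trans ea
    change f m' ∈ M
    rw [this]
    exact ha

theorem ch_pull {K : Type} [AL K] {f : Q → K} (hf : ∀ x y, f (x * y) = f x * f y)
    (hf1 : f 1 = 1) {M N : Set K} (h : Ch (fun a b : K => a * b) 1 M N) :
    Ch (fun a b : Q => a * b) 1 (f ⁻¹' M) (f ⁻¹' N) := by
  induction h with
  | refl => exact Relation.ReflTransGen.refl
  | tail _ hs ih => exact ih.tail (stepA_pull hf hf1 hs)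

variable [Finite Q]

theorem pre_one {B : Set Q} (hB : Normal B) : Quo.pr hB ⁻¹' {1} = B := by
  ext x
  rw [Set.mem_preimage, Set.mem_singleton_iff, ← Quo.pr_one hB, Quo.pr_eq]
  constructor
  · intro h
    obtain ⟨m, hm, he⟩ := Quo.rel_symm hB h
    rw [he, AL.mul_one']
    exact hm
  · intro hx
    exact Quo.rel_symm hB ⟨x, hx, (AL.mul_one' x).symm⟩

theorem card_q {B : Set Q} (hB : Normal B) :
    Nat.card Q = Nat.card B * Nat.card (Quo.QM hB) := by
  have h1 := Quo.card_pre hB (Set.univ : Set (Quo.QM hB))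
  rw [Set.preimage_univ] at h1
  have h2 : Nat.card (Set.univ : Set Q) = Nat.card Q := Nat.card_congr (Equiv.Set.univ Q)
  have h3 : Nat.card (Set.univ : Set (Quo.QM hB)) = Nat.card (Quo.QM hB) :=
    Nat.card_congr (Equiv.Set.univ _)
  rw [h2, h3] at h1
  exact h1

theorem card_B {B : Set Q} (hB : Normal B) (hB1 : B ≠ {1}) : 1 < Nat.card B := by
  rw [Finite.one_lt_card_iff_nontrivial]
  have : ∃ m ∈ B, m ≠ 1 := by
    by_contra hcon
    push Not at hcon
    apply hB1
    ext m
    rw [Set.mem_singleton_iff]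
    exact ⟨fun hm => hcon m hm, fun hm => hm ▸ hB.1.1⟩
  obtain ⟨m, hm, hne⟩ := this
  exact ⟨⟨⟨m, hm⟩, ⟨1, hB.1.1⟩, fun e => hne (congrArg Subtype.val e)⟩⟩

theorem card_qlt {B : Set Q} (hB : Normal B) (hB1 : B ≠ {1}) :
    Nat.card (Quo.QM hB) < Nat.card Q := by
  have h1 := card_q hB
  have h2 := card_B hB hB1
  have hpos : 0 < Nat.card (Quo.QM hB) := by
    have : Nonempty (Quo.QM hB) := ⟨1⟩
    exact Nat.card_pos
  nlinarith

theorem ch_pp {p : ℕ} (hp : p.Prime) (k : ℕ) : ∀ (Q : Type) [AL Q], Nat.card Q = p ^ k →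
    Ch (fun a b : Q => a * b) 1 {1} Set.univ := by
  induction k using Nat.strong_induction_on with
  | _ k ih =>
    intro Q _ hcard
    have hfin : Finite Q := Nat.finite_of_card_ne_zero (by
      rw [hcard]; exact pow_ne_zero _ hp.ne_zero)
    rcases Nat.eq_zero_or_pos k with rfl | hk
    · rw [pow_zero] at hcard
      obtain ⟨h1, -⟩ := Nat.card_eq_one_iff_unique.1 hcard
      have e : ({1} : Set Q) = Set.univ := by
        ext x
        exact ⟨fun _ => trivial, fun _ => h1.elim x 1⟩
      rw [e]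
      exact Relation.ReflTransGen.refl
    · obtain ⟨a, ha1, ha⟩ := mid_ne Q hp hk hcard
      have hne : Nm Q ≠ {1} := by
        intro h
        have h1 : a ∈ Nm Q := ha
        rw [h] at h1
        exact ha1 h1
      have h1 := card_q (Nm_normal (Q := Q))
      have h2 : Nat.card (Quo.QM (Nm_normal (Q := Q))) ∣ p ^ k := by
        rw [← hcard, h1]
        exact dvd_mul_left _ _
      obtain ⟨j, hj, hj'⟩ := (Nat.dvd_prime_pow hp).1 h2
      have hlt := card_qlt (Nm_normal (Q := Q)) hne
      rw [hj', hcard] at hlt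
      have hjk : j < k := (Nat.pow_lt_pow_iff_right hp.one_lt).1 hlt
      have h3 := ch_pull (Quo.pr_mul (Nm_normal (Q := Q))) (Quo.pr_one _)
        (ih j hjk (Quo.QM (Nm_normal (Q := Q))) hj')
      rw [pre_one, Set.preimage_univ] at h3
      refine Relation.ReflTransGen.head ?_ h3
      refine ⟨?_, rfl, ?_, Nm_sub.2, ?_, ?_⟩
      · rintro _ rfl
        exact Nm_sub.1
      · rintro _ rfl _ rfl
        exact AL.mul_one' 1
      · rintro x _ y _ _ rfl
        refine ⟨⟨1, rfl, ?_⟩, ⟨1, rfl, ?_⟩, ⟨1, rfl, ?_⟩⟩ <;>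
          simp only [AL.mul_one', AL.one_mul']
      · intro x _ y hy z _
        refine ⟨1, rfl, ?_⟩
        show (x * y) * z = (x * (y * z)) * 1
        rw [AL.mul_one', hy]

end Pool.Agent.TH427.AR
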