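import Pool.Agent.TH427.AR.Gen

/-!
Cauchy's theorem for automorphic loops under a condition on the simple sections of the
multiplication group.
-/

set_option autoImplicit false
set_option linter.unusedSectionVars false
set_option linter.unusedVariables false

namespace Pool.Agent.TH427.AR

open Pool.Agent.W790.LG (ai ia)
open Equiv (Perm)

section

variable {X : Type} {A : Pool.Agent.H687R3.AL.AL X} {N : Subgroup (Perm X)}

theorem isSimple_N [Finite X] (H : Hyp A) (hN : MinN A N) : IsSimpleGroup N := by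
  have : Nontrivial N := by
    rw [Subgroup.nontrivial_iff_ne_bot]
    exact hN.ne
  refine ⟨fun M hM => ?_⟩
  by_cases hb : M = ⊥
  · exact Or.inl hb
  · right
    have h1 : M.map N.subtype = N := by
      apply simple_N H hN
      · rintro _ ⟨m, hm, rfl⟩
        exact m.2
      · intro h2
        apply hb
        rw [Subgroup.map_eq_bot_iff_of_injective _ N.subtype_injective] at h2
        exact h2
      · rintro n hn _ ⟨m, hm, rfl⟩
        exact ⟨⟨n, hn⟩ * m * ⟨n, hn⟩⁻¹, hM.conj_mem m hm ⟨n, hn⟩, rfl⟩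
    rw [eq_top_iff]
    rintro n -
    have h2 : (n : Perm X) ∈ M.map N.subtype := by
      rw [h1]
      exact n.2
    obtain ⟨m, hm, hmn⟩ := h2
    have h3 : m = n := Subtype.ext hmn
    rw [← h3]
    exact hm

theorem nonab_N (H : Hyp A) (hN : MinN A N) : ∃ a b : N, a * b ≠ b * a := by
  by_contra hcon
  push Not at hcon
  apply hN.ne
  rw [eq_bot_iff]
  intro g hg
  rw [Subgroup.mem_bot]
  exact cent_one H hN (hN.le hg) (fun n hn => congrArg Subtype.val (hcon ⟨g, hg⟩ ⟨n, hn⟩))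

theorem dvd_N [Finite X] (H : Hyp A) (hN : MinN A N) : Nat.card X ∣ Nat.card N := by
  have htr : MulAction.orbit N A.e = Set.univ := by
    rw [Set.eq_univ_iff_forall]
    intro x
    obtain ⟨n, hn, he⟩ := trans_of H.hs hN.le hN.nrm hN.ne x
    exact ⟨⟨n, hn⟩, he⟩
  have h2 := MulAction.index_stabilizer N A.e
  rw [htr, Set.ncard_univ] at h2
  rw [← h2]
  exact Subgroup.index_dvd_card _

/-- conjugation by the inversion on `N` -/
noncomputable def aJ (H : Hyp A) (hN : MinN A N) : N ≃* N where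
  toFun n := ⟨A.J * n.1 * A.J, J_N H hN n.2⟩
  invFun n := ⟨A.J * n.1 * A.J, J_N H hN n.2⟩
  left_inv n := Subtype.ext (JJ n.1)
  right_inv n := Subtype.ext (JJ n.1)
  map_mul' a b := Subtype.ext (Jmul a.1 b.1)

theorem aJ_aJ (H : Hyp A) (hN : MinN A N) (n : N) : aJ H hN (aJ H hN n) = n := Subtype.ext (JJ n.1)

theorem aJ_val (H : Hyp A) (hN : MinN A N) (n : N) : (aJ H hN n).1 = A.J * n.1 * A.J := rfl

theorem aJ_ne (H : Hyp A) (hN : MinN A N) : ∃ n, aJ H hN n ≠ n := by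
  by_contra hcon
  push Not at hcon
  obtain ⟨x, y, z, hxyz⟩ := H.hna
  have h1 : ∀ x : X, x = A.e := by
    intro x
    obtain ⟨n, hn, he⟩ := trans_of H.hs hN.le hN.nrm hN.ne x
    have h2 : A.J * n * A.J = n := congrArg Subtype.val (hcon ⟨n, hn⟩)
    have h3 := CJ_e H.hs H.hJ (hN.le hn) (Jfix_iff.1 h2)
    rw [← he, h3]
  apply hxyz
  rw [h1 (A.op (A.op x y) z), h1 (A.op x (A.op y z))]

end

section

variable {Q X : Type} [H675HL.AL Q] [H675HL.AL X] [Finite Q] [Finite X]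

/-- `g'` is induced by `g` -/
def Ind (T : Set Q) (f : Q → X) (g : Perm Q) (g' : Perm X) : Prop :=
  ∀ t ∈ T, g t ∈ T ∧ f (g t) = g' (f t)

theorem Ind.one {T : Set Q} {f : Q → X} : Ind T f 1 1 := fun t ht => ⟨ht, rfl⟩

theorem Ind.mul {T : Set Q} {f : Q → X} {g h : Perm Q} {g' h' : Perm X} (hg : Ind T f g g')
    (hh : Ind T f h h') : Ind T f (g * h) (g' * h') := fun t ht => by
  obtain ⟨h1, h2⟩ := hh t ht
  obtain ⟨h3, h4⟩ := hg _ h1
  exact ⟨h3, by rw [Equiv.Perm.mul_apply, h4, h2]; rfl⟩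

theorem Ind.inv {T : Set Q} {f : Q → X} {g : Perm Q} {g' : Perm X} (hg : Ind T f g g') :
    Ind T f g⁻¹ g'⁻¹ := by
  have hinj : Function.Injective (fun t : T => (⟨g t.1, (hg t.1 t.2).1⟩ : T)) := by
    intro a b hab
    exact Subtype.ext (g.injective (congrArg Subtype.val hab))
  intro t ht
  obtain ⟨s, hs⟩ := (Finite.injective_iff_surjective.1 hinj) ⟨t, ht⟩
  have h1 : g s.1 = t := congrArg Subtype.val hs
  rw [← h1, ia]
  refine ⟨s.2, ?_⟩
  rw [(hg s.1 s.2).2, ia]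

theorem Ind.uniq {T : Set Q} {f : Q → X} (hs : ∀ x, ∃ t ∈ T, f t = x) {g : Perm Q}
    {g' g'' : Perm X} (h1 : Ind T f g g') (h2 : Ind T f g g'') : g' = g'' := by
  ext x
  obtain ⟨t, ht, rfl⟩ := hs x
  rw [← (h1 t ht).2, ← (h2 t ht).2]

theorem ind_Mlt {T : Set Q} {f : Q → X} (hT : ∀ a ∈ T, ∀ b ∈ T, a * b ∈ T ∧ f (a * b) = f a * f b)
    (hs : ∀ x, ∃ t ∈ T, f t = x) {g' : Perm X} (hg : g' ∈ Mlt (toA X)) :
    ∃ g ∈ Mlt (toA Q), Ind T f g g' := by
  unfold Mlt at hg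
  induction hg using Subgroup.closure_induction with
  | mem g' hg' =>
    rcases hg' with ⟨x, rfl⟩ | ⟨x, rfl⟩
    · obtain ⟨t, ht, rfl⟩ := hs x
      refine ⟨(toA Q).L t, L_Mlt t, fun s hs => ?_⟩
      exact hT t ht s hs
    · obtain ⟨t, ht, rfl⟩ := hs x
      refine ⟨(toA Q).R t, R_Mlt t, fun s hs => ?_⟩
      exact hT s hs t ht
  | one => exact ⟨1, one_mem _, Ind.one⟩
  | mul a b _ _ ha hb =>
    obtain ⟨g, hg, h1⟩ := ha
    obtain ⟨h, hh, h2⟩ := hb
    exact ⟨g * h, mul_mem hg hh, h1.mul h2⟩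
  | inv a _ ha =>
    obtain ⟨g, hg, h1⟩ := ha
    exact ⟨g⁻¹, inv_mem hg, h1.inv⟩

/-- the elements of the multiplication group that induce elements of `N` -/
def GN (T : Set Q) (f : Q → X) (N : Subgroup (Perm X)) : Subgroup (Perm Q) where
  carrier := {g | g ∈ Mlt (toA Q) ∧ ∃ n ∈ N, Ind T f g n}
  mul_mem' := by
    rintro a b ⟨ha, n, hn, h1⟩ ⟨hb, m, hm, h2⟩
    exact ⟨mul_mem ha hb, n * m, mul_mem hn hm, h1.mul h2⟩
  one_mem' := ⟨one_mem _, 1, one_mem _, Ind.one⟩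
  inv_mem' := by
    rintro a ⟨ha, n, hn, h1⟩
    exact ⟨inv_mem ha, n⁻¹, inv_mem hn, h1.inv⟩

/-- `N` is a section of the multiplication group -/
theorem section_N {T : Set Q} {f : Q → X}
    (hT : ∀ a ∈ T, ∀ b ∈ T, a * b ∈ T ∧ f (a * b) = f a * f b)
    (hs : ∀ x, ∃ t ∈ T, f t = x) {N : Subgroup (Perm X)} (hN : N ≤ Mlt (toA X)) :
    ∃ (Γ : Subgroup (Perm Q)) (π : Γ →* N), Γ ≤ Mlt (toA Q) ∧ Function.Surjective π := by
  classical
  have hch : ∀ g : GN T f N, ∃ n : N, Ind T f g.1 n.1 := by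
    rintro ⟨g, hg, n, hn, h1⟩
    exact ⟨⟨n, hn⟩, h1⟩
  choose φ hφ using hch
  refine ⟨GN T f N, ⟨⟨φ, ?_⟩, ?_⟩, fun g hg => hg.1, ?_⟩
  · exact Subtype.ext (Ind.uniq hs (hφ 1) Ind.one)
  · intro a b
    exact Subtype.ext (Ind.uniq hs (hφ (a * b)) ((hφ a).mul (hφ b)))
  · intro n
    obtain ⟨g, hg, h1⟩ := ind_Mlt (Q := Q) hT hs (hN n.2)
    refine ⟨⟨g, hg, n.1, n.2, h1⟩, ?_⟩
    exact Subtype.ext (Ind.uniq hs (hφ _) h1)

end

end Pool.Agent.TH427.AR
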