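import Pool.Agent.TH427.AR.Ser

/-!
Automorphic loops given by a product and an identity element.
-/

set_option autoImplicit false

namespace Pool.Agent.TH427.AR

open H675HL

/-- `mul` makes `Q` a loop with identity `e` all of whose inner mappings (middle, left and right)
are automorphisms. -/
structure AutLoop {Q : Type} (mul : Q → Q → Q) (e : Q) : Prop where
  one : ∀ a : Q, mul e a = a ∧ mul a e = a
  ldiv : ∀ a b : Q, ∃! x : Q, mul a x = b
  rdiv : ∀ a b : Q, ∃! y : Q, mul y a = b
  autT : ∀ x u v z₁ z₂ z₃ : Q, mul z₁ x = mul x u → mul z₂ x = mul x v →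
    mul z₃ x = mul x (mul u v) → z₃ = mul z₁ z₂
  autL : ∀ x y u v z₁ z₂ z₃ : Q, mul (mul y x) z₁ = mul y (mul x u) →
    mul (mul y x) z₂ = mul y (mul x v) →
    mul (mul y x) z₃ = mul y (mul x (mul u v)) → z₃ = mul z₁ z₂
  autR : ∀ x y u v z₁ z₂ z₃ : Q, mul z₁ (mul x y) = mul (mul u x) y →
    mul z₂ (mul x y) = mul (mul v x) y →
    mul z₃ (mul x y) = mul (mul (mul u v) x) y → z₃ = mul z₁ z₂

/-- the loop as an instance -/
@[reducible] def AutLoop.toAL {Q : Type} {mul : Q → Q → Q} {e : Q} (h : AutLoop mul e) : AL Q where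
  mul := mul
  one := e
  one_mul' := fun a => (h.one a).1
  mul_one' := fun a => (h.one a).2
  bijL := fun a => ⟨fun x y hxy => (h.ldiv a (mul a y)).unique hxy rfl,
    fun b => (h.ldiv a b).exists⟩
  bijR := fun a => ⟨fun x y hxy => (h.rdiv a (mul y a)).unique hxy rfl,
    fun b => (h.rdiv a b).exists⟩
  autL := by
    intro x y u v a b h2 h3
    obtain ⟨z, hz⟩ := (h.ldiv (mul x y) (mul x (mul y (mul u v)))).exists
    show mul (mul x y) (mul a b) = mul x (mul y (mul u v))
    rw [← hz]
    exact congrArg (fun w => mul (mul x y) w) (h.autL y x u v a b z h2 h3 hz).symm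
  autR := by
    intro x y u v a b h2 h3
    obtain ⟨z, hz⟩ := (h.rdiv (mul y x) (mul (mul (mul u v) y) x)).exists
    show mul (mul a b) (mul y x) = mul (mul (mul u v) y) x
    rw [← hz]
    exact congrArg (fun w => mul w (mul y x)) (h.autR y x u v a b z h2 h3 hz).symm
  autT := by
    intro x u v a b h2 h3
    obtain ⟨z, hz⟩ := (h.rdiv x (mul x (mul u v))).exists
    show mul (mul a b) x = mul x (mul u v)
    rw [← hz]
    exact congrArg (fun w => mul w x) (h.autT x u v a b z h2 h3 hz).symm

end Pool.Agent.TH427.AR
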