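import Pool.Agent.TH427.AR.AS4

/-!
Powers in automorphic loops: power associativity, elements of prime order.
-/

set_option autoImplicit false
set_option linter.unusedSectionVars false
set_option linter.unusedVariables false

namespace Pool.Agent.TH427.AR

open Pool.Agent.H687R3.AL
open Pool.Agent.W790.LG (ai ia)
open Equiv (Perm)

section

variable {Q : Type} {A : AL Q}

/-- powers -/
noncomputable def pw (A : AL Q) (x : Q) (n : ℕ) : Q := (A.L x ^ n) A.e

theorem pw_zero (x : Q) : pw A x 0 = A.e := by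
  rw [pw, pow_zero]; rfl

theorem pw_one (x : Q) : pw A x 1 = x := by
  rw [pw, pow_one]; exact A.idr x

theorem op_pw (x : Q) (n : ℕ) : A.op x (pw A x n) = pw A x (n + 1) := by
  rw [pw, pw, pow_succ']; rfl

theorem pw_op (x : Q) (n : ℕ) : A.op (pw A x n) x = pw A x (n + 1) := by
  have hc : Commute (A.L x) (A.R x) := AL.flex x
  have h1 : A.R x * A.L x ^ n = A.L x ^ n * A.R x := ((hc.pow_left n).eq).symm
  have h2 : (A.R x * A.L x ^ n) A.e = (A.L x ^ n * A.R x) A.e := by rw [h1]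
  have h3 : A.op (pw A x n) x = (A.L x ^ n) (A.op A.e x) := h2
  rw [h3, A.idl, pw, pow_succ]
  show _ = (A.L x ^ n) (A.op x A.e)
  rw [A.idr]

/-- automorphisms fixing `x` fix its powers -/
theorem aut_pw {g : Perm Q} (hg : g ∈ A.Aut) {x : Q} (hx : g x = x) (n : ℕ) :
    g (pw A x n) = pw A x n := by
  induction n with
  | zero => rw [pw_zero, AL.aut_e hg]
  | succ n ih => rw [← op_pw, AL.aut_apply hg, hx, ih]

theorem L_pow_Mlt (x : Q) (n : ℕ) : A.L x ^ n ∈ Mlt A := pow_mem (L_Mlt x) n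

theorem pw_add (x : Q) (m n : ℕ) : A.op (pw A x m) (pw A x n) = pw A x (m + n) := by
  set θ := (A.L (pw A x m))⁻¹ * A.L x ^ m with hθ
  have h0 : θ A.e = A.e := by
    show (A.L (pw A x m))⁻¹ (pw A x m) = A.e
    rw [Equiv.Perm.inv_eq_iff_eq]
    exact (A.idr _).symm
  have haut : θ ∈ A.Aut := inn_aut (mul_mem (inv_mem (L_Mlt _)) (L_pow_Mlt x m)) h0
  have hx : θ x = x := by
    show (A.L (pw A x m))⁻¹ ((A.L x ^ m) x) = x
    rw [Equiv.Perm.inv_eq_iff_eq]
    show _ = A.op (pw A x m) x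
    rw [pw_op, pw, pow_succ]
    show _ = (A.L x ^ m) (A.op x A.e)
    rw [A.idr]
  have h1 := aut_pw haut hx n
  have h2 : (A.L (pw A x m))⁻¹ ((A.L x ^ m) (pw A x n)) = pw A x n := h1
  rw [Equiv.Perm.inv_eq_iff_eq] at h2
  have h3 : A.op (pw A x m) (pw A x n) = (A.L x ^ m) (pw A x n) := h2.symm
  rw [h3, pw, pw, pow_add]
  rfl

theorem pw_mul (x : Q) (m k : ℕ) : pw A (pw A x m) k = pw A x (m * k) := by
  induction k with
  | zero => rw [pw_zero, mul_zero, pw_zero]
  | succ k ih => rw [← op_pw, ih, pw_add]; congr 1; ring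

theorem R_pow_e (x : Q) (k : ℕ) : (A.R x ^ k) A.e = pw A x k := by
  induction k with
  | zero => rw [pow_zero, pw_zero]; rfl
  | succ k ih =>
    rw [pow_succ', ← pw_op, ← ih]
    rfl

/-- `x` has coprime exponents -/
theorem pw_coprime {x : Q} {m n : ℕ} (hm : pw A x m = A.e) (hn : pw A x n = A.e)
    (hc : Nat.Coprime m n) : x = A.e := by
  let T : Subgroup (Perm Q) :=
    { carrier := {g | g A.e = A.e}
      mul_mem' := by
        intro a b ha hb
        have ha' : a A.e = A.e := ha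
        have hb' : b A.e = A.e := hb
        show a (b A.e) = A.e
        rw [hb', ha']
      one_mem' := rfl
      inv_mem' := by
        intro a ha
        have ha' : a A.e = A.e := ha
        show a⁻¹ A.e = A.e
        rw [Equiv.Perm.inv_eq_iff_eq, ha'] }
  have h1 : A.L x ^ m ∈ T := hm
  have h2 : A.L x ^ n ∈ T := hn
  have h3 : A.L x ∈ T := by
    have h4 : (A.L x) ^ ((m : ℤ) * Nat.gcdA m n + n * Nat.gcdB m n) = A.L x := by
      rw [← Nat.gcd_eq_gcd_ab, hc.gcd_eq_one]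
      simp
    rw [← h4, zpow_add, zpow_mul, zpow_mul, zpow_natCast, zpow_natCast]
    exact mul_mem (zpow_mem h1 _) (zpow_mem h2 _)
  have h4 : A.L x A.e = A.e := h3
  have h5 : A.L x A.e = x := A.idr x
  rw [← h5, h4]

/-- there is an element of order `p` -/
def Cp (A : AL Q) (p : ℕ) : Prop := ∃ x, x ≠ A.e ∧ pw A x p = A.e

theorem exists_exp [Finite Q] (x : Q) : ∃ n, 0 < n ∧ pw A x n = A.e :=
  ⟨orderOf (A.L x), orderOf_pos _, by rw [pw, pow_orderOf_eq_one]; rfl⟩

/-- the order of an element -/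
theorem exists_ord [Finite Q] (x : Q) : ∃ n, 0 < n ∧ pw A x n = A.e ∧
    ∀ m, 0 < m → m < n → pw A x m ≠ A.e := by
  classical
  have h := exists_exp (A := A) x
  refine ⟨Nat.find h, (Nat.find_spec h).1, (Nat.find_spec h).2, fun m hm hlt he => ?_⟩
  exact Nat.find_min h hlt ⟨hm, he⟩

/-- if the order of `x` is divisible by `p` then there is an element of order `p` -/
theorem cp_of_dvd {p : ℕ} (hp : p.Prime) {x : Q} {n : ℕ} (hn : 0 < n) (he : pw A x n = A.e)
    (hmin : ∀ m, 0 < m → m < n → pw A x m ≠ A.e) (hd : p ∣ n) : Cp A p := by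
  obtain ⟨m, rfl⟩ := hd
  have hm : 0 < m := Nat.pos_of_mul_pos_left hn |> fun h => by
    rcases Nat.eq_zero_or_pos m with h0 | h0
    · rw [h0, mul_zero] at hn; exact absurd hn (lt_irrefl 0)
    · exact h0
  refine ⟨pw A x m, hmin m hm ?_, ?_⟩
  · nlinarith [hp.two_le]
  · rw [pw_mul, mul_comm]; exact he

theorem cp_lift {K : Type} {B : AL K} [Finite Q] (f : Q → K) (hf : ∀ x y, f (A.op x y) = B.op (f x) (f y))
    (hs : Function.Surjective f) {p : ℕ} (hp : p.Prime) (h : Cp B p) : Cp A p := by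
  have hf1 : f A.e = B.e := by
    have h1 := hf A.e A.e
    rw [A.idl] at h1
    apply (B.bijL (f A.e)).1
    show B.op (f A.e) (f A.e) = B.op (f A.e) B.e
    rw [← h1, B.idr]
  have hfp : ∀ x n, f (pw A x n) = pw B (f x) n := by
    intro x n
    induction n with
    | zero => rw [pw_zero, pw_zero, hf1]
    | succ n ih => rw [← op_pw, ← op_pw, hf, ih]
  obtain ⟨k, hk, hkp⟩ := h
  obtain ⟨x, rfl⟩ := hs k
  obtain ⟨n, hn, he, hmin⟩ := exists_ord (A := A) x
  by_cases hd : p ∣ n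
  · exact cp_of_dvd hp hn he hmin hd
  · exfalso
    apply hk
    have h1 : pw B (f x) n = B.e := by rw [← hfp, he, hf1]
    exact pw_coprime hkp h1 ((Nat.Prime.coprime_iff_not_dvd hp).2 hd)

theorem cp_sub {K : Type} {B : AL K} (f : K → Q) (hf : ∀ x y, f (B.op x y) = A.op (f x) (f y))
    (hi : Function.Injective f) {p : ℕ} (h : Cp B p) : Cp A p := by
  have hf1 : f B.e = A.e := by
    have h1 := hf B.e B.e
    rw [B.idl] at h1
    apply (A.bijL (f B.e)).1
    show A.op (f B.e) (f B.e) = A.op (f B.e) A.e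
    rw [← h1, A.idr]
  have hfp : ∀ x n, f (pw B x n) = pw A (f x) n := by
    intro x n
    induction n with
    | zero => rw [pw_zero, pw_zero, hf1]
    | succ n ih => rw [← op_pw, ← op_pw, hf, ih]
  obtain ⟨k, hk, hkp⟩ := h
  refine ⟨f k, fun h => hk (hi (h.trans hf1.symm)), ?_⟩
  rw [← hfp, hkp, hf1]

/-- a mapping of order `p` fixes a point of an invariant set whose cardinality is prime to `p` -/
theorem exists_fix [Finite Q] {p : ℕ} (hp : p.Prime) {g : Perm Q} (hg : g ^ p = 1) (F : Set Q)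
    (hF : ∀ x ∈ F, g x ∈ F) : Nat.card F ≡ Nat.card {x | x ∈ F ∧ g x = x} [MOD p] := by
  classical
  have : Fact p.Prime := ⟨hp⟩
  have := Fintype.ofFinite Q
  let k : Function.End F := fun x => ⟨g x.1, hF x.1 x.2⟩
  have hk : ∀ n : ℕ, ∀ x : F, ((k ^ n) x : F).1 = (g ^ n) x.1 := by
    intro n
    induction n with
    | zero => intro x; rfl
    | succ n ih =>
      intro x
      rw [pow_succ', pow_succ']
      show g ((k ^ n) x : F).1 = g ((g ^ n) x.1)
      rw [ih]
  have hkp : k ^ p ^ 1 = 1 := by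
    funext x
    apply Subtype.ext
    rw [pow_one, hk, hg]
    rfl
  have h1 := Equiv.Perm.card_fixedPoints_modEq (f := k) hkp
  rw [← Nat.card_eq_fintype_card, ← Nat.card_eq_fintype_card] at h1
  refine h1.trans ?_
  rw [Nat.card_congr (β := {x | x ∈ F ∧ g x = x})]
  exact
    { toFun := fun x => ⟨x.1.1, x.1.2, congrArg Subtype.val x.2⟩
      invFun := fun x => ⟨⟨x.1, x.2.1⟩, Subtype.ext x.2.2⟩
      left_inv := fun x => rfl
      right_inv := fun x => rfl }

/-- the case of the prime two -/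
theorem cp_two [Finite Q] (h : 2 ∣ Nat.card Q) : Cp A 2 := by
  classical
  have hJ : A.J ^ 2 = 1 := by rw [pow_two]; exact AL.J_sq
  have h1 := exists_fix Nat.prime_two hJ Set.univ (fun x _ => Set.mem_univ _)
  rw [Nat.card_congr (Equiv.Set.univ Q)] at h1
  have h2 : 2 ∣ Nat.card {x | x ∈ Set.univ ∧ A.J x = x} :=
    (Nat.modEq_zero_iff_dvd.1 (h1.symm.trans (Nat.modEq_zero_iff_dvd.2 h)))
  have he : A.e ∈ {x | x ∈ Set.univ ∧ A.J x = x} := ⟨trivial, J_e⟩
  have h3 : Nat.card {x | x ∈ Set.univ ∧ A.J x = x} ≠ 0 := by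
    have : Nonempty {x | x ∈ Set.univ ∧ A.J x = x} := ⟨⟨_, he⟩⟩
    exact Nat.card_pos.ne'
  have h4 : 1 < Nat.card {x | x ∈ Set.univ ∧ A.J x = x} := by
    obtain ⟨c, hc⟩ := h2
    rw [hc] at h3 ⊢
    omega
  rw [Finite.one_lt_card_iff_nontrivial] at h4
  obtain ⟨x, hx⟩ := exists_ne (⟨_, he⟩ : {x | x ∈ Set.univ ∧ A.J x = x})
  refine ⟨x.1, fun h => hx (Subtype.ext h), ?_⟩
  have h5 : A.inv x.1 = x.1 := x.2.2
  have h6 := AL.op_inv (A := A) x.1
  rw [h5] at h6
  rw [← op_pw, pw_one, h6]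

end

end Pool.Agent.TH427.AR
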