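import Pool.Agent.TH427.AR.Sim

/-!
Simple automorphic loops whose multiplication group has a regular normal subgroup.
-/

set_option autoImplicit false
set_option linter.unusedSectionVars false
set_option linter.unusedVariables false

namespace Pool.Agent.TH427.AR

open Pool.Agent.H687R3.AL
open Pool.Agent.W790.LG (Hol ai ia Hol_e)

section Alg
variable {V : Type} [Group V] {α β : V → V → V}

/-- the commutation lemma -/
theorem reg_comm (hα : ∀ x y z, α x (y * z) = α x y * α x z)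
    (hβ : ∀ x y z, β x (y * z) = β x y * β x z) (hrel : ∀ x y, x * α x y = y * β y x)
    (x z y x' : V) :
    (α x z * z⁻¹) * (β y x' * x'⁻¹) = (β y x' * x'⁻¹) * (α x z * z⁻¹) := by
  -- expressions for `β`
  have hb : ∀ x y, β y x = y⁻¹ * x * α x y := fun x y => by
    have h := hrel x y
    rw [mul_assoc, h, inv_mul_cancel_left]
  have ha : ∀ x y, α x y = x⁻¹ * y * β y x := fun x y => by
    have h := hrel x y
    rw [mul_assoc, ← h, inv_mul_cancel_left]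
  -- `α (x x') y`
  have h1 : ∀ y, α (x * x') y = x'⁻¹ * α x y * (y⁻¹ * x' * α x' y) := by
    intro y
    rw [ha (x * x') y, hβ, hb x y, hb x' y, mul_inv_rev]
    group
  have h2 := hα (x * x') y z
  have h3 : α (x * x') (y * z) = x'⁻¹ * (α x y * α x z) * ((y * z)⁻¹ * x' * (α x' y * α x' z)) := by
    rw [h1, hα, hα]
  rw [h3, h1, h1] at h2
  -- cancel
  have h4 : α x z * (z⁻¹ * y⁻¹) * x' * α x' y = y⁻¹ * x' * α x' y * x'⁻¹ * α x z * z⁻¹ * x' := by
    have e1 : x'⁻¹ * (α x y * α x z) * ((y * z)⁻¹ * x' * (α x' y * α x' z)) =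
        (x'⁻¹ * α x y) * (α x z * (z⁻¹ * y⁻¹) * x' * α x' y) * α x' z := by
      rw [mul_inv_rev]; group
    have e2 : x'⁻¹ * α x y * (y⁻¹ * x' * α x' y) * (x'⁻¹ * α x z * (z⁻¹ * x' * α x' z)) =
        (x'⁻¹ * α x y) * (y⁻¹ * x' * α x' y * x'⁻¹ * α x z * z⁻¹ * x') * α x' z := by
      group
    rw [e1, e2] at h2
    exact mul_left_cancel (mul_right_cancel h2)
  have h5 : (α x z * z⁻¹) * (y⁻¹ * x' * α x' y) * x'⁻¹ =
      (y⁻¹ * x' * α x' y * x'⁻¹) * (α x z * z⁻¹) := by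
    have e1 : (α x z * z⁻¹) * (y⁻¹ * x' * α x' y) * x'⁻¹ =
        (α x z * (z⁻¹ * y⁻¹) * x' * α x' y) * x'⁻¹ := by group
    rw [e1, h4]
    group
  rw [hb x' y, ← mul_assoc, h5]

/-- the subgroup generated by the `α x z * z⁻¹` is normal -/
theorem reg_normal (hα : ∀ x y z, α x (y * z) = α x y * α x z) :
    (Subgroup.closure {c | ∃ x z, c = α x z * z⁻¹}).Normal := by
  constructor
  intro n hn g
  induction hn using Subgroup.closure_induction with
  | mem c hc =>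
    obtain ⟨x, z, rfl⟩ := hc
    have h1 : α x (g * z) * (g * z)⁻¹ ∈ Subgroup.closure {c | ∃ x z, c = α x z * z⁻¹} :=
      Subgroup.subset_closure ⟨x, g * z, rfl⟩
    have h2 : α x g * g⁻¹ ∈ Subgroup.closure {c | ∃ x z, c = α x z * z⁻¹} :=
      Subgroup.subset_closure ⟨x, g, rfl⟩
    have e : g * (α x z * z⁻¹) * g⁻¹ = (α x g * g⁻¹)⁻¹ * (α x (g * z) * (g * z)⁻¹) := by
      rw [hα]; group
    rw [e]
    exact mul_mem (inv_mem h2) h1
  | one => simp
  | mul a b _ _ ha hb =>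
    have h := mul_mem ha hb
    have e : g * a * g⁻¹ * (g * b * g⁻¹) = g * (a * b) * g⁻¹ := by group
    rwa [e] at h
  | inv a _ ha =>
    have h := inv_mem ha
    have e : (g * a * g⁻¹)⁻¹ = g * a⁻¹ * g⁻¹ := by group
    rwa [e] at h

end Alg

variable {Q : Type} {A : AL Q}

/-- a regular normal subgroup of the multiplication group -/
structure RN (A : AL Q) (N : Subgroup (Equiv.Perm Q)) : Prop where
  le : N ≤ Mlt A
  conj : ∀ g ∈ Mlt A, ∀ n ∈ N, g * n * g⁻¹ ∈ N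
  tr : ∀ x : Q, ∃ n ∈ N, n A.e = x
  free : ∀ n ∈ N, n A.e = A.e → n = 1

namespace RN

variable {N : Subgroup (Equiv.Perm Q)}

theorem uniq (h : RN A N) {a b : Equiv.Perm Q} (ha : a ∈ N) (hb : b ∈ N) (hab : a A.e = b A.e) :
    a = b := by
  have h1 := h.free (b⁻¹ * a) (mul_mem (inv_mem hb) ha) (by
    show b⁻¹ (a A.e) = A.e
    rw [hab, ia])
  exact (inv_mul_eq_one.1 h1).symm

/-- the inner mapping belonging to `a` on the left -/
noncomputable def hl (A : AL Q) (a : Equiv.Perm Q) : Equiv.Perm Q := a⁻¹ * A.L (a A.e)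
noncomputable def hr (A : AL Q) (a : Equiv.Perm Q) : Equiv.Perm Q := a⁻¹ * A.R (a A.e)

theorem hl_mem (h : RN A N) {a : Equiv.Perm Q} (ha : a ∈ N) : hl A a ∈ Mlt A :=
  mul_mem (inv_mem (h.le ha)) (L_Mlt _)

theorem hr_mem (h : RN A N) {a : Equiv.Perm Q} (ha : a ∈ N) : hr A a ∈ Mlt A :=
  mul_mem (inv_mem (h.le ha)) (R_Mlt _)

theorem hl_e (a : Equiv.Perm Q) : hl A a A.e = A.e := by
  show a⁻¹ (A.op (a A.e) A.e) = A.e
  rw [A.idr, ia]

theorem hr_e (a : Equiv.Perm Q) : hr A a A.e = A.e := by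
  show a⁻¹ (A.op A.e (a A.e)) = A.e
  rw [A.idl, ia]

/-- the action on `N` -/
noncomputable def al (h : RN A N) (a b : N) : N :=
  ⟨hl A a * b * (hl A a)⁻¹, h.conj _ (h.hl_mem a.2) _ b.2⟩
noncomputable def be (h : RN A N) (a b : N) : N :=
  ⟨hr A a * b * (hr A a)⁻¹, h.conj _ (h.hr_mem a.2) _ b.2⟩

theorem al_mul (h : RN A N) (a b c : N) : h.al a (b * c) = h.al a b * h.al a c := by
  apply Subtype.ext
  show hl A a * (b.1 * c.1) * (hl A a)⁻¹ = hl A a * b * (hl A a)⁻¹ * (hl A a * c * (hl A a)⁻¹)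
  group

theorem be_mul (h : RN A N) (a b c : N) : h.be a (b * c) = h.be a b * h.be a c := by
  apply Subtype.ext
  show hr A a * (b.1 * c.1) * (hr A a)⁻¹ = hr A a * b * (hr A a)⁻¹ * (hr A a * c * (hr A a)⁻¹)
  group

theorem al_e (h : RN A N) (a b : N) : (a * h.al a b : N).1 A.e = A.op (a.1 A.e) (b.1 A.e) := by
  show a.1 (hl A a (b.1 ((hl A a)⁻¹ A.e))) = _
  have h1 : (hl A a.1)⁻¹ A.e = A.e := by
    rw [Equiv.Perm.inv_eq_iff_eq, hl_e]
  rw [h1]
  show a.1 (a.1⁻¹ (A.op (a.1 A.e) (b.1 A.e))) = _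
  rw [ai]

theorem be_e (h : RN A N) (a b : N) : (a * h.be a b : N).1 A.e = A.op (b.1 A.e) (a.1 A.e) := by
  show a.1 (hr A a (b.1 ((hr A a)⁻¹ A.e))) = _
  have h1 : (hr A a.1)⁻¹ A.e = A.e := by
    rw [Equiv.Perm.inv_eq_iff_eq, hr_e]
  rw [h1]
  show a.1 (a.1⁻¹ (A.op (b.1 A.e) (a.1 A.e))) = _
  rw [ai]

theorem rel (h : RN A N) (a b : N) : a * h.al a b = b * h.be b a := by
  apply Subtype.ext
  refine h.uniq (a * h.al a b : N).2 (b * h.be b a : N).2 ?_
  rw [h.al_e, h.be_e]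

theorem cj_e (h : RN A N) {g : Equiv.Perm Q} (he : g A.e = A.e) (a : N) :
    (g * a.1 * g⁻¹) A.e = g (a.1 A.e) := by
  show g (a.1 (g⁻¹ A.e)) = _
  have : g⁻¹ A.e = A.e := by rw [Equiv.Perm.inv_eq_iff_eq, he]
  rw [this]

/-- conjugation by an inner mapping -/
def cj (h : RN A N) (g : Equiv.Perm Q) (hg : g ∈ Mlt A) (a : N) : N :=
  ⟨g * a.1 * g⁻¹, h.conj g hg _ a.2⟩

theorem cj_mul (h : RN A N) {g : Equiv.Perm Q} (hg : g ∈ Mlt A) (a b : N) :
    h.cj g hg (a * b) = h.cj g hg a * h.cj g hg b := by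
  apply Subtype.ext
  show g * (a.1 * b.1) * g⁻¹ = g * a.1 * g⁻¹ * (g * b.1 * g⁻¹)
  group

theorem cj_inv (h : RN A N) {g : Equiv.Perm Q} (hg : g ∈ Mlt A) (a : N) :
    h.cj g hg a⁻¹ = (h.cj g hg a)⁻¹ := by
  apply Subtype.ext
  show g * (a.1)⁻¹ * g⁻¹ = (g * a.1 * g⁻¹)⁻¹
  group

theorem cj_one (h : RN A N) {g : Equiv.Perm Q} (hg : g ∈ Mlt A) : h.cj g hg 1 = 1 := by
  apply Subtype.ext
  show g * 1 * g⁻¹ = 1
  group

theorem hl_cj (h : RN A N) {g : Equiv.Perm Q} (hg : g ∈ Mlt A) (he : g A.e = A.e) (a : N) :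
    g * hl A a * g⁻¹ = hl A (h.cj g hg a) := by
  unfold hl
  have h1 : (h.cj g hg a).1 A.e = g (a.1 A.e) := h.cj_e he a
  rw [h1]
  have h2 := AL.aut_L (inn_aut hg he) (a.1 A.e)
  have h3 : A.L (g (a.1 A.e)) = g * A.L (a.1 A.e) * g⁻¹ := by rw [h2]; group
  rw [h3]
  show _ = (g * a.1 * g⁻¹)⁻¹ * _
  group

theorem hr_cj (h : RN A N) {g : Equiv.Perm Q} (hg : g ∈ Mlt A) (he : g A.e = A.e) (a : N) :
    g * hr A a * g⁻¹ = hr A (h.cj g hg a) := by
  unfold hr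
  have h1 : (h.cj g hg a).1 A.e = g (a.1 A.e) := h.cj_e he a
  rw [h1]
  have h2 := AL.aut_R (inn_aut hg he) (a.1 A.e)
  have h3 : A.R (g (a.1 A.e)) = g * A.R (a.1 A.e) * g⁻¹ := by rw [h2]; group
  rw [h3]
  show _ = (g * a.1 * g⁻¹)⁻¹ * _
  group

theorem al_cj (h : RN A N) {g : Equiv.Perm Q} (hg : g ∈ Mlt A) (he : g A.e = A.e) (a b : N) :
    h.cj g hg (h.al a b) = h.al (h.cj g hg a) (h.cj g hg b) := by
  apply Subtype.ext
  show g * (hl A a * b * (hl A a)⁻¹) * g⁻¹ =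
    hl A (h.cj g hg a) * (g * b.1 * g⁻¹) * (hl A (h.cj g hg a))⁻¹
  rw [← h.hl_cj hg he]
  group

theorem be_cj (h : RN A N) {g : Equiv.Perm Q} (hg : g ∈ Mlt A) (he : g A.e = A.e) (a b : N) :
    h.cj g hg (h.be a b) = h.be (h.cj g hg a) (h.cj g hg b) := by
  apply Subtype.ext
  show g * (hr A a * b * (hr A a)⁻¹) * g⁻¹ =
    hr A (h.cj g hg a) * (g * b.1 * g⁻¹) * (hr A (h.cj g hg a))⁻¹
  rw [← h.hr_cj hg he]
  group

/-- a subgroup of `N` invariant under inner mappings gives a normal subloop -/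
theorem sub_case (h : RN A N) (hs : SimA A) (C : Subgroup N)
    (hC : ∀ g (hg : g ∈ Mlt A), g A.e = A.e → ∀ c ∈ C, h.cj g hg c ∈ C) : C = ⊥ ∨ C = ⊤ := by
  have hcase := hs {x | ∃ c ∈ C, c.1 A.e = x} ⟨1, one_mem _, rfl⟩ (by
    rintro _ ⟨a, ha, rfl⟩ _ ⟨b, hb, rfl⟩
    refine ⟨a * h.al a b, mul_mem ha ?_, h.al_e a b⟩
    exact hC _ (h.hl_mem a.2) (hl_e _) b hb) (by
    rintro g hg he _ ⟨c, hc, rfl⟩
    exact ⟨h.cj g hg c, hC g hg he c hc, h.cj_e he c⟩)
  rcases hcase with h1 | h1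
  · left
    rw [eq_bot_iff]
    intro c hc
    have h2 : c.1 A.e ∈ ({A.e} : Set Q) := by rw [← h1]; exact ⟨c, hc, rfl⟩
    exact Subtype.ext (h.free c.1 c.2 h2)
  · right
    rw [eq_top_iff]
    intro n _
    have h2 : n.1 A.e ∈ {x | ∃ c ∈ C, c.1 A.e = x} := by rw [h1]; exact Set.mem_univ _
    obtain ⟨c, hc, he⟩ := h2
    have : c = n := Subtype.ext (h.uniq c.2 n.2 he)
    rwa [← this]

/-- `N` is elementary abelian or the loop is a group -/
theorem dich (h : RN A N) (hs : SimA A) :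
    (∀ x y z, A.op (A.op x y) z = A.op x (A.op y z)) ∨ ∀ a b : N, a * b = b * a := by
  set C1 : Subgroup N := Subgroup.closure {c | ∃ x z, c = h.al x z * z⁻¹} with hC1
  set C2 : Subgroup N := Subgroup.closure {c | ∃ x z, c = h.be x z * z⁻¹} with hC2
  have hc1 : ∀ g (hg : g ∈ Mlt A), g A.e = A.e → ∀ c ∈ C1, h.cj g hg c ∈ C1 := by
    intro g hg he c hc
    induction hc using Subgroup.closure_induction with
    | mem c hc =>
      obtain ⟨x, z, rfl⟩ := hc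
      rw [h.cj_mul, h.al_cj hg he, h.cj_inv]
      exact Subgroup.subset_closure ⟨_, _, rfl⟩
    | one => rw [h.cj_one]; exact one_mem _
    | mul a b _ _ ha hb => rw [h.cj_mul]; exact mul_mem ha hb
    | inv a _ ha => rw [h.cj_inv]; exact inv_mem ha
  have hc2 : ∀ g (hg : g ∈ Mlt A), g A.e = A.e → ∀ c ∈ C2, h.cj g hg c ∈ C2 := by
    intro g hg he c hc
    induction hc using Subgroup.closure_induction with
    | mem c hc =>
      obtain ⟨x, z, rfl⟩ := hc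
      rw [h.cj_mul, h.be_cj hg he, h.cj_inv]
      exact Subgroup.subset_closure ⟨_, _, rfl⟩
    | one => rw [h.cj_one]; exact one_mem _
    | mul a b _ _ ha hb => rw [h.cj_mul]; exact mul_mem ha hb
    | inv a _ ha => rw [h.cj_inv]; exact inv_mem ha
  have hcomm : ∀ a ∈ C1, ∀ b ∈ C2, a * b = b * a := by
    intro a ha
    induction ha using Subgroup.closure_induction with
    | mem c hc =>
      obtain ⟨x, z, rfl⟩ := hc
      intro b hb
      induction hb using Subgroup.closure_induction with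
      | mem c hc =>
        obtain ⟨y, x', rfl⟩ := hc
        exact reg_comm (α := h.al) (β := h.be) h.al_mul h.be_mul h.rel x z y x'
      | one => rw [mul_one, one_mul]
      | mul a b _ _ ha hb => rw [← mul_assoc, ha, mul_assoc, hb, mul_assoc]
      | inv a _ ha => rw [mul_inv_eq_iff_eq_mul, mul_assoc, ha, inv_mul_cancel_left]
    | one => intro b _; rw [mul_one, one_mul]
    | mul c d _ _ hc hd => intro b hb; rw [mul_assoc, hd b hb, ← mul_assoc, hc b hb, mul_assoc]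
    | inv c _ hc =>
      intro b hb
      rw [inv_mul_eq_iff_eq_mul, ← mul_assoc, hc b hb, mul_inv_cancel_right]
  rcases h.sub_case hs C1 hc1 with h1 | h1
  · -- `α = id`
    left
    have hal : ∀ x z : N, h.al x z = z := by
      intro x z
      have h2 : h.al x z * z⁻¹ ∈ C1 := Subgroup.subset_closure ⟨x, z, rfl⟩
      rw [h1, Subgroup.mem_bot] at h2
      exact mul_inv_eq_one.1 h2
    intro x y z
    obtain ⟨a, ha, rfl⟩ := h.tr x
    obtain ⟨b, hb, rfl⟩ := h.tr y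
    obtain ⟨c, hc, rfl⟩ := h.tr z
    have e : ∀ u v : N, A.op (u.1 A.e) (v.1 A.e) = (u * v : N).1 A.e := by
      intro u v
      rw [← h.al_e, hal]
    rw [e ⟨a, ha⟩ ⟨b, hb⟩, e _ ⟨c, hc⟩, e ⟨b, hb⟩ ⟨c, hc⟩, e ⟨a, ha⟩ _, mul_assoc]
  · rcases h.sub_case hs C2 hc2 with h2 | h2
    · left
      have hal : ∀ x z : N, h.be x z = z := by
        intro x z
        have h3 : h.be x z * z⁻¹ ∈ C2 := Subgroup.subset_closure ⟨x, z, rfl⟩
        rw [h2, Subgroup.mem_bot] at h3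
        exact mul_inv_eq_one.1 h3
      intro x y z
      obtain ⟨a, ha, rfl⟩ := h.tr x
      obtain ⟨b, hb, rfl⟩ := h.tr y
      obtain ⟨c, hc, rfl⟩ := h.tr z
      have e : ∀ u v : N, A.op (u.1 A.e) (v.1 A.e) = (v * u : N).1 A.e := by
        intro u v
        rw [← h.be_e, hal]
      rw [e ⟨a, ha⟩ ⟨b, hb⟩, e _ ⟨c, hc⟩, e ⟨b, hb⟩ ⟨c, hc⟩, e ⟨a, ha⟩ _, mul_assoc]
    · right
      intro a b
      exact hcomm a (by rw [h1]; exact Subgroup.mem_top a) b (by rw [h2]; exact Subgroup.mem_top b)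

end RN

end Pool.Agent.TH427.AR
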