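import Pool.Agent.TH427.AR.Reg

/-!
Simple automorphic loops whose multiplication group has a regular normal subgroup are groups.
-/

set_option autoImplicit false
set_option linter.unusedSectionVars false
set_option linter.unusedVariables false

namespace Pool.Agent.TH427.AR

open H675HL H675HL.CharAux
open Pool.Agent.W790.LG (Hol ai ia Hol_e)

variable {Q : Type} [AL Q]

theorem simp_normal [Finite Q] (hs : Simp Q) {B : Set Q} (hB : Normal B) : B = {1} ∨ B = Set.univ := by
  rcases hs (fun a b => Quo.pr hB a = Quo.pr hB b) ⟨fun _ => rfl, fun h => h.symm,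
    fun h h' => h.trans h'⟩ (fun a b c d h1 h2 => by
      rw [Quo.pr_mul, Quo.pr_mul, h1, h2]) with h | h
  · left
    ext b
    constructor
    · intro hb
      rw [← pre_one hB] at hb
      have hb' : Quo.pr hB b = 1 := hb
      exact h b 1 (hb'.trans (Quo.pr_one hB).symm)
    · rintro rfl
      exact hB.1.1
  · right
    rw [Set.eq_univ_iff_forall]
    intro b
    rw [← pre_one hB]
    have hb := h b 1
    rw [Quo.pr_one] at hb
    exact hb

theorem simA_of_simp [Finite Q] (hs : Simp Q) : SimA (toA Q) := by
  intro S he hop hinn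
  exact simp_normal hs (normal_of_inn ⟨he, hop⟩ (fun g hg h1 _ m hm => hinn g hg h1 m hm))

/-- simple loops of prime power order are groups -/
theorem simp_pp [Finite Q] (hs : Simp Q) {p k : ℕ} (hp : p.Prime) (hcard : Nat.card Q = p ^ k) :
    ∀ x y z : Q, (x * y) * z = x * (y * z) := by
  rcases Nat.eq_zero_or_pos k with hk | hk
  · rw [hk, pow_zero, Nat.card_eq_one_iff_unique] at hcard
    obtain ⟨hsub, _⟩ := hcard
    intro x y z
    exact Subsingleton.elim _ _
  · obtain ⟨a, ha1, ha⟩ := mid_ne Q hp hk hcard
    rcases simp_normal hs (Nm_normal (Q := Q)) with h | h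
    · exfalso
      apply ha1
      have : a ∈ Nm Q := ha
      rw [h] at this
      exact this
    · intro x y z
      have : y ∈ Nm Q := by rw [h]; exact Set.mem_univ y
      exact this x z

theorem reg_assoc [Finite Q] (hs : Simp Q) {N : Subgroup (Equiv.Perm Q)} (h : RN (toA Q) N) :
    ∀ x y z : Q, (x * y) * z = x * (y * z) := by
  rcases h.dich (simA_of_simp hs) with h1 | h1
  · exact h1
  · -- `N` is an elementary abelian `p`-group
    have hcardN : Nat.card N = Nat.card Q := by
      refine Nat.card_congr (Equiv.ofBijective (fun n : N => n.1 (1 : Q)) ⟨?_, ?_⟩)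
      · intro a b hab
        exact Subtype.ext (h.uniq a.2 b.2 hab)
      · intro x
        obtain ⟨n, hn, he⟩ := h.tr x
        exact ⟨⟨n, hn⟩, he⟩
    by_cases hQ : Nat.card Q = 1
    · exact simp_pp hs Nat.prime_two (k := 0) (by rw [hQ, pow_zero])
    obtain ⟨p, hp, hpd⟩ := Nat.exists_prime_and_dvd hQ
    haveI : Fact p.Prime := ⟨hp⟩
    let C : Subgroup N :=
      { carrier := {n | n ^ p = 1}
        mul_mem' := by
          intro a b ha hb
          have ha' : a ^ p = 1 := ha
          have hb' : b ^ p = 1 := hb
          show (a * b) ^ p = 1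
          have hc : Commute a b := h1 a b
          rw [hc.mul_pow, ha', hb', one_mul]
        one_mem' := one_pow p
        inv_mem' := by
          intro a ha
          have ha' : a ^ p = 1 := ha
          show (a⁻¹) ^ p = 1
          rw [inv_pow, ha', inv_one] }
    have hCi : ∀ g (hg : g ∈ Mlt (toA Q)), g (toA Q).e = (toA Q).e → ∀ c ∈ C, h.cj g hg c ∈ C := by
      intro g hg he c hc
      have hc' : c ^ p = 1 := hc
      show (h.cj g hg c) ^ p = 1
      have hpow : ∀ n : ℕ, (h.cj g hg c) ^ n = h.cj g hg (c ^ n) := by
        intro n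
        induction n with
        | zero => rw [pow_zero, pow_zero, h.cj_one]
        | succ n ih => rw [pow_succ, pow_succ, ih, h.cj_mul]
      rw [hpow, hc', h.cj_one]
    rcases h.sub_case (simA_of_simp hs) C hCi with h2 | h2
    · exfalso
      rw [← hcardN] at hpd
      obtain ⟨n, hn⟩ := exists_prime_orderOf_dvd_card' p hpd
      have h3 : n ∈ C := by
        show n ^ p = 1
        rw [← hn]
        exact pow_orderOf_eq_one n
      rw [h2, Subgroup.mem_bot] at h3
      rw [h3, orderOf_one] at hn
      exact hp.one_lt.ne hn
    · have hpN : IsPGroup p N := by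
        intro n
        refine ⟨1, ?_⟩
        have h3 : n ∈ C := by rw [h2]; exact Subgroup.mem_top n
        rw [pow_one]
        exact h3
      obtain ⟨k, hk⟩ := IsPGroup.iff_card.1 hpN
      exact simp_pp hs hp (k := k) (by rw [← hcardN, hk])

end Pool.Agent.TH427.AR
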