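import Pool.Agent.TH427.AR.PP

/-!
Series whose factors are groups or have prime power order; simple automorphic loops and series.
-/

set_option autoImplicit false
set_option linter.unusedSectionVars false
set_option linter.unusedVariables false

namespace Pool.Agent.TH427.AR

open H675HL H675HL.CharAux
open Pool.Agent.W155.SY (Solv Step)

variable {Q : Type} [AL Q] [Finite Q]

/-- `M` is normal in `N`, both are subloops -/
def NIn {X : Type} (mul : X → X → X) (e : X) (M N : Set X) : Prop :=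
  M ⊆ N ∧ e ∈ M ∧ (∀ a ∈ M, ∀ b ∈ M, mul a b ∈ M) ∧ (∀ a ∈ N, ∀ b ∈ N, mul a b ∈ N) ∧
    (∀ x ∈ N, ∀ y ∈ N, ∀ m ∈ M,
      (∃ m' ∈ M, mul x m = mul m' x) ∧
      (∃ m' ∈ M, mul (mul m x) y = mul m' (mul x y)) ∧
      (∃ m' ∈ M, mul y (mul x m) = mul (mul y x) m'))

theorem step_ppow {M N : Set Q} (h : NIn (fun a b : Q => a * b) 1 M N) {p k : ℕ} (hp : p.Prime)
    (hcard : Nat.card N = Nat.card M * p ^ k) : Ch (fun a b : Q => a * b) 1 M N := by
  obtain ⟨h1, h2, h3, h4, h5⟩ := h
  have hN : H675HL.Sub N := ⟨h1 h2, h4⟩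
  let i : AL N := H99.subAL N hN
  have hM' : @H675HL.Normal N i (Subtype.val ⁻¹' M) := by
    refine ⟨⟨h2, fun a ha b hb => h3 _ ha _ hb⟩, ?_⟩
    intro x y m hm
    obtain ⟨⟨a, ha, ea⟩, ⟨b, hb, eb⟩, ⟨c, hc, ec⟩⟩ := h5 x x.2 y y.2 m hm
    exact ⟨⟨⟨a, h1 ha⟩, ha, Subtype.ext ea⟩, ⟨⟨b, h1 hb⟩, hb, Subtype.ext eb⟩,
      ⟨⟨c, h1 hc⟩, hc, Subtype.ext ec⟩⟩
  have hcM : Nat.card (Subtype.val ⁻¹' M : Set N) = Nat.card M := by
    have e : Subtype.val '' (Subtype.val ⁻¹' M : Set N) = M := by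
      rw [Subtype.image_preimage_coe]
      exact Set.inter_eq_right.2 h1
    have h6 := Nat.card_image_of_injective (Subtype.val_injective (p := fun x => x ∈ N))
      (Subtype.val ⁻¹' M : Set N)
    rw [← h6]
    exact congrArg (fun s : Set Q => Nat.card s) e
  have hc := card_q hM'
  rw [hcM, hcard] at hc
  have hMpos : 0 < Nat.card M := by
    have : Nonempty M := ⟨⟨1, h2⟩⟩
    exact Nat.card_pos
  have hc' : Nat.card (Quo.QM hM') = p ^ k := (Nat.eq_of_mul_eq_mul_left hMpos hc).symm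
  have h6 := ch_pull (Quo.pr_mul hM') (Quo.pr_one _) (ch_pp hp k (Quo.QM hM') hc')
  rw [pre_one, Set.preimage_univ] at h6
  have h7 := ch_img (Q := Q) (fun x : N => (x : Q)) (fun x y => rfl) 1 rfl h6
  have e1 : (fun x : N => (x : Q)) '' (Subtype.val ⁻¹' M) = M := by
    show Subtype.val '' (Subtype.val ⁻¹' M : Set N) = M
    rw [Subtype.image_preimage_coe]
    exact Set.inter_eq_right.2 h1
  have e2 : (fun x : N => (x : Q)) '' Set.univ = N := by
    rw [Set.image_univ]
    exact Subtype.range_coe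
  rw [e1, e2] at h7
  exact h7

/-- series whose factors are groups or have prime power order -/
def Series {X : Type} (mul : X → X → X) (e : X) (P : Set X) : Prop :=
  ∃ (n : ℕ) (S : ℕ → Set X), S 0 = {e} ∧ S n = P ∧ ∀ i < n, NIn mul e (S i) (S (i + 1)) ∧
    ((∀ x ∈ S (i + 1), ∀ y ∈ S (i + 1), ∀ z ∈ S (i + 1),
        ∃ m ∈ S i, mul (mul x y) z = mul (mul x (mul y z)) m) ∨
      ∃ p k : ℕ, p.Prime ∧ Nat.card (S (i + 1)) = Nat.card (S i) * p ^ k)

theorem series_ch {P : Set Q} (h : Series (fun a b : Q => a * b) 1 P) :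
    Ch (fun a b : Q => a * b) 1 {1} P := by
  obtain ⟨n, S, h0, rfl, hS⟩ := h
  have key : ∀ j ≤ n, Ch (fun a b : Q => a * b) 1 {1} (S j) := by
    intro j
    induction j with
    | zero =>
      intro _
      rw [h0]
      exact Relation.ReflTransGen.refl
    | succ j ih =>
      intro hj
      refine (ih (by omega)).trans ?_
      obtain ⟨hN, hfac⟩ := hS j (by omega)
      rcases hfac with ha | ⟨p, k, hp, hc⟩
      · obtain ⟨h1, h2, h3, h4, h5⟩ := hN
        exact Relation.ReflTransGen.single ⟨h1, h2, h3, h4, h5, ha⟩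
      · exact step_ppow hN hp hc
  exact key n le_rfl

/-- loops with a series are solvable-by-group -/
theorem series_sg (h : Series (fun a b : Q => a * b) 1 (Set.univ : Set Q)) : SG Q :=
  mt _ Q rfl (series_ch h)

/-! ### simple loops -/

/-- the only congruences are the trivial ones -/
def Simp (X : Type) [Mul X] : Prop :=
  ∀ r : X → X → Prop, Equivalence r → (∀ a b c d, r a b → r c d → r (a * c) (b * d)) →
    (∀ a b, r a b → a = b) ∨ ∀ a b, r a b

theorem cong_R {r : Q → Q → Prop} (hr : Equivalence r)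
    (hm : ∀ a b c d, r a b → r c d → r (a * c) (b * d)) {x a b : Q} (h : r (a * x) (b * x)) :
    r a b := by
  have h1 : ∀ n : ℕ, ∀ u v, r u v → r (((R x) ^ n) u) (((R x) ^ n) v) := by
    intro n
    induction n with
    | zero => intro u v h; exact h
    | succ n ih =>
      intro u v h
      rw [pow_succ, Equiv.Perm.mul_apply, Equiv.Perm.mul_apply]
      exact ih _ _ (hm _ _ _ _ h (hr.refl x))
  obtain ⟨n, hn⟩ : ∃ n : ℕ, (R x) ^ (n + 1) = 1 := by
    refine ⟨orderOf (R x) - 1, ?_⟩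
    rw [Nat.sub_add_cancel (orderOf_pos (R x))]
    exact pow_orderOf_eq_one _
  have h2 := h1 n _ _ h
  have h3 : ∀ u, ((R x) ^ n) (u * x) = u := by
    intro u
    have : ((R x) ^ n) (R x u) = u := by
      rw [← Equiv.Perm.mul_apply, ← pow_succ, hn]; rfl
    exact this
  rwa [h3, h3] at h2

theorem cong_L {r : Q → Q → Prop} (hr : Equivalence r)
    (hm : ∀ a b c d, r a b → r c d → r (a * c) (b * d)) {x a b : Q} (h : r (x * a) (x * b)) :
    r a b := by
  have h1 : ∀ n : ℕ, ∀ u v, r u v → r (((L x) ^ n) u) (((L x) ^ n) v) := by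
    intro n
    induction n with
    | zero => intro u v h; exact h
    | succ n ih =>
      intro u v h
      rw [pow_succ, Equiv.Perm.mul_apply, Equiv.Perm.mul_apply]
      exact ih _ _ (hm _ _ _ _ (hr.refl x) h)
  obtain ⟨n, hn⟩ : ∃ n : ℕ, (L x) ^ (n + 1) = 1 := by
    refine ⟨orderOf (L x) - 1, ?_⟩
    rw [Nat.sub_add_cancel (orderOf_pos (L x))]
    exact pow_orderOf_eq_one _
  have h2 := h1 n _ _ h
  have h3 : ∀ u, ((L x) ^ n) (x * u) = u := by
    intro u
    have : ((L x) ^ n) (L x u) = u := by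
      rw [← Equiv.Perm.mul_apply, ← pow_succ, hn]; rfl
    exact this
  rwa [h3, h3] at h2

/-- the preimage of a congruence of the quotient is a normal subloop -/
theorem cong_normal {K : Type} [AL K] [Finite K] (f : Q → K)
    (hf : ∀ x y, f (x * y) = f x * f y) (hf1 : f 1 = 1) {r : K → K → Prop} (hr : Equivalence r)
    (hm : ∀ a b c d, r a b → r c d → r (a * c) (b * d)) : Normal {x : Q | r (f x) 1} := by
  refine ⟨⟨?_, ?_⟩, ?_⟩
  · show r (f 1) 1
    rw [hf1]
    exact hr.refl 1
  · intro a ha b hb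
    show r (f (a * b)) 1
    have h := hm _ _ _ _ ha hb
    rw [AL.mul_one'] at h
    rw [hf]
    exact h
  · intro x y m hmm
    have hmm' : r (f m) 1 := hmm
    refine ⟨?_, ?_, ?_⟩
    · refine ⟨gT x m, ?_, (gT_spec x m).symm⟩
      show r (f (gT x m)) 1
      apply cong_R hr hm (x := f x)
      rw [← hf, gT_spec, hf, AL.one_mul']
      have h := hm _ _ _ _ (hr.refl (f x)) hmm'
      rwa [AL.mul_one'] at h
    · refine ⟨gR x y m, ?_, (gR_spec x y m).symm⟩
      show r (f (gR x y m)) 1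
      apply cong_R hr hm (x := f (x * y))
      rw [← hf, gR_spec, hf, hf, hf, AL.one_mul']
      have h := hm _ _ _ _ (hm _ _ _ _ hmm' (hr.refl (f x))) (hr.refl (f y))
      rwa [AL.one_mul'] at h
    · refine ⟨gL x y m, ?_, (gL_spec x y m).symm⟩
      show r (f (gL x y m)) 1
      apply cong_L hr hm (x := f (y * x))
      rw [← hf, gL_spec, hf, hf, hf, AL.mul_one']
      have h := hm _ _ _ _ (hr.refl (f y)) (hm _ _ _ _ (hr.refl (f x)) hmm')
      rwa [AL.mul_one'] at h

/-- if `B` is a maximal normal subloop then `Q/B` is simple -/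
theorem simp_q {B : Set Q} (hB : Normal B) (hmax : ∀ C : Set Q, Normal C → B ⊆ C → C = B ∨ C = Set.univ) :
    Simp (Quo.QM hB) := by
  intro r hr hm
  have hC := cong_normal (Quo.pr hB) (Quo.pr_mul hB) (Quo.pr_one hB) hr hm
  have hBC : B ⊆ {x : Q | r (Quo.pr hB x) 1} := by
    intro x hx
    rw [← pre_one hB] at hx
    have hx' : Quo.pr hB x = 1 := hx
    show r (Quo.pr hB x) 1
    rw [hx']
    exact hr.refl 1
  rcases hmax _ hC hBC with h | h
  · left
    intro a b hab
    obtain ⟨c, hc⟩ := (AL.bijR b).2 a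
    have hc' : c * b = a := hc
    have h1 : r c 1 := by
      apply cong_R hr hm (x := b)
      rw [hc', AL.one_mul']
      exact hab
    obtain ⟨x, rfl⟩ := Quo.pr_surj hB c
    have h2 : x ∈ {x : Q | r (Quo.pr hB x) 1} := h1
    rw [h, ← pre_one hB] at h2
    have h3 : Quo.pr hB x = 1 := h2
    rw [h3, AL.one_mul'] at hc'
    exact hc'.symm
  · right
    have h1 : ∀ a, r a 1 := by
      intro a
      obtain ⟨x, rfl⟩ := Quo.pr_surj hB a
      have : x ∈ {x : Q | r (Quo.pr hB x) 1} := h ▸ Set.mem_univ x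
      exact this
    exact fun a b => hr.trans (h1 a) (hr.symm (h1 b))

omit [Finite Q] in
theorem univ_normal : Normal (Set.univ : Set Q) :=
  normal_of_inn ⟨Set.mem_univ _, fun _ _ _ _ => Set.mem_univ _⟩ (fun _ _ _ _ _ _ => Set.mem_univ _)

omit [Finite Q] in
theorem one_normal : Normal ({1} : Set Q) := by
  refine normal_of_inn ⟨rfl, ?_⟩ ?_
  · rintro _ rfl _ rfl
    exact AL.mul_one' 1
  · rintro g _ h1 _ _ rfl
    exact h1

/-- if the simple loops are groups, then every loop has a series -/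
theorem ch_of_simple
    (hS : ∀ (X : Type) [AL X] [Finite X], Simp X → ∀ x y z : X, (x * y) * z = x * (y * z))
    (n : ℕ) : ∀ (Q : Type) [AL Q] [Finite Q], Nat.card Q = n →
      Ch (fun a b : Q => a * b) 1 {1} Set.univ := by
  induction n using Nat.strong_induction_on with
  | _ n ih =>
    intro Q _ _ hn
    by_cases htriv : ({1} : Set Q) = Set.univ
    · rw [htriv]
      exact Relation.ReflTransGen.refl
    -- a maximal proper normal subloop
    obtain ⟨B, ⟨hB, hBu⟩, hmax⟩ : ∃ B : Set Q, (Normal B ∧ B ≠ Set.univ) ∧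
        ∀ C : Set Q, Normal C ∧ C ≠ Set.univ → B ⊆ C → C = B := by
      have hfin : {B : Set Q | Normal B ∧ B ≠ Set.univ}.Finite := Set.toFinite _
      obtain ⟨B, hB⟩ := hfin.exists_maximal ⟨{1}, one_normal, htriv⟩
      exact ⟨B, hB.1, fun C hC hBC => (hB.eq_of_le hC hBC).symm⟩
    have hsimp : Simp (Quo.QM hB) := simp_q hB (fun C hC hBC => by
      by_cases hCu : C = Set.univ
      · exact Or.inr hCu
      · exact Or.inl (hmax C ⟨hC, hCu⟩ hBC))
    have hass := hS (Quo.QM hB) hsimp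
    have hcard : Nat.card B < n := by
      have h1 := Set.ncard_lt_ncard (Set.ssubset_univ_iff.2 hBu) (Set.toFinite _)
      rw [Set.ncard_univ, hn] at h1
      exact h1
    let i : AL B := H99.subAL B hB.1
    have h1 := ih _ hcard B rfl
    have h2 := ch_img (Q := Q) (fun x : B => (x : Q)) (fun x y => rfl) 1 rfl h1
    have e1 : (fun x : B => (x : Q)) '' {1} = {1} := by
      rw [Set.image_singleton]
      rfl
    have e2 : (fun x : B => (x : Q)) '' Set.univ = B := by
      rw [Set.image_univ]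
      exact Subtype.range_coe
    rw [e1, e2] at h2
    refine h2.tail ⟨Set.subset_univ _, hB.1.1, hB.1.2, fun _ _ _ _ => Set.mem_univ _,
      fun x _ y _ m hm => hB.2 x y m hm, ?_⟩
    intro x _ y _ z _
    obtain ⟨c, hc⟩ := (AL.bijL (x * (y * z))).2 ((x * y) * z)
    have hc' : (x * (y * z)) * c = (x * y) * z := hc
    refine ⟨c, ?_, hc'.symm⟩
    have h3 := congrArg (Quo.pr hB) hc'
    simp only [Quo.pr_mul] at h3
    have h4 : Quo.pr hB c = 1 :=
      L_inj ((h3.trans (hass (Quo.pr hB x) (Quo.pr hB y) (Quo.pr hB z))).trans (AL.mul_one' _).symm)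
    rw [← pre_one hB]
    exact h4

end Pool.Agent.TH427.AR
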