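import Pool.Agent.TH427.AR.Lag
import Pool.Agent.TH427.AR.Pub

/-!
Finite simple nonassociative automorphic loops: left multiplication group and stabilizers.
-/

set_option autoImplicit false
set_option linter.unusedSectionVars false
set_option linter.unusedVariables false

namespace Pool.Agent.TH427.AR

open Pool.Agent.H687R3.AL
open Pool.Agent.W790.LG (Hol ai ia Hol_e)

variable {Q : Type} {A : AL Q}

/-- simplicity -/
def SimA (A : AL Q) : Prop :=
  ∀ S : Set Q, A.e ∈ S → (∀ a ∈ S, ∀ b ∈ S, A.op a b ∈ S) →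
    (∀ g ∈ Mlt A, g A.e = A.e → ∀ s ∈ S, g s ∈ S) → S = {A.e} ∨ S = Set.univ

/-- the group generated by the left inner mappings -/
def Lam (A : AL Q) : Subgroup (Equiv.Perm Q) :=
  Subgroup.closure {g | ∃ x y, g = th A x y}

def LM (A : AL Q) : Subgroup (Equiv.Perm Q) := Subgroup.closure (Set.range A.L)

def RM (A : AL Q) : Subgroup (Equiv.Perm Q) := Subgroup.closure (Set.range A.R)

theorem th_Lam (x y : Q) : th A x y ∈ Lam A := Subgroup.subset_closure ⟨x, y, rfl⟩

theorem L_LM (x : Q) : A.L x ∈ LM A := Subgroup.subset_closure ⟨x, rfl⟩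

theorem R_RM (x : Q) : A.R x ∈ RM A := Subgroup.subset_closure ⟨x, rfl⟩

theorem Lam_aut : Lam A ≤ A.Aut := by
  unfold Lam
  rw [Subgroup.closure_le]
  rintro _ ⟨x, y, rfl⟩
  exact th_aut x y

theorem Lam_LM : Lam A ≤ LM A := by
  unfold Lam
  rw [Subgroup.closure_le]
  rintro _ ⟨x, y, rfl⟩
  exact mul_mem (mul_mem (inv_mem (L_LM _)) (L_LM _)) (L_LM _)

theorem LM_GB : LM A ≤ GB A (Lam A) := by
  unfold LM
  rw [Subgroup.closure_le]
  rintro _ ⟨x, rfl⟩
  exact L_GB.2 (fun y => th_Lam x y)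

theorem LM_le : LM A ≤ Mlt A := by
  unfold LM
  rw [Subgroup.closure_le]
  rintro _ ⟨x, rfl⟩
  exact L_Mlt x

theorem RM_le : RM A ≤ Mlt A := by
  unfold RM
  rw [Subgroup.closure_le]
  rintro _ ⟨x, rfl⟩
  exact R_Mlt x

theorem LM_stab {g : Equiv.Perm Q} (hg : g ∈ LM A) (he : g A.e = A.e) : g ∈ Lam A := by
  have h := GB_e (LM_GB hg)
  rw [he, AL.L_e] at h
  simpa using h

theorem J_LM {g : Equiv.Perm Q} (hg : g ∈ LM A) : A.J * g * A.J ∈ RM A := by
  unfold LM at hg
  induction hg using Subgroup.closure_induction with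
  | mem x hx =>
    obtain ⟨s, rfl⟩ := hx
    rw [AL.J_L_J]
    exact R_RM _
  | one => rw [mul_one, AL.J_sq]; exact one_mem _
  | mul a b _ _ ha hb =>
    have h := mul_mem ha hb
    have e : A.J * a * A.J * (A.J * b * A.J) = A.J * (a * b) * A.J := by
      calc A.J * a * A.J * (A.J * b * A.J) = A.J * a * (A.J * A.J) * b * A.J := by group
        _ = _ := by rw [AL.J_sq]; group
    rwa [e] at h
  | inv a _ ha =>
    have h := inv_mem ha
    have e : (A.J * a * A.J)⁻¹ = A.J * a⁻¹ * A.J := by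
      rw [mul_inv_rev, mul_inv_rev, AL.J_inv, mul_assoc]
    rwa [e] at h

theorem J_RM {g : Equiv.Perm Q} (hg : g ∈ RM A) : A.J * g * A.J ∈ LM A := by
  unfold RM at hg
  induction hg using Subgroup.closure_induction with
  | mem x hx =>
    obtain ⟨s, rfl⟩ := hx
    rw [AL.J_R_J]
    exact L_LM _
  | one => rw [mul_one, AL.J_sq]; exact one_mem _
  | mul a b _ _ ha hb =>
    have h := mul_mem ha hb
    have e : A.J * a * A.J * (A.J * b * A.J) = A.J * (a * b) * A.J := by
      calc A.J * a * A.J * (A.J * b * A.J) = A.J * a * (A.J * A.J) * b * A.J := by group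
        _ = _ := by rw [AL.J_sq]; group
    rwa [e] at h
  | inv a _ ha =>
    have h := inv_mem ha
    have e : (A.J * a * A.J)⁻¹ = A.J * a⁻¹ * A.J := by
      rw [mul_inv_rev, mul_inv_rev, AL.J_inv, mul_assoc]
    rwa [e] at h

theorem J_conj_aut {g : Equiv.Perm Q} (hg : g ∈ A.Aut) : A.J * g * A.J = g := by
  rw [← AL.aut_J hg, mul_assoc, AL.J_sq, mul_one]

theorem Lam_RM : Lam A ≤ RM A := by
  intro g hg
  have h := J_LM (Lam_LM hg)
  rwa [J_conj_aut (Lam_aut hg)] at h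

theorem J_e : A.J A.e = A.e := (AL.eq_inv (A.idl A.e)).symm

theorem RM_stab {g : Equiv.Perm Q} (hg : g ∈ RM A) (he : g A.e = A.e) : g ∈ Lam A := by
  have h1 := J_RM hg
  have h2 : (A.J * g * A.J) A.e = A.e := by
    show A.J (g (A.J A.e)) = A.e
    rw [J_e, he, J_e]
  have h3 := LM_stab h1 h2
  have h4 : A.J * (A.J * g * A.J) * A.J = g := by
    calc A.J * (A.J * g * A.J) * A.J = (A.J * A.J) * g * (A.J * A.J) := by group
      _ = g := by rw [AL.J_sq]; group
  rw [J_conj_aut (Lam_aut h3)] at h4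
  rwa [h4] at h3

/-- conjugation by an inner mapping -/
theorem LM_conj {h : Equiv.Perm Q} (hh : h ∈ A.Aut) {g : Equiv.Perm Q} (hg : g ∈ LM A) :
    h * g * h⁻¹ ∈ LM A := by
  unfold LM at hg
  induction hg using Subgroup.closure_induction with
  | mem x hx =>
    obtain ⟨s, rfl⟩ := hx
    rw [AL.aut_L hh, mul_assoc, mul_inv_cancel, mul_one]
    exact L_LM _
  | one => simp
  | mul a b _ _ ha hb =>
    have h1 := mul_mem ha hb
    have e : h * a * h⁻¹ * (h * b * h⁻¹) = h * (a * b) * h⁻¹ := by group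
    rwa [e] at h1
  | inv a _ ha =>
    have h1 := inv_mem ha
    have e : (h * a * h⁻¹)⁻¹ = h * a⁻¹ * h⁻¹ := by group
    rwa [e] at h1

theorem RM_conj {h : Equiv.Perm Q} (hh : h ∈ A.Aut) {g : Equiv.Perm Q} (hg : g ∈ RM A) :
    h * g * h⁻¹ ∈ RM A := by
  unfold RM at hg
  induction hg using Subgroup.closure_induction with
  | mem x hx =>
    obtain ⟨s, rfl⟩ := hx
    rw [AL.aut_R hh, mul_assoc, mul_inv_cancel, mul_one]
    exact R_RM _
  | one => simp
  | mul a b _ _ ha hb =>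
    have h1 := mul_mem ha hb
    have e : h * a * h⁻¹ * (h * b * h⁻¹) = h * (a * b) * h⁻¹ := by group
    rwa [e] at h1
  | inv a _ ha =>
    have h1 := inv_mem ha
    have e : (h * a * h⁻¹)⁻¹ = h * a⁻¹ * h⁻¹ := by group
    rwa [e] at h1

/-- in a nonassociative loop without proper normal subloops the left and the right multiplication
group coincide -/
theorem LM_inf (hs : SimA A) (hna : ∃ x y z, A.op (A.op x y) z ≠ A.op x (A.op y z)) :
    LM A ≤ RM A ∧ RM A ≤ LM A := by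
  -- the intersection
  set S : Set Q := {x | ∃ k ∈ LM A ⊓ RM A, k A.e = x} with hS
  have hLk : ∀ k ∈ LM A ⊓ RM A, A.L (k A.e) ∈ LM A ⊓ RM A := by
    intro k hk
    have h1 := GB_e (LM_GB hk.1)
    have e : k * ((A.L (k A.e))⁻¹ * k)⁻¹ = A.L (k A.e) := by group
    rw [← e]
    have hk' := Subgroup.mem_inf.1 hk
    exact Subgroup.mem_inf.2 ⟨(LM A).mul_mem hk'.1 ((LM A).inv_mem (Lam_LM h1)),
      (RM A).mul_mem hk'.2 ((RM A).inv_mem (Lam_RM h1))⟩
  have hcase := hs S ⟨1, one_mem _, rfl⟩ (by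
    rintro _ ⟨k, hk, rfl⟩ _ ⟨l, hl, rfl⟩
    exact ⟨A.L (k A.e) * l, mul_mem (hLk k hk) hl, rfl⟩) (by
    rintro g hg he _ ⟨k, hk, rfl⟩
    have hga := inn_aut hg he
    refine ⟨g * k * g⁻¹, ⟨LM_conj hga hk.1, RM_conj hga hk.2⟩, ?_⟩
    show g (k (g⁻¹ A.e)) = g (k A.e)
    have : g⁻¹ A.e = A.e := by rw [Equiv.Perm.inv_eq_iff_eq, he]
    rw [this])
  rcases hcase with h1 | h1
  · -- the intersection is trivial
    exfalso
    have hk1 : ∀ k ∈ LM A ⊓ RM A, k A.e = A.e := by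
      intro k hk
      have : k A.e ∈ S := ⟨k, hk, rfl⟩
      rw [h1] at this
      exact this
    have hall : ∀ k ∈ Lam A, k = 1 := by
      -- `Lam ≤ LM ⊓ RM`, and the latter is normalised by the `L y`
      intro k hk
      ext y
      rw [Equiv.Perm.one_apply]
      -- conjugate by `L y`
      have h2 : (A.L y)⁻¹ * k * A.L y ∈ LM A := mul_mem (mul_mem (inv_mem (L_LM y)) (Lam_LM hk))
        (L_LM y)
      have h3 : (A.L y)⁻¹ * k * A.L y ∈ RM A := by
        -- `L y = R y * T`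
        have hT := AL.tau_mem (A := A) y
        have hR : (A.R y)⁻¹ * k * A.R y ∈ RM A :=
          mul_mem (mul_mem (inv_mem (R_RM y)) (Lam_RM hk)) (R_RM y)
        have h4 := RM_conj (inv_mem hT) hR
        have e : ((A.R y)⁻¹ * A.L y)⁻¹ * ((A.R y)⁻¹ * k * A.R y) * (((A.R y)⁻¹ * A.L y)⁻¹)⁻¹ =
            (A.L y)⁻¹ * k * A.L y := by group
        rwa [e] at h4
      have h5 := hk1 _ ⟨h2, h3⟩
      have h6 : (A.L y)⁻¹ (k (A.L y A.e)) = A.e := h5
      rw [Equiv.Perm.inv_eq_iff_eq] at h6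
      have h7 : A.L y A.e = y := A.idr y
      rw [h7] at h6
      exact h6
    obtain ⟨x, y, z, hxyz⟩ := hna
    apply hxyz
    have h2 := hall _ (th_Lam (A := A) x y)
    have h3 := LL_th (A := A) x y
    rw [h2, mul_one] at h3
    exact (congrArg (fun g : Equiv.Perm Q => g z) h3).symm
  · -- the intersection is transitive
    have htr : ∀ x : Q, ∃ k ∈ LM A ⊓ RM A, k A.e = x := by
      intro x
      have : x ∈ S := by rw [h1]; exact Set.mem_univ x
      exact this
    constructor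
    · intro g hg
      obtain ⟨k, hk, he⟩ := htr (g A.e)
      have h2 : (k⁻¹ * g) A.e = A.e := by
        show k⁻¹ (g A.e) = A.e
        rw [Equiv.Perm.inv_eq_iff_eq, he]
      have h3 := LM_stab (mul_mem (inv_mem hk.1) hg) h2
      have e : g = k * (k⁻¹ * g) := by group
      rw [e]
      exact mul_mem hk.2 (Lam_RM h3)
    · intro g hg
      obtain ⟨k, hk, he⟩ := htr (g A.e)
      have h2 : (k⁻¹ * g) A.e = A.e := by
        show k⁻¹ (g A.e) = A.e
        rw [Equiv.Perm.inv_eq_iff_eq, he]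
      have h3 := RM_stab (mul_mem (inv_mem hk.2) hg) h2
      have e : g = k * (k⁻¹ * g) := by group
      rw [e]
      exact mul_mem hk.1 (Lam_LM h3)

theorem Mlt_eq (hs : SimA A) (hna : ∃ x y z, A.op (A.op x y) z ≠ A.op x (A.op y z)) :
    Mlt A = LM A ∧ Mlt A = RM A := by
  obtain ⟨h1, h2⟩ := LM_inf hs hna
  have h3 : Mlt A ≤ LM A := by
    unfold Mlt
    rw [Subgroup.closure_le]
    rintro _ (⟨x, rfl⟩ | ⟨x, rfl⟩)
    · exact L_LM x
    · exact h2 (R_RM x)
  exact ⟨le_antisymm h3 LM_le, le_antisymm (h3.trans h1) RM_le⟩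

theorem inn_Lam (hs : SimA A) (hna : ∃ x y z, A.op (A.op x y) z ≠ A.op x (A.op y z))
    {g : Equiv.Perm Q} (hg : g ∈ Mlt A) (he : g A.e = A.e) : g ∈ Lam A := by
  rw [(Mlt_eq hs hna).1] at hg
  exact LM_stab hg he

/-- the stabilizer of a point different from `e` in the inner mapping group is not contained in a
proper normal subgroup of the inner mapping group -/
theorem stab_not_le (hs : SimA A) (hna : ∃ x y z, A.op (A.op x y) z ≠ A.op x (A.op y z))
    {N : Subgroup (Equiv.Perm Q)} (hN : ∀ g ∈ N, g ∈ Mlt A ∧ g A.e = A.e)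
    (hNn : ∀ h ∈ Mlt A, h A.e = A.e → ∀ g ∈ N, h * g * h⁻¹ ∈ N)
    (hNp : ∃ h ∈ Mlt A, h A.e = A.e ∧ h ∉ N) {x : Q} (hx : x ≠ A.e) :
    ∃ h ∈ Mlt A, h A.e = A.e ∧ h x = x ∧ h ∉ N := by
  by_contra hcon
  push Not at hcon
  have hNa : N ≤ A.Aut := fun g hg => inn_aut (hN g hg).1 (hN g hg).2
  have hth : ∀ x y, th A x y ∈ Mlt A ∧ (th A x y) A.e = A.e := fun x y =>
    ⟨th_Mlt x y, AL.aut_e (th_aut x y)⟩
  have hxX : x ∈ XB A N := fun y => hcon _ (th_Mlt x y) (hth x y).2 (th_fix x y)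
  have hcase := hs (XB A N) XB_e (fun a ha b hb => XB_op hNa ha hb) (by
    intro g hg he s hsX y
    have hga := inn_aut hg he
    have h1 := hNn g hg he _ (hsX (g⁻¹ y))
    rw [th_conj hga, ai] at h1
    exact h1)
  rcases hcase with h1 | h1
  · rw [h1] at hxX
    exact hx hxX
  · obtain ⟨h, hh, he, hhN⟩ := hNp
    apply hhN
    have h2 := inn_Lam hs hna hh he
    have h3 : Lam A ≤ N := by
      unfold Lam
      rw [Subgroup.closure_le]
      rintro _ ⟨a, b, rfl⟩
      have : a ∈ XB A N := by rw [h1]; exact Set.mem_univ a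
      exact this b
    exact h3 h2

end Pool.Agent.TH427.AR
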