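import Pool.Agent.TH427.AR.Pub

/-!
Sylow subloops of automorphic loops with a series.
-/

set_option autoImplicit false
set_option linter.unusedSectionVars false

namespace Pool.Agent.TH427.AR

open H675HL
open Pool.Agent.W155.SY (Solv card_pre core_group)

variable {Q : Type} [AL Q] [Finite Q]

theorem syl_ch (h : Ch (fun a b : Q => a * b) 1 {1} Set.univ) {p : ℕ} (hp : p.Prime) :
    ∃ H : Set Q, H675HL.Sub H ∧ Nat.card H = p ^ (Nat.card Q).factorization p := by
  obtain ⟨K, hK, f, hf, hs⟩ := mt _ Q rfl h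
  exact core_group f hf hs p hp

theorem syl_sub {S : Set Q} (hS : H675HL.Sub S) (h : Ch (fun a b : Q => a * b) 1 {1} S) {p : ℕ}
    (hp : p.Prime) :
    ∃ H : Set Q, H675HL.Sub H ∧ Nat.card H = p ^ (Nat.card S).factorization p := by
  have h1 := ch_sub hS h subset_rfl
  letI : AL S := H99.subAL S hS
  have e1 : (Subtype.val ⁻¹' S : Set S) = Set.univ := by
    ext x
    exact ⟨fun _ => trivial, fun _ => x.2⟩
  rw [e1] at h1
  obtain ⟨T, hT, hc⟩ := syl_ch (Q := S) h1 hp
  refine ⟨Subtype.val '' T, ⟨⟨1, hT.1, rfl⟩, ?_⟩, ?_⟩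
  · rintro _ ⟨x, hx, rfl⟩ _ ⟨y, hy, rfl⟩
    exact ⟨x * y, hT.2 x hx y hy, rfl⟩
  · rw [← hc]
    exact (Nat.card_image_of_injective Subtype.val_injective T)

theorem syl_ext {K : Type} [Mul K] (f : Q → K)
    (hsur : Function.Surjective f) (hf : ∀ x y, f (x * y) = f x * f y)
    (cl : ∀ x y z : K, x * y = x * z → y = z) (cr : ∀ x y z : K, y * x = z * x → y = z)
    (hker : Series (fun a b : Q => a * b) 1 {x | f x = f 1}) (p : ℕ) (hp : p.Prime) (P : Finset K)
    (hP1 : f 1 ∈ P) (hPm : ∀ a ∈ P, ∀ b ∈ P, a * b ∈ P)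
    (hcard : P.card = p ^ (Nat.card K).factorization p) :
    ∃ H : Set Q, H675HL.Sub H ∧ Nat.card H = p ^ (Nat.card Q).factorization p := by
  classical
  haveI : Finite K := Finite.of_surjective f hsur
  haveI := Fintype.ofFinite K
  have hone : ∀ k : K, f 1 * k = k ∧ k * f 1 = k := by
    intro k
    obtain ⟨x, rfl⟩ := hsur k
    rw [← hf, ← hf, AL.one_mul', AL.mul_one']
    exact ⟨rfl, rfl⟩
  set S : Set Q := f ⁻¹' (P : Set K) with hSdef
  have hS : H675HL.Sub S := by
    refine ⟨hP1, fun a ha b hb => ?_⟩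
    show f (a * b) ∈ (P : Set K)
    rw [hf]
    exact hPm _ ha _ hb
  have hcS : Nat.card S = P.card * Nat.card {x : Q | f x = f 1} :=
    card_pre hf cl P (fun k _ => hsur k)
  have hcQ : Nat.card Q = Nat.card K * Nat.card {x : Q | f x = f 1} := by
    have h2 := card_pre hf cl (Finset.univ : Finset K) (fun k _ => hsur k)
    rw [Finset.coe_univ, Set.preimage_univ, Finset.card_univ, ← Nat.card_eq_fintype_card] at h2
    rw [← h2]
    exact (Nat.card_congr (Equiv.Set.univ Q)).symm
  have hNN : NIn (fun a b : Q => a * b) 1 {x | f x = f 1} S := by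
    refine ⟨?_, rfl, ?_, hS.2, ?_⟩
    · intro x hx
      have hx' : f x = f 1 := hx
      show f x ∈ (P : Set K)
      rw [hx']
      exact hP1
    · intro a ha b hb
      have ha' : f a = f 1 := ha
      have hb' : f b = f 1 := hb
      show f (a * b) = f 1
      rw [hf, ha', hb', ← hf, AL.one_mul']
    · intro x _ y _ m hm
      have hm' : f m = f 1 := hm
      refine ⟨?_, ?_, ?_⟩
      · obtain ⟨c, hc⟩ := (AL.bijR x).2 (x * m)
        have hc' : c * x = x * m := hc
        refine ⟨c, ?_, hc'.symm⟩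
        show f c = f 1
        apply cr (f x)
        rw [← hf, hc', hf, hm', (hone _).1, (hone _).2]
      · obtain ⟨c, hc⟩ := (AL.bijR (x * y)).2 ((m * x) * y)
        have hc' : c * (x * y) = (m * x) * y := hc
        refine ⟨c, ?_, hc'.symm⟩
        show f c = f 1
        apply cr (f (x * y))
        rw [← hf, hc', hf, hf, hm', (hone _).1, (hone _).1, hf]
      · obtain ⟨c, hc⟩ := (AL.bijL (y * x)).2 (y * (x * m))
        have hc' : (y * x) * c = y * (x * m) := hc
        refine ⟨c, ?_, hc'.symm⟩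
        show f c = f 1
        apply cl (f (y * x))
        rw [← hf, hc', hf, hf, hm', (hone _).2, (hone _).2, hf]
  have hch : Ch (fun a b : Q => a * b) 1 {1} S :=
    (series_ch hker).trans (step_ppow hNN hp (k := (Nat.card K).factorization p)
      (by rw [hcS, hcard, mul_comm]))
  obtain ⟨H, hH, hc⟩ := syl_sub hS hch hp
  refine ⟨H, hH, ?_⟩
  have hSne : Nat.card S ≠ 0 := by
    have : Nonempty S := ⟨⟨1, hS.1⟩⟩
    exact Nat.card_pos.ne'
  have hNne : Nat.card {x : Q | f x = f 1} ≠ 0 := by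
    intro h0
    rw [h0, mul_zero] at hcS
    exact hSne hcS
  have hKne : Nat.card K ≠ 0 := by
    have : Nonempty K := ⟨f 1⟩
    exact Nat.card_pos.ne'
  rw [hc, hcQ, hcS, hcard, Nat.factorization_mul hKne hNne,
      Nat.factorization_mul (pow_ne_zero _ hp.ne_zero) hNne, hp.factorization_pow]
  simp

end Pool.Agent.TH427.AR
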