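import Pool.Agent.TH427.AR.TwoP
import Pool.Agent.TH427.AR.Eight3

/-!
Automorphic loops of order twice an odd number: Sylow 2-subgroups.
-/

set_option autoImplicit false
set_option linter.unusedSectionVars false
set_option linter.unusedVariables false

namespace Pool.Agent.TH427.AR

open Pool.Agent.H687R3.AL
open Pool.Agent.W790.LG (ai ia)
open Equiv (Perm)

section

theorem odd_nsyl {G : Type} [Group G] [Finite G] : Odd (Nat.card (Sylow 2 G)) := by
  have : Fact (Nat.Prime 2) := ⟨Nat.prime_two⟩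
  have h := card_sylow_modEq_one 2 G
  rw [Nat.odd_iff]
  exact h

theorem zp_two {G : Type} [Group G] {g : G} (h : g * g = 1) : IsPGroup 2 (Subgroup.zpowers g) :=
  zp_pgroup (k := 1) (by rw [pow_one, pow_two, h])

/-- the number of Sylow 2-subgroups containing an involution is odd -/
theorem odd_syl_mem {G : Type} [Group G] [Finite G] {g : G} (h : g * g = 1) :
    Odd (Nat.card {S : Sylow 2 G | g ∈ S}) := by
  have : Fact (Nat.Prime 2) := ⟨Nat.prime_two⟩
  have h1 := (zp_two h).card_modEq_card_fixedPoints (α := Sylow 2 G)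
  have h2 : MulAction.fixedPoints (Subgroup.zpowers g) (Sylow 2 G) = {S : Sylow 2 G | g ∈ S} := by
    ext S
    rw [(zp_two h).sylow_mem_fixedPoints_iff]
    show Subgroup.zpowers g ≤ _ ↔ g ∈ S
    rw [Subgroup.zpowers_le]
    rfl
  rw [h2] at h1
  have h3 := odd_nsyl (G := G)
  rw [Nat.odd_iff] at h3 ⊢
  have h4 : Nat.card (Sylow 2 G) % 2 = Nat.card {S : Sylow 2 G | g ∈ S} % 2 := h1
  rw [← h4, h3]

theorem count {G F : Type} [Group G] [Finite G] [Finite F] [MulAction G F]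
    [MulAction.IsPretransitive G F] (ε : F → G) (h2 : ∀ y, ε y * ε y = 1)
    (hc : ∀ g y, g * ε y * g⁻¹ = ε (g • y)) (y0 : F) :
    ∃ a b, Odd a ∧ Odd b ∧ ∀ S : Sylow 2 G, Nat.card {y | ε y ∈ S} * a = Nat.card F * b := by
  classical
  have : Fact (Nat.Prime 2) := ⟨Nat.prime_two⟩
  have fF := Fintype.ofFinite F
  have fS := Fintype.ofFinite (Sylow 2 G)
  refine ⟨Nat.card (Sylow 2 G), Nat.card {S : Sylow 2 G | ε y0 ∈ S}, odd_nsyl,
    odd_syl_mem (h2 y0), fun S => ?_⟩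
  have hr : ∀ S' : Sylow 2 G, Nat.card {y | ε y ∈ S'} = Nat.card {y | ε y ∈ S} := by
    intro S'
    obtain ⟨g, hg⟩ := MulAction.exists_smul_eq G S' S
    refine Nat.card_congr ⟨fun y => ⟨g • y.1, ?_⟩, fun y => ⟨g⁻¹ • y.1, ?_⟩, ?_, ?_⟩
    · show ε (g • y.1) ∈ S
      rw [← hc, ← hg]
      have := y.2
      exact Sylow.smul_def (g := g) (P := S') ▸ ⟨ε y.1, this, rfl⟩
    · show ε (g⁻¹ • y.1) ∈ S'
      have h3 : ε y.1 ∈ S := y.2
      have h3' : ∀ z : G, z ∈ S → z ∈ g • S' := by rw [hg]; exact fun z hz => hz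
      obtain ⟨s, hs, hsy⟩ := h3' _ h3
      have hsy' : g * s * g⁻¹ = ε y.1 := hsy
      rw [← hc, ← hsy']
      have : g⁻¹ * (g * s * g⁻¹) * g⁻¹⁻¹ = s := by group
      rw [this]
      exact hs
    · intro y
      exact Subtype.ext (inv_smul_smul g y.1)
    · intro y
      exact Subtype.ext (smul_inv_smul g y.1)
  have hn : ∀ y : F, Nat.card {S : Sylow 2 G | ε y ∈ S} = Nat.card {S : Sylow 2 G | ε y0 ∈ S} := by
    intro y
    obtain ⟨g, rfl⟩ := MulAction.exists_smul_eq G y0 y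
    refine Nat.card_congr ⟨fun S => ⟨g⁻¹ • S.1, ?_⟩, fun S => ⟨g • S.1, ?_⟩, ?_, ?_⟩
    · show ε y0 ∈ (g⁻¹ • S.1 : Sylow 2 G)
      have h3 : ε (g • y0) ∈ S.1 := S.2
      refine ⟨ε (g • y0), h3, ?_⟩
      show g⁻¹ * ε (g • y0) * g⁻¹⁻¹ = ε y0
      rw [hc, inv_smul_smul]
    · show ε (g • y0) ∈ (g • S.1 : Sylow 2 G)
      have h3 : ε y0 ∈ S.1 := S.2
      refine ⟨ε y0, h3, ?_⟩
      show g * ε y0 * g⁻¹ = ε (g • y0)
      exact hc g y0
    · intro S
      exact Subtype.ext (smul_inv_smul g S.1)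
    · intro S
      exact Subtype.ext (inv_smul_smul g S.1)
  have e1 : ∑ S' : Sylow 2 G, Nat.card {y | ε y ∈ S'} = ∑ y : F, Nat.card {S' : Sylow 2 G | ε y ∈ S'} := by
    have e2 : ∀ S' : Sylow 2 G, Nat.card {y | ε y ∈ S'} = ∑ y : F, if ε y ∈ S' then 1 else 0 := by
      intro S'
      rw [← Finset.card_filter, Nat.card_eq_fintype_card]
      exact Fintype.card_subtype _
    have e3 : ∀ y : F, Nat.card {S' : Sylow 2 G | ε y ∈ S'} =
        ∑ S' : Sylow 2 G, if ε y ∈ S' then 1 else 0 := by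
      intro y
      rw [← Finset.card_filter, Nat.card_eq_fintype_card]
      exact Fintype.card_subtype _
    simp_rw [e2, e3]
    exact Finset.sum_comm
  simp_rw [hr, hn] at e1
  rw [Finset.sum_const, Finset.sum_const, Finset.card_univ, Finset.card_univ, smul_eq_mul,
    smul_eq_mul, ← Nat.card_eq_fintype_card, ← Nat.card_eq_fintype_card] at e1
  rw [mul_comm]
  exact e1

variable {Q : Type} {A : AL Q}

theorem pw_e (n : ℕ) : pw A A.e n = A.e := by
  induction n with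
  | zero => rw [pw_zero]
  | succ n ih => rw [← op_pw, ih, A.idl]

theorem pw_card [Finite Q] (x : Q) : pw A x (Nat.card Q) = A.e := by
  classical
  have := Fintype.ofFinite Q
  obtain ⟨n, hn, he, hmin⟩ := exists_ord (A := A) x
  obtain ⟨m, hm⟩ := ord_dvd hn he hmin
  rw [Nat.card_eq_fintype_card, hm, ← pw_mul, he, pw_e]

theorem E_G (x : Q) : A.E x ∈ aut A.E := AL.E_mem_aut x

theorem M_G {g : Perm Q} (hg : g ∈ Mlt A) : g ∈ aut A.E := fun x => Mlt_E hg x

theorem EE_pow [Finite Q] (a b : Q) : (A.E a * A.E b) ^ Nat.card Q = 1 := by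
  have h1 : A.E a = A.L b * A.E ((A.L b)⁻¹ a) * (A.L b)⁻¹ := by
    rw [Mlt_E (L_Mlt b), ai]
  have h2 : A.E b = A.L b * A.J * (A.L b)⁻¹ := rfl
  have h3 : A.E a * A.E b = A.L b * (A.E ((A.L b)⁻¹ a) * A.J) * (A.L b)⁻¹ := by
    rw [h1, h2]; group
  rw [h3, conj_pow, AL.pow_EJ, R_pow_e, pw_card, AL.E_e, AL.J_sq]
  group

/-- core involutions in a common 2-subgroup commute -/
theorem E_comm2 [Finite Q] {m : ℕ} (hm : Odd m) (hQ : Nat.card Q = 2 * m) {a b : Q} {k : ℕ}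
    (hk : (A.E a * A.E b) ^ 2 ^ k = 1) : A.E a * A.E b = A.E b * A.E a := by
  have h1 := orderOf_dvd_of_pow_eq_one hk
  have h2 := orderOf_dvd_of_pow_eq_one (EE_pow (A := A) a b)
  rw [hQ] at h2
  have h3 : Nat.Coprime (orderOf (A.E a * A.E b)) m := by
    refine Nat.Coprime.coprime_dvd_left h1 (Nat.Coprime.pow_left k ?_)
    exact (Nat.coprime_two_left).2 hm
  have h4 : orderOf (A.E a * A.E b) ∣ 2 := h3.dvd_of_dvd_mul_right h2
  have h5 := orderOf_dvd_iff_pow_eq_one.1 h4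
  rw [pow_two] at h5
  have ha := AL.E_sq (A := A) a
  have hb := AL.E_sq (A := A) b
  have e2 : A.E b * A.E a = (A.E a * A.E b)⁻¹ := by
    rw [eq_inv_iff_mul_eq_one]
    calc A.E b * A.E a * (A.E a * A.E b) = A.E b * (A.E a * A.E a) * A.E b := by group
      _ = 1 := by rw [ha, mul_one, hb]
  have e3 : A.E a * A.E b = (A.E a * A.E b)⁻¹ := eq_inv_of_mul_eq_one_left h5
  exact e3.trans e2.symm

end

end Pool.Agent.TH427.AR
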