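import Pool.Agent.TH427.AR.TM1

/-!
Automorphic loops of order twice an odd number: each Sylow 2-subgroup contains two core involutions.
-/

set_option autoImplicit false
set_option linter.unusedSectionVars false
set_option linter.unusedVariables false

namespace Pool.Agent.TH427.AR

open Pool.Agent.H687R3.AL
open Pool.Agent.W790.LG (ai ia)
open Equiv (Perm)

section

theorem comm_closure {G : Type} [Group G] {C : Set G} (h2 : ∀ c ∈ C, c * c = 1)
    (hc : ∀ c ∈ C, ∀ d ∈ C, c * d = d * c) : IsPGroup 2 (Subgroup.closure C) := by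
  have h1 : ∀ c ∈ C, ∀ g ∈ Subgroup.closure C, c * g = g * c := by
    intro c hcC g hg
    induction hg using Subgroup.closure_induction with
    | mem x hx => exact hc c hcC x hx
    | one => rw [mul_one, one_mul]
    | mul x y _ _ hx hy => rw [← mul_assoc, hx, mul_assoc, hy, mul_assoc]
    | inv x _ hx =>
      calc c * x⁻¹ = x⁻¹ * (x * c) * x⁻¹ := by group
        _ = x⁻¹ * c := by rw [← hx]; group
  have h3 : ∀ g ∈ Subgroup.closure C, g * g = 1 ∧ ∀ k ∈ Subgroup.closure C, g * k = k * g := by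
    intro g hg
    induction hg using Subgroup.closure_induction with
    | mem x hx => exact ⟨h2 x hx, h1 x hx⟩
    | one => exact ⟨mul_one _, fun k hk => by rw [mul_one, one_mul]⟩
    | mul x y hx' hy' hx hy =>
      refine ⟨?_, fun k hk => ?_⟩
      · calc x * y * (x * y) = x * (y * x) * y := by group
          _ = (x * x) * (y * y) := by rw [← hx.2 y hy']; group
          _ = 1 := by rw [hx.1, hy.1, mul_one]
      · calc x * y * k = x * (y * k) := by group
          _ = (x * k) * y := by rw [hy.2 k hk]; group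
          _ = k * (x * y) := by rw [hx.2 k hk]; group
    | inv x hx' hx =>
      refine ⟨?_, fun k hk => ?_⟩
      · rw [← mul_inv_rev, hx.1, inv_one]
      · calc x⁻¹ * k = x⁻¹ * (k * x) * x⁻¹ := by group
          _ = k * x⁻¹ := by rw [← hx.2 k hk]; group
  rintro ⟨g, hg⟩
  exact ⟨1, Subtype.ext (by
    show g ^ 2 ^ 1 = 1
    rw [pow_one, pow_two, (h3 g hg).1])⟩

variable {Q : Type} {A : AL Q}

/-- the core involutions as elements of the automorphism group of the core -/
noncomputable def ep (A : AL Q) (y : Q) : aut A.E := ⟨A.E y, E_G y⟩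

theorem ep_sq (y : Q) : ep A y * ep A y = 1 := Subtype.ext (AL.E_sq y)

theorem EJ_M (a : Q) : A.E a * A.J = A.L a * (A.R (A.inv a))⁻¹ := by
  have h1 : A.E a = A.L a * A.J * (A.L a)⁻¹ := rfl
  rw [h1, ← AL.J_L_J, ← Jinv]
  group

theorem EJ_Mlt (a : Q) : A.E a * A.J ∈ Mlt A := by
  rw [EJ_M]
  exact mul_mem (L_Mlt _) (inv_mem (R_Mlt _))

theorem E_fix (hinj : Function.Injective A.E) {a y : Q} (h : A.E a * A.E y = A.E y * A.E a) :
    A.E a y = y := by
  apply hinj
  rw [← E_G a y, h, mul_inv_cancel_right]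

theorem E_comm_of {g : Perm Q} (hg : g ∈ aut A.E) {y : Q} (h : g y = y) :
    g * A.E y = A.E y * g := by
  have h1 := hg y
  rw [h] at h1
  calc g * A.E y = (g * A.E y * g⁻¹) * g := by group
    _ = A.E y * g := by rw [h1]

theorem fix_of (hinj : Function.Injective A.E) {g : Perm Q} (hg : g ∈ aut A.E) {y : Q}
    (h : g * A.E y = A.E y * g) : g y = y := by
  apply hinj
  rw [← hg y, h, mul_inv_cancel_right]

theorem two_card [Finite Q] (hinj : Function.Injective A.E) {m : ℕ} (hm : Odd m)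
    (hQ : Nat.card Q = 2 * m) (S : Sylow 2 (aut A.E)) : Nat.card {y | ep A y ∈ S} = 2 := by
  classical
  have : Fact (Nat.Prime 2) := ⟨Nat.prime_two⟩
  have htr : MulAction.IsPretransitive (aut A.E) Q := ⟨fun x y => by
    refine ⟨⟨A.L y * (A.L x)⁻¹, mul_mem (AL.L_mem_aut y) (inv_mem (AL.L_mem_aut x))⟩, ?_⟩
    show A.L y ((A.L x)⁻¹ x) = y
    have h : (A.L x)⁻¹ x = A.e := by
      rw [Equiv.Perm.inv_eq_iff_eq]
      exact (A.idr x).symm
    rw [h]
    exact A.idr y⟩
  obtain ⟨a, b, ha, hb, hcount⟩ := count (F := Q) (ep A) ep_sq (fun g y => Subtype.ext (g.2 y)) A.e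
  obtain ⟨S0, hS0⟩ := (zp_two (ep_sq (A := A) A.e)).exists_le_sylow
  have hJ : ep A A.e ∈ S0 := hS0 (Subgroup.mem_zpowers _)
  have ha0 : 0 < a := ha.pos
  have hconst : ∀ S' : Sylow 2 (aut A.E), Nat.card {y | ep A y ∈ S'} = Nat.card {y | ep A y ∈ S0} := by
    intro S'
    exact Nat.eq_of_mul_eq_mul_right ha0 ((hcount S').trans (hcount S0).symm)
  set X : Set Q := {y | ep A y ∈ S0} with hX
  have hcomm : ∀ i ∈ X, ∀ j ∈ X, A.E i * A.E j = A.E j * A.E i := by
    intro i hi j hj
    have h1 : ep A i * ep A j ∈ S0 := mul_mem hi hj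
    obtain ⟨k, hk⟩ := S0.2 ⟨_, h1⟩
    have h2 : (ep A i * ep A j) ^ 2 ^ k = 1 := congrArg Subtype.val hk
    exact E_comm2 hm hQ (congrArg Subtype.val h2)
  have hfix : ∀ i ∈ X, ∀ j ∈ X, A.E i j = j := fun i hi j hj => E_fix hinj (hcomm i hi j hj)
  have heX : A.e ∈ X := hJ
  have hJfix : ∀ i ∈ X, A.J i = i := by
    intro i hi
    have := hfix A.e heX i hi
    rwa [AL.E_e] at this
  have haut : ∀ i ∈ X, A.E i * A.J ∈ A.Aut := by
    intro i hi
    apply inn_aut (EJ_Mlt i)
    show A.E i (A.J A.e) = A.e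
    rw [J_e, hfix i hi A.e heX]
  have hEJ : ∀ i ∈ X, ∀ j ∈ X, (A.E i * A.J) j = j := by
    intro i hi j hj
    show A.E i (A.J j) = j
    rw [hJfix j hj, hfix i hi j hj]
  have hop : ∀ i ∈ X, ∀ j ∈ X, A.op i j ∈ X := by
    intro i hi j hj
    have h1 : ∀ l ∈ X, (A.E l * A.J) (A.op i j) = A.op i j := by
      intro l hl
      rw [AL.aut_apply (haut l hl), hEJ l hl i hi, hEJ l hl j hj]
    have h2 : A.E i (A.op i j) = A.op i j := by
      show A.L i (A.J ((A.L i)⁻¹ (A.L i j))) = A.L i j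
      rw [ia, hJfix j hj]
    have h3 : A.J (A.op i j) = A.op i j := by
      have h4 : A.E i (A.J (A.op i j)) = A.op i j := h1 i hi
      have h5 : A.E i (A.J (A.op i j)) = A.E i (A.op i j) := by rw [h4, h2]
      exact (A.E i).injective h5
    have h4 : ∀ l ∈ X, A.E l (A.op i j) = A.op i j := by
      intro l hl
      have h5 : A.E l (A.J (A.op i j)) = A.op i j := h1 l hl
      rwa [h3] at h5
    have h5 : ∀ l ∈ X, A.E l * A.E (A.op i j) = A.E (A.op i j) * A.E l := by
      intro l hl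
      exact E_comm_of (E_G l) (h4 l hl)
    have hP : IsPGroup 2 (Subgroup.closure (ep A '' (X ∪ {A.op i j}))) := by
      apply comm_closure
      · rintro _ ⟨y, -, rfl⟩
        exact ep_sq y
      · rintro _ ⟨y, hy, rfl⟩ _ ⟨z, hz, rfl⟩
        apply Subtype.ext
        show A.E y * A.E z = A.E z * A.E y
        rcases hy with hy | hy <;> rcases hz with hz | hz
        · exact hcomm y hy z hz
        · rw [Set.mem_singleton_iff] at hz
          rw [hz]
          exact h5 y hy
        · rw [Set.mem_singleton_iff] at hy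
          rw [hy]
          exact (h5 z hz).symm
        · rw [Set.mem_singleton_iff] at hy hz
          rw [hy, hz]
    obtain ⟨S', hS'⟩ := hP.exists_le_sylow
    have hsub : X ⊆ {y | ep A y ∈ S'} := fun y hy =>
      hS' (Subgroup.subset_closure ⟨y, Or.inl hy, rfl⟩)
    have heq : X = {y | ep A y ∈ S'} := by
      apply Set.eq_of_subset_of_ncard_le hsub
      exact (hconst S').le
    rw [heq]
    exact hS' (Subgroup.subset_closure ⟨_, Or.inr rfl, rfl⟩)
  have hinv : ∀ i ∈ X, A.inv i = i := hJfix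
  have := Fintype.ofFinite Q
  obtain ⟨n, hn⟩ := Pool.Agent.H687R3.AL.card_exp_two Pool.Agent.H687R3.AL.taskDiamond
    (Pool.Agent.W790.LG.sub A X heX hop) (by
      rintro ⟨i, hi⟩ ⟨j, hj⟩
      apply Subtype.ext
      show A.op i j = A.op j i
      have h1 := hEJ i hi j hj
      rw [EJ_M, hinv i hi] at h1
      have h2 : A.L i ((A.R i)⁻¹ j) = j := h1
      have h3 : A.R i (A.L i ((A.R i)⁻¹ j)) = A.R i j := by rw [h2]
      have h4 : (A.R i * A.L i) ((A.R i)⁻¹ j) = (A.L i * A.R i) ((A.R i)⁻¹ j) := by rw [AL.flex]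
      have h5 : A.R i (A.L i ((A.R i)⁻¹ j)) = A.L i (A.R i ((A.R i)⁻¹ j)) := h4
      rw [h5, ai] at h3
      exact h3) (by
      rintro ⟨i, hi⟩
      apply Subtype.ext
      show A.op i i = A.e
      have h1 := AL.op_inv (A := A) i
      rwa [hinv i hi] at h1)
  have h1 := hcount S0
  have h2 : Nat.card {y | ep A y ∈ S0} = 2 ^ n := hn
  rw [h2, hQ] at h1
  have hn1 : n = 1 := by
    rcases n with _ | _ | n
    · exfalso
      rw [pow_zero, one_mul] at h1
      rw [h1] at ha
      have : Even (2 * m * b) := ⟨m * b, by ring⟩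
      exact (Nat.not_even_iff_odd.2 ha) this
    · rfl
    · exfalso
      have h3 : m * b = 2 * (2 ^ n * a) := by
        have : 2 * (m * b) = 2 * (2 * (2 ^ n * a)) := by
          calc 2 * (m * b) = 2 * m * b := by ring
            _ = 2 ^ (n + 1 + 1) * a := h1.symm
            _ = 2 * (2 * (2 ^ n * a)) := by ring
        omega
      have h4 : Odd (m * b) := hm.mul hb
      rw [h3] at h4
      exact (Nat.not_even_iff_odd.2 h4) ⟨2 ^ n * a, by ring⟩
  rw [hconst S, h2, hn1, pow_one]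

/-- each 2-subgroup stabilizes an edge, which contains all its core involutions -/
theorem edge_of [Finite Q] (hinj : Function.Injective A.E) {m : ℕ} (hm : Odd m)
    (hQ : Nat.card Q = 2 * m) {B : Subgroup (Perm Q)} (hB : B ≤ aut A.E) (hp : IsPGroup 2 B) :
    ∃ a b, a ≠ b ∧ A.E a * A.E b = A.E b * A.E a ∧
      (∀ g ∈ B, (g a = a ∧ g b = b) ∨ (g a = b ∧ g b = a)) ∧
      ∀ y, A.E y ∈ B → y = a ∨ y = b := by
  have : Fact (Nat.Prime 2) := ⟨Nat.prime_two⟩
  have hp' : IsPGroup 2 (B.subgroupOf (aut A.E)) := by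
    rintro ⟨⟨g, hg⟩, hgB⟩
    obtain ⟨k, hk⟩ := hp ⟨g, hgB⟩
    have h1 : g ^ 2 ^ k = 1 := congrArg Subtype.val hk
    exact ⟨k, Subtype.ext (Subtype.ext h1)⟩
  obtain ⟨S, hS⟩ := hp'.exists_le_sylow
  have h2 := two_card hinj hm hQ S
  have h3 : ({y | ep A y ∈ S} : Set Q).ncard = 2 := h2
  obtain ⟨a, b, hab, hS2⟩ := Set.ncard_eq_two.1 h3
  have haS : ep A a ∈ S := by
    have : a ∈ {y | ep A y ∈ S} := by rw [hS2]; exact Or.inl rfl
    exact this
  have hbS : ep A b ∈ S := by
    have : b ∈ {y | ep A y ∈ S} := by rw [hS2]; exact Or.inr rfl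
    exact this
  have hmem : ∀ y, ep A y ∈ S → y = a ∨ y = b := by
    intro y hy
    have : y ∈ {y | ep A y ∈ S} := hy
    rw [hS2] at this
    exact this
  have hBS : ∀ g (hg : g ∈ B), (⟨g, hB hg⟩ : aut A.E) ∈ S := fun g hg => hS hg
  have hact : ∀ g (hg : g ∈ B) (y : Q), ep A y ∈ S → ep A (g y) ∈ S := by
    intro g hg y hy
    have h4 : ep A (g y) = ⟨g, hB hg⟩ * ep A y * (⟨g, hB hg⟩)⁻¹ := Subtype.ext (hB hg y).symm
    rw [h4]
    exact mul_mem (mul_mem (hBS g hg) hy) (inv_mem (hBS g hg))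
  refine ⟨a, b, hab, ?_, ?_, ?_⟩
  · have h1 : ep A a * ep A b ∈ S := mul_mem haS hbS
    obtain ⟨k, hk⟩ := S.2 ⟨_, h1⟩
    have h2 : (ep A a * ep A b) ^ 2 ^ k = 1 := congrArg Subtype.val hk
    exact E_comm2 hm hQ (congrArg Subtype.val h2)
  · intro g hg
    rcases hmem _ (hact g hg a haS) with h4 | h4 <;> rcases hmem _ (hact g hg b hbS) with h5 | h5
    · exact absurd (g.injective (h4.trans h5.symm)) hab
    · exact Or.inl ⟨h4, h5⟩
    · exact Or.inr ⟨h4, h5⟩
    · exact absurd (g.injective (h4.trans h5.symm)) hab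
  · intro y hy
    exact hmem y (hBS _ hy)

end

end Pool.Agent.TH427.AR
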