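import Pool.Agent.TH427.AR.TM2

/-!
Automorphic loops of order twice an odd number: the fixed points of elements of the multiplication
group.
-/

set_option autoImplicit false
set_option linter.unusedSectionVars false
set_option linter.unusedVariables false

namespace Pool.Agent.TH427.AR

open Pool.Agent.H687R3.AL
open Pool.Agent.W790.LG (ai ia)
open Equiv (Perm)

section

/-- there is a homomorphism onto the group of order two -/
def HomP {Q : Type} (A : AL Q) : Prop :=
  ∃ f : Q → ℤˣ, (∀ x y, f (A.op x y) = f x * f y) ∧ ∃ x, f x = -1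

variable {Q : Type} {A : AL Q}

theorem f_e {f : Q → ℤˣ} (hf : ∀ x y, f (A.op x y) = f x * f y) : f A.e = 1 := by
  have h := hf A.e A.e
  rw [A.idl] at h
  exact (mul_eq_left.1 h.symm)

theorem f_pw {f : Q → ℤˣ} (hf : ∀ x y, f (A.op x y) = f x * f y) (y : Q) (n : ℕ) :
    f (pw A y n) = f y ^ n := by
  induction n with
  | zero => rw [pw_zero, f_e hf, pow_zero]
  | succ n ih => rw [← op_pw, hf, ih, pow_succ']

theorem pw_sub [Fintype Q] {F : Set Q} (he : A.e ∈ F) (hop : ∀ a ∈ F, ∀ b ∈ F, A.op a b ∈ F)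
    (y : F) (n : ℕ) : (pw (Pool.Agent.W790.LG.sub A F he hop) y n).1 = pw A y.1 n := by
  induction n with
  | zero => rw [pw_zero, pw_zero]; rfl
  | succ n ih => rw [← op_pw, ← op_pw, ← ih]; rfl

theorem unit_cases {u v : ℤˣ} (h : u = 1 ↔ v = 1) : u = v := by
  rcases Int.units_eq_one_or u with h1 | h1 <;> rcases Int.units_eq_one_or v with h2 | h2
  · rw [h1, h2]
  · exact (h.1 h1).symm ▸ h1
  · exact (h.2 h2) ▸ h2.symm
  · rw [h1, h2]

theorem ker_iff [Finite Q] {m : ℕ} (hm : Odd m) (hQ : Nat.card Q = 2 * m) {f : Q → ℤˣ}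
    (hf : ∀ x y, f (A.op x y) = f x * f y) (hx : ∃ x, f x = -1) (y : Q) :
    f y = 1 ↔ pw A y m = A.e := by
  classical
  have := Fintype.ofFinite Q
  obtain ⟨x, hx⟩ := hx
  set O : Set Q := {y | f y = 1} with hO
  have hOc : Oᶜ = A.L x '' O := by
    ext z
    constructor
    · intro hz
      refine ⟨(A.L x)⁻¹ z, ?_, ai _ _⟩
      have h1 : f (A.L x ((A.L x)⁻¹ z)) = f x * f ((A.L x)⁻¹ z) := hf _ _
      rw [ai, hx] at h1
      have h2 : f z = -1 := (Int.units_eq_one_or _).resolve_left hz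
      rw [h2] at h1
      show f ((A.L x)⁻¹ z) = 1
      have h3 : (-1 : ℤˣ) * (-1) = (-1) * ((-1) * f ((A.L x)⁻¹ z)) := by rw [← h1]
      rw [← mul_assoc] at h3
      simpa using h3.symm
    · rintro ⟨w, hw, rfl⟩ hz
      have hw' : f w = 1 := hw
      have h1 : f (A.L x w) = f x * f w := hf _ _
      have hz' : f (A.L x w) = 1 := hz
      rw [hz', hx, hw', mul_one] at h1
      exact absurd h1 (by decide)
  have hcard : O.ncard = m := by
    have h1 := Set.ncard_add_ncard_compl O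
    rw [hOc, Set.ncard_image_of_injective _ (A.L x).injective, hQ] at h1
    omega
  have he : A.e ∈ O := f_e hf
  have hop : ∀ a ∈ O, ∀ b ∈ O, A.op a b ∈ O := by
    intro a ha b hb
    have ha' : f a = 1 := ha
    have hb' : f b = 1 := hb
    show f (A.op a b) = 1
    rw [hf, ha', hb', one_mul]
  constructor
  · intro hy
    have h1 := pw_card (A := Pool.Agent.W790.LG.sub A O he hop) ⟨y, hy⟩
    have h2 : Nat.card O = m := hcard
    rw [h2] at h1
    have h3 := congrArg Subtype.val h1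
    rw [pw_sub] at h3
    exact h3
  · intro hy
    have h1 := f_pw hf y m
    rw [hy, f_e hf] at h1
    rcases Int.units_eq_one_or (f y) with h2 | h2
    · exact h2
    · rw [h2, hm.neg_one_pow] at h1
      exact absurd h1 (by decide)

theorem g1 [Finite Q] {m : ℕ} (hm : Odd m) (hQ : Nat.card Q = 2 * m) {f : Q → ℤˣ}
    (hf : ∀ x y, f (A.op x y) = f x * f y) (hx : ∃ x, f x = -1) {y : Q} (hy : y ≠ A.e)
    (hyy : A.op y y = A.e) : f y = -1 := by
  rcases Int.units_eq_one_or (f y) with h2 | h2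
  · exfalso
    rw [ker_iff hm hQ hf hx] at h2
    obtain ⟨k, hk⟩ := hm
    have h3 : pw A y 2 = A.e := by rw [← op_pw, pw_one, hyy]
    rw [hk, ← pw_add, ← pw_mul, h3, pw_e, A.idl, pw_one] at h2
    exact hy h2
  · exact h2

theorem g2 [Finite Q] {m : ℕ} (hm : Odd m) (hQ : Nat.card Q = 2 * m) {f : Q → ℤˣ}
    (hf : ∀ x y, f (A.op x y) = f x * f y) (hx : ∃ x, f x = -1) {α : Q → Q}
    (hα : ∀ x y, α (A.op x y) = A.op (α x) (α y)) (hi : Function.Injective α) (y : Q) :
    f (α y) = f y := by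
  have hαe : α A.e = A.e := by
    have h := hα A.e A.e
    rw [A.idl] at h
    apply (A.bijL (α A.e)).1
    show A.op (α A.e) (α A.e) = A.op (α A.e) A.e
    rw [← h, A.idr]
  have hαp : ∀ n, α (pw A y n) = pw A (α y) n := by
    intro n
    induction n with
    | zero => rw [pw_zero, pw_zero, hαe]
    | succ n ih => rw [← op_pw, ← op_pw, hα, ih]
  apply unit_cases
  rw [ker_iff hm hQ hf hx, ker_iff hm hQ hf hx, ← hαp]
  constructor
  · intro h
    exact hi (h.trans hαe.symm)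
  · intro h
    rw [h, hαe]

/-- the centralizer of `k` in the automorphism group of the core -/
noncomputable def Ck (A : AL Q) (k : Perm Q) : Subgroup (Perm Q) := aut A.E ⊓ Subgroup.centralizer {k}

theorem mem_Ck {k g : Perm Q} : g ∈ Ck A k ↔ g ∈ aut A.E ∧ g * k = k * g := by
  unfold Ck
  rw [Subgroup.mem_inf, Subgroup.mem_centralizer_singleton_iff]

theorem Ck_fix {k g : Perm Q} (hg : g ∈ Ck A k) {y : Q} (hy : k y = y) : k (g y) = g y := by
  have h := (mem_Ck.1 hg).2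
  have h1 : (g * k) y = (k * g) y := by rw [h]
  have h2 : g (k y) = k (g y) := h1
  rw [← h2, hy]

noncomputable instance actCk (k : Perm Q) : MulAction (Ck A k) {y : Q // k y = y} where
  smul g y := ⟨g.1 y.1, Ck_fix g.2 y.2⟩
  one_smul y := rfl
  mul_smul g h y := rfl

theorem base_aut {k : Perm Q} (hk : k ∈ Mlt A) {y : Q} (hy : k y = y) :
    (A.L y)⁻¹ * k * A.L y ∈ A.Aut := by
  apply inn_aut (mul_mem (mul_mem (inv_mem (L_Mlt y)) hk) (L_Mlt y))
  show (A.L y)⁻¹ (k (A.L y A.e)) = A.e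
  have h : A.L y A.e = y := A.idr y
  rw [h, hy, Equiv.Perm.inv_eq_iff_eq, h]

theorem tr_k {k : Perm Q} (hk : k ∈ Mlt A) {y y' : Q} (hy : k y = y) (hy' : k y' = y') :
    ∃ g ∈ Mlt A, g * k = k * g ∧ g y = y' := by
  have h0 := base_aut hk hy
  set k' := (A.L y)⁻¹ * k * A.L y with hk'
  set u := (A.L y)⁻¹ y' with hu
  have hku : k' u = u := by
    show (A.L y)⁻¹ (k (A.L y ((A.L y)⁻¹ y'))) = (A.L y)⁻¹ y'
    rw [ai, hy']
  have hL : k' * A.L u = A.L u * k' := by
    rw [AL.aut_L h0, hku]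
  refine ⟨A.L y * A.L u * (A.L y)⁻¹, mul_mem (mul_mem (L_Mlt y) (L_Mlt u)) (inv_mem (L_Mlt y)),
    ?_, ?_⟩
  · have hk2 : k = A.L y * k' * (A.L y)⁻¹ := by rw [hk']; group
    rw [hk2]
    calc A.L y * A.L u * (A.L y)⁻¹ * (A.L y * k' * (A.L y)⁻¹) = A.L y * (A.L u * k') * (A.L y)⁻¹ := by group
      _ = A.L y * k' * (A.L y)⁻¹ * (A.L y * A.L u * (A.L y)⁻¹) := by rw [← hL]; group
  · show A.L y (A.L u ((A.L y)⁻¹ y)) = y'
    have h1 : (A.L y)⁻¹ y = A.e := by
      rw [Equiv.Perm.inv_eq_iff_eq]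
      exact (A.idr y).symm
    have h2 : A.L u A.e = u := A.idr u
    rw [h1, h2, hu, ai]

theorem fix_two [Finite Q] (hinj : Function.Injective A.E) {m : ℕ} (hm : Odd m)
    (hQ : Nat.card Q = 2 * m) {k : Perm Q} (hk : k ∈ Mlt A) {a b : Q} (hab : a ≠ b)
    (hE : A.E a * A.E b = A.E b * A.E a) (ha : k a = a) (hb : k b = b) :
    ∃ c, Odd c ∧ Nat.card {y : Q // k y = y} = 2 * c := by
  classical
  have : Fact (Nat.Prime 2) := ⟨Nat.prime_two⟩
  have htr : MulAction.IsPretransitive (Ck A k) {y : Q // k y = y} := ⟨fun x y => by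
    obtain ⟨g, hg, hgk, hgy⟩ := tr_k hk x.2 y.2
    exact ⟨⟨g, mem_Ck.2 ⟨M_G hg, hgk⟩⟩, Subtype.ext hgy⟩⟩
  have hmem : ∀ y : {y : Q // k y = y}, A.E y.1 ∈ Ck A k := fun y =>
    mem_Ck.2 ⟨E_G _, (E_comm_of (M_G hk) y.2).symm⟩
  let ε : {y : Q // k y = y} → Ck A k := fun y => ⟨A.E y.1, hmem y⟩
  obtain ⟨a', b', ha', hb', hcount⟩ := count (G := Ck A k) (F := {y : Q // k y = y}) ε
    (fun y => Subtype.ext (AL.E_sq y.1))
    (fun g y => Subtype.ext ((mem_Ck.1 g.2).1 y.1)) ⟨a, ha⟩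
  have hP : IsPGroup 2 (Subgroup.closure ({ε ⟨a, ha⟩, ε ⟨b, hb⟩} : Set (Ck A k))) := by
    apply comm_closure
    · rintro _ (rfl | rfl)
      · exact Subtype.ext (AL.E_sq a)
      · exact Subtype.ext (AL.E_sq b)
    · rintro _ (rfl | rfl) _ (rfl | rfl)
      · rfl
      · exact Subtype.ext hE
      · exact Subtype.ext hE.symm
      · rfl
  obtain ⟨S, hS⟩ := hP.exists_le_sylow
  have haS : ε ⟨a, ha⟩ ∈ S := hS (Subgroup.subset_closure (Or.inl rfl))
  have hbS : ε ⟨b, hb⟩ ∈ S := hS (Subgroup.subset_closure (Or.inr rfl))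
  have hB : (S : Subgroup (Ck A k)).map (Ck A k).subtype ≤ aut A.E := by
    rintro _ ⟨g, -, rfl⟩
    exact (mem_Ck.1 g.2).1
  have hBp : IsPGroup 2 ((S : Subgroup (Ck A k)).map (Ck A k).subtype) := S.2.map _
  obtain ⟨p, q, hpq, -, -, hpq2⟩ := edge_of hinj hm hQ hB hBp
  have h1 : ∀ y : {y : Q // k y = y}, ε y ∈ S → y.1 = p ∨ y.1 = q := by
    intro y hy
    exact hpq2 y.1 ⟨ε y, hy, rfl⟩
  have h2 : ({y | ε y ∈ S} : Set {y : Q // k y = y}) = {⟨a, ha⟩, ⟨b, hb⟩} := by
    ext y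
    constructor
    · intro hy
      have h3 := h1 y hy
      have h4 := h1 _ haS
      have h5 := h1 _ hbS
      have : y.1 = a ∨ y.1 = b := by
        rcases h3 with h3 | h3 <;> rcases h4 with h4 | h4 <;> rcases h5 with h5 | h5
        · exact Or.inl (h3.trans h4.symm)
        · exact Or.inl (h3.trans h4.symm)
        · exact Or.inr (h3.trans h5.symm)
        · exact absurd (h4.trans h5.symm) hab
        · exact absurd (h4.trans h5.symm) hab
        · exact Or.inr (h3.trans h5.symm)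
        · exact Or.inl (h3.trans h4.symm)
        · exact Or.inl (h3.trans h4.symm)
      rcases this with h | h
      · exact Or.inl (Subtype.ext h)
      · exact Or.inr (Subtype.ext h)
    · rintro (rfl | rfl)
      · exact haS
      · exact hbS
  have h3 := hcount S
  have h4 : Nat.card {y | ε y ∈ S} = 2 := by
    show ({y | ε y ∈ S} : Set {y : Q // k y = y}).ncard = 2
    rw [h2]
    exact Set.ncard_pair (fun h => hab (congrArg Subtype.val h))
  rw [h4] at h3
  have h5 : Even (Nat.card {y : Q // k y = y} * b') := ⟨a', by rw [← h3]; ring⟩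
  rw [Nat.even_mul] at h5
  rcases h5 with ⟨c, hc⟩ | h5
  · refine ⟨c, ?_, by rw [hc]; ring⟩
    have h6 : a' = c * b' := by
      rw [hc] at h3
      have : 2 * a' = 2 * (c * b') := by rw [h3]; ring
      omega
    rw [h6] at ha'
    exact (Nat.odd_mul.1 ha').1
  · exact absurd h5 (Nat.not_even_iff_odd.2 hb')

end

end Pool.Agent.TH427.AR
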