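import Pool.Agent.TH427.AR.TM3

/-!
Automorphic loops of order twice an odd number: the two halves of a set of fixed points.
-/

set_option autoImplicit false
set_option linter.unusedSectionVars false
set_option linter.unusedVariables false

namespace Pool.Agent.TH427.AR

open Pool.Agent.H687R3.AL
open Pool.Agent.W790.LG (ai ia)
open Equiv (Perm)

section

variable {Q : Type} {A : AL Q}

/-- the assertion for smaller loops -/
def IH (A : AL Q) : Prop :=
  ∀ (F : Type) [Finite F] (B : AL F), Nat.card F < Nat.card Q →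
    (∃ m, Odd m ∧ Nat.card F = 2 * m) → HomP B

theorem halves [Finite Q] (hinj : Function.Injective A.E) {m : ℕ} (hm : Odd m)
    (hQ : Nat.card Q = 2 * m) (ih : IH A) {k : Perm Q} (hk : k ∈ Mlt A) (hk1 : k ≠ 1) {a b : Q}
    (hab : a ≠ b) (hE : A.E a * A.E b = A.E b * A.E a) (ha : k a = a) (hb : k b = b) :
    ∃ φ : Q → ℤˣ,
      (∀ g ∈ Mlt A, g * k = k * g → ∃ σ : ℤˣ, ∀ y, k y = y → φ (g y) = σ * φ y) ∧
      (∀ y y', k y = y → k y' = y' → y ≠ y' → A.E y * A.E y' = A.E y' * A.E y → φ y' = -φ y) := by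
  classical
  have := Fintype.ofFinite Q
  obtain ⟨c, hc, hcard⟩ := fix_two hinj hm hQ hk hab hE ha hb
  have h0 := base_aut hk ha
  set k' := (A.L a)⁻¹ * k * A.L a with hk'
  have hkk : ∀ y, k' ((A.L a)⁻¹ y) = (A.L a)⁻¹ (k y) := by
    intro y
    show (A.L a)⁻¹ (k (A.L a ((A.L a)⁻¹ y))) = _
    rw [ai]
  have hfx : ∀ y, k y = y → k' ((A.L a)⁻¹ y) = (A.L a)⁻¹ y := fun y hy => by rw [hkk, hy]
  obtain ⟨he, hop⟩ := fix_sub h0
  set F : Set Q := {u | k' u = u} with hF
  have hFc : Nat.card F = 2 * c := by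
    rw [← hcard]
    refine Nat.card_congr ⟨fun u => ⟨A.L a u.1, ?_⟩, fun y => ⟨(A.L a)⁻¹ y.1, hfx y.1 y.2⟩, ?_, ?_⟩
    · have h1 : k' u.1 = u.1 := u.2
      have h2 := hkk (A.L a u.1)
      rw [ia, h1] at h2
      exact ((A.L a)⁻¹.injective (h2.symm.trans (by rw [ia])))
    · intro u
      exact Subtype.ext (ia _ _)
    · intro y
      exact Subtype.ext (ai _ _)
  have hlt : Nat.card F < Nat.card Q := by
    have h1 : F ≠ Set.univ := by
      intro h1
      apply hk1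
      ext y
      have h2 : (A.L a)⁻¹ y ∈ F := by rw [h1]; exact Set.mem_univ _
      have h3 : k' ((A.L a)⁻¹ y) = (A.L a)⁻¹ y := h2
      rw [hkk] at h3
      exact (A.L a)⁻¹.injective h3
    have h2 : F.ncard < (Set.univ : Set Q).ncard :=
      Set.ncard_lt_ncard (Set.ssubset_univ_iff.2 h1)
    rwa [Set.ncard_univ] at h2
  obtain ⟨f, hf, hfx1⟩ := ih F (Pool.Agent.W790.LG.sub A F he hop) hlt ⟨c, hc, hFc⟩
  let φ : Q → ℤˣ := fun y => if h : k' ((A.L a)⁻¹ y) = (A.L a)⁻¹ y then f ⟨(A.L a)⁻¹ y, h⟩ else 1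
  have hφ : ∀ y (hy : k y = y), φ y = f ⟨(A.L a)⁻¹ y, hfx y hy⟩ := fun y hy => dif_pos (hfx y hy)
  have hL : ∀ u, k' u = u → k' * A.L u = A.L u * k' := by
    intro u hu
    rw [AL.aut_L h0, hu]
  refine ⟨φ, ?_, ?_⟩
  · intro g hg hgk
    set g' := (A.L a)⁻¹ * g * A.L a with hg'
    have hgM : g' ∈ Mlt A := mul_mem (mul_mem (inv_mem (L_Mlt a)) hg) (L_Mlt a)
    have hgk' : g' * k' = k' * g' := by
      calc g' * k' = (A.L a)⁻¹ * (g * k) * A.L a := by rw [hg', hk']; group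
        _ = k' * g' := by rw [hgk, hg', hk']; group
    have hu0 : k' (g' A.e) = g' A.e := by
      have h1 : (k' * g') A.e = (g' * k') A.e := by rw [hgk']
      have h2 : k' (g' A.e) = g' (k' A.e) := h1
      rw [h2, AL.aut_e h0]
    set u0 := g' A.e with hu0'
    set h := (A.L u0)⁻¹ * g' with hh
    have hhe : h A.e = A.e := by
      show (A.L u0)⁻¹ (g' A.e) = A.e
      rw [Equiv.Perm.inv_eq_iff_eq]
      exact (A.idr u0).symm
    have hha : h ∈ A.Aut := inn_aut (mul_mem (inv_mem (L_Mlt u0)) hgM) hhe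
    have hhk : h * k' = k' * h := by
      have h1 := hL u0 hu0
      calc h * k' = (A.L u0)⁻¹ * (g' * k') := by rw [hh]; group
        _ = (A.L u0)⁻¹ * (k' * A.L u0) * ((A.L u0)⁻¹ * g') := by rw [hgk']; group
        _ = k' * h := by rw [h1, hh]; group
    have hhF : ∀ u, k' u = u → k' (h u) = h u := by
      intro u hu
      have h1 : (k' * h) u = (h * k') u := by rw [hhk]
      have h2 : k' (h u) = h (k' u) := h1
      rw [h2, hu]
    refine ⟨f ⟨u0, hu0⟩, fun y hy => ?_⟩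
    have hgy : k (g y) = g y := by
      have h1 : (k * g) y = (g * k) y := by rw [hgk]
      have h2 : k (g y) = g (k y) := h1
      rw [h2, hy]
    rw [hφ y hy, hφ (g y) hgy]
    have hα := g2 hc hFc hf hfx1 (α := fun u : F => ⟨h u.1, hhF u.1 u.2⟩)
      (fun x y => Subtype.ext (AL.aut_apply hha x.1 y.1))
      (fun x y hxy => Subtype.ext (h.injective (congrArg Subtype.val hxy))) ⟨(A.L a)⁻¹ y, hfx y hy⟩
    have e1 : (⟨(A.L a)⁻¹ (g y), hfx (g y) hgy⟩ : F) =
        (Pool.Agent.W790.LG.sub A F he hop).op ⟨u0, hu0⟩ ⟨h ((A.L a)⁻¹ y), hhF _ (hfx y hy)⟩ := by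
      apply Subtype.ext
      show (A.L a)⁻¹ (g y) = A.L u0 ((A.L u0)⁻¹ ((A.L a)⁻¹ (g (A.L a ((A.L a)⁻¹ y)))))
      rw [ai, ai]
    rw [e1, hf]
    congr 1
  · intro y y' hy hy' hne hEE
    rw [hφ y hy, hφ y' hy']
    set u := (A.L a)⁻¹ y with hu
    have huF : k' u = u := hfx y hy
    set u' := (A.L a)⁻¹ y' with hu'
    have huF' : k' u' = u' := hfx y' hy'
    have hw : k' ((A.L u)⁻¹ u') = (A.L u)⁻¹ u' := by
      have h1 := hL u huF
      have h2 : k' * (A.L u)⁻¹ = (A.L u)⁻¹ * k' := by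
        calc k' * (A.L u)⁻¹ = (A.L u)⁻¹ * (A.L u * k') * (A.L u)⁻¹ := by group
          _ = (A.L u)⁻¹ * k' := by rw [← h1]; group
      have h3 : (k' * (A.L u)⁻¹) u' = ((A.L u)⁻¹ * k') u' := by rw [h2]
      have h4 : k' ((A.L u)⁻¹ u') = (A.L u)⁻¹ (k' u') := h3
      rw [h4, huF']
    set w := (A.L u)⁻¹ u' with hw'
    have hg : A.L a * A.L u ∈ Mlt A := mul_mem (L_Mlt a) (L_Mlt u)
    have hge : (A.L a * A.L u) A.e = y := by
      show A.L a (A.L u A.e) = y
      have h1 : A.L u A.e = u := A.idr u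
      rw [h1, hu, ai]
    have hgw : (A.L a * A.L u) w = y' := by
      show A.L a (A.L u ((A.L u)⁻¹ u')) = y'
      rw [ai, hu', ai]
    have hJw : A.J * A.E w = A.E w * A.J := by
      have h1 := Mlt_E hg A.e
      have h2 := Mlt_E hg w
      rw [hge, AL.E_e] at h1
      rw [hgw] at h2
      rw [← h1, ← h2] at hEE
      have h3 : (A.L a * A.L u) * (A.J * A.E w) * (A.L a * A.L u)⁻¹ =
          (A.L a * A.L u) * (A.E w * A.J) * (A.L a * A.L u)⁻¹ := by
        calc (A.L a * A.L u) * (A.J * A.E w) * (A.L a * A.L u)⁻¹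
            = ((A.L a * A.L u) * A.J * (A.L a * A.L u)⁻¹) *
              ((A.L a * A.L u) * A.E w * (A.L a * A.L u)⁻¹) := by group
          _ = _ := hEE
          _ = _ := by group
      exact mul_left_cancel (mul_right_cancel h3)
    have hJw2 : A.J w = w := fix_of hinj AL.J_mem_aut hJw
    have hww : A.op w w = A.e := by
      have h1 := AL.op_inv (A := A) w
      have h2 : A.inv w = w := hJw2
      rwa [h2] at h1
    have hwe : w ≠ A.e := by
      intro h1
      apply hne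
      rw [← hge, ← hgw, h1]
    have h1 := g1 hc hFc hf hfx1 (y := (⟨w, hw⟩ : F)) (fun h => hwe (congrArg Subtype.val h))
      (Subtype.ext hww)
    have e1 : (⟨u', huF'⟩ : F) =
        (Pool.Agent.W790.LG.sub A F he hop).op ⟨u, huF⟩ ⟨w, hw⟩ := by
      apply Subtype.ext
      show u' = A.L u ((A.L u)⁻¹ u')
      rw [ai]
    have e2 : f ⟨u', huF'⟩ = -f ⟨u, huF⟩ := by
      rw [e1, hf, h1, mul_neg_one]
    exact e2

end

end Pool.Agent.TH427.AR
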