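import Pool.Agent.TH427.AR.TM4

/-!
Automorphic loops of order twice an odd number: no element with a fixed point reverses an edge.
-/

set_option autoImplicit false
set_option linter.unusedSectionVars false
set_option linter.unusedVariables false

namespace Pool.Agent.TH427.AR

open Pool.Agent.H687R3.AL
open Pool.Agent.W790.LG (ai ia)
open Equiv (Perm)

section

variable {Q : Type} {A : AL Q}

structure Ctx (A : AL Q) (m : ℕ) : Prop where
  inj : Function.Injective A.E
  odd : Odd m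
  card : Nat.card Q = 2 * m
  ih : IH A

theorem pow_fix {g : Perm Q} {y : Q} (h : g y = y) (n : ℕ) : (g ^ n) y = y := by
  induction n with
  | zero => rfl
  | succ n ih =>
    rw [pow_succ]
    show (g ^ n) (g y) = y
    rw [h, ih]

theorem une (u : ℤˣ) : u ≠ -u := by
  rcases Int.units_eq_one_or u with h | h <;> rw [h] <;> decide

theorem sig_neg {u σ : ℤˣ} (h : σ * u = -u) : σ = -1 := by
  rcases Int.units_eq_one_or σ with h1 | h1
  · rw [h1, one_mul] at h
    exact absurd h (une u)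
  · exact h1

theorem swap_no_fix [Finite Q] {m : ℕ} (C : Ctx A m) {k : Perm Q} (hk : k ∈ Mlt A) (hk1 : k ≠ 1)
    {a b : Q} (hab : a ≠ b) (hE : A.E a * A.E b = A.E b * A.E a) (ha : k a = a) (hb : k b = b)
    {s : Perm Q} (hs : s ∈ Mlt A) (hsk : s * k = k * s) (hsa : s a = b) {y : Q} (hy : k y = y) :
    s y ≠ y := by
  intro hsy
  obtain ⟨φ, h1, h2⟩ := halves C.inj C.odd C.card C.ih hk hk1 hab hE ha hb
  obtain ⟨σ, hσ⟩ := h1 s hs hsk
  have h3 := hσ a ha
  rw [hsa, h2 a b ha hb hab hE] at h3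
  have h4 := sig_neg h3.symm
  have h5 := hσ y hy
  rw [hsy, h4, neg_one_mul] at h5
  exact une _ h5

theorem invol_fix [Finite Q] {m : ℕ} (C : Ctx A m) {t : Perm Q} (ht : t ∈ Mlt A)
    {a b : Q} (hab : a ≠ b) (hE : A.E a * A.E b = A.E b * A.E a) (ha : t a = a) (hb : t b = b)
    {φ : Q → ℤˣ} {z : Perm Q} (hzt : z * t = t * z) (hz : ∀ y, t y = y → φ (z y) = -1 * φ y)
    {r : Perm Q} (hr2 : r * r = 1) (hrt : r * t = t * r) (hr : ∀ y, t y = y → φ (r y) = φ y) :
    ∃ y, t y = y ∧ r y = y := by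
  classical
  obtain ⟨c, hc, hcard⟩ := fix_two C.inj C.odd C.card ht hab hE ha hb
  have hfix : ∀ {g : Perm Q}, g * t = t * g → ∀ y, t y = y → t (g y) = g y := by
    intro g hg y hy
    have h1 : (t * g) y = (g * t) y := by rw [hg]
    have h2 : t (g y) = g (t y) := h1
    rw [h2, hy]
  set F : Set Q := {y | t y = y ∧ φ y = 1} with hF
  have hsplit : {y | t y = y} \ F = z '' F := by
    ext y
    constructor
    · rintro ⟨hy, hyF⟩
      have hy' : t y = y := hy
      have hzi : z⁻¹ * t = t * z⁻¹ := by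
        calc z⁻¹ * t = z⁻¹ * (t * z) * z⁻¹ := by group
          _ = t * z⁻¹ := by rw [← hzt]; group
      have h3 : t (z⁻¹ y) = z⁻¹ y := hfix hzi y hy'
      refine ⟨z⁻¹ y, ⟨h3, ?_⟩, ai _ _⟩
      have h4 := hz _ h3
      rw [ai] at h4
      have h5 : φ y ≠ 1 := fun h => hyF ⟨hy', h⟩
      have h6 : φ y = -1 := (Int.units_eq_one_or _).resolve_left h5
      rw [h6, neg_one_mul] at h4
      exact (neg_injective h4).symm
    · rintro ⟨w, ⟨hw, hw1⟩, rfl⟩
      refine ⟨hfix hzt w hw, ?_⟩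
      rintro ⟨-, h3⟩
      rw [hz w hw, hw1] at h3
      exact absurd h3 (by decide)
  have hsub : F ⊆ {y | t y = y} := fun y hy => hy.1
  have h1 := Set.ncard_sdiff_add_ncard_of_subset hsub
  rw [hsplit, Set.ncard_image_of_injective _ z.injective] at h1
  have h2 : ({y | t y = y} : Set Q).ncard = 2 * c := hcard
  rw [h2] at h1
  have h3 : F.ncard = c := by omega
  have h4 := exists_fix Nat.prime_two (g := r) (by rw [pow_two, hr2]) F (fun y hy =>
    ⟨hfix hrt y hy.1, by rw [hr y hy.1, hy.2]⟩)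
  have h5 : Nat.card F = c := h3
  rw [h5] at h4
  have h6 : Nat.card {x | x ∈ F ∧ r x = x} ≠ 0 := by
    intro h0
    rw [h0] at h4
    have h7 : c % 2 = 0 := h4
    have h8 := Nat.odd_iff.1 hc
    omega
  have h7 : Nonempty {x | x ∈ F ∧ r x = x} := by
    by_contra hcon
    rw [not_nonempty_iff] at hcon
    exact h6 Nat.card_of_isEmpty
  obtain ⟨y, hy, hry⟩ := h7
  exact ⟨y, hy.1, hry⟩

theorem c_nofix [Finite Q] {m : ℕ} (C : Ctx A m) {x : Q} (hx : x ≠ A.e) (hinv : A.J x = x)
    {d : ℕ} (hd : Odd d) (hc1 : A.R x ^ d ≠ 1) (y : Q) : (A.R x ^ d) y ≠ y := by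
  intro hy
  have hRM : A.R x ∈ Mlt A := R_Mlt x
  have hcR : A.R x * A.R x ^ d = A.R x ^ d * A.R x := ((Commute.refl (A.R x)).pow_right d).eq
  have hfix : ∀ z, (A.R x ^ d) z = z → (A.R x ^ d) (A.R x z) = A.R x z := by
    intro z hz
    have h1 : (A.R x * A.R x ^ d) z = (A.R x ^ d * A.R x) z := by rw [hcR]
    have h2 : A.R x ((A.R x ^ d) z) = (A.R x ^ d) (A.R x z) := h1
    rw [← h2, hz]
  have hne : y ≠ A.R x y := by
    intro h1
    apply hx
    have h9 : A.op y x = A.op y A.e := by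
      rw [A.idr]; exact h1.symm
    exact (A.bijL y).1 h9
  have hJ : A.J * A.E x = A.E x * A.J := E_comm_of AL.J_mem_aut hinv
  have hE : A.E y * A.E (A.R x y) = A.E (A.R x y) * A.E y := by
    have h1 : A.E y = A.L y * A.J * (A.L y)⁻¹ := rfl
    have h2 : A.R x y = A.L y x := rfl
    rw [h2, ← Mlt_E (L_Mlt y), h1]
    calc A.L y * A.J * (A.L y)⁻¹ * (A.L y * A.E x * (A.L y)⁻¹)
        = A.L y * (A.J * A.E x) * (A.L y)⁻¹ := by group
      _ = A.L y * A.E x * (A.L y)⁻¹ * (A.L y * A.J * (A.L y)⁻¹) := by rw [hJ]; group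
  obtain ⟨φ, h1, h2⟩ := halves C.inj C.odd C.card C.ih (pow_mem hRM d) hc1 hne hE hy (hfix y hy)
  obtain ⟨σ, hσ⟩ := h1 (A.R x) hRM hcR
  have h3 := hσ y hy
  rw [h2 y _ hy (hfix y hy) hne hE] at h3
  have h4 := sig_neg h3.symm
  have h5 : ∀ n, (A.R x ^ d) ((A.R x ^ n) y) = (A.R x ^ n) y ∧ φ ((A.R x ^ n) y) = (-1) ^ n * φ y := by
    intro n
    induction n with
    | zero => exact ⟨hy, by rw [pow_zero, pow_zero, one_mul]; rfl⟩
    | succ n ih =>
      have e : (A.R x ^ (n + 1)) y = A.R x ((A.R x ^ n) y) := by rw [pow_succ']; rfl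
      rw [e]
      refine ⟨hfix _ ih.1, ?_⟩
      rw [hσ _ ih.1, ih.2, h4, pow_succ', mul_assoc]
  have h6 := (h5 d).2
  rw [hy, hd.neg_one_pow, neg_one_mul] at h6
  exact une _ h6

/-- the second part of the argument -/
theorem no_cfg [Finite Q] {m : ℕ} (C : Ctx A m) {t : Perm Q} (ht : t ∈ Mlt A) (ht1 : t ≠ 1)
    (htt : t * t = 1) {a b : Q} (hab : a ≠ b) (hE : A.E a * A.E b = A.E b * A.E a)
    (ha : t a = a) (hb : t b = b) {z : Perm Q} (hz : z ∈ Mlt A) (hzt : z * t = t * z)
    (hza : z a = b) {p q : Q} (hpq : p ≠ q) (hpqE : A.E p * A.E q = A.E q * A.E p)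
    (hp : t p = q) (hq : t q = p) : False := by
  obtain ⟨φ, h1, h2⟩ := halves C.inj C.odd C.card C.ih ht ht1 hab hE ha hb
  have hz1 : ∀ y, t y = y → φ (z y) = -1 * φ y := by
    obtain ⟨σ, hσ⟩ := h1 z hz hzt
    have h3 := hσ a ha
    rw [hza, h2 a b ha hb hab hE] at h3
    have h4 := sig_neg h3.symm
    rw [h4] at hσ
    exact hσ
  have hC1 : ∀ r ∈ Mlt A, r * r = 1 → r * t = t * r → r p = p → r q = q →
      (∀ y, t y = y → φ (r y) = φ y) → r = 1 := by
    intro r hr hr2 hrt hrp hrq hrφ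
    by_contra hr1
    obtain ⟨y, hty, hry⟩ := invol_fix C ht hab hE ha hb hzt hz1 hr2 hrt hrφ
    exact swap_no_fix C hr hr1 hpq hpqE hrp hrq ht hrt.symm hp hry hty
  -- the element `x`
  have hLp : A.L p A.e = p := A.idr p
  obtain ⟨x, hxq⟩ : ∃ x, A.L p x = q := ⟨(A.L p)⁻¹ q, ai _ _⟩
  have hxe : x ≠ A.e := by
    intro h
    rw [h, hLp] at hxq
    exact hpq hxq
  have hJx : A.J x = x := by
    apply fix_of C.inj AL.J_mem_aut
    have e1 := Mlt_E (L_Mlt (A := A) p) A.e
    have e2 := Mlt_E (L_Mlt (A := A) p) x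
    rw [hLp, AL.E_e] at e1
    rw [hxq] at e2
    rw [← e1, ← e2] at hpqE
    have h3 : A.L p * (A.J * A.E x) * (A.L p)⁻¹ = A.L p * (A.E x * A.J) * (A.L p)⁻¹ := by
      calc A.L p * (A.J * A.E x) * (A.L p)⁻¹
          = (A.L p * A.J * (A.L p)⁻¹) * (A.L p * A.E x * (A.L p)⁻¹) := by group
        _ = _ := hpqE
        _ = _ := by group
    exact mul_left_cancel (mul_right_cancel h3)
  have hx2 : pw A x 2 = A.e := by
    have h3 := AL.op_inv (A := A) x
    have h4 : A.inv x = x := hJx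
    rw [h4] at h3
    rw [← op_pw, pw_one, h3]
  obtain ⟨k0, d, hd, hkd⟩ := Nat.exists_eq_two_pow_mul_odd (orderOf_pos (A.R x)).ne'
  have hck : (A.R x ^ d) ^ 2 ^ k0 = 1 := by
    rw [← pow_mul, mul_comm, ← hkd, pow_orderOf_eq_one]
  have hce : (A.R x ^ d) A.e = x := by
    obtain ⟨n, hn⟩ := hd
    rw [R_pow_e, hn, ← pw_add, ← pw_mul, hx2, pw_e, A.idl, pw_one]
  have hcx : (A.R x ^ d) x = A.e := by
    obtain ⟨n, hn⟩ := hd
    have hRe : A.R x A.e = x := A.idl x
    have h3 : (A.R x ^ d) x = (A.R x ^ (d + 1)) A.e := by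
      rw [pow_succ]
      show (A.R x ^ d) x = (A.R x ^ d) (A.R x A.e)
      rw [hRe]
    have h4 : d + 1 = 2 * (n + 1) := by omega
    rw [h3, R_pow_e, h4, ← pw_mul, hx2, pw_e]
  have hc1 : A.R x ^ d ≠ 1 := by
    intro h
    rw [h] at hce
    exact hxe hce.symm
  have hnf := c_nofix C hxe hJx hd hc1
  set c := A.L p * (A.R x ^ d) * (A.L p)⁻¹ with hc
  have hcM : c ∈ Mlt A := mul_mem (mul_mem (L_Mlt p) (pow_mem (R_Mlt x) d)) (inv_mem (L_Mlt p))
  have hLpi : (A.L p)⁻¹ p = A.e := by rw [Equiv.Perm.inv_eq_iff_eq, hLp]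
  have hLqi : (A.L p)⁻¹ q = x := by rw [Equiv.Perm.inv_eq_iff_eq, hxq]
  have hcp : c p = q := by
    show A.L p ((A.R x ^ d) ((A.L p)⁻¹ p)) = q
    rw [hLpi, hce, hxq]
  have hcq : c q = p := by
    show A.L p ((A.R x ^ d) ((A.L p)⁻¹ q)) = p
    rw [hLqi, hcx, hLp]
  have hcnf : ∀ y, c y ≠ y := by
    intro y hy
    have h3 : A.L p ((A.R x ^ d) ((A.L p)⁻¹ y)) = y := hy
    apply hnf ((A.L p)⁻¹ y)
    apply (A.L p).injective
    rw [h3, ai]
  have hcc : ∀ r ∈ Mlt A, r p = p → r q = q → c * r = r * c := by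
    intro r hr hrp hrq
    have h3 := base_aut hr hrp
    have h4 : ((A.L p)⁻¹ * r * A.L p) x = x := by
      show (A.L p)⁻¹ (r (A.L p x)) = x
      rw [hxq, hrq, hLqi]
    have h5 : Commute ((A.L p)⁻¹ * r * A.L p) (A.R x) := by
      have := AL.aut_R h3 x
      rw [h4] at this
      exact this
    have h6 := (h5.pow_right d).eq
    calc c * r = A.L p * ((A.R x ^ d) * ((A.L p)⁻¹ * r * A.L p)) * (A.L p)⁻¹ := by rw [hc]; group
      _ = r * c := by rw [← h6, hc]; group
  have hck' : c ^ 2 ^ k0 = 1 := by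
    rw [hc, conj_pow, hck]; group
  set h := c⁻¹ * t with hh
  have hhM : h ∈ Mlt A := mul_mem (inv_mem hcM) ht
  have hhp : h p = p := by
    show c⁻¹ (t p) = p
    rw [hp, Equiv.Perm.inv_eq_iff_eq, hcp]
  have hhq : h q = q := by
    show c⁻¹ (t q) = q
    rw [hq, Equiv.Perm.inv_eq_iff_eq, hcq]
  have hch := hcc h hhM hhp hhq
  have htch : t = c * h := by rw [hh]; group
  have hht : h * t = t * h := by
    rw [htch]
    calc h * (c * h) = (h * c) * h := by group
      _ = c * h * h := by rw [← hch]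
  have hhN : h ^ 2 ^ (k0 + 1) = 1 := by
    have hct : Commute c⁻¹ t := by
      apply Commute.inv_left
      show c * t = t * c
      rw [htch]
      calc c * (c * h) = c * (h * c) := by rw [hch]
        _ = c * h * c := by group
    rw [hh, hct.mul_pow, inv_pow, pow_succ, pow_mul, hck', one_pow, inv_one, one_mul, mul_comm,
      pow_mul, pow_two, htt, one_pow]
  have hsq : ∀ g ∈ Mlt A, g * t = t * g → ∀ y, t y = y → φ ((g * g) y) = φ y := by
    intro g hg hgt y hy
    obtain ⟨σ, hσ⟩ := h1 g hg hgt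
    have h3 : t (g y) = g y := by
      have h4 : (t * g) y = (g * t) y := by rw [hgt]
      have h5 : t (g y) = g (t y) := h4
      rw [h5, hy]
    show φ (g (g y)) = φ y
    rw [hσ _ h3, hσ y hy, ← mul_assoc, Int.units_mul_self, one_mul]
  have hh2 : h * h = 1 := by
    obtain ⟨i, hi, hord⟩ := (Nat.dvd_prime_pow Nat.prime_two).1 (orderOf_dvd_of_pow_eq_one hhN)
    rcases i with _ | _ | i
    · rw [pow_zero, orderOf_eq_one_iff] at hord
      rw [hord, one_mul]
    · have := pow_orderOf_eq_one h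
      rw [hord] at this
      rw [← pow_two]
      exact this
    · exfalso
      have hgt : ∀ n : ℕ, h ^ n * t = t * h ^ n := fun n =>
        ((show Commute h t from hht).pow_left n).eq
      have e1 : h ^ 2 ^ (i + 1) = h ^ 2 ^ i * h ^ 2 ^ i := by
        rw [← pow_add]; congr 1; ring
      have h3 := hC1 (h ^ 2 ^ (i + 1)) (pow_mem hhM _) (by
        rw [← pow_add, ← two_mul, ← pow_succ', ← hord, pow_orderOf_eq_one]) (hgt _) (pow_fix hhp _) (pow_fix hhq _) (fun y hy => by
        rw [e1]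
        exact hsq _ (pow_mem hhM _) (hgt _) y hy)
      have h4 := orderOf_dvd_of_pow_eq_one h3
      rw [hord] at h4
      have h5 := Nat.le_of_dvd (by positivity) h4
      have h6 : 2 ^ (i + 1 + 1) = 2 * 2 ^ (i + 1) := by ring
      have h7 : 0 < 2 ^ (i + 1) := by positivity
      omega
  obtain ⟨σ, hσ⟩ := h1 h hhM hht
  rcases Int.units_eq_one_or σ with hs | hs
  · have h3 := hC1 h hhM hh2 hht hhp hhq (fun y hy => by rw [hσ y hy, hs, one_mul])
    rw [h3, mul_one] at htch
    rw [htch] at ha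
    exact hcnf a ha
  · obtain ⟨t1, ht1'⟩ : ∃ t1, t1 = A.E p * A.E q := ⟨_, rfl⟩
    have hEp := AL.E_sq (A := A) p
    have hEq := AL.E_sq (A := A) q
    have h1M : t1 ∈ Mlt A := by
      have e : t1 = (A.E p * A.J) * (A.E q * A.J)⁻¹ := by
        have e1 : (A.E q * A.J)⁻¹ = A.J * A.E q := by
          rw [mul_inv_rev, AL.J_inv, inv_eq_of_mul_eq_one_left hEq]
        rw [e1]
        calc t1 = A.E p * A.E q := ht1'
          _ = A.E p * (A.J * A.J) * A.E q := by rw [AL.J_sq]; group
          _ = _ := by group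
      rw [e]
      exact mul_mem (EJ_Mlt p) (inv_mem (EJ_Mlt q))
    have h1sq : t1 * t1 = 1 := by
      calc t1 * t1 = A.E p * (A.E q * A.E p) * A.E q := by rw [ht1']; group
        _ = (A.E p * A.E p) * (A.E q * A.E q) := by rw [← hpqE]; group
        _ = 1 := by rw [hEp, hEq, mul_one]
    have h11 : t1 ≠ 1 := by
      intro h3
      apply hpq
      apply C.inj
      calc A.E p = A.E p * A.E q * A.E q := by rw [mul_assoc, hEq, mul_one]
        _ = A.E q := by rw [← ht1', h3, one_mul]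
    have h1p : t1 p = p := by
      rw [ht1']
      show A.E p (A.E q p) = p
      rw [E_fix C.inj hpqE.symm, E_self]
    have h1q : t1 q = q := by
      rw [ht1']
      show A.E p (A.E q q) = q
      rw [E_self, E_fix C.inj hpqE]
    have htG := M_G ht
    have htEp : t * A.E p = A.E q * t := by
      have := htG p
      rw [hp] at this
      rw [← this]; group
    have htEq : t * A.E q = A.E p * t := by
      have := htG q
      rw [hq] at this
      rw [← this]; group
    have h1t : t1 * t = t * t1 := by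
      calc t1 * t = A.E p * (A.E q * t) := by rw [ht1']; group
        _ = (A.E p * t) * A.E p := by rw [← htEp]; group
        _ = t * (A.E q * A.E p) := by rw [← htEq]; group
        _ = t * t1 := by rw [← hpqE, ht1']
    obtain ⟨σ', hσ'⟩ := h1 t1 h1M h1t
    rcases Int.units_eq_one_or σ' with hs' | hs'
    · exact h11 (hC1 t1 h1M h1sq h1t h1p h1q (fun y hy => by rw [hσ' y hy, hs', one_mul]))
    · have hhE : h * t1 = t1 * h := by
        have e1 := E_comm_of (M_G hhM) hhp
        have e2 := E_comm_of (M_G hhM) hhq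
        calc h * t1 = (h * A.E p) * A.E q := by rw [ht1']; group
          _ = A.E p * (h * A.E q) := by rw [e1]; group
          _ = t1 * h := by rw [e2, ht1']; group
      have hfix1 : ∀ y, t y = y → t (t1 y) = t1 y := by
        intro y hy
        have h4 : (t * t1) y = (t1 * t) y := by rw [h1t]
        have h5 : t (t1 y) = t1 (t y) := h4
        rw [h5, hy]
      have h3 := hC1 (h * t1) (mul_mem hhM h1M) (by
        calc h * t1 * (h * t1) = h * (t1 * h) * t1 := by group
          _ = (h * h) * (t1 * t1) := by rw [← hhE]; group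
          _ = 1 := by rw [hh2, h1sq, mul_one]) (by
        calc h * t1 * t = h * (t1 * t) := by group
          _ = (h * t) * t1 := by rw [h1t]; group
          _ = t * (h * t1) := by rw [hht]; group) (by
        show h (t1 p) = p
        rw [h1p, hhp]) (by
        show h (t1 q) = q
        rw [h1q, hhq]) (fun y hy => by
        show φ (h (t1 y)) = φ y
        rw [hσ _ (hfix1 y hy), hσ' y hy, hs, hs', ← mul_assoc, Int.units_mul_self, one_mul])
      have hht1 : h = t1 := by
        calc h = (h * t1) * t1 := by rw [mul_assoc, h1sq, mul_one]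
          _ = t1 := by rw [h3, one_mul]
      have hct : c = t * t1 := by
        calc c = (c * h) * h := by rw [mul_assoc, hh2, mul_one]
          _ = t * t1 := by rw [← htch, hht1]
      apply hcnf (A.E p a)
      have e3 : t * t1 * A.E p = A.E p * t := by
        calc t * t1 * A.E p = t * (A.E p * A.E q) * A.E p := by rw [ht1']
          _ = t * A.E q * (A.E p * A.E p) := by rw [hpqE]; group
          _ = A.E p * t := by rw [hEp, mul_one, htEq]
      have e4 : (t * t1 * A.E p) a = (A.E p * t) a := by rw [e3]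
      have e5 : (t * t1) (A.E p a) = A.E p (t a) := e4
      rw [hct, e5, ha]

end

end Pool.Agent.TH427.AR
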