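import Pool.Agent.TH427.AR.TM5

/-!
Automorphic loops of order twice an odd number: the transfer argument.
-/

set_option autoImplicit false
set_option linter.unusedSectionVars false
set_option linter.unusedVariables false

namespace Pool.Agent.TH427.AR

open Pool.Agent.H687R3.AL
open Pool.Agent.W790.LG (ai ia)
open Equiv (Perm)

section

theorem tr_one {M : Type} [Group M] [Finite M] {D : Subgroup M} (ϕ : D →* ℤˣ) (h : M)
    (hyp : ∀ (g : M) (n : ℕ) (hm : g⁻¹ * h ^ n * g ∈ D), ϕ ⟨_, hm⟩ = 1) :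
    MonoidHom.transfer ϕ h = 1 := by
  classical
  have : Fintype (Quotient (MulAction.orbitRel (Subgroup.zpowers h) (M ⧸ D))) :=
    Fintype.ofFinite _
  rw [MonoidHom.transfer_eq_prod_quotient_orbitRel_zpowers_quot]
  exact Finset.prod_eq_one fun q _ => hyp _ _ _

theorem tr_neg {M : Type} [Group M] [Finite M] {D : Subgroup M} (ϕ : D →* ℤˣ) (c : M) {k : ℕ}
    (hk : c ^ 2 ^ k = 1) (hD : Odd D.index)
    (h1 : ∀ (g : M) (hm : g⁻¹ * c * g ∈ D), ϕ ⟨_, hm⟩ = -1)
    (h2 : ∀ (g : M) (n : ℕ) (hn : Even n) (hm : g⁻¹ * c ^ n * g ∈ D), ϕ ⟨_, hm⟩ = 1) :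
    MonoidHom.transfer ϕ c = -1 := by
  classical
  have : Fintype (Quotient (MulAction.orbitRel (Subgroup.zpowers c) (M ⧸ D))) :=
    Fintype.ofFinite _
  rw [MonoidHom.transfer_eq_prod_quotient_orbitRel_zpowers_quot]
  have h3 := Subgroup.index_eq_sum_minimalPeriod D c
  rw [← hD.neg_one_pow, h3, ← Finset.prod_pow_eq_pow_sum]
  refine Finset.prod_congr rfl fun q _ => ?_
  have hdvd : Function.minimalPeriod (c • ·) q.out ∣ 2 ^ k := by
    apply Function.IsPeriodicPt.minimalPeriod_dvd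
    show (c • ·)^[2 ^ k] q.out = q.out
    rw [smul_iterate_apply, hk, one_smul]
  obtain ⟨i, hi, hi2⟩ := (Nat.dvd_prime_pow Nat.prime_two).1 hdvd
  rcases Nat.eq_zero_or_pos i with h0 | h0
  · have h4 : Function.minimalPeriod (c • ·) q.out = 1 := by rw [hi2, h0, pow_zero]
    refine Eq.trans ?_ (show (-1 : ℤˣ) = (-1) ^ Function.minimalPeriod (c • ·) q.out by
      rw [h4, pow_one])
    have h5 : q.out.out⁻¹ * c * q.out.out ∈ D := by
      have := QuotientGroup.out_conj_pow_minimalPeriod_mem D c q.out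
      rw [h4, pow_one] at this
      exact this
    rw [← h1 q.out.out h5]
    congr 1
    apply Subtype.ext
    show q.out.out⁻¹ * c ^ Function.minimalPeriod (c • ·) q.out * q.out.out = _
    rw [h4, pow_one]
  · have h4 : Even (Function.minimalPeriod (c • ·) q.out) := by
      rw [hi2]
      exact (Nat.even_pow.2 ⟨even_two, h0.ne'⟩)
    exact (h2 _ _ h4 _).trans h4.neg_one_pow.symm

variable {Q : Type} {A : AL Q}

/-- from the homomorphism on the multiplication group to the one on the loop -/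
theorem homP_of [Finite Q] (τ : Mlt A →* ℤˣ) (h1 : ∀ h : Mlt A, h.1 A.e = A.e → τ h = 1)
    {c : Mlt A} (hc : τ c = -1) : HomP A := by
  have hL : ∀ g : Mlt A, τ g = τ ⟨A.L (g.1 A.e), L_Mlt _⟩ := by
    intro g
    have h2 := h1 (⟨A.L (g.1 A.e), L_Mlt _⟩⁻¹ * g) (by
      show (A.L (g.1 A.e))⁻¹ (g.1 A.e) = A.e
      rw [Equiv.Perm.inv_eq_iff_eq]
      exact (A.idr _).symm)
    rw [map_mul, map_inv, inv_mul_eq_one] at h2
    exact h2.symm
  refine ⟨fun y => τ ⟨A.L y, L_Mlt y⟩, fun x y => ?_, c.1 A.e, ?_⟩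
  · have h2 := hL (⟨A.L x, L_Mlt x⟩ * ⟨A.L y, L_Mlt y⟩)
    rw [map_mul] at h2
    rw [h2]
    have h3 : A.L y A.e = y := A.idr y
    have h4 : A.op x y = A.L x (A.L y A.e) := by rw [h3]; rfl
    congr 1
  · show τ ⟨A.L (c.1 A.e), L_Mlt _⟩ = -1
    rw [← hL, hc]

/-- no element with a fixed point reverses an edge -/
theorem no_rev [Finite Q] {m : ℕ} (C : Ctx A m) {z : Perm Q} (hz : z ∈ Mlt A)
    {a b : Q} (hab : a ≠ b) (hE : A.E a * A.E b = A.E b * A.E a) (hza : z a = b) (hzb : z b = a)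
    {y : Q} (hy : z y = y) : False := by
  classical
  have : Fact (Nat.Prime 2) := ⟨Nat.prime_two⟩
  have hEa := AL.E_sq (A := A) a
  have hEb := AL.E_sq (A := A) b
  obtain ⟨t, htd⟩ : ∃ t, t = A.E a * A.E b := ⟨_, rfl⟩
  have htM : t ∈ Mlt A := by
    have e : t = (A.E a * A.J) * (A.E b * A.J)⁻¹ := by
      have e1 : (A.E b * A.J)⁻¹ = A.J * A.E b := by
        rw [mul_inv_rev, AL.J_inv, inv_eq_of_mul_eq_one_left hEb]
      rw [e1]
      calc t = A.E a * A.E b := htd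
        _ = A.E a * (A.J * A.J) * A.E b := by rw [AL.J_sq]; group
        _ = _ := by group
    rw [e]
    exact mul_mem (EJ_Mlt a) (inv_mem (EJ_Mlt b))
  have htt : t * t = 1 := by
    calc t * t = A.E a * (A.E b * A.E a) * A.E b := by rw [htd]; group
      _ = (A.E a * A.E a) * (A.E b * A.E b) := by rw [← hE]; group
      _ = 1 := by rw [hEa, hEb, mul_one]
  have ht1 : t ≠ 1 := by
    intro h3
    apply hab
    apply C.inj
    calc A.E a = A.E a * A.E b * A.E b := by rw [mul_assoc, hEb, mul_one]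
      _ = A.E b := by rw [← htd, h3, one_mul]
  have hta : t a = a := by
    rw [htd]
    show A.E a (A.E b a) = a
    rw [E_fix C.inj hE.symm, E_self]
  have htb : t b = b := by
    rw [htd]
    show A.E a (A.E b b) = b
    rw [E_self, E_fix C.inj hE]
  have hzG := M_G hz
  have hzEa : z * A.E a = A.E b * z := by
    have := hzG a
    rw [hza] at this
    rw [← this]; group
  have hzEb : z * A.E b = A.E a * z := by
    have := hzG b
    rw [hzb] at this
    rw [← this]; group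
  have hzt : z * t = t * z := by
    calc z * t = (z * A.E a) * A.E b := by rw [htd]; group
      _ = A.E b * (z * A.E b) := by rw [hzEa]; group
      _ = (A.E b * A.E a) * z := by rw [hzEb]; group
      _ = t * z := by rw [← hE, htd]
  have hA : ∀ y, t y = y → z y ≠ y := fun y hy =>
    swap_no_fix C htM ht1 hab hE hta htb hz hzt hza hy
  -- a Sylow 2-subgroup of the centralizer of `z`
  have htZ : t ∈ Ck A z := mem_Ck.2 ⟨M_G htM, hzt.symm⟩
  have hyZ : A.E y ∈ Ck A z := mem_Ck.2 ⟨E_G y, (E_comm_of hzG hy).symm⟩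
  obtain ⟨S, hS⟩ := (zp_two (g := (⟨t, htZ⟩ : Ck A z)) (Subtype.ext htt)).exists_le_sylow
  obtain ⟨S', hS'⟩ := (zp_two (g := (⟨A.E y, hyZ⟩ : Ck A z))
    (Subtype.ext (AL.E_sq y))).exists_le_sylow
  have htS : (⟨t, htZ⟩ : Ck A z) ∈ S := hS (Subgroup.mem_zpowers _)
  have hyS : (⟨A.E y, hyZ⟩ : Ck A z) ∈ S' := hS' (Subgroup.mem_zpowers _)
  obtain ⟨g, hg⟩ := MulAction.exists_smul_eq (Ck A z) S' S
  have hgy : z (g.1 y) = g.1 y := Ck_fix g.2 hy
  have hB : (S : Subgroup (Ck A z)).map (Ck A z).subtype ≤ aut A.E := by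
    rintro _ ⟨g, -, rfl⟩
    exact (mem_Ck.1 g.2).1
  have hBp : IsPGroup 2 ((S : Subgroup (Ck A z)).map (Ck A z).subtype) := S.2.map _
  obtain ⟨p, q, hpq, hpqE, hact, hmem⟩ := edge_of C.inj C.odd C.card hB hBp
  have hyB : A.E (g.1 y) ∈ (S : Subgroup (Ck A z)).map (Ck A z).subtype := by
    have h1 : g * ⟨A.E y, hyZ⟩ * g⁻¹ ∈ g • S' := ⟨_, hyS, rfl⟩
    rw [hg] at h1
    exact ⟨_, h1, (mem_Ck.1 g.2).1 y⟩
  have h1 := hmem _ hyB
  rcases hact t ⟨_, htS, rfl⟩ with ⟨h2, h3⟩ | ⟨h2, h3⟩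
  · rcases h1 with h1 | h1
    · exact hA _ (h1 ▸ h2) hgy
    · exact hA _ (h1 ▸ h3) hgy
  · exact no_cfg C htM ht1 htt hab hE hta htb hz hzt hza hpq hpqE h2 h3

end

end Pool.Agent.TH427.AR
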