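import Pool.Agent.TH427.AR.TM6

/-!
Automorphic loops of order twice an odd number: the case where the core involutions are distinct.
-/

set_option autoImplicit false
set_option linter.unusedSectionVars false
set_option linter.unusedVariables false

namespace Pool.Agent.TH427.AR

open Pool.Agent.H687R3.AL
open Pool.Agent.W790.LG (ai ia)
open Equiv (Perm)

section

variable {Q : Type} {A : AL Q}

theorem exists_c [Finite Q] {m : ℕ} (C : Ctx A m) {p q : Q} (hpq : p ≠ q)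
    (hpqE : A.E p * A.E q = A.E q * A.E p) :
    ∃ c ∈ Mlt A, ∃ k0 : ℕ, c ^ 2 ^ k0 = 1 ∧ c p = q ∧ c q = p ∧ ∀ y, c y ≠ y := by
  have hLp : A.L p A.e = p := A.idr p
  obtain ⟨x, hxq⟩ : ∃ x, A.L p x = q := ⟨(A.L p)⁻¹ q, ai _ _⟩
  have hxe : x ≠ A.e := by
    intro h
    rw [h, hLp] at hxq
    exact hpq hxq
  have hJx : A.J x = x := by
    apply fix_of C.inj AL.J_mem_aut
    have e1 := Mlt_E (L_Mlt (A := A) p) A.e
    have e2 := Mlt_E (L_Mlt (A := A) p) x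
    rw [hLp, AL.E_e] at e1
    rw [hxq] at e2
    rw [← e1, ← e2] at hpqE
    have h3 : A.L p * (A.J * A.E x) * (A.L p)⁻¹ = A.L p * (A.E x * A.J) * (A.L p)⁻¹ := by
      calc A.L p * (A.J * A.E x) * (A.L p)⁻¹
          = (A.L p * A.J * (A.L p)⁻¹) * (A.L p * A.E x * (A.L p)⁻¹) := by group
        _ = _ := hpqE
        _ = _ := by group
    exact mul_left_cancel (mul_right_cancel h3)
  have hx2 : pw A x 2 = A.e := by
    have h3 := AL.op_inv (A := A) x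
    have h4 : A.inv x = x := hJx
    rw [h4] at h3
    rw [← op_pw, pw_one, h3]
  obtain ⟨k0, d, hd, hkd⟩ := Nat.exists_eq_two_pow_mul_odd (orderOf_pos (A.R x)).ne'
  have hck : (A.R x ^ d) ^ 2 ^ k0 = 1 := by
    rw [← pow_mul, mul_comm, ← hkd, pow_orderOf_eq_one]
  have hce : (A.R x ^ d) A.e = x := by
    obtain ⟨n, hn⟩ := hd
    rw [R_pow_e, hn, ← pw_add, ← pw_mul, hx2, pw_e, A.idl, pw_one]
  have hcx : (A.R x ^ d) x = A.e := by
    obtain ⟨n, hn⟩ := hd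
    have hRe : A.R x A.e = x := A.idl x
    have h3 : (A.R x ^ d) x = (A.R x ^ (d + 1)) A.e := by
      rw [pow_succ]
      show (A.R x ^ d) x = (A.R x ^ d) (A.R x A.e)
      rw [hRe]
    have h4 : d + 1 = 2 * (n + 1) := by omega
    rw [h3, R_pow_e, h4, ← pw_mul, hx2, pw_e]
  have hc1 : A.R x ^ d ≠ 1 := by
    intro h
    rw [h] at hce
    exact hxe hce.symm
  have hnf := c_nofix C hxe hJx hd hc1
  have hLpi : (A.L p)⁻¹ p = A.e := by rw [Equiv.Perm.inv_eq_iff_eq, hLp]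
  have hLqi : (A.L p)⁻¹ q = x := by rw [Equiv.Perm.inv_eq_iff_eq, hxq]
  refine ⟨A.L p * (A.R x ^ d) * (A.L p)⁻¹,
    mul_mem (mul_mem (L_Mlt p) (pow_mem (R_Mlt x) d)) (inv_mem (L_Mlt p)), k0, ?_, ?_, ?_, ?_⟩
  · rw [conj_pow, hck]; group
  · show A.L p ((A.R x ^ d) ((A.L p)⁻¹ p)) = q
    rw [hLpi, hce, hxq]
  · show A.L p ((A.R x ^ d) ((A.L p)⁻¹ q)) = p
    rw [hLqi, hcx, hLp]
  · intro y hy
    have h3 : A.L p ((A.R x ^ d) ((A.L p)⁻¹ y)) = y := hy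
    apply hnf ((A.L p)⁻¹ y)
    apply (A.L p).injective
    rw [h3, ai]

theorem homP_inj [Finite Q] {m : ℕ} (C : Ctx A m) : HomP A := by
  classical
  have : Fact (Nat.Prime 2) := ⟨Nat.prime_two⟩
  obtain ⟨S⟩ : Nonempty (Sylow 2 (Mlt A)) := inferInstance
  have hB : (S : Subgroup (Mlt A)).map (Mlt A).subtype ≤ aut A.E := by
    rintro _ ⟨g, -, rfl⟩
    exact M_G g.2
  have hBp : IsPGroup 2 ((S : Subgroup (Mlt A)).map (Mlt A).subtype) := S.2.map _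
  obtain ⟨a, b, hab, hE, hact, -⟩ := edge_of C.inj C.odd C.card hB hBp
  obtain ⟨c, hcM, k0, hck, hca, hcb, hcf⟩ := exists_c C hab hE
  let D : Subgroup (Mlt A) :=
    { carrier := {g | (g.1 a = a ∧ g.1 b = b) ∨ (g.1 a = b ∧ g.1 b = a)}
      mul_mem' := by
        rintro g h hg hh
        show (g.1 (h.1 a) = a ∧ g.1 (h.1 b) = b) ∨ (g.1 (h.1 a) = b ∧ g.1 (h.1 b) = a)
        rcases hg with ⟨h1, h2⟩ | ⟨h1, h2⟩ <;> rcases hh with ⟨h3, h4⟩ | ⟨h3, h4⟩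
        · rw [h3, h4]; exact Or.inl ⟨h1, h2⟩
        · rw [h3, h4]; exact Or.inr ⟨h2, h1⟩
        · rw [h3, h4]; exact Or.inr ⟨h1, h2⟩
        · rw [h3, h4]; exact Or.inl ⟨h2, h1⟩
      one_mem' := Or.inl ⟨rfl, rfl⟩
      inv_mem' := by
        rintro g hg
        show ((g.1)⁻¹ a = a ∧ (g.1)⁻¹ b = b) ∨ ((g.1)⁻¹ a = b ∧ (g.1)⁻¹ b = a)
        simp only [Equiv.Perm.inv_eq_iff_eq]
        rcases hg with ⟨h1, h2⟩ | ⟨h1, h2⟩
        · exact Or.inl ⟨h1.symm, h2.symm⟩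
        · exact Or.inr ⟨h2.symm, h1.symm⟩ }
  have hDmem : ∀ g : Mlt A, g ∈ D → (g.1 a = a ∧ g.1 b = b) ∨ (g.1 a = b ∧ g.1 b = a) :=
    fun g hg => hg
  let ϕ : D →* ℤˣ :=
    { toFun := fun g => if g.1.1 a = a then 1 else -1
      map_one' := if_pos rfl
      map_mul' := by
        intro g h
        have hg := hDmem _ g.2
        have hh := hDmem _ h.2
        show (if g.1.1 (h.1.1 a) = a then (1 : ℤˣ) else -1) = _
        rcases hg with ⟨h1, h2⟩ | ⟨h1, h2⟩ <;> rcases hh with ⟨h3, h4⟩ | ⟨h3, h4⟩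
        · rw [h3, h1, if_pos rfl, one_mul]
        · rw [h3, h2, h1, if_neg hab.symm, if_pos rfl, one_mul]
        · rw [h3, h1, if_neg hab.symm, if_pos rfl, mul_one]
        · rw [h3, h2, h1, if_pos rfl, if_neg hab.symm]
          rfl }
  have hϕ : ∀ g : D, ϕ g = if g.1.1 a = a then 1 else -1 := fun g => rfl
  have hDi : Odd D.index := by
    have h1 : (S : Subgroup (Mlt A)) ≤ D := fun g hg => hact g.1 ⟨g, hg, rfl⟩
    have h2 := Subgroup.index_dvd_of_le h1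
    rw [← Nat.not_even_iff_odd, even_iff_two_dvd]
    intro h3
    exact S.not_dvd_index (h3.trans h2)
  have key : ∀ (h : Perm Q), h ∈ Mlt A → ∀ y, h y = y → ∀ g : Mlt A,
      ¬ (h (g.1 a) = g.1 b ∧ h (g.1 b) = g.1 a) := by
    rintro h hh y hy g ⟨h1, h2⟩
    have hgE : A.E (g.1 a) * A.E (g.1 b) = A.E (g.1 b) * A.E (g.1 a) := by
      rw [← Mlt_E g.2, ← Mlt_E g.2]
      calc g.1 * A.E a * (g.1)⁻¹ * (g.1 * A.E b * (g.1)⁻¹) = g.1 * (A.E a * A.E b) * (g.1)⁻¹ := by group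
        _ = g.1 * A.E b * (g.1)⁻¹ * (g.1 * A.E a * (g.1)⁻¹) := by rw [hE]; group
    exact no_rev C hh (fun h3 => hab (g.1.injective h3)) hgE h1 h2 hy
  have key2 : ∀ (h : Mlt A) (y : Q), h.1 y = y → ∀ (g : Mlt A) (hm : g⁻¹ * h * g ∈ D),
      ϕ ⟨_, hm⟩ = 1 := by
    intro h y hy g hm
    rw [hϕ]
    have h1 : ∀ z, (g⁻¹ * h * g : Mlt A).1 z = (g.1)⁻¹ (h.1 (g.1 z)) := fun z => rfl
    rcases hDmem _ hm with ⟨h2, h3⟩ | ⟨h2, h3⟩
    · exact if_pos h2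
    · exfalso
      rw [h1, Equiv.Perm.inv_eq_iff_eq] at h2 h3
      exact key h.1 h.2 y hy g ⟨h2, h3⟩
  refine homP_of (MonoidHom.transfer ϕ) (fun h he => tr_one ϕ h fun g n hm => ?_) (c := ⟨c, hcM⟩)
    (tr_neg ϕ ⟨c, hcM⟩ (k := k0) (Subtype.ext hck) hDi (fun g hm => ?_) (fun g n hn hm => ?_))
  · exact key2 (h ^ n) A.e (pow_fix he n) g hm
  · rw [hϕ]
    apply if_neg
    intro h1
    have h2 : (g.1)⁻¹ (c (g.1 a)) = a := h1
    rw [Equiv.Perm.inv_eq_iff_eq] at h2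
    exact hcf _ h2
  · obtain ⟨r, hr⟩ := hn
    refine key2 (⟨c, hcM⟩ ^ n) a ?_ g hm
    show (c ^ n) a = a
    have h1 : c ^ n = (c * c) ^ r := by rw [hr, ← two_mul, pow_mul, pow_two]
    rw [h1]
    apply pow_fix
    show c (c a) = a
    rw [hca, hcb]

end

end Pool.Agent.TH427.AR
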