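import Pool.Agent.TH427.AR.TM7

/-!
Automorphic loops of order twice an odd number: the case where the core involutions coincide.
-/

set_option autoImplicit false
set_option linter.unusedSectionVars false
set_option linter.unusedVariables false

namespace Pool.Agent.TH427.AR

open Pool.Agent.H687R3.AL
open Pool.Agent.W790.LG (ai ia)
open Equiv (Perm)

section

variable {Q : Type} {A : AL Q}

/-- central elements -/
structure Cn (A : AL Q) (z : Q) : Prop where
  c1 : ∀ a, A.op z a = A.op a z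
  c4 : ∀ a b, A.op (A.op z a) b = A.op z (A.op a b)
  c5 : ∀ a b, A.op a (A.op z b) = A.op (A.op a z) b

theorem Cn.e : Cn A A.e := ⟨fun a => by rw [A.idl, A.idr], fun a b => by rw [A.idl, A.idl],
  fun a b => by rw [A.idl, A.idr]⟩

theorem Cn.mul {z1 z2 : Q} (h1 : Cn A z1) (h2 : Cn A z2) (u1 u2 : Q) :
    A.op (A.op z1 u1) (A.op z2 u2) = A.op (A.op z1 z2) (A.op u1 u2) := by
  rw [h1.c4, h2.c5, ← h2.c1, h2.c4, ← h1.c4]

theorem homP_noninj [Finite Q] {m : ℕ} (hm : Odd m) (hQ : Nat.card Q = 2 * m)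
    (hni : ¬ Function.Injective A.E) : HomP A := by
  classical
  have := Fintype.ofFinite Q
  obtain ⟨z, hze, hEz⟩ : ∃ z, z ≠ A.e ∧ A.E z = A.J := by
    rw [Function.Injective] at hni
    push Not at hni
    obtain ⟨a, b, hab, hne⟩ := hni
    refine ⟨(A.L a)⁻¹ b, ?_, ?_⟩
    · intro h
      rw [Equiv.Perm.inv_eq_iff_eq] at h
      exact hne ((A.idr a).symm.trans h.symm)
    · have h1 := Mlt_E (inv_mem (L_Mlt (A := A) a)) b
      rw [← h1, ← hab, inv_inv]
      show (A.L a)⁻¹ * (A.L a * A.J * (A.L a)⁻¹) * A.L a = A.J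
      group
  set C0 : Set Q := {x | A.E x = A.J} with hC0
  have heC : A.e ∈ C0 := AL.E_e
  have hzC : z ∈ C0 := hEz
  have hopC : ∀ a ∈ C0, ∀ b ∈ C0, A.op a b ∈ C0 := by
    intro a ha b hb
    have ha' : A.E a = A.J := ha
    have hb' : A.E b = A.J := hb
    show A.E (A.L a b) = A.J
    rw [← Mlt_E (L_Mlt a), hb']
    exact ha'
  have hJC : ∀ a ∈ C0, A.inv a = a := by
    intro a ha
    have ha' : A.E a = A.J := ha
    have h1 := E_self (A := A) a
    rw [ha'] at h1
    exact h1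
  have hcC : ∀ a ∈ C0, A.L a = A.R a := by
    intro a ha
    have ha' : A.E a = A.J := ha
    have h1 := EJ_M (A := A) a
    rw [ha', AL.J_sq, hJC a ha] at h1
    exact (mul_inv_eq_one.1 h1.symm)
  have hsC : ∀ a ∈ C0, A.op a a = A.e := by
    intro a ha
    have h1 := AL.op_inv (A := A) a
    rwa [hJC a ha] at h1
  obtain ⟨n, hn⟩ := Pool.Agent.H687R3.AL.card_exp_two Pool.Agent.H687R3.AL.taskDiamond
    (Pool.Agent.W790.LG.sub A C0 heC hopC) (by
      rintro ⟨i, hi⟩ ⟨j, hj⟩
      apply Subtype.ext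
      show A.L i j = A.R i j
      rw [hcC i hi]) (by
      rintro ⟨i, hi⟩
      exact Subtype.ext (hsC i hi))
  let D : Subgroup (Mlt A) :=
    { carrier := {g | g.1 * A.J = A.J * g.1}
      mul_mem' := by
        intro g h hg hh
        have hg' : g.1 * A.J = A.J * g.1 := hg
        have hh' : h.1 * A.J = A.J * h.1 := hh
        show g.1 * h.1 * A.J = A.J * (g.1 * h.1)
        rw [mul_assoc, hh', ← mul_assoc, hg', mul_assoc]
      one_mem' := by
        show 1 * A.J = A.J * 1
        rw [one_mul, mul_one]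
      inv_mem' := by
        intro g hg
        have hg' : g.1 * A.J = A.J * g.1 := hg
        show (g.1)⁻¹ * A.J = A.J * (g.1)⁻¹
        calc (g.1)⁻¹ * A.J = (g.1)⁻¹ * (A.J * g.1) * (g.1)⁻¹ := by group
          _ = A.J * (g.1)⁻¹ := by rw [← hg']; group }
  have hD : ∀ g : Mlt A, g ∈ D ↔ A.E (g.1 A.e) = A.J := by
    intro g
    have h1 := Mlt_E g.2 A.e
    rw [AL.E_e] at h1
    constructor
    · intro hg
      have hg' : g.1 * A.J = A.J * g.1 := hg
      rw [← h1, hg', mul_inv_cancel_right]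
    · intro hg
      show g.1 * A.J = A.J * g.1
      calc g.1 * A.J = (g.1 * A.J * (g.1)⁻¹) * g.1 := by group
        _ = A.J * g.1 := by rw [h1, hg]
  have horb : MulAction.orbit D A.e = C0 := by
    ext y
    constructor
    · rintro ⟨g, rfl⟩
      exact (hD g.1).1 g.2
    · intro hy
      have hLe : A.L y A.e = y := A.idr y
      refine ⟨⟨⟨A.L y, L_Mlt y⟩, (hD _).2 ?_⟩, hLe⟩
      show A.E (A.L y A.e) = A.J
      rw [hLe]
      exact hy
  have hcardQ : Nat.card Q = 2 ^ n * D.index := by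
    have h1 := stab_card (A := A) A.e
    have h2 := MulAction.index_stabilizer D A.e
    rw [horb] at h2
    have h3 : C0.ncard = 2 ^ n := hn
    rw [h3] at h2
    have h4 := Subgroup.card_mul_index (MulAction.stabilizer D A.e)
    rw [h2] at h4
    have h5 := Subgroup.card_mul_index D
    have h6 : Nat.card (MulAction.stabilizer D A.e) = Nat.card (MulAction.stabilizer (Mlt A) A.e) := by
      refine Nat.card_congr ⟨fun g => ⟨g.1.1, g.2⟩, fun g => ⟨⟨g.1, (hD g.1).2 ?_⟩, g.2⟩, ?_, ?_⟩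
      · have h7 : g.1.1 A.e = A.e := g.2
        rw [h7, AL.E_e]
      · intro g; rfl
      · intro g; rfl
    rw [h6] at h4
    have hpos : 0 < Nat.card (MulAction.stabilizer (Mlt A) A.e) := Nat.card_pos
    apply Nat.eq_of_mul_eq_mul_right hpos
    rw [← h1, ← h5, ← h4]
    ring
  have hn1 : n = 1 := by
    rcases n with _ | _ | n
    · exfalso
      have h1 : C0.ncard = 1 := hn
      rw [Set.ncard_eq_one] at h1
      obtain ⟨w, hw⟩ := h1
      rw [hw] at heC hzC
      exact hze (hzC.trans heC.symm)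
    · rfl
    · exfalso
      rw [hQ] at hcardQ
      have h1 : m = 2 * (2 ^ n * D.index) := by
        have : 2 * m = 2 * (2 * (2 ^ n * D.index)) := by rw [hcardQ]; ring
        omega
      rw [h1] at hm
      exact (Nat.not_even_iff_odd.2 hm) ⟨2 ^ n * D.index, by ring⟩
  have hDi : Odd D.index := by
    rw [hQ, hn1, pow_one] at hcardQ
    have : D.index = m := by omega
    rw [this]
    exact hm
  have hCz : ∀ w ∈ C0, w = A.e ∨ w = z := by
    have h1 : C0.ncard = 2 := by
      have : C0.ncard = 2 ^ n := hn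
      rw [this, hn1, pow_one]
    have h2 : ({A.e, z} : Set Q) = C0 := by
      refine Set.eq_of_subset_of_ncard_le ?_ ?_ (Set.toFinite _)
      · rintro w (rfl | rfl)
        · exact heC
        · exact hzC
      · rw [h1, Set.ncard_pair hze.symm]
    intro w hw
    rw [← h2] at hw
    exact hw
  have hfixz : ∀ h ∈ Mlt A, h A.e = A.e → h z = z := by
    intro h hh he
    have h1 : h z ∈ C0 := by
      show A.E (h z) = A.J
      rw [← Mlt_E hh, hEz, ← AL.E_e, Mlt_E hh, he]
    rcases hCz _ h1 with h2 | h2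
    · exact absurd (h.injective (h2.trans he.symm)) hze
    · exact h2
  have c1 : ∀ a, A.op z a = A.op a z := fun a => by
    show A.L z a = A.R z a
    rw [hcC z hzC]
  have c3 : ∀ a b, A.op a (A.op b z) = A.op (A.op a b) z := by
    intro a b
    have h1 := hfixz ((A.L (A.op a b))⁻¹ * A.L a * A.L b)
      (mul_mem (mul_mem (inv_mem (L_Mlt _)) (L_Mlt _)) (L_Mlt _)) (AL.aut_e (AL.theta_mem a b))
    have h2 : (A.L (A.op a b))⁻¹ (A.op a (A.op b z)) = z := h1
    rw [Equiv.Perm.inv_eq_iff_eq] at h2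
    exact h2
  have c4 : ∀ a b, A.op (A.op z a) b = A.op z (A.op a b) := by
    intro a b
    have h1 := hfixz ((A.R (A.op a b))⁻¹ * A.R b * A.R a)
      (mul_mem (mul_mem (inv_mem (R_Mlt _)) (R_Mlt _)) (R_Mlt _)) (AL.aut_e (AL.rho_mem a b))
    have h2 : (A.R (A.op a b))⁻¹ (A.op (A.op z a) b) = z := h1
    rw [Equiv.Perm.inv_eq_iff_eq] at h2
    exact h2
  have hcn : Cn A z := ⟨c1, c4, fun a b => by
    rw [c1 b, c3, ← c1, ← c1 a, c4]⟩
  have hzz : A.op z z = A.e := hsC z hzC
  -- involutions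
  have hinv : ∀ u, A.op u u = A.e → u = A.e ∨ u = z := by
    intro u huu
    by_contra hcon
    push Not at hcon
    obtain ⟨hue, huz⟩ := hcon
    have hG : Pool.Agent.W790.LG.Grp A
        ((({A.e, z, u, A.op z u} : Finset Q) : Set Q)) := by
      have hrep : ∀ w ∈ (({A.e, z, u, A.op z u} : Finset Q) : Set Q),
          ∃ Z U, (Z = A.e ∨ Z = z) ∧ (U = A.e ∨ U = u) ∧ w = A.op Z U := by
        intro w hw
        simp only [Finset.coe_insert, Finset.coe_singleton, Set.mem_insert_iff,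
          Set.mem_singleton_iff] at hw
        rcases hw with rfl | rfl | rfl | rfl
        · exact ⟨A.e, A.e, Or.inl rfl, Or.inl rfl, (A.idl _).symm⟩
        · exact ⟨w, A.e, Or.inr rfl, Or.inl rfl, (A.idr _).symm⟩
        · exact ⟨A.e, w, Or.inl rfl, Or.inr rfl, (A.idl _).symm⟩
        · exact ⟨z, u, Or.inr rfl, Or.inr rfl, rfl⟩
      have hrep' : ∀ Z U, (Z = A.e ∨ Z = z) → (U = A.e ∨ U = u) →
          A.op Z U ∈ (({A.e, z, u, A.op z u} : Finset Q) : Set Q) := by
        rintro Z U (rfl | rfl) (rfl | rfl)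
        · rw [A.idl]; simp
        · rw [A.idl]; simp
        · rw [A.idr]; simp
        · simp
      have hCn : ∀ Z, (Z = A.e ∨ Z = z) → Cn A Z := by
        rintro Z (rfl | rfl)
        · exact Cn.e
        · exact hcn
      have hcl : ∀ v, A.op v v = A.e → ∀ Z Z', (Z = A.e ∨ Z = v) → (Z' = A.e ∨ Z' = v) →
          (A.op Z Z' = A.e ∨ A.op Z Z' = v) := by
        rintro v hv Z Z' (rfl | rfl) (rfl | rfl)
        · exact Or.inl (A.idl _)
        · exact Or.inr (A.idl _)
        · exact Or.inr (A.idr _)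
        · exact Or.inl hv
      have has : ∀ v, A.op v v = A.e → ∀ Z Z' Z'', (Z = A.e ∨ Z = v) → (Z' = A.e ∨ Z' = v) →
          (Z'' = A.e ∨ Z'' = v) → A.op (A.op Z Z') Z'' = A.op Z (A.op Z' Z'') := by
        rintro v hv Z Z' Z'' (rfl | rfl) (rfl | rfl) (rfl | rfl) <;>
          simp only [A.idl, A.idr, hv]
      refine ⟨by simp, ?_, ?_⟩
      · intro a ha b hb
        obtain ⟨Z1, U1, hZ1, hU1, rfl⟩ := hrep a ha
        obtain ⟨Z2, U2, hZ2, hU2, rfl⟩ := hrep b hb
        rw [(hCn _ hZ1).mul (hCn _ hZ2)]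
        exact hrep' _ _ (hcl z hzz _ _ hZ1 hZ2) (hcl u huu _ _ hU1 hU2)
      · intro a ha b hb c hc
        obtain ⟨Z1, U1, hZ1, hU1, rfl⟩ := hrep a ha
        obtain ⟨Z2, U2, hZ2, hU2, rfl⟩ := hrep b hb
        obtain ⟨Z3, U3, hZ3, hU3, rfl⟩ := hrep c hc
        rw [(hCn _ hZ1).mul (hCn _ hZ2), (hCn _ (hcl z hzz _ _ hZ1 hZ2)).mul (hCn _ hZ3),
          (hCn _ hZ2).mul (hCn _ hZ3), (hCn _ hZ1).mul (hCn _ (hcl z hzz _ _ hZ2 hZ3)),
          has z hzz _ _ _ hZ1 hZ2 hZ3, has u huu _ _ _ hU1 hU2 hU3]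
    have h1 := Pool.Agent.W790.LG.lagrange_assoc A _ hG
    have h2 : ({A.e, z, u, A.op z u} : Finset Q).card = 4 := by
      have hzu : A.op z u ≠ A.e := fun h => huz (by
        have h3 : A.op z u = A.op z z := by rw [h, hzz]
        exact (A.bijL z).1 h3)
      have hzu2 : u ≠ A.op z u := fun h => hze (by
        have h3 : A.op z u = A.op A.e u := by rw [A.idl]; exact h.symm
        exact (A.bijR u).1 h3)
      have hzu3 : z ≠ A.op z u := fun h => hue (by
        have h3 : A.op z u = A.op z A.e := by rw [A.idr]; exact h.symm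
        exact (A.bijL z).1 h3)
      rw [Finset.card_insert_of_notMem, Finset.card_insert_of_notMem,
        Finset.card_insert_of_notMem, Finset.card_singleton]
      · simp only [Finset.mem_singleton]; exact hzu2
      · simp only [Finset.mem_insert, Finset.mem_singleton, not_or]
        exact ⟨fun h => huz h.symm, hzu3⟩
      · simp only [Finset.mem_insert, Finset.mem_singleton, not_or]
        exact ⟨hze.symm, fun h => hue h.symm, fun h => hzu h.symm⟩
    rw [h2, ← Nat.card_eq_fintype_card, hQ] at h1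
    obtain ⟨k, hk⟩ := hm
    omega
  -- powers of `z y`
  have hpz : ∀ n, pw A z n = A.e ∨ pw A z n = z := by
    intro n
    induction n with
    | zero => exact Or.inl (pw_zero z)
    | succ n ih =>
      rw [← op_pw]
      rcases ih with h | h
      · rw [h, A.idr]; exact Or.inr rfl
      · rw [h, hzz]; exact Or.inl rfl
  have hCn : ∀ n, Cn A (pw A z n) := by
    intro n
    rcases hpz n with h | h
    · rw [h]; exact Cn.e
    · rw [h]; exact hcn
  have hpzy : ∀ y n, pw A (A.op z y) n = A.op (pw A z n) (pw A y n) := by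
    intro y n
    induction n with
    | zero => rw [pw_zero, pw_zero, pw_zero, A.idl]
    | succ n ih => rw [← op_pw, ih, hcn.mul (hCn n), op_pw, op_pw]
  have hpzm : pw A z m = z := by
    obtain ⟨k, hk⟩ := hm
    have h2 : pw A z 2 = A.e := by rw [← op_pw, pw_one, hzz]
    rw [hk, ← pw_add, ← pw_mul, h2, pw_e, A.idl, pw_one]
  have claim : ∀ h ∈ Mlt A, h A.e = A.e → ∀ y, A.E (h y) = A.E y → h y = y := by
    intro h hh he y hy
    by_contra hne
    have h1 : (A.L y)⁻¹ (h y) ∈ C0 := by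
      show A.E ((A.L y)⁻¹ (h y)) = A.J
      rw [← Mlt_E (inv_mem (L_Mlt y)), hy, inv_inv]
      show (A.L y)⁻¹ * (A.L y * A.J * (A.L y)⁻¹) * A.L y = A.J
      group
    have h2 : h y = A.op z y := by
      rcases hCz _ h1 with h2 | h2
      · rw [Equiv.Perm.inv_eq_iff_eq] at h2
        exact absurd (h2.trans (A.idr y)) hne
      · rw [Equiv.Perm.inv_eq_iff_eq] at h2
        rw [h2, c1]
        rfl
    have ha := inn_aut hh he
    have h3 : ∀ n, h (pw A y n) = pw A (h y) n := by
      intro n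
      induction n with
      | zero => rw [pw_zero, pw_zero, he]
      | succ n ih => rw [← op_pw, ← op_pw, AL.aut_apply ha, ih]
    have h4 := h3 m
    rw [h2, hpzy, hpzm] at h4
    have h5 : A.op (pw A y m) (pw A y m) = A.e := by
      rw [pw_add, ← two_mul, ← hQ, pw_card]
    have h6 : h (pw A y m) = pw A y m := by
      rcases hinv _ h5 with h6 | h6
      · rw [h6, he]
      · rw [h6, hfixz h hh he]
    rw [h6] at h4
    apply hze
    have h7 : A.op A.e (pw A y m) = A.op z (pw A y m) := by rw [A.idl]; exact h4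
    exact ((A.bijR _).1 h7).symm
  have hgz : ∀ g : Mlt A, g ∈ D → g.1 A.e = A.e ∨ g.1 A.e = z := fun g hg =>
    hCz _ ((hD g).1 hg)
  have hgz2 : ∀ g : Mlt A, g ∈ D → g.1 A.e = A.e → g.1 z = z := fun g hg h => hfixz g.1 g.2 h
  have hgz3 : ∀ g : Mlt A, g ∈ D → g.1 A.e = z → g.1 z = A.e := by
    intro g hg h
    have h1 : g.1 z ∈ C0 := by
      show A.E (g.1 z) = A.J
      rw [← Mlt_E g.2, hEz, ← AL.E_e, Mlt_E g.2]
      exact (hD g).1 hg |>.trans AL.E_e.symm
    rcases hCz _ h1 with h2 | h2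
    · exact h2
    · exact absurd (g.1.injective (h2.trans h.symm)) hze
  let ϕ : D →* ℤˣ :=
    { toFun := fun g => if g.1.1 A.e = A.e then 1 else -1
      map_one' := if_pos rfl
      map_mul' := by
        intro g h
        show (if g.1.1 (h.1.1 A.e) = A.e then (1 : ℤˣ) else -1) = _
        rcases hgz _ h.2 with h3 | h3 <;> rcases hgz _ g.2 with h1 | h1
        · rw [h3, h1, if_pos rfl, one_mul]
        · rw [h3, h1, if_neg hze, if_pos rfl, mul_one]
        · rw [h3, hgz2 _ g.2 h1, h1, if_neg hze, if_pos rfl, one_mul]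
        · rw [h3, hgz3 _ g.2 h1, h1, if_pos rfl, if_neg hze]
          rfl }
  have hϕ : ∀ g : D, ϕ g = if g.1.1 A.e = A.e then 1 else -1 := fun g => rfl
  have hLz : (⟨A.L z, L_Mlt z⟩ : Mlt A) * ⟨A.L z, L_Mlt z⟩ = 1 := by
    apply Subtype.ext
    ext a
    show A.op z (A.op z a) = a
    rw [← c4, hzz, A.idl]
  refine homP_of (MonoidHom.transfer ϕ) (fun h he => tr_one ϕ h fun g n hm' => ?_)
    (c := ⟨A.L z, L_Mlt z⟩) (tr_neg ϕ ⟨A.L z, L_Mlt z⟩ (k := 1) (by rw [pow_one, pow_two, hLz])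
    hDi (fun g hm' => ?_) (fun g n hn hm' => ?_))
  · rw [hϕ]
    apply if_pos
    have h1 := (hD _).1 hm'
    have h2 : A.E ((g.1)⁻¹ ((h.1 ^ n) (g.1 A.e))) = A.J := h1
    rw [← Mlt_E (inv_mem g.2), inv_inv] at h2
    have h3 : A.E ((h.1 ^ n) (g.1 A.e)) = A.E (g.1 A.e) := by
      rw [← Mlt_E g.2 A.e, AL.E_e, ← h2]
      group
    have h4 := claim _ (pow_mem h.2 n) (pow_fix he n) _ h3
    show (g.1)⁻¹ ((h.1 ^ n) (g.1 A.e)) = A.e
    rw [h4, ia]
  · rw [hϕ]
    apply if_neg
    intro h1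
    have h2 : (g.1)⁻¹ (A.L z (g.1 A.e)) = A.e := h1
    rw [Equiv.Perm.inv_eq_iff_eq] at h2
    apply hze
    have h3 : A.op z (g.1 A.e) = A.op A.e (g.1 A.e) := by rw [A.idl]; exact h2
    exact (A.bijR _).1 h3
  · rw [hϕ]
    apply if_pos
    obtain ⟨r, hr⟩ := hn
    have h1 : (⟨A.L z, L_Mlt z⟩ : Mlt A) ^ n = 1 := by
      rw [hr, ← two_mul, pow_mul, pow_two, hLz, one_pow]
    have h2 : g⁻¹ * (⟨A.L z, L_Mlt z⟩ : Mlt A) ^ n * g = 1 := by rw [h1]; group
    show (g⁻¹ * (⟨A.L z, L_Mlt z⟩ : Mlt A) ^ n * g : Mlt A).1 A.e = A.e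
    rw [h2]
    rfl

/-- every automorphic loop of order twice an odd number has a homomorphism onto the group of
order two -/
theorem homP_all (n : ℕ) : ∀ (Q : Type) [Finite Q] (A : AL Q), Nat.card Q = n →
    (∃ m, Odd m ∧ Nat.card Q = 2 * m) → HomP A := by
  induction n using Nat.strong_induction_on with
  | _ n ih =>
    intro Q _ A hn hm
    obtain ⟨m, hm, hQ⟩ := hm
    by_cases hinj : Function.Injective A.E
    · exact homP_inj (m := m) ⟨hinj, hm, hQ, fun F _ B hlt hF =>
        ih (Nat.card F) (by rw [← hn]; exact hlt) F B rfl hF⟩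
    · exact homP_noninj hm hQ hinj

end

end Pool.Agent.TH427.AR
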