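import Pool.Agent.TH427.AR.PS
import Pool.Agent.W790.LG.Count
import Pool.Agent.H687R3.AL.Final
import Pool.Agent.H687R3.AL.PCBaerSuzuki
import Pool.Agent.H687R3.AL.PCDiamond

/-!
Orders of elements of automorphic loops: they divide the order of the loop, and if no odd prime
divides the order of an element then the order of the loop is a power of two.
-/

set_option autoImplicit false
set_option linter.unusedSectionVars false
set_option linter.unusedVariables false

namespace Pool.Agent.TH427.AR

open Pool.Agent.H687R3.AL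
open Equiv (Perm)

section

variable {Q : Type} {A : AL Q}

theorem pw_mod {x : Q} {n : ℕ} (he : pw A x n = A.e) (m : ℕ) : pw A x m = pw A x (m % n) := by
  have h1 : pw A x (n * (m / n)) = A.e := by
    rw [← pw_mul, he]
    generalize m / n = k
    induction k with
    | zero => rw [pw_zero]
    | succ k ih => rw [← op_pw, ih, A.idl]
  have h2 : pw A x m = A.op (pw A x (n * (m / n))) (pw A x (m % n)) := by
    rw [pw_add, Nat.div_add_mod]
  rw [h2, h1, A.idl]

/-- the order of an element divides the order of the loop -/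
theorem ord_dvd [Fintype Q] {x : Q} {n : ℕ} (hn : 0 < n) (he : pw A x n = A.e)
    (hmin : ∀ m, 0 < m → m < n → pw A x m ≠ A.e) : n ∣ Fintype.card Q := by
  classical
  let S : Finset Q := (Finset.range n).image (pw A x)
  have hmem : ∀ m, pw A x m ∈ S := fun m => by
    rw [pw_mod he]
    exact Finset.mem_image_of_mem _ (Finset.mem_range.2 (Nat.mod_lt _ hn))
  have hS : Pool.Agent.W790.LG.Grp A (S : Set Q) := by
    refine ⟨?_, ?_, ?_⟩
    · rw [← pw_zero (A := A) x]
      exact hmem 0
    · intro a ha b hb
      obtain ⟨i, -, rfl⟩ := Finset.mem_image.1 (Finset.mem_coe.1 ha)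
      obtain ⟨j, -, rfl⟩ := Finset.mem_image.1 (Finset.mem_coe.1 hb)
      rw [pw_add]
      exact hmem _
    · intro a ha b hb c hc
      obtain ⟨i, -, rfl⟩ := Finset.mem_image.1 (Finset.mem_coe.1 ha)
      obtain ⟨j, -, rfl⟩ := Finset.mem_image.1 (Finset.mem_coe.1 hb)
      obtain ⟨k, -, rfl⟩ := Finset.mem_image.1 (Finset.mem_coe.1 hc)
      rw [pw_add, pw_add, pw_add, pw_add, add_assoc]
  have hcard : S.card = n := by
    have hinj : Set.InjOn (pw A x) (Finset.range n : Set ℕ) := by
      have key : ∀ i j, i < j → j < n → pw A x i ≠ pw A x j := by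
        intro i j hij hj h
        have h1 : A.op (pw A x i) (pw A x (j - i)) = A.op (pw A x i) A.e := by
          rw [pw_add, A.idr, h]
          congr 1
          omega
        have h2 := (A.bijL (pw A x i)).1 h1
        exact hmin (j - i) (by omega) (by omega) h2
      intro i hi j hj h
      have hi' : i < n := Finset.mem_range.1 (Finset.mem_coe.1 hi)
      have hj' : j < n := Finset.mem_range.1 (Finset.mem_coe.1 hj)
      rcases lt_trichotomy i j with h1 | h1 | h1
      · exact absurd h (key i j h1 hj')
      · exact h1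
      · exact absurd h.symm (key j i h1 hi')
    rw [Finset.card_image_of_injOn hinj, Finset.card_range]
  have h := Pool.Agent.W790.LG.lagrange_assoc A S hS
  rwa [hcard] at h

/-- an automorphic loop whose order is not a power of two has an element of odd prime order -/
theorem exists_odd [Fintype Q] (h : ¬ ∃ k, Fintype.card Q = 2 ^ k) :
    ∃ q, q.Prime ∧ q ≠ 2 ∧ q ∣ Fintype.card Q ∧ Cp A q := by
  by_contra hcon
  push Not at hcon
  apply h
  have hf := Pool.Agent.H687R3.AL.final Pool.Agent.H687R3.AL.PC.taskDiamond
    Pool.Agent.H687R3.AL.PC.taskBaerSuzuki Q A.op A.e (fun x => ⟨A.idl x, A.idr x⟩) A.bijL A.bijR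
    A.autL A.autR A.autT
  rw [hf]
  intro x
  obtain ⟨n, hn, he, hmin⟩ := exists_ord (A := A) x
  have hdn := ord_dvd hn he hmin
  have hall : ∀ {q : ℕ}, q.Prime → q ∣ n → q = 2 := by
    intro q hq hqn
    by_contra hq2
    exact hcon q hq hq2 (hqn.trans hdn) (cp_of_dvd hq hn he hmin hqn)
  refine ⟨n.primeFactorsList.length, ?_⟩
  have h2 : n = 2 ^ n.primeFactorsList.length := Nat.eq_prime_pow_of_unique_prime_dvd hn.ne' hall
  rw [iter_eq, R_pow_e, ← h2, he]

end

end Pool.Agent.TH427.AR
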